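import Mathlib

/-!
Perturbation of symmetric matrices along an isospectral orbit with prescribed entries.
-/

set_option autoImplicit false

open Matrix NormedSpace

open scoped Matrix.Norms.Operator Topology RightActions

namespace Pool.Agent.helper46

variable {V : Type*} [Fintype V] [DecidableEq V]

/-- `A` is regular with respect to the position graph `F`: no nonzero symmetric matrix supported on
the edges of `F` commutes with `A`. -/
def Reg (F : SimpleGraph V) (A : Matrix V V ℝ) : Prop :=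
  ∀ X : Matrix V V ℝ, X.IsSymm → (∀ i j, ¬ F.Adj i j → X i j = 0) → A * X = X * A → X = 0

/-- The space of symmetric matrices supported on the edges of `F`. -/
def supp (F : SimpleGraph V) : Submodule ℝ (Matrix V V ℝ) where
  carrier := {X | X.IsSymm ∧ ∀ i j, ¬ F.Adj i j → X i j = 0}
  add_mem' := by
    rintro a b ⟨ha, ha'⟩ ⟨hb, hb'⟩
    exact ⟨ha.add hb, fun i j h => by simp [ha' i j h, hb' i j h]⟩
  zero_mem' := ⟨by simp [Matrix.IsSymm], fun i j _ => rfl⟩
  smul_mem' := by
    rintro c a ⟨ha, ha'⟩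
    exact ⟨by simp [Matrix.IsSymm, ha.eq], fun i j h => by simp [ha' i j h]⟩

open Classical in
/-- Symmetrised restriction to the edges of `F`. -/
noncomputable def restr (F : SimpleGraph V) : Matrix V V ℝ →ₗ[ℝ] supp F where
  toFun M := ⟨Matrix.of fun i j => if F.Adj i j then (M i j + M j i) / 2 else 0, by
    refine ⟨?_, ?_⟩
    · ext i j
      simp only [transpose_apply, of_apply, F.adj_comm j i]
      split_ifs <;> ring
    · intro i j h
      simp [h]⟩
  map_add' M N := by
    ext i j
    simp only [of_apply, Matrix.add_apply, Submodule.coe_add]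
    split_ifs <;> ring
  map_smul' c M := by
    ext i j
    simp only [of_apply, Matrix.smul_apply, Submodule.coe_smul, smul_eq_mul, RingHom.id_apply]
    split_ifs <;> ring

omit [Fintype V] [DecidableEq V] in
lemma restr_apply_adj {F : SimpleGraph V} {M : Matrix V V ℝ} (hM : M.IsSymm) {i j : V}
    (h : F.Adj i j) : (restr F M : Matrix V V ℝ) i j = M i j := by
  have := hM.apply i j
  simp only [restr, LinearMap.coe_mk, AddHom.coe_mk, of_apply, h, if_true]
  rw [this]; ring

/-- the commutator map on the support space -/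
noncomputable def kap (F : SimpleGraph V) (A : Matrix V V ℝ) : supp F →ₗ[ℝ] Matrix V V ℝ where
  toFun X := A * X.1 - X.1 * A
  map_add' X Y := by simp [mul_add, add_mul]; abel
  map_smul' c X := by simp [smul_sub]

lemma kap_skew {F : SimpleGraph V} {A : Matrix V V ℝ} (hA : A.IsSymm) (X : supp F) :
    (kap F A X)ᵀ = - kap F A X := by
  have h1 : (X.1)ᵀ = X.1 := X.2.1
  simp [kap, Matrix.transpose_mul, h1, hA.eq]

lemma trace_key {F : SimpleGraph V} {A : Matrix V V ℝ} (hA : A.IsSymm) (X : supp F)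
    (h0 : restr F (A * kap F A X - kap F A X * A) = 0) : kap F A X = 0 := by
  set K := kap F A X with hK
  have hKT : Kᵀ = -K := kap_skew hA X
  set M := A * K - K * A with hM
  have hMs : M.IsSymm := by
    simp [hM, Matrix.IsSymm, Matrix.transpose_mul, hKT, hA.eq]
    abel
  have hentry : ∀ i j, X.1 i j * M i j = 0 := by
    intro i j
    by_cases h : F.Adj i j
    · have := restr_apply_adj hMs h
      rw [h0] at this
      have h2 : M i j = 0 := by rw [← this]; rfl
      rw [h2, mul_zero]
    · rw [X.2.2 i j h, zero_mul]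
  have htr : Matrix.trace (X.1 * M) = 0 := by
    have hXs : (X.1)ᵀ = X.1 := X.2.1
    simp only [Matrix.trace, Matrix.diag_apply, Matrix.mul_apply]
    apply Finset.sum_eq_zero
    intro i _
    apply Finset.sum_eq_zero
    intro j _
    have := hentry i j
    rw [← hMs.apply j i] 
    simpa using this
  have h3 : Matrix.trace (X.1 * M) = Matrix.trace (Kᵀ * K) := by
    have e1 : X.1 * M = X.1 * A * K - X.1 * K * A := by
      rw [hM, Matrix.mul_sub, Matrix.mul_assoc, Matrix.mul_assoc]
    have e2 : Matrix.trace (X.1 * K * A) = Matrix.trace (A * X.1 * K) := by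
      rw [Matrix.trace_mul_comm, Matrix.mul_assoc]
    rw [e1, Matrix.trace_sub, e2, ← Matrix.trace_sub, ← Matrix.sub_mul, hKT]
    congr 2
    simp [hK, kap]
  rw [h3] at htr
  rw [← Matrix.conjTranspose_eq_transpose_of_trivial] at htr
  exact (Matrix.trace_conjTranspose_mul_self_eq_zero_iff).1 htr

/-- The linearised constraint map. -/
noncomputable def lin (F : SimpleGraph V) (A : Matrix V V ℝ) : supp F →ₗ[ℝ] supp F :=
  (restr F) ∘ₗ ((LinearMap.mulLeft ℝ A) ∘ₗ kap F A - (LinearMap.mulRight ℝ A) ∘ₗ kap F A)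

lemma lin_apply (F : SimpleGraph V) (A : Matrix V V ℝ) (X : supp F) :
    lin F A X = restr F (A * kap F A X - kap F A X * A) := rfl

lemma lin_injective {F : SimpleGraph V} {A : Matrix V V ℝ} (hA : A.IsSymm) (hR : Reg F A) :
    Function.Injective (lin F A) := by
  rw [← LinearMap.ker_eq_bot, LinearMap.ker_eq_bot']
  intro X hX
  rw [lin_apply] at hX
  have hk := trace_key hA X hX
  have : A * X.1 = X.1 * A := by
    have : A * X.1 - X.1 * A = 0 := hk
    exact sub_eq_zero.1 this
  exact Subtype.ext (hR X.1 X.2.1 X.2.2 this)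

lemma lin_surjective {F : SimpleGraph V} {A : Matrix V V ℝ} (hA : A.IsSymm) (hR : Reg F A) :
    Function.Surjective (lin F A) :=
  (LinearMap.injective_iff_surjective).1 (lin_injective hA hR)

/-- the isospectral path map -/
noncomputable def orbit (F : SimpleGraph V) (A : Matrix V V ℝ) (X : supp F) : Matrix V V ℝ :=
  exp (-(kap F A X)) * A * exp (kap F A X)

lemma orbit_zero (F : SimpleGraph V) (A : Matrix V V ℝ) : orbit F A 0 = A := by
  simp [orbit, exp_zero]

lemma orbit_symm {F : SimpleGraph V} {A : Matrix V V ℝ} (hA : A.IsSymm) (X : supp F) :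
    (orbit F A X).IsSymm := by
  have h := kap_skew hA X
  unfold Matrix.IsSymm orbit
  rw [Matrix.transpose_mul, Matrix.transpose_mul, ← Matrix.exp_transpose, ← Matrix.exp_transpose,
    Matrix.transpose_neg, h, hA.eq, neg_neg, Matrix.mul_assoc]

lemma orbit_spectrum (F : SimpleGraph V) (A : Matrix V V ℝ) (X : supp F) :
    ∃ u : (Matrix V V ℝ)ˣ, orbit F A X = u * A * (u⁻¹ : (Matrix V V ℝ)ˣ) := by
  refine ⟨⟨exp (-(kap F A X)), exp (kap F A X), ?_, ?_⟩, ?_⟩
  · have hc : Commute (-(kap F A X)) (kap F A X) := (Commute.refl (kap F A X)).neg_left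
    rw [← Matrix.exp_add_of_commute _ _ hc, neg_add_cancel, exp_zero]
  · have hc : Commute (kap F A X) (-(kap F A X)) := (Commute.refl (kap F A X)).neg_right
    rw [← Matrix.exp_add_of_commute _ _ hc, add_neg_cancel, exp_zero]
  · rfl

/-- continuous version of `kap` -/
noncomputable def kapC (F : SimpleGraph V) (A : Matrix V V ℝ) : supp F →L[ℝ] Matrix V V ℝ :=
  LinearMap.toContinuousLinearMap (kap F A)

lemma orbit_hasStrictFDerivAt (F : SimpleGraph V) (A : Matrix V V ℝ) :
    HasStrictFDerivAt (orbit F A) (LinearMap.toContinuousLinearMap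
      ((LinearMap.mulLeft ℝ A) ∘ₗ kap F A - (LinearMap.mulRight ℝ A) ∘ₗ kap F A)) 0 := by
  have hk : HasStrictFDerivAt (fun X : supp F => kap F A X) (kapC F A) 0 :=
    (kapC F A).hasStrictFDerivAt
  have hk' : HasStrictFDerivAt (fun X : supp F => -(kap F A X)) (-(kapC F A)) 0 := hk.neg
  have he1 : HasStrictFDerivAt (fun X : supp F => exp (kap F A X))
      ((1 : Matrix V V ℝ →L[ℝ] Matrix V V ℝ).comp (kapC F A)) 0 := by
    have h0 : HasStrictFDerivAt (exp : Matrix V V ℝ → Matrix V V ℝ)
      (1 : Matrix V V ℝ →L[ℝ] Matrix V V ℝ) (kap F A 0) := by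
      rw [map_zero]; exact hasStrictFDerivAt_exp_zero
    exact h0.comp (0 : supp F) hk
  have he2 : HasStrictFDerivAt (fun X : supp F => exp (-(kap F A X)))
      ((1 : Matrix V V ℝ →L[ℝ] Matrix V V ℝ).comp (-(kapC F A))) 0 := by
    have h0 : HasStrictFDerivAt (exp : Matrix V V ℝ → Matrix V V ℝ)
      (1 : Matrix V V ℝ →L[ℝ] Matrix V V ℝ) (-(kap F A 0)) := by
      rw [map_zero, neg_zero]; exact hasStrictFDerivAt_exp_zero
    exact h0.comp (0 : supp F) hk'
  have hc : HasStrictFDerivAt (fun _ : supp F => A) (0 : supp F →L[ℝ] Matrix V V ℝ) 0 :=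
    hasStrictFDerivAt_const _ _
  have := (he2.mul' hc).mul' he1
  refine this.congr_fderiv ?_
  ext1 X
  change exp (-(kap F A 0)) * A * kap F A X + (exp (-(kap F A 0)) * 0 + -(kap F A X) * A) *
    exp (kap F A 0) = A * kap F A X - kap F A X * A
  rw [map_zero, neg_zero, exp_zero, one_mul, one_mul, mul_one, zero_add, neg_mul,
    sub_eq_add_neg]

/-- The core perturbation lemma. -/
theorem perturb (F : SimpleGraph V) (A : Matrix V V ℝ) (hA : A.IsSymm) (hR : Reg F A)
    {δ : ℝ} (hδ : 0 < δ) :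
    ∃ ε : ℝ, 0 < ε ∧ ∀ T : Matrix V V ℝ, T.IsSymm → (∀ i j, F.Adj i j → |T i j - A i j| < ε) →
      ∃ B : Matrix V V ℝ, B.IsSymm ∧ (∀ i j, |B i j - A i j| < δ) ∧
        (∀ i j, F.Adj i j → B i j = T i j) ∧
        ∃ u : (Matrix V V ℝ)ˣ, B = u * A * (u⁻¹ : (Matrix V V ℝ)ˣ) := by
  set R : Matrix V V ℝ →L[ℝ] supp F := LinearMap.toContinuousLinearMap (restr F) with hRdef
  have hd : HasStrictFDerivAt (fun X => R (orbit F A X))
      (LinearMap.toContinuousLinearMap (lin F A)) 0 := by
    have := R.hasStrictFDerivAt.comp (0 : supp F) (orbit_hasStrictFDerivAt F A)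
    exact this
  have hsurj : (LinearMap.toContinuousLinearMap (lin F A)).range = ⊤ := by
    rw [LinearMap.range_eq_top]
    exact lin_surjective hA hR
  have hmap := hd.map_nhds_eq_of_surj hsurj
  rw [orbit_zero] at hmap
  have hcont : ContinuousAt (orbit F A) 0 := (orbit_hasStrictFDerivAt F A).continuousAt
  have hnear : ∀ᶠ X in 𝓝 (0 : supp F), ∀ i j, |orbit F A X i j - A i j| < δ := by
    rw [Filter.eventually_all]
    intro i
    rw [Filter.eventually_all]
    intro j
    have h1 : ContinuousAt (fun X : supp F => |orbit F A X i j - A i j|) 0 := by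
      have h2 : Continuous (fun M : Matrix V V ℝ => |M i j - A i j|) := by fun_prop
      exact h2.continuousAt.comp hcont
    have h3 : |orbit F A 0 i j - A i j| < δ := by simp [orbit_zero, hδ]
    exact h1.eventually (gt_mem_nhds h3)
  have himg : (fun X => R (orbit F A X)) '' {X | ∀ i j, |orbit F A X i j - A i j| < δ} ∈
      𝓝 (R A) := by
    exact (Filter.ext_iff.1 hmap _).1 (Filter.image_mem_map hnear)
  have hpre : {T : Matrix V V ℝ | R T ∈
      (fun X => R (orbit F A X)) '' {X | ∀ i j, |orbit F A X i j - A i j| < δ}} ∈ 𝓝 A :=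
    R.continuous.continuousAt himg
  have hof : Continuous (fun f : V → V → ℝ => (Matrix.of f : Matrix V V ℝ)) :=
    continuous_matrix (fun i j => by fun_prop)
  have hpre2 : {f : V → V → ℝ | R (Matrix.of f) ∈
      (fun X => R (orbit F A X)) '' {X | ∀ i j, |orbit F A X i j - A i j| < δ}} ∈
      𝓝 (fun i j => A i j) := hof.continuousAt hpre
  have hpi : ∃ ε : ℝ, 0 < ε ∧ ∀ T : Matrix V V ℝ, (∀ i j, |T i j - A i j| < ε) →
      R T ∈ (fun X => R (orbit F A X)) '' {X | ∀ i j, |orbit F A X i j - A i j| < δ} := by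
    obtain ⟨ε, hε, hball⟩ := Metric.mem_nhds_iff.1 hpre2
    refine ⟨ε, hε, fun T hT => ?_⟩
    have : (fun i j => T i j) ∈ Metric.ball (fun i j => A i j) ε := by
      rw [Metric.mem_ball, dist_pi_lt_iff hε]
      intro i
      rw [dist_pi_lt_iff hε]
      intro j
      rw [Real.dist_eq]
      exact hT i j
    exact hball this
  obtain ⟨ε, hε, hT⟩ := hpi
  refine ⟨ε, hε, fun T hTs hTA => ?_⟩
  classical
  set T' : Matrix V V ℝ := Matrix.of fun i j => if F.Adj i j then T i j else A i j with hT'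
  have hT's : T'.IsSymm := by
    ext i j
    simp only [hT', transpose_apply, of_apply, F.adj_comm j i]
    split_ifs
    · exact hTs.apply i j
    · exact hA.apply i j
  obtain ⟨X, hX, hXT⟩ := hT T' (by
    intro i j
    simp only [hT', of_apply]
    split_ifs with h
    · exact hTA i j h
    · simpa using hε)
  refine ⟨orbit F A X, orbit_symm hA X, hX, ?_, orbit_spectrum F A X⟩
  intro i j hij
  have h1 : (restr F (orbit F A X) : Matrix V V ℝ) i j = orbit F A X i j :=
    restr_apply_adj (orbit_symm hA X) hij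
  have h2 : (restr F T' : Matrix V V ℝ) i j = T' i j := restr_apply_adj hT's hij
  have h3 : restr F (orbit F A X) = restr F T' := hXT
  rw [← h1, h3, h2, hT']
  simp [hij]

/-- Regularity is an open condition. -/
theorem reg_open (F : SimpleGraph V) (A : Matrix V V ℝ) (hR : Reg F A) :
    ∃ δ : ℝ, 0 < δ ∧ ∀ B : Matrix V V ℝ, (∀ i j, |B i j - A i j| < δ) → Reg F B := by
  have hinj : Function.Injective (kap F A) := by
    rw [← LinearMap.ker_eq_bot, LinearMap.ker_eq_bot']
    intro X hX
    have : A * X.1 = X.1 * A := by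
      have : A * X.1 - X.1 * A = 0 := hX
      exact sub_eq_zero.1 this
    exact Subtype.ext (hR X.1 X.2.1 X.2.2 this)
  obtain ⟨K, hK, hanti⟩ := (LinearMap.injective_iff_antilipschitz (kap F A)).1 hinj
  have hKpos : (0 : ℝ) < K := hK
  set c : ℝ := (2 * (Fintype.card V + 1) * K + 1) with hc
  have hcpos : 0 < c := by positivity
  refine ⟨1 / (2 * c), by positivity, fun B hB X hXs hXF hcomm => ?_⟩
  by_contra hX0
  set Y : supp F := ⟨X, hXs, hXF⟩ with hY
  have hYn : (0 : ℝ) < ‖X‖ := norm_pos_iff.2 hX0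
  have h1 : ‖X‖ ≤ K * ‖kap F A Y‖ := by
    have := hanti.le_mul_dist Y 0
    simpa [dist_eq_norm] using this
  have h2 : kap F A Y = (A - B) * X - X * (A - B) := by
    simp only [kap, LinearMap.coe_mk, AddHom.coe_mk, hY]
    rw [Matrix.sub_mul, Matrix.mul_sub, hcomm]
    abel
  have hn : ‖A - B‖ ≤ Fintype.card V * (1 / (2 * c)) := by
    rw [Matrix.linfty_opNorm_def]
    set r : NNReal := Real.toNNReal (1 / (2 * c)) with hr
    have hrc : (r : ℝ) = 1 / (2 * c) := Real.coe_toNNReal _ (by positivity)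
    have hle : (Finset.univ.sup fun i : V => ∑ j : V, ‖(A - B) i j‖₊) ≤ Fintype.card V * r := by
      apply Finset.sup_le
      intro i _
      have : ∑ j : V, ‖(A - B) i j‖₊ ≤ ∑ _j : V, r := by
        apply Finset.sum_le_sum
        intro j _
        have h7 : ((‖A i j - B i j‖₊ : NNReal) : ℝ) ≤ (r : ℝ) := by
          rw [coe_nnnorm, Real.norm_eq_abs, abs_sub_comm, hrc]
          exact (hB i j).le
        exact NNReal.coe_le_coe.1 h7
      simpa using this
    rw [← hrc]
    exact_mod_cast hle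
  have h3 : ‖kap F A Y‖ ≤ 2 * ‖A - B‖ * ‖X‖ := by
    rw [h2]
    calc ‖(A - B) * X - X * (A - B)‖ ≤ ‖(A - B) * X‖ + ‖X * (A - B)‖ := norm_sub_le _ _
      _ ≤ ‖A - B‖ * ‖X‖ + ‖X‖ * ‖A - B‖ := add_le_add (norm_mul_le _ _) (norm_mul_le _ _)
      _ = 2 * ‖A - B‖ * ‖X‖ := by ring
  have h4 : ‖X‖ ≤ K * (2 * (Fintype.card V * (1 / (2 * c))) * ‖X‖) := by
    calc ‖X‖ ≤ K * ‖kap F A Y‖ := h1
      _ ≤ K * (2 * ‖A - B‖ * ‖X‖) := by gcongr
      _ ≤ K * (2 * (Fintype.card V * (1 / (2 * c))) * ‖X‖) := by gcongr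
  have h5 : 1 ≤ K * (2 * (Fintype.card V * (1 / (2 * c)))) := by
    have : 1 * ‖X‖ ≤ (K * (2 * (Fintype.card V * (1 / (2 * c))))) * ‖X‖ := by
      rw [one_mul]; linarith [h4]
    exact le_of_mul_le_mul_right this hYn
  have h6 : K * (2 * (Fintype.card V * (1 / (2 * c)))) = (K * Fintype.card V) / c := by
    field_simp
  rw [h6, le_div_iff₀ hcpos] at h5
  have hV : (0 : ℝ) ≤ Fintype.card V := Nat.cast_nonneg _
  nlinarith [mul_nonneg hV hKpos.le]

end Pool.Agent.helper46
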