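import Mathlib
import Pool.Agent.helper46.Perturb

set_option autoImplicit false

open Matrix

open scoped Topology

namespace Pool.Agent.helper46

variable {V : Type*} [Fintype V] [DecidableEq V]

lemma Reg.mono {F F' : SimpleGraph V} (h : F ≤ F') {A : Matrix V V ℝ} (hR : Reg F' A) :
    Reg F A := by
  intro X hs hX hc
  exact hR X hs (fun i j hij => hX i j (fun h' => hij (h h'))) hc

omit [DecidableEq V] in
lemma exists_lower (A : Matrix V V ℝ) : ∃ δ : ℝ, 0 < δ ∧ ∀ i j, A i j ≠ 0 → δ ≤ |A i j| := by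
  have h : ∀ᶠ δ in 𝓝[>] (0 : ℝ), ∀ i j, A i j ≠ 0 → δ ≤ |A i j| := by
    rw [Filter.eventually_all]
    intro i
    rw [Filter.eventually_all]
    intro j
    by_cases hA : A i j = 0
    · simp [hA]
    · have hpos : 0 < |A i j| := abs_pos.2 hA
      have : Set.Ioo (0:ℝ) |A i j| ∈ 𝓝[>] (0 : ℝ) := Ioo_mem_nhdsGT hpos
      filter_upwards [this] with δ hδ _
      exact hδ.2.le
  obtain ⟨δ, h1, h2⟩ := (h.and self_mem_nhdsWithin).exists
  exact ⟨δ, h2, h1⟩

lemma spectrum_conj {A B : Matrix V V ℝ} (h : ∃ u : (Matrix V V ℝ)ˣ,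
    B = u * A * (u⁻¹ : (Matrix V V ℝ)ˣ)) : spectrum ℝ B = spectrum ℝ A := by
  obtain ⟨u, rfl⟩ := h
  exact spectrum.units_conjugate

/-- Supergraph lemma. -/
theorem supergraph {H G : SimpleGraph V} (hHG : H ≤ G) {A : Matrix V V ℝ} (hA : A.IsSymm)
    (hpat : ∀ i j, i ≠ j → (A i j ≠ 0 ↔ H.Adj i j)) (hR : Reg Hᶜ A) :
    ∃ B : Matrix V V ℝ, B.IsSymm ∧ (∀ i j, i ≠ j → (B i j ≠ 0 ↔ G.Adj i j)) ∧ Reg Gᶜ B ∧
      spectrum ℝ B = spectrum ℝ A := by
  classical
  obtain ⟨δ₁, hδ₁, hreg⟩ := reg_open Hᶜ A hR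
  obtain ⟨δ₂, hδ₂, hlow⟩ := exists_lower A
  obtain ⟨ε, hε, hper⟩ := perturb Hᶜ A hA hR (δ := min δ₁ δ₂) (lt_min hδ₁ hδ₂)
  set T : Matrix V V ℝ := Matrix.of fun i j => if G.Adj i j ∧ ¬ H.Adj i j then ε / 2 else A i j
    with hT
  obtain ⟨B, hBs, hBA, hBT, hu⟩ := hper T (by
    ext i j
    simp only [hT, transpose_apply, of_apply, G.adj_comm j i, H.adj_comm j i]
    split_ifs
    · rfl
    · exact hA.apply i j) (by
    intro i j hij
    rw [SimpleGraph.compl_adj] at hij
    have h0 : A i j = 0 := by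
      by_contra h
      exact hij.2 ((hpat i j hij.1).1 h)
    simp only [hT, of_apply, h0]
    split_ifs
    · rw [sub_zero, abs_of_pos (by linarith)]; linarith
    · simpa using hε)
  refine ⟨B, hBs, ?_, ?_, spectrum_conj hu⟩
  · intro i j hij
    by_cases hH : H.Adj i j
    · have h1 : A i j ≠ 0 := (hpat i j hij).2 hH
      have h2 := hlow i j h1
      have h3 := hBA i j
      have h4 : |B i j - A i j| < |A i j| := lt_of_lt_of_le h3 ((min_le_right _ _).trans h2)
      refine ⟨fun _ => hHG hH, fun _ h5 => ?_⟩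
      rw [h5, zero_sub, abs_neg] at h4
      exact lt_irrefl _ h4
    · have hc : Hᶜ.Adj i j := by rw [SimpleGraph.compl_adj]; exact ⟨hij, hH⟩
      rw [hBT i j hc]
      have h0 : A i j = 0 := by
        by_contra h
        exact hH ((hpat i j hij).1 h)
      simp only [hT, of_apply, hH, not_false_eq_true, and_true, h0]
      by_cases hG : G.Adj i j
      · simp [hG, hε.ne']
      · simp [hG]
  · exact (hreg B (fun i j => (hBA i j).trans_le (min_le_left _ _))).mono
      (compl_le_compl hHG)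

open Classical in
/-- number of undesired zero entries -/
noncomputable def nz (F : SimpleGraph V) (A : Matrix V V ℝ) : ℕ :=
  (Finset.univ.filter fun p : V × V => p.1 ≠ p.2 ∧ ¬ F.Adj p.1 p.2 ∧ A p.1 p.2 = 0).card

/-- Filling in undesired zero entries one at a time. -/
theorem fill (F : SimpleGraph V) : ∀ (N : ℕ) (A : Matrix V V ℝ), nz F A ≤ N → A.IsSymm →
    (∀ i j, F.Adj i j → A i j = 0) →
    (∀ p q, p ≠ q → ¬ F.Adj p q → A p q = 0 → Reg (F ⊔ SimpleGraph.edge p q) A) →
    ∃ B : Matrix V V ℝ, B.IsSymm ∧ (∀ i j, i ≠ j → (B i j ≠ 0 ↔ ¬ F.Adj i j)) ∧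
      spectrum ℝ B = spectrum ℝ A := by
  classical
  intro N
  induction N with
  | zero =>
    intro A hN hA h0 _
    refine ⟨A, hA, ?_, rfl⟩
    intro i j hij
    refine ⟨fun h h' => h (h0 i j h'), fun h h' => ?_⟩
    have : (i, j) ∈ (Finset.univ.filter fun p : V × V => p.1 ≠ p.2 ∧ ¬ F.Adj p.1 p.2 ∧
      A p.1 p.2 = 0) := by simp [hij, h, h']
    have h2 := Finset.card_pos.2 ⟨_, this⟩
    unfold nz at hN
    omega
  | succ N ih =>
    intro A hN hA h0 hreg
    by_cases hex : ∃ p q, p ≠ q ∧ ¬ F.Adj p q ∧ A p q = 0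
    · obtain ⟨p, q, hpq, hF, hz⟩ := hex
      obtain ⟨δ₂, hδ₂, hlow⟩ := exists_lower A
      have hro : ∀ᶠ δ in 𝓝[>] (0 : ℝ), ∀ p q, p ≠ q → ¬ F.Adj p q → A p q = 0 →
          ∀ B : Matrix V V ℝ, (∀ i j, |B i j - A i j| < δ) → Reg (F ⊔ SimpleGraph.edge p q) B := by
        rw [Filter.eventually_all]
        intro p
        rw [Filter.eventually_all]
        intro q
        by_cases hc : p ≠ q ∧ ¬ F.Adj p q ∧ A p q = 0
        · obtain ⟨δ, hδ, h⟩ := reg_open _ A (hreg p q hc.1 hc.2.1 hc.2.2)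
          have : Set.Ioo (0:ℝ) δ ∈ 𝓝[>] (0 : ℝ) := Ioo_mem_nhdsGT hδ
          filter_upwards [this] with δ' hδ' _ _ _ B hB
          exact h B (fun i j => (hB i j).trans hδ'.2)
        · filter_upwards with δ h1 h2 h3
          exact absurd ⟨h1, h2, h3⟩ hc
      obtain ⟨δ₁, hro', hδ₁⟩ := (hro.and self_mem_nhdsWithin).exists
      obtain ⟨ε, hε, hper⟩ := perturb (F ⊔ SimpleGraph.edge p q) A hA (hreg p q hpq hF hz)
        (δ := min δ₁ δ₂) (lt_min hδ₁ hδ₂)
      set T : Matrix V V ℝ := Matrix.of fun i j =>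
        if (SimpleGraph.edge p q).Adj i j then ε / 2 else A i j with hT
      obtain ⟨B, hBs, hBA, hBT, hu⟩ := hper T (by
        ext i j
        simp only [hT, transpose_apply, of_apply, (SimpleGraph.edge p q).adj_comm j i]
        split_ifs
        · rfl
        · exact hA.apply i j) (by
        intro i j hij
        simp only [hT, of_apply]
        split_ifs with h
        · have h0' : A i j = 0 := by
            rw [SimpleGraph.edge_adj] at h
            rcases h.1 with ⟨rfl, rfl⟩ | ⟨rfl, rfl⟩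
            · exact hz
            · rw [← hA.apply]; exact hz
          rw [h0', sub_zero, abs_of_pos (by linarith)]; linarith
        · simpa using hε)
      have hnonzero : ∀ i j, A i j ≠ 0 → B i j ≠ 0 := by
        intro i j h1 h5
        have h2 := hlow i j h1
        have h3 := hBA i j
        have h4 : |B i j - A i j| < |A i j| := lt_of_lt_of_le h3 ((min_le_right _ _).trans h2)
        rw [h5, zero_sub, abs_neg] at h4
        exact lt_irrefl _ h4
      have hBF : ∀ i j, F.Adj i j → B i j = 0 := by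
        intro i j hij
        rw [hBT i j (Or.inl hij)]
        simp only [hT, of_apply]
        rw [if_neg, h0 i j hij]
        intro h
        rw [SimpleGraph.edge_adj] at h
        rcases h.1 with ⟨rfl, rfl⟩ | ⟨rfl, rfl⟩
        · exact hF hij
        · exact hF hij.symm
      have hBpq : B p q ≠ 0 := by
        have hadj : (SimpleGraph.edge p q).Adj p q := by
          rw [SimpleGraph.edge_adj]; exact ⟨Or.inl ⟨rfl, rfl⟩, hpq⟩
        rw [hBT p q (Or.inr hadj)]
        simp only [hT, of_apply, if_pos hadj]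
        positivity
      have hlt : nz F B < nz F A := by
        unfold nz
        apply Finset.card_lt_card
        refine ⟨?_, ?_⟩
        · intro x hx
          simp only [Finset.mem_filter, Finset.mem_univ, true_and] at hx ⊢
          exact ⟨hx.1, hx.2.1, by by_contra h; exact hnonzero _ _ h hx.2.2⟩
        · intro hsub
          have : (p, q) ∈ (Finset.univ.filter fun p : V × V => p.1 ≠ p.2 ∧ ¬ F.Adj p.1 p.2 ∧
            A p.1 p.2 = 0) := by simp [hpq, hF, hz]
          have := hsub this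
          simp only [Finset.mem_filter, Finset.mem_univ, true_and] at this
          exact hBpq this.2.2
      obtain ⟨C, hCs, hCp, hCsp⟩ := ih B (by omega) hBs hBF (by
        intro p' q' h1 h2 h3
        have h4 : A p' q' = 0 := by by_contra h; exact hnonzero _ _ h h3
        exact hro' p' q' h1 h2 h4 B (fun i j => (hBA i j).trans_le (min_le_left _ _)))
      exact ⟨C, hCs, hCp, hCsp.trans (spectrum_conj hu)⟩
    · push_neg at hex
      refine ⟨A, hA, ?_, rfl⟩
      intro i j hij
      exact ⟨fun h h' => h (h0 i j h'), fun h => hex i j hij h⟩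

end Pool.Agent.helper46
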