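import Mathlib
import Pool.Agent.helper46.Super

set_option autoImplicit false

open Matrix

namespace Pool.Agent.helper46

section algebraic

variable {V : Type*} [Fintype V] [DecidableEq V] {ι : Type*} [DecidableEq ι]

/-- Algebraic part: a distance-two colouring in which every two classes are not almost perfectly
matched gives a matrix for the complement with two distinct eigenvalues. -/
theorem two_eigenvalues_of_colouring (G : SimpleGraph V) (c : V → ι)
    (h1 : ∀ x y, G.Adj x y → c x ≠ c y)
    (h2 : ∀ z x y, G.Adj z x → G.Adj z y → x ≠ y → c x ≠ c y)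
    (h3 : ∀ a b, a ≠ b → ∃ x₁ x₂, x₁ ≠ x₂ ∧ c x₁ = a ∧ c x₂ = a ∧
      (∀ y, G.Adj x₁ y → c y ≠ b) ∧ (∀ y, G.Adj x₂ y → c y ≠ b)) :
    ∃ B : Matrix V V ℝ, B.IsSymm ∧ (∀ i j, i ≠ j → (B i j ≠ 0 ↔ Gᶜ.Adj i j)) ∧
      spectrum ℝ B ⊆ {0, 1} := by
  classical
  set N : ι → ℝ := fun a => ((Finset.univ.filter (fun x => c x = a)).card : ℝ) with hN
  have hNpos : ∀ x, N (c x) ≠ 0 := by
    intro x
    simp only [hN]
    have : 0 < (Finset.univ.filter (fun y => c y = c x)).card :=
      Finset.card_pos.2 ⟨x, by simp⟩
    positivity
  set A : Matrix V V ℝ := Matrix.of fun i j => if c i = c j then (N (c i))⁻¹ else 0 with hA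
  have hAs : A.IsSymm := by
    ext i j
    simp only [hA, transpose_apply, of_apply]
    by_cases h : c i = c j
    · simp [h]
    · simp [h, Ne.symm h]
  have hAF : ∀ i j, G.Adj i j → A i j = 0 := by
    intro i j hij
    simp [hA, h1 i j hij]
  have hid : IsIdempotentElem A := by
    ext i j
    rw [Matrix.mul_apply]
    simp only [hA, of_apply]
    by_cases h : c i = c j
    · have : ∀ l, ((if c i = c l then (N (c i))⁻¹ else 0) *
        (if c l = c j then (N (c l))⁻¹ else 0) : ℝ) =
          if c l = c i then (N (c i))⁻¹ * (N (c i))⁻¹ else 0 := by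
        intro l
        by_cases hl : c l = c i
        · rw [if_pos hl.symm, if_pos (hl.trans h), if_pos hl, hl]
        · rw [if_neg (fun h' => hl h'.symm), if_neg hl, zero_mul]
      rw [if_pos h, Finset.sum_congr rfl (fun l _ => this l)]
      rw [← Finset.sum_filter, Finset.sum_const, nsmul_eq_mul]
      have h5 : ((Finset.univ.filter (fun x => c x = c i)).card : ℝ) = N (c i) := rfl
      rw [h5]
      field_simp [hNpos i]
    · rw [if_neg h]
      apply Finset.sum_eq_zero
      intro l _
      by_cases hl : c i = c l
      · rw [if_neg (fun h' => h (hl.trans h')), mul_zero]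
      · rw [if_neg hl, zero_mul]
  have hreg : ∀ p q, p ≠ q → ¬ G.Adj p q → A p q = 0 → Reg (G ⊔ SimpleGraph.edge p q) A := by
    intro p q hpq hG hz
    have hc : c p ≠ c q := by
      intro h
      simp only [hA, of_apply, h, if_true] at hz
      exact hNpos q (inv_eq_zero.1 hz)
    intro X hXs hX hcomm
    have hadj : ∀ i j, X i j ≠ 0 → G.Adj i j ∨ (i = p ∧ j = q) ∨ (i = q ∧ j = p) := by
      intro i j hij
      by_contra hcon
      push Not at hcon
      apply hij
      apply hX
      rintro (h | h)
      · exact hcon.1 h
      · rw [SimpleGraph.edge_adj] at h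
        rcases h.1 with h' | h'
        · exact hcon.2.1 h'.1 h'.2
        · exact hcon.2.2 h'.1 h'.2
    set r : V → ι → ℝ := fun i b => ∑ l ∈ Finset.univ.filter (fun l => c l = b), X i l with hr
    have hstar : ∀ i j, (N (c i))⁻¹ * r j (c i) = (N (c j))⁻¹ * r i (c j) := by
      intro i j
      have e := congrFun (congrFun hcomm i) j
      rw [Matrix.mul_apply, Matrix.mul_apply] at e
      simp only [hA, of_apply] at e
      have e1 : ∑ l, (if c i = c l then (N (c i))⁻¹ else 0) * X l j = (N (c i))⁻¹ * r j (c i) := by
        simp only [hr, Finset.mul_sum, Finset.sum_filter]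
        apply Finset.sum_congr rfl
        intro l _
        by_cases hl : c l = c i
        · rw [if_pos hl.symm, if_pos hl, ← hXs.apply]
        · rw [if_neg (fun h' => hl h'.symm), if_neg hl, zero_mul, mul_zero]
      have e2 : ∑ l, X i l * (if c l = c j then (N (c l))⁻¹ else 0) = (N (c j))⁻¹ * r i (c j) := by
        simp only [hr, Finset.mul_sum, Finset.sum_filter]
        apply Finset.sum_congr rfl
        intro l _
        by_cases hl : c l = c j
        · rw [if_pos hl, if_pos hl, hl, mul_comm]
        · rw [if_neg hl, if_neg hl, mul_zero, mul_zero]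
      rw [e1, e2] at e
      exact e
    have hr0 : ∀ i b, b ≠ c i → r i b = 0 := by
      intro i b hb
      by_cases hex : ∃ j, c j = b
      · obtain ⟨j, rfl⟩ := hex
        obtain ⟨x₁, x₂, hx, hc1, hc2, hn1, hn2⟩ := h3 (c i) (c j) (Ne.symm hb)
        have : ∃ x, c x = c i ∧ x ≠ p ∧ x ≠ q ∧ ∀ y, G.Adj x y → c y ≠ c j := by
          by_cases hp1 : x₁ = p ∨ x₁ = q
          · refine ⟨x₂, hc2, ?_, ?_, hn2⟩
            · rintro rfl
              rcases hp1 with rfl | rfl
              · exact hx rfl
              · exact hc (hc2.trans hc1.symm)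
            · rintro rfl
              rcases hp1 with rfl | rfl
              · exact hc (hc1.trans hc2.symm)
              · exact hx rfl
          · push Not at hp1
            exact ⟨x₁, hc1, hp1.1, hp1.2, hn1⟩
        obtain ⟨x, hcx, hxp, hxq, hxn⟩ := this
        have hrx : r x (c j) = 0 := by
          simp only [hr]
          apply Finset.sum_eq_zero
          intro l hl
          simp only [Finset.mem_filter, Finset.mem_univ, true_and] at hl
          by_contra hne
          rcases hadj x l hne with h | h | h
          · exact hxn l h hl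
          · exact hxp h.1
          · exact hxq h.1
        have s1 := hstar x j
        rw [hrx, mul_zero, hcx] at s1
        have s2 := hstar i j
        rw [s1] at s2
        have s3 : (N (c j))⁻¹ ≠ 0 := inv_ne_zero (hNpos j)
        exact (mul_eq_zero.1 s2.symm).resolve_left s3
      · simp only [hr]
        apply Finset.sum_eq_zero
        intro l hl
        simp only [Finset.mem_filter, Finset.mem_univ, true_and] at hl
        exact absurd ⟨l, hl⟩ hex
    have hedge1 : ∀ i j, G.Adj i j → i ≠ p → i ≠ q → X i j = 0 := by
      intro i j hij hip hiq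
      have h4 : r i (c j) = X i j := by
        simp only [hr]
        apply Finset.sum_eq_single_of_mem j (by simp)
        intro l hl hlj
        simp only [Finset.mem_filter, Finset.mem_univ, true_and] at hl
        by_contra hne
        rcases hadj i l hne with h | h | h
        · exact h2 i l j h hij hlj hl
        · exact hip h.1
        · exact hiq h.1
      rw [← h4]
      exact hr0 i (c j) (h1 i j hij).symm
    have hedge : ∀ i j, G.Adj i j → X i j = 0 := by
      intro i j hij
      by_cases hi : i = p ∨ i = q
      · by_cases hj : j = p ∨ j = q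
        · exfalso
          rcases hi with rfl | rfl <;> rcases hj with rfl | rfl
          · exact hij.ne rfl
          · exact hG hij
          · exact hG hij.symm
          · exact hij.ne rfl
        · push Not at hj
          rw [← hXs.apply]
          exact hedge1 j i hij.symm hj.1 hj.2
      · push Not at hi
        exact hedge1 i j hij hi.1 hi.2
    have hXpq : X p q = 0 := by
      have h4 : r p (c q) = X p q := by
        simp only [hr]
        apply Finset.sum_eq_single_of_mem q (by simp)
        intro l hl hlq
        simp only [Finset.mem_filter, Finset.mem_univ, true_and] at hl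
        by_contra hne
        rcases hadj p l hne with h | h | h
        · exact hne (hedge p l h)
        · exact hlq h.2
        · exact hpq h.1
      rw [← h4]
      exact hr0 p (c q) hc.symm
    ext i j
    by_contra hne
    rcases hadj i j hne with h | h | h
    · exact hne (hedge i j h)
    · rw [h.1, h.2] at hne
      exact hne hXpq
    · rw [h.1, h.2, ← hXs.apply] at hne
      exact hne hXpq
  obtain ⟨B, hBs, hBp, hBsp⟩ := fill G (nz G A) A le_rfl hAs hAF hreg
  refine ⟨B, hBs, ?_, ?_⟩
  · intro i j hij
    rw [hBp i j hij, SimpleGraph.compl_adj]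
    simp [hij]
  · rw [hBsp]
    exact hid.spectrum_subset ℝ

end algebraic

section colouring

variable {V : Type*} [Fintype V] [DecidableEq V]

/-- at distance at most two -/
def near (G : SimpleGraph V) (x y : V) : Prop := G.Adj x y ∨ ∃ z, G.Adj x z ∧ G.Adj z y

omit [Fintype V] [DecidableEq V] in
lemma near_symm {G : SimpleGraph V} {x y : V} (h : near G x y) : near G y x := by
  rcases h with h | ⟨z, h1, h2⟩
  · exact Or.inl h.symm
  · exact Or.inr ⟨z, h2.symm, h1.symm⟩

open Classical in
/-- the set of vertices at distance at most two -/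
noncomputable def ball (G : SimpleGraph V) (x : V) : Finset V := Finset.univ.filter (near G x)

open Classical in
lemma ball_card {G : SimpleGraph V} {D : ℕ}
    (hD : ∀ v, (Finset.univ.filter (fun w => G.Adj v w)).card ≤ D) (x : V) :
    (ball G x).card ≤ D + D * D := by
  have h1 : ball G x ⊆ (Finset.univ.filter (fun w => G.Adj x w)) ∪
      (Finset.univ.filter (fun w => G.Adj x w)).biUnion
        (fun z => Finset.univ.filter (fun w => G.Adj z w)) := by
    intro y hy
    simp only [ball, Finset.mem_filter, Finset.mem_univ, true_and] at hy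
    simp only [Finset.mem_union, Finset.mem_biUnion, Finset.mem_filter, Finset.mem_univ, true_and]
    rcases hy with h | ⟨z, h1, h2⟩
    · exact Or.inl h
    · exact Or.inr ⟨z, h1, h2⟩
  refine (Finset.card_le_card h1).trans ((Finset.card_union_le _ _).trans ?_)
  refine add_le_add (hD x) ?_
  refine (Finset.card_biUnion_le_card_mul _ _ D (fun z _ => hD z)).trans ?_
  exact Nat.mul_le_mul_right _ (hD x)

open Classical in
lemma exists_far {G : SimpleGraph V} {D : ℕ}
    (hD : ∀ v, (Finset.univ.filter (fun w => G.Adj v w)).card ≤ D) :
    ∀ m : ℕ, m * (1 + D + D * D) ≤ Fintype.card V →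
      ∃ Z : Finset V, Z.card = m ∧ ∀ x ∈ Z, ∀ y ∈ Z, x ≠ y → ¬ near G x y := by
  intro m
  induction m with
  | zero => intro _; exact ⟨∅, rfl, by simp⟩
  | succ m ih =>
    intro hm
    obtain ⟨Z, hZ, hfar⟩ := ih (by nlinarith)
    have hcard : (Z ∪ Z.biUnion (ball G)).card < Fintype.card V := by
      have h1 : (Z.biUnion (ball G)).card ≤ m * (D + D * D) := by
        rw [← hZ]
        exact Finset.card_biUnion_le_card_mul _ _ _ (fun z _ => ball_card hD z)
      have h2 := Finset.card_union_le Z (Z.biUnion (ball G))
      have h3 : (m + 1) * (1 + D + D * D) = m + m * (D + D * D) + (1 + D + D * D) := by ring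
      omega
    obtain ⟨y, hy⟩ : ∃ y, y ∉ Z ∪ Z.biUnion (ball G) := by
      by_contra hcon
      push Not at hcon
      have : Z ∪ Z.biUnion (ball G) = Finset.univ := by
        ext y; simp only [Finset.mem_univ, iff_true]; exact hcon y
      rw [this, Finset.card_univ] at hcard
      exact lt_irrefl _ hcard
    simp only [Finset.mem_union, Finset.mem_biUnion, not_or, not_exists, not_and] at hy
    refine ⟨insert y Z, by rw [Finset.card_insert_of_notMem hy.1, hZ], ?_⟩
    intro a ha b hb hab
    rcases Finset.mem_insert.1 ha with ha' | ha' <;> rcases Finset.mem_insert.1 hb with hb' | hb'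
    · exact absurd (ha'.trans hb'.symm) hab
    · intro h
      rw [ha'] at h
      exact hy.2 b hb' (by
        simp only [ball, Finset.mem_filter, Finset.mem_univ, true_and]; exact near_symm h)
    · intro h
      rw [hb'] at h
      exact hy.2 a ha' (by
        simp only [ball, Finset.mem_filter, Finset.mem_univ, true_and]; exact h)
    · exact hfar a ha' b hb' hab

open Classical in
/-- Existence of the colouring. -/
lemma exists_colouring {G : SimpleGraph V} {D : ℕ}
    (hD : ∀ v, (Finset.univ.filter (fun w => G.Adj v w)).card ≤ D) (k : ℕ) (hk : k = D + D * D + 2)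
    (hn : (k * (k * 2)) * (1 + D + D * D) ≤ Fintype.card V) :
    ∃ c : V → Fin k, (∀ x y, G.Adj x y → c x ≠ c y) ∧
      (∀ z x y, G.Adj z x → G.Adj z y → x ≠ y → c x ≠ c y) ∧
      (∀ a b, a ≠ b → ∃ x₁ x₂, x₁ ≠ x₂ ∧ c x₁ = a ∧ c x₂ = a ∧
        (∀ y, G.Adj x₁ y → c y ≠ b) ∧ (∀ y, G.Adj x₂ y → c y ≠ b)) := by
  obtain ⟨Z, hZ, hfar⟩ := exists_far hD (k * (k * 2)) hn
  have hkpos : 0 < k := by omega
  let e : Fin k × (Fin k × Fin 2) ≃ {x // x ∈ Z} :=
    ((Equiv.refl (Fin k)).prodCongr finProdFinEquiv).trans
      (finProdFinEquiv.trans ((finCongr hZ.symm).trans Z.equivFin.symm))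
  let z : Fin k × (Fin k × Fin 2) → V := fun r => (e r).1
  have hzinj : Function.Injective z := fun a b h => e.injective (Subtype.ext h)
  have hzZ : ∀ r, z r ∈ Z := fun r => (e r).2
  have hzsurj : ∀ x ∈ Z, ∃ r, z r = x := fun x hx => ⟨e.symm ⟨x, hx⟩, by simp [z]⟩
  have hzfar : ∀ r s, near G (z r) (z s) → r = s := by
    intro r s h
    by_contra hrs
    exact hfar _ (hzZ r) _ (hzZ s) (fun h' => hrs (hzinj h')) h
  have key : ∀ S : Finset V, ∃ c : V → Fin k,
      (∀ x ∈ Z ∪ S, ∀ y ∈ Z ∪ S, x ≠ y → near G x y → c x ≠ c y) ∧ (∀ r, c (z r) = r.1) ∧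
      (∀ r, ∀ y ∈ Z ∪ S, G.Adj (z r) y → c y ≠ r.2.1) := by
    intro S
    induction S using Finset.induction_on with
    | empty =>
      refine ⟨fun x => if h : x ∈ Z then (e.symm ⟨x, h⟩).1 else ⟨0, hkpos⟩, ?_, ?_, ?_⟩
      · intro x hx y hy hxy hnear
        rw [Finset.union_empty] at hx hy
        exact absurd hnear (hfar x hx y hy hxy)
      · intro r
        have : (⟨z r, hzZ r⟩ : {x // x ∈ Z}) = e r := rfl
        simp only [hzZ r, dite_true, this, Equiv.symm_apply_apply]
      · intro r y hy hadj
        rw [Finset.union_empty] at hy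
        exact absurd (Or.inl hadj) (hfar _ (hzZ r) y hy hadj.ne)
    | insert y S hyS ih =>
      obtain ⟨c, hc1, hc2, hc3⟩ := ih
      by_cases hyZ : y ∈ Z
      · have h0 : Z ∪ insert y S = Z ∪ S := by
          ext x
          simp only [Finset.mem_union, Finset.mem_insert]
          constructor
          · rintro (h | rfl | h)
            · exact Or.inl h
            · exact Or.inl hyZ
            · exact Or.inr h
          · rintro (h | h)
            · exact Or.inl h
            · exact Or.inr (Or.inr h)
        rw [h0]
        exact ⟨c, hc1, hc2, hc3⟩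
      · -- choose a colour
        set bad : Finset (Fin k) := (ball G y).image c ∪
          (Finset.univ.filter (fun r : Fin k × (Fin k × Fin 2) => G.Adj (z r) y)).image
            (fun r => r.2.1) with hbad
        have hbadcard : bad.card < k := by
          have b1 : ((ball G y).image c).card ≤ D + D * D :=
            Finset.card_image_le.trans (ball_card hD y)
          have b2 : ((Finset.univ.filter (fun r : Fin k × (Fin k × Fin 2) =>
              G.Adj (z r) y)).image (fun r => r.2.1)).card ≤ 1 := by
            refine Finset.card_image_le.trans ?_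
            rw [Finset.card_le_one]
            intro r hr s hs
            simp only [Finset.mem_filter, Finset.mem_univ, true_and] at hr hs
            by_contra hrs
            exact hrs (hzfar r s (Or.inr ⟨y, hr, hs.symm⟩))
          have b3 := Finset.card_union_le ((ball G y).image c)
            ((Finset.univ.filter (fun r : Fin k × (Fin k × Fin 2) =>
              G.Adj (z r) y)).image (fun r => r.2.1))
          rw [hbad]
          omega
        obtain ⟨t, ht⟩ : ∃ t, t ∉ bad := by
          by_contra hcon
          push Not at hcon
          have : bad = Finset.univ := by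
            ext t; simp only [Finset.mem_univ, iff_true]; exact hcon t
          rw [this, Finset.card_univ, Fintype.card_fin] at hbadcard
          exact lt_irrefl _ hbadcard
        simp only [hbad, Finset.mem_union, Finset.mem_image, Finset.mem_filter, Finset.mem_univ,
          true_and, not_or, not_exists, not_and, ball] at ht
        have hmem : ∀ x, x ∈ Z ∪ insert y S → x ≠ y → x ∈ Z ∪ S := by
          intro x hx hxy
          simp only [Finset.mem_union, Finset.mem_insert] at hx ⊢
          rcases hx with h | h | h
          · exact Or.inl h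
          · exact absurd h hxy
          · exact Or.inr h
        refine ⟨Function.update c y t, ?_, ?_, ?_⟩
        · intro a ha b hb hab hnear
          by_cases hay : a = y
          · subst hay
            rw [Function.update_self, Function.update_of_ne hab.symm]
            exact fun h => ht.1 b hnear h.symm
          · by_cases hby : b = y
            · subst hby
              rw [Function.update_self, Function.update_of_ne hab]
              exact fun h => ht.1 a (near_symm hnear) h
            · rw [Function.update_of_ne hay, Function.update_of_ne hby]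
              exact hc1 a (hmem a ha hay) b (hmem b hb hby) hab hnear
        · intro r
          have : z r ≠ y := fun h => hyZ (h ▸ hzZ r)
          rw [Function.update_of_ne this]
          exact hc2 r
        · intro r a ha hadj
          by_cases hay : a = y
          · subst hay
            rw [Function.update_self]
            exact fun h => ht.2 r hadj h.symm
          · rw [Function.update_of_ne hay]
            exact hc3 r a (hmem a ha hay) hadj
  obtain ⟨c, hc1, hc2, hc3⟩ := key Finset.univ
  have huniv : Z ∪ Finset.univ = Finset.univ := by simp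
  rw [huniv] at hc1 hc3
  refine ⟨c, ?_, ?_, ?_⟩
  · intro x y hxy
    exact hc1 x (Finset.mem_univ _) y (Finset.mem_univ _) hxy.ne (Or.inl hxy)
  · intro w x y hx hy hxy
    exact hc1 x (Finset.mem_univ _) y (Finset.mem_univ _) hxy (Or.inr ⟨w, hx.symm, hy⟩)
  · intro a b _
    refine ⟨z (a, b, 0), z (a, b, 1), ?_, hc2 _, hc2 _, ?_, ?_⟩
    · intro h
      have := hzinj h
      simp at this
    · intro y hy
      exact hc3 (a, b, 0) y (Finset.mem_univ _) hy
    · intro y hy
      exact hc3 (a, b, 1) y (Finset.mem_univ _) hy

open Classical in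
/-- **Bounded degree theorem.** If `G` has maximum degree at most `D` and at least
`2 (D^2+D+2)^2 (D^2+D+1)` vertices, then the complement of `G` has a symmetric matrix with
at most two distinct eigenvalues. -/
theorem two_eigenvalues_of_bounded_degree {G : SimpleGraph V} {D : ℕ}
    (hD : ∀ v, (Finset.univ.filter (fun w => G.Adj v w)).card ≤ D)
    (hn : ((D + D * D + 2) * ((D + D * D + 2) * 2)) * (1 + D + D * D) ≤ Fintype.card V) :
    ∃ B : Matrix V V ℝ, B.IsSymm ∧ (∀ i j, i ≠ j → (B i j ≠ 0 ↔ Gᶜ.Adj i j)) ∧
      spectrum ℝ B ⊆ {0, 1} := by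
  obtain ⟨c, h1, h2, h3⟩ := exists_colouring hD (D + D * D + 2) rfl hn
  exact two_eigenvalues_of_colouring G c h1 h2 h3

end colouring

end Pool.Agent.helper46
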