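import Mathlib
import Pool.Agent.helper46.Super

set_option autoImplicit false

open Matrix

namespace Pool.Agent.helper46

/-- `G` has a symmetric matrix with exact off-diagonal pattern `G`, with the strong spectral
property, and with at most `k` distinct eigenvalues. -/
def SSPq {V : Type*} [Fintype V] [DecidableEq V] (G : SimpleGraph V) (k : ℕ) : Prop :=
  ∃ A : Matrix V V ℝ, A.IsSymm ∧ (∀ i j, i ≠ j → (A i j ≠ 0 ↔ G.Adj i j)) ∧ Reg Gᶜ A ∧
    ∃ s : Finset ℝ, s.card ≤ k ∧ spectrum ℝ A ⊆ s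

section basic

variable {V : Type*} [Fintype V] [DecidableEq V]

lemma SSPq.le {G : SimpleGraph V} {k l : ℕ} (h : SSPq G k) (hkl : k ≤ l) : SSPq G l := by
  obtain ⟨A, h1, h2, h3, s, hs, h4⟩ := h
  exact ⟨A, h1, h2, h3, s, hs.trans hkl, h4⟩

theorem SSPq.mono {H G : SimpleGraph V} {k : ℕ} (h : SSPq H k) (hHG : H ≤ G) : SSPq G k := by
  obtain ⟨A, h1, h2, h3, s, hs, h4⟩ := h
  obtain ⟨B, b1, b2, b3, b4⟩ := supergraph hHG h1 h2 h3
  exact ⟨B, b1, b2, b3, s, hs, b4 ▸ h4⟩

/-- final conversion -/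
theorem SSPq.exists_matrix {G : SimpleGraph V} {k : ℕ} (h : SSPq G k) :
    ∃ A : Matrix V V ℝ, A.IsSymm ∧ (∀ i j, i ≠ j → (A i j ≠ 0 ↔ G.Adj i j)) ∧
      (spectrum ℝ A).ncard ≤ k := by
  obtain ⟨A, h1, h2, h3, s, hs, h4⟩ := h
  refine ⟨A, h1, h2, ?_⟩
  calc (spectrum ℝ A).ncard ≤ (s : Set ℝ).ncard := Set.ncard_le_ncard h4 s.finite_toSet
    _ = s.card := Set.ncard_coe_finset s
    _ ≤ k := hs

lemma mem_spectrum_of_mulVec {A : Matrix V V ℝ} {μ : ℝ} {x : V → ℝ} (hx : x ≠ 0)
    (h : A *ᵥ x = μ • x) : μ ∈ spectrum ℝ A := by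
  rw [spectrum.mem_iff]
  intro hu
  obtain ⟨u, hu⟩ := hu
  apply hx
  have h1 : (algebraMap ℝ (Matrix V V ℝ) μ - A) *ᵥ x = 0 := by
    rw [Matrix.sub_mulVec, h, Algebra.algebraMap_eq_smul_one, Matrix.smul_mulVec,
      Matrix.one_mulVec, sub_self]
  rw [← hu] at h1
  calc x = ((u⁻¹ : (Matrix V V ℝ)ˣ) : Matrix V V ℝ) *ᵥ ((u : Matrix V V ℝ) *ᵥ x) := by
        rw [Matrix.mulVec_mulVec, Units.inv_mul, Matrix.one_mulVec]
    _ = 0 := by rw [h1, Matrix.mulVec_zero]

lemma spectrum_add_algebraMap {A : Matrix V V ℝ} {s : Finset ℝ} (h : spectrum ℝ A ⊆ s) (c : ℝ) :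
    spectrum ℝ (A + algebraMap ℝ (Matrix V V ℝ) c) ⊆ (s.image (fun x => x + c) : Finset ℝ) := by
  intro x hx
  rw [spectrum.mem_iff] at hx
  have h2 : x - c ∈ spectrum ℝ A := by
    rw [spectrum.mem_iff]
    convert hx using 2
    rw [map_sub]
    abel
  have := h h2
  simp only [Finset.coe_image, Set.mem_image]
  exact ⟨x - c, this, by ring⟩

/-- Transport and enlarge. -/
theorem SSPq.transport {W : Type*} [Fintype W] [DecidableEq W] {G : SimpleGraph V}
    {H : SimpleGraph W} {k : ℕ} (e : V ≃ W) (h : SSPq G k)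
    (hGH : ∀ a b, G.Adj a b → H.Adj (e a) (e b)) : SSPq H k := by
  obtain ⟨A, h1, h2, h3, s, hs, h4⟩ := h
  have key : SSPq (G.comap e.symm) k := by
    refine ⟨A.submatrix e.symm e.symm, ?_, ?_, ?_, s, hs, ?_⟩
    · ext i j
      simp only [transpose_apply, submatrix_apply]
      exact h1.apply _ _
    · intro i j hij
      simp only [submatrix_apply, SimpleGraph.comap_adj]
      exact h2 _ _ (fun h => hij (e.symm.injective h))
    · intro X hXs hX hcomm
      have hX' : X.submatrix e e = 0 := by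
        apply h3 (X.submatrix e e)
        · ext i j
          simp only [transpose_apply, submatrix_apply]
          exact hXs.apply _ _
        · intro i j hij
          simp only [submatrix_apply]
          apply hX
          intro h
          apply hij
          rw [SimpleGraph.compl_adj] at h ⊢
          refine ⟨fun h' => h.1 (by rw [h']), ?_⟩
          have := h.2
          simpa using this
        · have h5 : (A.submatrix e.symm e.symm * X).submatrix e e =
              (X * A.submatrix e.symm e.symm).submatrix e e := by rw [hcomm]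
          rw [← Matrix.submatrix_mul_equiv (A.submatrix e.symm e.symm) X e e e,
            ← Matrix.submatrix_mul_equiv X (A.submatrix e.symm e.symm) e e e] at h5
          simpa using h5
      ext i j
      have := congrFun (congrFun hX' (e.symm i)) (e.symm j)
      simpa using this
    · have : A.submatrix e.symm e.symm = Matrix.reindexAlgEquiv ℝ ℝ e A := rfl
      rw [this, AlgEquiv.spectrum_eq]
      exact h4
  refine key.mono ?_
  intro i j hij
  rw [SimpleGraph.comap_adj] at hij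
  simpa using hGH _ _ hij

end basic

section sum

variable {V W : Type*} [Fintype V] [DecidableEq V] [Fintype W] [DecidableEq W]

lemma sylvester {A₁ : Matrix V V ℝ} {A₂ : Matrix W W ℝ} (h₂ : A₂.IsSymm)
    (hdisj : Disjoint (spectrum ℝ A₁) (spectrum ℝ A₂)) {X : Matrix V W ℝ}
    (h : A₁ * X = X * A₂) : X = 0 := by
  have hH : A₂.IsHermitian := by
    rw [Matrix.IsHermitian, Matrix.conjTranspose_eq_transpose_of_trivial]; exact h₂
  have key : ∀ j, X *ᵥ (⇑(hH.eigenvectorBasis j) : W → ℝ) = 0 := by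
    intro j
    by_contra hne
    have h1 := hH.mulVec_eigenvectorBasis j
    have h3 : A₁ *ᵥ (X *ᵥ (⇑(hH.eigenvectorBasis j) : W → ℝ)) =
        hH.eigenvalues j • (X *ᵥ (⇑(hH.eigenvectorBasis j) : W → ℝ)) := by
      rw [Matrix.mulVec_mulVec, h, ← Matrix.mulVec_mulVec, h1, Matrix.mulVec_smul]
    have h4 := mem_spectrum_of_mulVec hne h3
    have h5 : hH.eigenvalues j ∈ spectrum ℝ A₂ := hH.eigenvalues_mem_spectrum_real j
    exact Set.disjoint_left.1 hdisj h4 h5
  have hlin : ∀ y : W → ℝ, X *ᵥ y = 0 := by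
    intro y
    set y' : EuclideanSpace ℝ W := WithLp.toLp 2 y with hy'
    have hrep := hH.eigenvectorBasis.sum_repr y'
    have : y = ∑ j, (hH.eigenvectorBasis.repr y' j) • (⇑(hH.eigenvectorBasis j) : W → ℝ) := by
      have h6 := congrArg (fun z : EuclideanSpace ℝ W => (⇑z : W → ℝ)) hrep
      simp only at h6
      have h7 : (⇑y' : W → ℝ) = y := rfl
      rw [h7] at h6
      rw [← h6]
      ext i
      simp
    rw [this, Matrix.mulVec_sum]
    apply Finset.sum_eq_zero
    intro j _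
    rw [Matrix.mulVec_smul, key j, smul_zero]
  ext i j
  have := congrFun (hlin (Pi.single j 1)) i
  simpa using this

lemma spectrum_fromBlocks {A₁ : Matrix V V ℝ} {A₂ : Matrix W W ℝ} :
    spectrum ℝ (fromBlocks A₁ 0 0 A₂) ⊆ spectrum ℝ A₁ ∪ spectrum ℝ A₂ := by
  intro x hx
  by_contra hcon
  rw [Set.mem_union, not_or, spectrum.mem_iff, spectrum.mem_iff, not_not, not_not] at hcon
  rw [spectrum.mem_iff] at hx
  apply hx
  have h1 : algebraMap ℝ (Matrix (V ⊕ W) (V ⊕ W) ℝ) x - fromBlocks A₁ 0 0 A₂ =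
      fromBlocks (algebraMap ℝ (Matrix V V ℝ) x - A₁) 0 0 (algebraMap ℝ (Matrix W W ℝ) x - A₂) := by
    rw [Algebra.algebraMap_eq_smul_one, Algebra.algebraMap_eq_smul_one,
      Algebra.algebraMap_eq_smul_one, ← Matrix.fromBlocks_one, Matrix.fromBlocks_smul]
    ext (i | i) (j | j) <;> simp
  rw [h1, Matrix.isUnit_iff_isUnit_det, Matrix.det_fromBlocks_zero₂₁]
  rw [Matrix.isUnit_iff_isUnit_det, Matrix.isUnit_iff_isUnit_det] at hcon
  exact hcon.1.mul hcon.2

theorem SSPq.sum {G : SimpleGraph V} {H : SimpleGraph W} {k l : ℕ} (hG : SSPq G k)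
    (hH : SSPq H l) : SSPq (G ⊕g H) (k + l) := by
  obtain ⟨A₁, a1, a2, a3, s, hs, a4⟩ := hG
  obtain ⟨A₀, b1, b2, b3, t, ht, b4⟩ := hH
  -- shift the second matrix
  obtain ⟨c, hc⟩ : ∃ c : ℝ, Disjoint s (t.image (fun x => x + c)) := by
    obtain ⟨M, hM⟩ := s.bddAbove
    obtain ⟨m, hm⟩ := t.bddBelow
    refine ⟨M - m + 1, ?_⟩
    rw [Finset.disjoint_left]
    intro x hx hx'
    rw [Finset.mem_image] at hx'
    obtain ⟨y, hy, rfl⟩ := hx'
    have h1 := hM hx
    have h2 := hm hy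
    linarith
  set A₂ := A₀ + algebraMap ℝ (Matrix W W ℝ) c with hA₂
  have c1 : A₂.IsSymm := by
    rw [hA₂, Algebra.algebraMap_eq_smul_one]
    exact b1.add ((Matrix.isSymm_one).smul c)
  have hoff : ∀ i j, i ≠ j → A₂ i j = A₀ i j := by
    intro i j hij
    rw [hA₂, Algebra.algebraMap_eq_smul_one]
    simp [Matrix.one_apply_ne hij]
  have c4 : spectrum ℝ A₂ ⊆ (t.image (fun x => x + c) : Finset ℝ) := spectrum_add_algebraMap b4 c
  have hdisj : Disjoint (spectrum ℝ A₁) (spectrum ℝ A₂) :=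
    Set.disjoint_of_subset a4 c4 (Finset.disjoint_coe.2 hc)
  refine ⟨fromBlocks A₁ 0 0 A₂, ?_, ?_, ?_, s ∪ t.image (fun x => x + c), ?_, ?_⟩
  · rw [Matrix.isSymm_fromBlocks_iff]
    exact ⟨a1, by simp, by simp, c1⟩
  · rintro (i | i) (j | j) hij
    · simp only [fromBlocks_apply₁₁, SimpleGraph.sum_adj]
      exact a2 i j (fun h => hij (by rw [h]))
    · simp
    · simp
    · simp only [fromBlocks_apply₂₂, SimpleGraph.sum_adj]
      have hij' : i ≠ j := fun h => hij (by rw [h])
      rw [hoff i j hij']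
      exact b2 i j hij'
  · intro X hXs hX hcomm
    obtain ⟨X₁₁, X₁₂, X₂₁, X₂₂, rfl⟩ : ∃ X₁₁ X₁₂ X₂₁ X₂₂, X = fromBlocks X₁₁ X₁₂ X₂₁ X₂₂ :=
      ⟨_, _, _, _, (Matrix.fromBlocks_toBlocks X).symm⟩
    rw [Matrix.isSymm_fromBlocks_iff] at hXs
    rw [Matrix.fromBlocks_multiply, Matrix.fromBlocks_multiply, Matrix.fromBlocks_inj] at hcomm
    simp only [Matrix.zero_mul, Matrix.mul_zero, add_zero, zero_add] at hcomm
    have h12 : X₁₂ = 0 := sylvester c1 hdisj hcomm.2.1
    have h21 : X₂₁ = 0 := by rw [← hXs.2.1, h12, Matrix.transpose_zero]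
    have h11 : X₁₁ = 0 := by
      apply a3 X₁₁ hXs.1 _ hcomm.1
      intro i j hij
      have := hX (Sum.inl i) (Sum.inl j) (by
        rw [SimpleGraph.compl_adj] at hij ⊢
        simpa using hij)
      simpa using this
    have h22 : X₂₂ = 0 := by
      apply b3 X₂₂ hXs.2.2.2 _ _
      · intro i j hij
        have := hX (Sum.inr i) (Sum.inr j) (by
          rw [SimpleGraph.compl_adj] at hij ⊢
          simpa using hij)
        simpa using this
      · have h5 := hcomm.2.2.2
        rw [hA₂, add_mul, mul_add] at h5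
        have h6 := Algebra.commutes c X₂₂
        rw [h6] at h5
        exact add_right_cancel h5
    rw [h11, h12, h21, h22, Matrix.fromBlocks_zero]
  · exact (Finset.card_union_le _ _).trans (add_le_add hs (Finset.card_image_le.trans ht))
  · intro x hx
    rcases spectrum_fromBlocks hx with h | h
    · exact Finset.mem_coe.2 (Finset.mem_union_left _ (a4 h))
    · exact Finset.mem_coe.2 (Finset.mem_union_right _ (c4 h))

end sum

end Pool.Agent.helper46
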