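import Mathlib
import Pool.Agent.helper46.SSP

set_option autoImplicit false

open Matrix

open scoped Topology

namespace Pool.Agent.helper46

variable {V : Type*} [Fintype V] [DecidableEq V]

/-- Filling in undesired zero entries one at a time, keeping the regularity. -/
theorem fillReg (F : SimpleGraph V) : ∀ (N : ℕ) (A : Matrix V V ℝ), nz F A ≤ N → A.IsSymm →
    (∀ i j, F.Adj i j → A i j = 0) → Reg F A →
    (∀ p q, p ≠ q → ¬ F.Adj p q → A p q = 0 → Reg (F ⊔ SimpleGraph.edge p q) A) →
    ∃ B : Matrix V V ℝ, B.IsSymm ∧ (∀ i j, i ≠ j → (B i j ≠ 0 ↔ ¬ F.Adj i j)) ∧ Reg F B ∧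
      spectrum ℝ B = spectrum ℝ A := by
  classical
  intro N
  induction N with
  | zero =>
    intro A hN hA h0 hRF _
    refine ⟨A, hA, ?_, hRF, rfl⟩
    intro i j hij
    refine ⟨fun h h' => h (h0 i j h'), fun h h' => ?_⟩
    have : (i, j) ∈ (Finset.univ.filter fun p : V × V => p.1 ≠ p.2 ∧ ¬ F.Adj p.1 p.2 ∧
      A p.1 p.2 = 0) := by simp [hij, h, h']
    have h2 := Finset.card_pos.2 ⟨_, this⟩
    unfold nz at hN
    omega
  | succ N ih =>
    intro A hN hA h0 hRF hreg
    by_cases hex : ∃ p q, p ≠ q ∧ ¬ F.Adj p q ∧ A p q = 0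
    · obtain ⟨p, q, hpq, hF, hz⟩ := hex
      obtain ⟨δ₂, hδ₂, hlow⟩ := exists_lower A
      obtain ⟨δ₃, hδ₃, hRopen⟩ := reg_open F A hRF
      have hro : ∀ᶠ δ in 𝓝[>] (0 : ℝ), ∀ p q, p ≠ q → ¬ F.Adj p q → A p q = 0 →
          ∀ B : Matrix V V ℝ, (∀ i j, |B i j - A i j| < δ) → Reg (F ⊔ SimpleGraph.edge p q) B := by
        rw [Filter.eventually_all]
        intro p
        rw [Filter.eventually_all]
        intro q
        by_cases hc : p ≠ q ∧ ¬ F.Adj p q ∧ A p q = 0
        · obtain ⟨δ, hδ, h⟩ := reg_open _ A (hreg p q hc.1 hc.2.1 hc.2.2)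
          have : Set.Ioo (0:ℝ) δ ∈ 𝓝[>] (0 : ℝ) := Ioo_mem_nhdsGT hδ
          filter_upwards [this] with δ' hδ' _ _ _ B hB
          exact h B (fun i j => (hB i j).trans hδ'.2)
        · filter_upwards with δ h1 h2 h3
          exact absurd ⟨h1, h2, h3⟩ hc
      obtain ⟨δ₁, hro', hδ₁⟩ := (hro.and self_mem_nhdsWithin).exists
      obtain ⟨ε, hε, hper⟩ := perturb (F ⊔ SimpleGraph.edge p q) A hA (hreg p q hpq hF hz)
        (δ := min (min δ₁ δ₂) δ₃) (lt_min (lt_min hδ₁ hδ₂) hδ₃)
      set T : Matrix V V ℝ := Matrix.of fun i j =>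
        if (SimpleGraph.edge p q).Adj i j then ε / 2 else A i j with hT
      obtain ⟨B, hBs, hBA, hBT, hu⟩ := hper T (by
        ext i j
        simp only [hT, transpose_apply, of_apply, (SimpleGraph.edge p q).adj_comm j i]
        split_ifs
        · rfl
        · exact hA.apply i j) (by
        intro i j hij
        simp only [hT, of_apply]
        split_ifs with h
        · have h0' : A i j = 0 := by
            rw [SimpleGraph.edge_adj] at h
            rcases h.1 with ⟨rfl, rfl⟩ | ⟨rfl, rfl⟩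
            · exact hz
            · rw [← hA.apply]; exact hz
          rw [h0', sub_zero, abs_of_pos (by linarith)]; linarith
        · simpa using hε)
      have hm1 : min (min δ₁ δ₂) δ₃ ≤ δ₁ := (min_le_left _ _).trans (min_le_left _ _)
      have hm2 : min (min δ₁ δ₂) δ₃ ≤ δ₂ := (min_le_left _ _).trans (min_le_right _ _)
      have hm3 : min (min δ₁ δ₂) δ₃ ≤ δ₃ := min_le_right _ _
      have hnonzero : ∀ i j, A i j ≠ 0 → B i j ≠ 0 := by
        intro i j h1 h5
        have h2 := hlow i j h1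
        have h3 := hBA i j
        have h4 : |B i j - A i j| < |A i j| := lt_of_lt_of_le h3 (hm2.trans h2)
        rw [h5, zero_sub, abs_neg] at h4
        exact lt_irrefl _ h4
      have hBF : ∀ i j, F.Adj i j → B i j = 0 := by
        intro i j hij
        rw [hBT i j (Or.inl hij)]
        simp only [hT, of_apply]
        rw [if_neg, h0 i j hij]
        intro h
        rw [SimpleGraph.edge_adj] at h
        rcases h.1 with ⟨rfl, rfl⟩ | ⟨rfl, rfl⟩
        · exact hF hij
        · exact hF hij.symm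
      have hBpq : B p q ≠ 0 := by
        have hadj : (SimpleGraph.edge p q).Adj p q := by
          rw [SimpleGraph.edge_adj]; exact ⟨Or.inl ⟨rfl, rfl⟩, hpq⟩
        rw [hBT p q (Or.inr hadj)]
        simp only [hT, of_apply, if_pos hadj]
        positivity
      have hlt : nz F B < nz F A := by
        unfold nz
        apply Finset.card_lt_card
        refine ⟨?_, ?_⟩
        · intro x hx
          simp only [Finset.mem_filter, Finset.mem_univ, true_and] at hx ⊢
          exact ⟨hx.1, hx.2.1, by by_contra h; exact hnonzero _ _ h hx.2.2⟩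
        · intro hsub
          have : (p, q) ∈ (Finset.univ.filter fun p : V × V => p.1 ≠ p.2 ∧ ¬ F.Adj p.1 p.2 ∧
            A p.1 p.2 = 0) := by simp [hpq, hF, hz]
          have := hsub this
          simp only [Finset.mem_filter, Finset.mem_univ, true_and] at this
          exact hBpq this.2.2
      obtain ⟨C, hCs, hCp, hCR, hCsp⟩ := ih B (by omega) hBs hBF
        (hRopen B (fun i j => (hBA i j).trans_le hm3)) (by
        intro p' q' h1 h2 h3
        have h4 : A p' q' = 0 := by by_contra h; exact hnonzero _ _ h h3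
        exact hro' p' q' h1 h2 h4 B (fun i j => (hBA i j).trans_le hm1))
      exact ⟨C, hCs, hCp, hCR, hCsp.trans (spectrum_conj hu)⟩
    · push Not at hex
      refine ⟨A, hA, ?_, hRF, rfl⟩
      intro i j hij
      exact ⟨fun h h' => h (h0 i j h'), fun h => hex i j hij h⟩

/-- Completing a matrix to a matrix with pattern exactly `G`, strong spectral property and the same
spectrum. -/
theorem SSPq.of_fill {G : SimpleGraph V} {k : ℕ} (A : Matrix V V ℝ) (hA : A.IsSymm)
    (h0 : ∀ i j, i ≠ j → ¬ G.Adj i j → A i j = 0) (hR : Reg Gᶜ A)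
    (hreg : ∀ p q, G.Adj p q → A p q = 0 → Reg (Gᶜ ⊔ SimpleGraph.edge p q) A)
    (s : Finset ℝ) (hs : s.card ≤ k) (hsp : spectrum ℝ A ⊆ s) : SSPq G k := by
  obtain ⟨B, b1, b2, b3, b4⟩ := fillReg Gᶜ _ A le_rfl hA
    (fun i j hij => h0 i j hij.ne ((SimpleGraph.compl_adj _ _ _).1 hij).2) hR
    (fun p q hpq hF hz => hreg p q (by
      by_contra h
      exact hF ((SimpleGraph.compl_adj _ _ _).2 ⟨hpq, h⟩)) hz)
  refine ⟨B, b1, ?_, b3, s, hs, b4 ▸ hsp⟩
  intro i j hij
  rw [b2 i j hij, SimpleGraph.compl_adj]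
  tauto

end Pool.Agent.helper46
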