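import Mathlib
import Pool.Agent.helper46.Fill

set_option autoImplicit false

open Matrix

namespace Pool.Agent.helper46

variable {V W : Type*} [Fintype V] [DecidableEq V] [Fintype W] [DecidableEq W]

/-- Regularity of a block matrix `A ⊕ diag(l)`. -/
lemma reg_absorb (F : SimpleGraph (V ⊕ W)) (A : Matrix V V ℝ)
    (hR : Reg (F.comap (Sum.inl : V → V ⊕ W)) A) (l : W → ℝ) (hl : Function.Injective l)
    (hnv : ∀ (t : W) (y : V → ℝ), A *ᵥ y = l t • y →
      (∀ a, ¬ F.Adj (Sum.inl a) (Sum.inr t) → y a = 0) → y = 0) :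
    Reg F (fromBlocks A 0 0 (Matrix.diagonal l)) := by
  intro X hXs hX hcomm
  obtain ⟨X₁₁, X₁₂, X₂₁, X₂₂, rfl⟩ : ∃ X₁₁ X₁₂ X₂₁ X₂₂, X = fromBlocks X₁₁ X₁₂ X₂₁ X₂₂ :=
    ⟨_, _, _, _, (Matrix.fromBlocks_toBlocks X).symm⟩
  rw [Matrix.isSymm_fromBlocks_iff] at hXs
  rw [Matrix.fromBlocks_multiply, Matrix.fromBlocks_multiply, Matrix.fromBlocks_inj] at hcomm
  simp only [Matrix.zero_mul, Matrix.mul_zero, add_zero, zero_add] at hcomm
  have h11 : X₁₁ = 0 := by
    apply hR X₁₁ hXs.1 _ hcomm.1
    intro i j hij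
    simpa using hX (Sum.inl i) (Sum.inl j) (by simpa using hij)
  have h12 : X₁₂ = 0 := by
    ext a t
    have h := hnv t (fun a => X₁₂ a t) (by
      ext i
      have h1 := congrFun (congrFun hcomm.2.1 i) t
      rw [Matrix.mul_diagonal, Matrix.mul_apply] at h1
      simp only [Matrix.mulVec, dotProduct, Pi.smul_apply, smul_eq_mul]
      rw [h1, mul_comm]) (by
      intro a ha
      simpa using hX (Sum.inl a) (Sum.inr t) ha)
    exact congrFun h a
  have h21 : X₂₁ = 0 := by rw [← hXs.2.1, h12, Matrix.transpose_zero]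
  have h22 : X₂₂ = 0 := by
    ext i j
    by_cases hij : i = j
    · subst hij
      simpa using hX (Sum.inr i) (Sum.inr i) (by simp)
    · have h1 := congrFun (congrFun hcomm.2.2.2 i) j
      rw [Matrix.diagonal_mul, Matrix.mul_diagonal] at h1
      have h2 : (l i - l j) * X₂₂ i j = 0 := by linarith
      rcases mul_eq_zero.1 h2 with h | h
      · exact absurd (hl (sub_eq_zero.1 h)) hij
      · simpa using h
  rw [h11, h12, h21, h22, Matrix.fromBlocks_zero]

/-- Simultaneous absorption of new vertices into distinct eigenvalues. -/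
theorem SSPq.absorb {G : SimpleGraph (V ⊕ W)} {k : ℕ} (A : Matrix V V ℝ) (hA : A.IsSymm)
    (hpat : ∀ i j, i ≠ j → (A i j ≠ 0 ↔ G.Adj (Sum.inl i) (Sum.inl j)))
    (hR : Reg (G.comap (Sum.inl : V → V ⊕ W))ᶜ A) (s : Finset ℝ) (hs : s.card ≤ k)
    (hsp : spectrum ℝ A ⊆ s) (l : W → ℝ) (hl : Function.Injective l) (hls : ∀ t, l t ∈ s)
    (hnv : ∀ (t : W) (y : V → ℝ), A *ᵥ y = l t • y →
      ∀ w, (∀ a, a ≠ w → G.Adj (Sum.inl a) (Sum.inr t) → y a = 0) → y = 0) :
    SSPq G k := by
  have hcomap : (Gᶜ).comap (Sum.inl : V → V ⊕ W) = (G.comap (Sum.inl : V → V ⊕ W))ᶜ := by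
    ext i j
    simp [SimpleGraph.compl_adj]
  have hnv' : ∀ (t : W) (y : V → ℝ), A *ᵥ y = l t • y →
      (∀ a, G.Adj (Sum.inl a) (Sum.inr t) → y a = 0) → y = 0 := by
    intro t y hy h
    rcases isEmpty_or_nonempty V with hV | ⟨⟨w⟩⟩
    · ext a; exact (hV.false a).elim
    · exact hnv t y hy w (fun a _ ha => h a ha)
  refine SSPq.of_fill (fromBlocks A 0 0 (Matrix.diagonal l)) ?_ ?_ ?_ ?_ s hs ?_
  · rw [Matrix.isSymm_fromBlocks_iff]
    exact ⟨hA, by simp, by simp, Matrix.isSymm_diagonal l⟩
  · rintro (i | i) (j | j) hij hadj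
    · simp only [fromBlocks_apply₁₁]
      by_contra h
      exact hadj ((hpat i j (fun h => hij (by rw [h]))).1 h)
    · simp
    · simp
    · simp only [fromBlocks_apply₂₂]
      exact Matrix.diagonal_apply_ne _ (fun h => hij (by rw [h]))
  · apply reg_absorb _ _ _ _ hl
    · intro t y hy h
      apply hnv' t y hy
      intro a ha
      apply h
      rw [SimpleGraph.compl_adj]
      tauto
    · rw [hcomap]; exact hR
  · intro p q hpq hz
    -- the missing edge is not inside `V`
    apply reg_absorb _ _ _ _ hl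
    · intro t y hy h
      -- determine the exceptional vertex
      rcases p with p | p <;> rcases q with q | q
      · apply hnv' t y hy
        intro a ha
        apply h
        rw [SimpleGraph.sup_adj, SimpleGraph.compl_adj, SimpleGraph.edge_adj]
        simp [ha]
      · apply hnv t y hy p
        intro a hap ha
        apply h
        rw [SimpleGraph.sup_adj, SimpleGraph.compl_adj, SimpleGraph.edge_adj]
        simp [ha, hap]
      · apply hnv t y hy q
        intro a hap ha
        apply h
        rw [SimpleGraph.sup_adj, SimpleGraph.compl_adj, SimpleGraph.edge_adj]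
        simp [ha, hap]
      · apply hnv' t y hy
        intro a ha
        apply h
        rw [SimpleGraph.sup_adj, SimpleGraph.compl_adj, SimpleGraph.edge_adj]
        simp [ha]
    · have hle : (Gᶜ ⊔ SimpleGraph.edge p q).comap (Sum.inl : V → V ⊕ W) ≤
          (G.comap (Sum.inl : V → V ⊕ W))ᶜ := by
        intro i j hij
        rw [SimpleGraph.comap_adj, SimpleGraph.sup_adj] at hij
        rcases hij with h | h
        · rw [← hcomap]; exact h
        · exfalso
          rw [SimpleGraph.edge_adj] at h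
          have hpq' : ∃ i j, p = Sum.inl i ∧ q = Sum.inl j := by
            rcases h.1 with h' | h'
            · exact ⟨i, j, h'.1.symm, h'.2.symm⟩
            · exact ⟨j, i, h'.2.symm, h'.1.symm⟩
          obtain ⟨i', j', rfl, rfl⟩ := hpq'
          simp only [fromBlocks_apply₁₁] at hz
          have hne : i' ≠ j' := fun h => hpq.ne (by rw [h])
          exact (hpat i' j' hne).2 hpq hz
      exact hR.mono hle
  · intro x hx
    rcases spectrum_fromBlocks hx with h | h
    · exact hsp h
    · rw [spectrum_diagonal] at h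
      obtain ⟨t, rfl⟩ := h
      exact hls t

end Pool.Agent.helper46
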