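import Mathlib
import Pool.Agent.helper46.SSP

set_option autoImplicit false

open Matrix

namespace Pool.Agent.helper46

section units

variable {V : Type*} [Fintype V] [DecidableEq V]

/-- every graph: all eigenvalues distinct -/
theorem SSPq.card (G : SimpleGraph V) : SSPq G (Fintype.card V) := by
  have key : SSPq (⊥ : SimpleGraph V) (Fintype.card V) := by
    set d : V → ℝ := fun v => ((Fintype.equivFin V v : ℕ) : ℝ) with hd
    have hdinj : Function.Injective d := by
      intro a b h
      simp only [hd, Nat.cast_inj] at h
      exact (Fintype.equivFin V).injective (Fin.ext h)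
    refine ⟨Matrix.diagonal d, Matrix.isSymm_diagonal d, ?_, ?_, Finset.univ.image d, ?_, ?_⟩
    · intro i j hij
      simp [Matrix.diagonal_apply_ne _ hij]
    · intro X _ hX hcomm
      ext i j
      by_cases hij : i = j
      · subst hij
        exact hX i i (by simp)
      · have h1 := congrFun (congrFun hcomm i) j
        rw [Matrix.diagonal_mul, Matrix.mul_diagonal] at h1
        have h2 : (d i - d j) * X i j = 0 := by linarith
        rcases mul_eq_zero.1 h2 with h | h
        · exact absurd (hdinj (sub_eq_zero.1 h)) hij
        · simpa using h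
    · exact Finset.card_image_le
    · rw [spectrum_diagonal]
      intro x hx
      obtain ⟨i, rfl⟩ := hx
      simp
  exact key.mono bot_le

/-- complete graphs have two distinct eigenvalues -/
theorem SSPq.top : SSPq (⊤ : SimpleGraph V) 2 := by
  set A : Matrix V V ℝ := Matrix.of fun _ _ => (Fintype.card V : ℝ)⁻¹ with hA
  refine ⟨A, ?_, ?_, ?_, {0, 1}, Finset.card_le_two, ?_⟩
  · ext i j
    simp [hA]
  · intro i j hij
    have : Nonempty V := ⟨i⟩
    have h1 : (Fintype.card V : ℝ) ≠ 0 := by
      exact_mod_cast Fintype.card_ne_zero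
    simp [hA, hij]
  · intro X _ hX _
    ext i j
    exact hX i j (by simp)
  · have hid : IsIdempotentElem A := by
      ext i j
      have : Nonempty V := ⟨i⟩
      have h1 : (Fintype.card V : ℝ) ≠ 0 := by
        exact_mod_cast Fintype.card_ne_zero
      rw [Matrix.mul_apply]
      simp only [hA, of_apply, Finset.sum_const, Finset.card_univ, nsmul_eq_mul]
      field_simp
    have := hid.spectrum_subset ℝ
    simpa using this

end units

section star

/-- The star with centre `none` and `3 m` leaves, grouped in triples. -/
def starGraph (m : ℕ) : SimpleGraph (Option (Fin m × Fin 3)) where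
  Adj x y := (x = none ∧ y ≠ none) ∨ (x ≠ none ∧ y = none)
  symm := ⟨by
    rintro x y (h | h)
    · exact Or.inr ⟨h.2, h.1⟩
    · exact Or.inl ⟨h.2, h.1⟩⟩
  loopless := ⟨by
    rintro x (h | h)
    · exact h.2 h.1
    · exact h.1 h.2⟩

/-- matrix of the star -/
def starMat (m : ℕ) : Matrix (Option (Fin m × Fin 3)) (Option (Fin m × Fin 3)) ℝ :=
  Matrix.of fun x y => match x, y with
    | none, none => 0
    | none, some _ => 1
    | some _, none => 1
    | some p, some q => if p = q then (p.1 : ℕ) else 0

lemma starMat_symm (m : ℕ) : (starMat m).IsSymm := by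
  ext x y
  rcases x with _ | x <;> rcases y with _ | y <;> simp [starMat]
  by_cases h : x = y
  · simp [h]
  · simp [h, Ne.symm h]

open Polynomial in
lemma star_spectrum (m : ℕ) : ∃ s : Finset ℝ, s.card ≤ 2 * m + 1 ∧ spectrum ℝ (starMat m) ⊆ s := by
  classical
  set P : ℝ[X] := X * ∏ j : Fin m, (X - C ((j : ℕ) : ℝ)) with hP
  set Q : ℝ[X] := C 3 * ∑ j : Fin m, ∏ i ∈ Finset.univ.erase j, (X - C ((i : ℕ) : ℝ)) with hQ
  have hPm : P.Monic := (monic_X).mul (monic_prod_of_monic _ _ (fun j _ => monic_X_sub_C _))
  have hprod : ∀ s : Finset (Fin m), (∏ i ∈ s, (X - C ((i : ℕ) : ℝ)) : ℝ[X]).degree =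
      ((s.card : ℕ) : WithBot ℕ) := by
    intro s
    rw [degree_prod]
    have h1 : ∀ i ∈ s, (X - C (((i : Fin m) : ℕ) : ℝ) : ℝ[X]).degree = 1 :=
      fun i _ => degree_X_sub_C _
    rw [Finset.sum_congr rfl h1]
    simp
  have hPd : P.degree = (m : WithBot ℕ) + 1 := by
    rw [hP, degree_mul, degree_X, hprod]
    simp [add_comm]
  have hQd : Q.degree < P.degree := by
    rw [hPd]
    have h1 : Q.degree ≤ (m : WithBot ℕ) := by
      rw [hQ]
      refine (degree_mul_le _ _).trans ?_
      have h2 : (C (3:ℝ)).degree ≤ 0 := degree_C_le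
      have h3 : (∑ j : Fin m, ∏ i ∈ Finset.univ.erase j, (X - C ((i : ℕ) : ℝ))).degree ≤
          (m : WithBot ℕ) := by
        refine (degree_sum_le _ _).trans ?_
        apply Finset.sup_le
        intro j _
        rw [hprod]
        have : (Finset.univ.erase j).card ≤ m := by
          refine (Finset.card_le_univ _).trans ?_
          simp
        exact_mod_cast this
      calc (C (3:ℝ)).degree + (∑ j : Fin m, ∏ i ∈ Finset.univ.erase j, (X - C ((i : ℕ) : ℝ))).degree
          ≤ 0 + (m : WithBot ℕ) := add_le_add h2 h3
        _ = m := by rw [zero_add]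
    refine lt_of_le_of_lt h1 ?_
    have : (m : WithBot ℕ) < ((m + 1 : ℕ) : WithBot ℕ) := by
      exact_mod_cast Nat.lt_succ_self m
    simpa using this
  have hM : (P - Q).Monic := hPm.sub_of_left hQd
  have hdeg : (P - Q).natDegree = m + 1 := by
    have h1 : (P - Q).degree = P.degree := degree_sub_eq_left_of_degree_lt hQd
    rw [hPd] at h1
    apply natDegree_eq_of_degree_eq_some
    rw [h1]; simp
  refine ⟨Finset.univ.image (fun j : Fin m => ((j : ℕ) : ℝ)) ∪ (P - Q).roots.toFinset, ?_, ?_⟩
  · refine (Finset.card_union_le _ _).trans ?_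
    have h1 : (Finset.univ.image (fun j : Fin m => ((j : ℕ) : ℝ))).card ≤ m := by
      refine Finset.card_image_le.trans ?_
      simp
    have h2 : (P - Q).roots.toFinset.card ≤ m + 1 := by
      refine (Multiset.toFinset_card_le _).trans ?_
      rw [← hdeg]
      exact card_roots' _
    omega
  · intro μ hμ
    have hH : (starMat m).IsHermitian := by
      rw [Matrix.IsHermitian, Matrix.conjTranspose_eq_transpose_of_trivial]; exact starMat_symm m
    rw [hH.spectrum_real_eq_range_eigenvalues] at hμ
    obtain ⟨i, rfl⟩ := hμ
    set μ := hH.eigenvalues i with hμdef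
    set x : Option (Fin m × Fin 3) → ℝ := ⇑(hH.eigenvectorBasis i) with hx
    have hx0 : x ≠ 0 := by
      intro h0
      have h1 := hH.eigenvectorBasis.orthonormal.ne_zero i
      apply h1
      ext j
      exact congrFun h0 j
    have hev : starMat m *ᵥ x = μ • x := hH.mulVec_eigenvectorBasis i
    simp only [Finset.coe_union, Finset.coe_image, Finset.coe_univ, Set.image_univ, Set.mem_union,
      Set.mem_range, Finset.mem_coe, Multiset.mem_toFinset]
    by_cases hex : ∃ j : Fin m, ((j : ℕ) : ℝ) = μ
    · exact Or.inl hex
    · right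
      push Not at hex
      rw [mem_roots hM.ne_zero]
      have hsome : ∀ p : Fin m × Fin 3, (μ - ((p.1 : ℕ) : ℝ)) * x (some p) = x none := by
        intro p
        have h1 := congrFun hev (some p)
        simp only [Matrix.mulVec, dotProduct, Fintype.sum_option, starMat, of_apply, one_mul,
          ite_mul, zero_mul, Finset.sum_ite_eq, Finset.mem_univ, if_true, Pi.smul_apply,
          smul_eq_mul] at h1
        linarith
      have hnone : ∑ p : Fin m × Fin 3, x (some p) = μ * x none := by
        have h1 := congrFun hev none
        simpa [Matrix.mulVec, dotProduct, Fintype.sum_option, starMat] using h1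
      have hne : ∀ j : Fin m, μ - ((j : ℕ) : ℝ) ≠ 0 := fun j h => hex j (sub_eq_zero.1 h).symm
      have hx00 : x none ≠ 0 := by
        intro h0
        apply hx0
        ext p
        rcases p with _ | p
        · exact h0
        · have := hsome p
          rw [h0] at this
          exact (mul_eq_zero.1 this).resolve_left (hne p.1)
      have hval : ∀ p : Fin m × Fin 3, x (some p) = x none / (μ - ((p.1 : ℕ) : ℝ)) := by
        intro p
        rw [eq_div_iff (hne p.1), mul_comm]
        exact hsome p
      have hsum : ∑ j : Fin m, 3 * (x none / (μ - ((j : ℕ) : ℝ))) = μ * x none := by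
        rw [← hnone, Fintype.sum_prod_type]
        apply Finset.sum_congr rfl
        intro j _
        simp only [hval]
        simp
      have hsum2 : ∑ j : Fin m, 3 * (μ - ((j : ℕ) : ℝ))⁻¹ = μ := by
        have : (∑ j : Fin m, 3 * (μ - ((j : ℕ) : ℝ))⁻¹) * x none = μ * x none := by
          rw [← hsum, Finset.sum_mul]
          apply Finset.sum_congr rfl
          intro j _
          rw [div_eq_mul_inv]; ring
        exact mul_right_cancel₀ hx00 this
      rw [IsRoot.def, eval_sub, hP, hQ, eval_mul, eval_X, eval_prod, eval_mul, eval_C,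
        eval_finsetSum]
      simp only [eval_sub, eval_X, eval_C, eval_prod]
      have h5 : ∀ j : Fin m, ∏ i ∈ Finset.univ.erase j, (μ - ((i : ℕ) : ℝ)) =
          (μ - ((j : ℕ) : ℝ))⁻¹ * ∏ i : Fin m, (μ - ((i : ℕ) : ℝ)) := by
        intro j
        rw [← Finset.mul_prod_erase Finset.univ _ (Finset.mem_univ j), ← mul_assoc,
          inv_mul_cancel₀ (hne j), one_mul]
      simp only [h5]
      rw [← Finset.sum_mul, ← mul_assoc, Finset.mul_sum, hsum2, sub_self]

theorem SSPq.star (m : ℕ) : SSPq (starGraph m) (2 * m + 1) := by
  obtain ⟨s, hs, hsp⟩ := star_spectrum m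
  refine ⟨starMat m, starMat_symm m, ?_, ?_, s, hs, hsp⟩
  · rintro (_ | x) (_ | y) hxy
    · exact absurd rfl hxy
    · simp [starMat, starGraph]
    · simp [starMat, starGraph]
    · have : x ≠ y := fun h => hxy (by rw [h])
      simp [starMat, starGraph, this]
  · intro X hXs hX hcomm
    have hnn : ∀ y, X none y = 0 := by
      intro y
      apply hX
      rw [SimpleGraph.compl_adj]
      rintro ⟨h1, h2⟩
      exact h2 (Or.inl ⟨rfl, h1.symm⟩)
    have hdd : ∀ y, X y y = 0 := by
      intro y
      apply hX
      simp
    have hne : ∀ p q : Fin m × Fin 3, p.1 ≠ q.1 → X (some p) (some q) = 0 := by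
      intro p q hpq
      have h1 := congrFun (congrFun hcomm (some p)) (some q)
      rw [Matrix.mul_apply, Matrix.mul_apply, Fintype.sum_option, Fintype.sum_option] at h1
      have hs : X (some p) none = 0 := by rw [← hXs.apply]; exact hnn _
      simp only [starMat, of_apply, mul_one, ite_mul, zero_mul, mul_ite, mul_zero,
        Finset.sum_ite_eq, Finset.sum_ite_eq', Finset.mem_univ, if_true, hnn, hs, zero_add] at h1
      have h2 : (((p.1 : ℕ) : ℝ) - ((q.1 : ℕ) : ℝ)) * X (some p) (some q) = 0 := by linarith
      rcases mul_eq_zero.1 h2 with h | h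
      · exfalso
        apply hpq
        have := sub_eq_zero.1 h
        exact Fin.ext (by exact_mod_cast this)
      · exact h
    have hsum : ∀ (j : Fin m) (t : Fin 3), X (some (j, 0)) (some (j, t)) +
        X (some (j, 1)) (some (j, t)) + X (some (j, 2)) (some (j, t)) = 0 := by
      intro j t
      have h1 := congrFun (congrFun hcomm none) (some (j, t))
      rw [Matrix.mul_apply, Matrix.mul_apply, Fintype.sum_option, Fintype.sum_option] at h1
      simp only [starMat, of_apply, one_mul, zero_mul, hnn, zero_add, Finset.sum_const_zero,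
        Fintype.sum_prod_type] at h1
      rw [Finset.sum_eq_single j] at h1
      · simpa [Fin.sum_univ_three] using h1
      · intro b _ hb
        apply Finset.sum_eq_zero
        intro t' _
        exact hne _ _ hb
      · simp
    have hjj : ∀ (j : Fin m) (a b : Fin 3), X (some (j, a)) (some (j, b)) = 0 := by
      intro j a b
      have e0 := hsum j 0
      have e1 := hsum j 1
      have e2 := hsum j 2
      have d0 := hdd (some (j, 0))
      have d1 := hdd (some (j, 1))
      have d2 := hdd (some (j, 2))
      have s01 := hXs.apply (some (j, 0)) (some (j, 1))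
      have s02 := hXs.apply (some (j, 0)) (some (j, 2))
      have s12 := hXs.apply (some (j, 1)) (some (j, 2))
      fin_cases a <;> fin_cases b <;> simp only [Fin.zero_eta, Fin.mk_one, Fin.reduceFinMk] <;>
        linarith
    ext x y
    rcases x with _ | ⟨j, a⟩
    · exact hnn y
    · rcases y with _ | ⟨j', b⟩
      · rw [← hXs.apply]; exact hnn _
      · by_cases h : j = j'
        · subst h; exact hjj j a b
        · exact hne _ _ h

end star

end Pool.Agent.helper46
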