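import Mathlib
import Pool.Agent.helper46.Units

set_option autoImplicit false

open Matrix

namespace Pool.Agent.helper46

variable {V : Type*} [DecidableEq V]

/-- `SSPq` for the subgraph induced on a finite set of vertices. -/
def QS (G : SimpleGraph V) (S : Finset V) (k : ℕ) : Prop :=
  SSPq (G.comap (fun x : {x // x ∈ S} => (x : V))) k

lemma QS.le {G : SimpleGraph V} {S : Finset V} {k l : ℕ} (h : QS G S k) (hkl : k ≤ l) :
    QS G S l := SSPq.le h hkl

lemma QS.card (G : SimpleGraph V) (S : Finset V) : QS G S S.card := by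
  have := SSPq.card (G.comap (fun x : {x // x ∈ S} => (x : V)))
  rwa [Fintype.card_coe] at this

lemma QS.clique {G : SimpleGraph V} {S : Finset V}
    (h : ∀ x ∈ S, ∀ y ∈ S, x ≠ y → G.Adj x y) : QS G S 2 := by
  refine SSPq.mono SSPq.top ?_
  intro x y hxy
  exact h x.1 x.2 y.1 y.2 (fun h => hxy (Subtype.ext h))

lemma QS.union {G : SimpleGraph V} {S T : Finset V} {k l : ℕ} (hST : Disjoint S T)
    (hS : QS G S k) (hT : QS G T l) : QS G (S ∪ T) (k + l) := by
  have h := SSPq.sum hS hT
  have hbij : Function.Bijective (Sum.elim (fun x : {x // x ∈ S} =>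
      (⟨x.1, Finset.mem_union_left _ x.2⟩ : {x // x ∈ S ∪ T}))
      (fun x : {x // x ∈ T} => (⟨x.1, Finset.mem_union_right _ x.2⟩ : {x // x ∈ S ∪ T}))) := by
    constructor
    · rintro (⟨a, ha⟩ | ⟨a, ha⟩) (⟨b, hb⟩ | ⟨b, hb⟩) hab
      · simp only [Sum.elim_inl, Subtype.mk.injEq] at hab
        subst hab; rfl
      · simp only [Sum.elim_inl, Sum.elim_inr, Subtype.mk.injEq] at hab
        subst hab
        exact absurd hb (Finset.disjoint_left.1 hST ha)
      · simp only [Sum.elim_inl, Sum.elim_inr, Subtype.mk.injEq] at hab
        subst hab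
        exact absurd ha (Finset.disjoint_left.1 hST hb)
      · simp only [Sum.elim_inr, Subtype.mk.injEq] at hab
        subst hab; rfl
    · rintro ⟨x, hx⟩
      rcases Finset.mem_union.1 hx with h | h
      · exact ⟨Sum.inl ⟨x, h⟩, rfl⟩
      · exact ⟨Sum.inr ⟨x, h⟩, rfl⟩
  refine SSPq.transport (Equiv.ofBijective _ hbij) h ?_
  rintro (a | a) (b | b) hab
  · simpa using hab
  · simp at hab
  · simp at hab
  · simpa using hab

lemma QS.univ [Fintype V] {G : SimpleGraph V} {k : ℕ} (h : QS G Finset.univ k) : SSPq G k := by
  refine SSPq.transport (Equiv.subtypeUnivEquiv (fun x => Finset.mem_univ x)) h ?_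
  intro a b hab
  exact hab

lemma QS.star {G : SimpleGraph V} {v : V} {L : Finset V} {m : ℕ} (hL : ∀ x ∈ L, G.Adj v x)
    (hcard : L.card = 3 * m) : QS G (insert v L) (2 * m + 1) := by
  have hv : v ∉ L := fun h => (hL v h).ne rfl
  have e1 : Fin m × Fin 3 ≃ {x // x ∈ L} :=
    (finProdFinEquiv (m := m) (n := 3)).trans
      ((finCongr (by rw [hcard, mul_comm])).trans (L.equivFin).symm)
  let e : Option (Fin m × Fin 3) ≃ {x // x ∈ insert v L} :=
    (Equiv.optionCongr e1).trans
      { toFun := fun x => match x with
          | none => ⟨v, Finset.mem_insert_self _ _⟩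
          | some x => ⟨x.1, Finset.mem_insert_of_mem x.2⟩
        invFun := fun x => if h : x.1 ∈ L then some ⟨x.1, h⟩ else none
        left_inv := by
          rintro (_ | ⟨x, hx⟩)
          · simp [hv]
          · simp [hx]
        right_inv := by
          rintro ⟨x, hx⟩
          by_cases h : x ∈ L
          · simp [h]
          · have : x = v := by
              rcases Finset.mem_insert.1 hx with h' | h'
              · exact h'
              · exact absurd h' h
            subst this
            simp [h] }
  refine SSPq.transport e (SSPq.star m) ?_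
  rintro (_ | a) (_ | b) hab
  · simp [starGraph] at hab
  · exact hL _ (e1 b).2
  · exact (hL _ (e1 a).2).symm
  · simp [starGraph] at hab

/-- covering a set by colour classes that are cliques -/
lemma QS.classes {G : SimpleGraph V} {ι : Type*} [DecidableEq ι] (S : Finset V) (c : V → ι)
    (h : ∀ x ∈ S, ∀ y ∈ S, x ≠ y → c x = c y → G.Adj x y) (T : Finset ι) :
    QS G (S.filter (fun x => c x ∈ T)) (2 * T.card) := by
  induction T using Finset.induction_on with
  | empty =>
    have h1 : S.filter (fun x => c x ∈ (∅ : Finset ι)) = ∅ := by simp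
    rw [h1]
    simpa using QS.card G (∅ : Finset V)
  | insert a T ha ih =>
    have h1 : S.filter (fun x => c x ∈ insert a T) =
        S.filter (fun x => c x ∈ T) ∪ S.filter (fun x => c x = a) := by
      ext x
      simp only [Finset.mem_filter, Finset.mem_insert, Finset.mem_union]
      tauto
    rw [h1, Finset.card_insert_of_notMem ha, mul_add, mul_one]
    refine QS.union ?_ ih ?_
    · rw [Finset.disjoint_left]
      intro x hx hx'
      simp only [Finset.mem_filter] at hx hx'
      rw [hx'.2] at hx
      exact ha hx.2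
    · apply QS.clique
      intro x hx y hy hxy
      simp only [Finset.mem_filter] at hx hy
      exact h x hx.1 y hy.1 hxy (by rw [hx.2, hy.2])

end Pool.Agent.helper46
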