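import Mathlib
import Pool.Agent.helper46.Subsets
import Pool.Agent.helper46.Bounded

set_option autoImplicit false

open Matrix

namespace Pool.Agent.helper46

section ramsey

variable {V : Type*} [DecidableEq V]

open Classical in
/-- A finite form of Ramsey's theorem. -/
lemma ramsey (G : SimpleGraph V) : ∀ n s t : ℕ, s + t = n → ∀ S : Finset V, 2 ^ n ≤ S.card →
    (∃ K ⊆ S, K.card = s ∧ ∀ x ∈ K, ∀ y ∈ K, x ≠ y → G.Adj x y) ∨
    (∃ I ⊆ S, I.card = t ∧ ∀ x ∈ I, ∀ y ∈ I, x ≠ y → ¬ G.Adj x y) := by
  intro n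
  induction n with
  | zero =>
    intro s t hst S _
    exact Or.inl ⟨∅, Finset.empty_subset _, by simp; omega, by simp⟩
  | succ n ih =>
    intro s t hst S hS
    rcases Nat.eq_zero_or_pos s with rfl | hs
    · exact Or.inl ⟨∅, Finset.empty_subset _, by simp, by simp⟩
    rcases Nat.eq_zero_or_pos t with rfl | ht
    · exact Or.inr ⟨∅, Finset.empty_subset _, by simp, by simp⟩
    have hpos : 0 < S.card := lt_of_lt_of_le (by positivity) hS
    obtain ⟨v, hv⟩ := Finset.card_pos.1 hpos
    have hsplit := Finset.card_filter_add_card_filter_not (s := S.erase v) (fun x => G.Adj v x)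
    rw [Finset.card_erase_of_mem hv] at hsplit
    have hpow : 2 ^ (n + 1) = 2 ^ n + 2 ^ n := by ring
    have : 2 ^ n ≤ ((S.erase v).filter (fun x => G.Adj v x)).card ∨
        2 ^ n ≤ ((S.erase v).filter (fun x => ¬ G.Adj v x)).card := by omega
    rcases this with h | h
    · rcases ih (s - 1) t (by omega) _ h with ⟨K, hK, hKc, hKa⟩ | ⟨I, hI, hIc, hIa⟩
      · left
        have hvK : v ∉ K := fun hvK => by
          have := hK hvK
          simp at this
        refine ⟨insert v K, ?_, ?_, ?_⟩
        · intro x hx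
          rcases Finset.mem_insert.1 hx with h' | h'
          · rw [h']; exact hv
          · exact Finset.mem_of_mem_erase (Finset.mem_of_mem_filter x (hK h'))
        · rw [Finset.card_insert_of_notMem hvK, hKc]; omega
        · intro x hx y hy hxy
          rcases Finset.mem_insert.1 hx with hx' | hx' <;>
            rcases Finset.mem_insert.1 hy with hy' | hy'
          · exact absurd (hx'.trans hy'.symm) hxy
          · rw [hx']; exact (Finset.mem_filter.1 (hK hy')).2
          · rw [hy']; exact (Finset.mem_filter.1 (hK hx')).2.symm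
          · exact hKa x hx' y hy' hxy
      · right
        exact ⟨I, hI.trans ((Finset.filter_subset _ _).trans (Finset.erase_subset _ _)), hIc, hIa⟩
    · rcases ih s (t - 1) (by omega) _ h with ⟨K, hK, hKc, hKa⟩ | ⟨I, hI, hIc, hIa⟩
      · left
        exact ⟨K, hK.trans ((Finset.filter_subset _ _).trans (Finset.erase_subset _ _)), hKc, hKa⟩
      · right
        have hvI : v ∉ I := fun hvI => by
          have := hI hvI
          simp at this
        refine ⟨insert v I, ?_, ?_, ?_⟩
        · intro x hx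
          rcases Finset.mem_insert.1 hx with h' | h'
          · rw [h']; exact hv
          · exact Finset.mem_of_mem_erase (Finset.mem_of_mem_filter x (hI h'))
        · rw [Finset.card_insert_of_notMem hvI, hIc]; omega
        · intro x hx y hy hxy
          rcases Finset.mem_insert.1 hx with hx' | hx' <;>
            rcases Finset.mem_insert.1 hy with hy' | hy'
          · exact absurd (hx'.trans hy'.symm) hxy
          · rw [hx']; exact (Finset.mem_filter.1 (hI hy')).2
          · rw [hy']; exact fun h' => (Finset.mem_filter.1 (hI hx')).2 h'.symm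
          · exact hIa x hx' y hy' hxy

open Classical in
/-- Greedy colouring. -/
lemma greedy (G : SimpleGraph V) {D : ℕ} (hD : 0 < D) (S : Finset V) :
    (∀ x ∈ S, (S.filter (fun y => G.Adj x y)).card < D) →
    ∃ c : V → Fin D, ∀ x ∈ S, ∀ y ∈ S, G.Adj x y → c x ≠ c y := by
  induction S using Finset.induction_on with
  | empty => intro _; exact ⟨fun _ => ⟨0, hD⟩, by simp⟩
  | insert v S hv ih =>
    intro h
    obtain ⟨c, hc⟩ := ih (fun x hx => lt_of_le_of_lt
      (Finset.card_le_card (Finset.filter_subset_filter _ (Finset.subset_insert v S)))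
      (h x (Finset.mem_insert_of_mem hx)))
    have hcard : ((S.filter (fun y => G.Adj v y)).image c).card < D := by
      refine lt_of_le_of_lt Finset.card_image_le ?_
      exact lt_of_le_of_lt
        (Finset.card_le_card (Finset.filter_subset_filter _ (Finset.subset_insert v S)))
        (h v (Finset.mem_insert_self _ _))
    obtain ⟨t, ht⟩ : ∃ t, t ∉ (S.filter (fun y => G.Adj v y)).image c := by
      by_contra hcon
      push Not at hcon
      have : (S.filter (fun y => G.Adj v y)).image c = Finset.univ := by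
        ext t; simp only [Finset.mem_univ, iff_true]; exact hcon t
      rw [this, Finset.card_univ, Fintype.card_fin] at hcard
      exact lt_irrefl _ hcard
    have ht' : ∀ y ∈ S, G.Adj v y → c y ≠ t := by
      intro y hy hvy hcy
      exact ht (Finset.mem_image.2 ⟨y, Finset.mem_filter.2 ⟨hy, hvy⟩, hcy⟩)
    refine ⟨Function.update c v t, ?_⟩
    intro x hx y hy hxy
    rcases Finset.mem_insert.1 hx with hx' | hx' <;> rcases Finset.mem_insert.1 hy with hy' | hy'
    · exact absurd (hx'.trans hy'.symm) hxy.ne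
    · have hyv : y ≠ v := fun h' => hv (h' ▸ hy')
      rw [hx'] at hxy ⊢
      rw [Function.update_self, Function.update_of_ne hyv]
      exact (ht' y hy' hxy).symm
    · have hxv : x ≠ v := fun h' => hv (h' ▸ hx')
      rw [hy'] at hxy ⊢
      rw [Function.update_self, Function.update_of_ne hxv]
      exact ht' x hx' hxy.symm
    · have hyv : y ≠ v := fun h' => hv (h' ▸ hy')
      have hxv : x ≠ v := fun h' => hv (h' ▸ hx')
      rw [Function.update_of_ne hyv, Function.update_of_ne hxv]
      exact hc x hx' y hy' hxy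

end ramsey

section blocks

variable {V : Type*} [DecidableEq V]

/-- `W` carries matrices for both induced graphs with at most `m` distinct eigenvalues in total -/
def Tot (G : SimpleGraph V) (W : Finset V) (m : ℕ) : Prop :=
  ∃ a b : ℕ, a + b ≤ m ∧ QS G W a ∧ QS Gᶜ W b

lemma Tot.compl {G : SimpleGraph V} {W : Finset V} {m : ℕ} (h : Tot G W m) : Tot Gᶜ W m := by
  obtain ⟨a, b, hab, ha, hb⟩ := h
  exact ⟨b, a, by omega, hb, by rwa [compl_compl]⟩

lemma Tot.union {G : SimpleGraph V} {S T : Finset V} {k l : ℕ} (hST : Disjoint S T)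
    (hS : Tot G S k) (hT : Tot G T l) : Tot G (S ∪ T) (k + l) := by
  obtain ⟨a, b, hab, ha, hb⟩ := hS
  obtain ⟨c, d, hcd, hc, hd⟩ := hT
  exact ⟨a + c, b + d, by omega, ha.union hST hc, hb.union hST hd⟩

/-- A vertex adjacent to twelve vertices of an independent set. -/
lemma tot_star {G : SimpleGraph V} {v : V} {L : Finset V} (hL : ∀ x ∈ L, G.Adj v x)
    (hI : ∀ x ∈ L, ∀ y ∈ L, x ≠ y → ¬ G.Adj x y) (hc : L.card = 12) :
    Tot G (insert v L) 12 := by
  have hv : v ∉ L := fun h => (hL v h).ne rfl
  refine ⟨9, 3, le_rfl, QS.star (m := 4) hL (by omega), ?_⟩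
  have h1 : QS Gᶜ {v} 1 := by simpa using QS.card Gᶜ {v}
  have h2 : QS Gᶜ L 2 := by
    apply QS.clique
    intro x hx y hy hxy
    exact (SimpleGraph.compl_adj _ _ _).2 ⟨hxy, hI x hx y hy hxy⟩
  have h3 := QS.union (Finset.disjoint_singleton_left.2 hv) h1 h2
  rwa [← Finset.insert_eq] at h3

/-- A vertex adjacent to no vertex of a clique of order twelve. -/
lemma tot_costar {G : SimpleGraph V} {v : V} {L : Finset V} (hv : v ∉ L)
    (hL : ∀ x ∈ L, ¬ G.Adj v x)
    (hI : ∀ x ∈ L, ∀ y ∈ L, x ≠ y → G.Adj x y) (hc : L.card = 12) :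
    Tot G (insert v L) 12 := by
  have h : Tot Gᶜ (insert v L) 12 := by
    apply tot_star _ _ hc
    · intro x hx
      exact (SimpleGraph.compl_adj _ _ _).2 ⟨fun h => hv (h ▸ hx), hL x hx⟩
    · intro x hx y hy hxy h'
      exact ((SimpleGraph.compl_adj _ _ _).1 h').2 (hI x hx y hy hxy)
  have := h.compl
  rwa [compl_compl] at this

end blocks

section main

variable {V : Type*} [Fintype V] [DecidableEq V]

/-- The Nordhaus-Gaddum inequality `q(G) + q(Gᶜ) ≤ |G| + 2`. -/
def NG (G : SimpleGraph V) : Prop :=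
  ∃ A B : Matrix V V ℝ, A.IsSymm ∧ B.IsSymm ∧ (∀ i j, i ≠ j → (A i j ≠ 0 ↔ G.Adj i j)) ∧
    (∀ i j, i ≠ j → (B i j ≠ 0 ↔ Gᶜ.Adj i j)) ∧
    (spectrum ℝ A).ncard + (spectrum ℝ B).ncard ≤ Fintype.card V + 2

lemma NG.of_compl {G : SimpleGraph V} (h : NG Gᶜ) : NG G := by
  obtain ⟨A, B, hA, hB, hA', hB', hn⟩ := h
  rw [compl_compl] at hB'
  exact ⟨B, A, hB, hA, hB', hA', by omega⟩

lemma NG.of_tot {G : SimpleGraph V} (h : Tot G Finset.univ (Fintype.card V + 2)) : NG G := by
  obtain ⟨a, b, hab, ha, hb⟩ := h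
  obtain ⟨A, hA, hA', hAn⟩ := ha.univ.exists_matrix
  obtain ⟨B, hB, hB', hBn⟩ := hb.univ.exists_matrix
  exact ⟨A, B, hA, hB, hA', hB', by omega⟩

open Classical in
lemma NG.of_bounded {G : SimpleGraph V} {D : ℕ}
    (hD : ∀ v, (Finset.univ.filter (fun w => G.Adj v w)).card ≤ D)
    (hn : ((D + D * D + 2) * ((D + D * D + 2) * 2)) * (1 + D + D * D) ≤ Fintype.card V) :
    NG G := by
  obtain ⟨B, hB, hB', hBs⟩ := two_eigenvalues_of_bounded_degree hD hn
  obtain ⟨A, hA, hA', hAn⟩ := (SSPq.card G).exists_matrix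
  refine ⟨A, B, hA, hB, hA', hB', add_le_add hAn ?_⟩
  calc (spectrum ℝ B).ncard ≤ ({0, 1} : Set ℝ).ncard := Set.ncard_le_ncard hBs (by simp)
    _ ≤ 2 := Set.ncard_insert_le _ _ |>.trans (by simp)

open Classical in
/-- The case in which a maximal packing by good sets leaves a large independent set. -/
lemma NG.of_indep {G : SimpleGraph V} {D k : ℕ} {W : Finset V} (hWc : W.card = 13 * k)
    (hW : Tot G W (12 * k))
    (hmax : ∀ S : Finset V, S.card = 13 → Disjoint S W → ¬ Tot G S 12)
    {I : Finset V} (hIW : ∀ x ∈ I, x ∉ W) (hI : ∀ x ∈ I, ∀ y ∈ I, x ≠ y → ¬ G.Adj x y)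
    (hIc : 145 ≤ I.card) (hD : 2 ^ 24 ≤ D)
    (hn : ((84 * D + 84 * D * (84 * D) + 2) * ((84 * D + 84 * D * (84 * D) + 2) * 2)) *
      (1 + 84 * D + 84 * D * (84 * D)) ≤ Fintype.card V) : NG G := by
  have hDpos : 0 < D := lt_of_lt_of_le (by norm_num) hD
  have hcardV : W.card + (Finset.univ \ W).card = Fintype.card V := by
    rw [Finset.card_sdiff_of_subset (Finset.subset_univ W), Finset.card_univ]
    have := Finset.card_le_univ W
    omega
  -- no induced star
  have hstar : ∀ v, v ∉ W → ∀ L : Finset V, (∀ x ∈ L, x ∉ W) → L.card = 12 →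
      (∀ x ∈ L, ∀ y ∈ L, x ≠ y → ¬ G.Adj x y) → ¬ (∀ x ∈ L, G.Adj v x) := by
    intro v hv L hLW hLc hLI hL
    have hvL : v ∉ L := fun h => (hL v h).ne rfl
    refine hmax (insert v L) ?_ ?_ (tot_star hL hLI hLc)
    · rw [Finset.card_insert_of_notMem hvL, hLc]
    · rw [Finset.disjoint_left]
      intro x hx
      rcases Finset.mem_insert.1 hx with h | h
      · rw [h]; exact hv
      · exact hLW x h
  have h1 : ∀ v, v ∉ W → (I.filter (fun x => G.Adj v x)).card ≤ 11 := by
    intro v hv
    by_contra hcon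
    push Not at hcon
    obtain ⟨L, hL, hLc⟩ := Finset.exists_subset_card_eq (s := I.filter (fun x => G.Adj v x))
      (n := 12) (by omega)
    refine hstar v hv L (fun x hx => hIW x (Finset.mem_of_mem_filter x (hL hx))) hLc ?_ ?_
    · intro x hx y hy
      exact hI x (Finset.mem_of_mem_filter x (hL hx)) y (Finset.mem_of_mem_filter y (hL hy))
    · intro x hx
      exact (Finset.mem_filter.1 (hL hx)).2
  have h2 : ∀ K : Finset V, (∀ x ∈ K, x ∉ W) → K.card = 12 →
      ¬ (∀ x ∈ K, ∀ y ∈ K, x ≠ y → G.Adj x y) := by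
    intro K hKW hKc hK
    have hb : (K ∪ K.biUnion (fun v => I.filter (fun x => G.Adj v x))).card < I.card := by
      have b1 := Finset.card_biUnion_le_card_mul K (fun v => I.filter (fun x => G.Adj v x)) 11
        (fun v hv => h1 v (hKW v hv))
      have b2 := Finset.card_union_le K (K.biUnion (fun v => I.filter (fun x => G.Adj v x)))
      omega
    obtain ⟨v, hvI, hv⟩ := Finset.exists_mem_notMem_of_card_lt_card hb
    simp only [Finset.mem_union, Finset.mem_biUnion, Finset.mem_filter, not_or, not_exists,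
      not_and] at hv
    have hvn : ∀ x ∈ K, ¬ G.Adj v x := fun x hx h => hv.2 x hx hvI h.symm
    refine hmax (insert v K) ?_ ?_ (tot_costar hv.1 hvn hK hKc)
    · rw [Finset.card_insert_of_notMem hv.1, hKc]
    · rw [Finset.disjoint_left]
      intro x hx
      rcases Finset.mem_insert.1 hx with h | h
      · rw [h]; exact hIW v hvI
      · exact hKW x h
  have h3 : ∀ x ∈ Finset.univ \ W,
      ((Finset.univ \ W).filter (fun y => G.Adj x y)).card < D := by
    intro x hx
    by_contra hcon
    push Not at hcon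
    rcases ramsey G 24 12 12 rfl _ (hD.trans hcon) with ⟨K, hK, hKc, hKa⟩ | ⟨L, hL, hLc, hLa⟩
    · refine h2 K ?_ hKc hKa
      intro y hy
      exact (Finset.mem_sdiff.1 (Finset.mem_of_mem_filter y (hK hy))).2
    · refine hstar x (Finset.mem_sdiff.1 hx).2 L ?_ hLc hLa ?_
      · intro y hy
        exact (Finset.mem_sdiff.1 (Finset.mem_of_mem_filter y (hL hy))).2
      · intro y hy
        exact (Finset.mem_filter.1 (hL hy)).2
  obtain ⟨c, hc⟩ := greedy G hDpos _ h3
  have h4 : QS Gᶜ (Finset.univ \ W) (2 * D) := by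
    have h5 := QS.classes (G := Gᶜ) (Finset.univ \ W) c (by
      intro x hx y hy hxy hcxy
      exact (SimpleGraph.compl_adj _ _ _).2 ⟨hxy, fun h => hc x hx y hy h hcxy⟩) Finset.univ
    simpa using h5
  have hdisj : Disjoint W (Finset.univ \ W) := Finset.disjoint_sdiff
  have huniv : W ∪ (Finset.univ \ W) = Finset.univ := by simp
  by_cases hk : 2 * D ≤ k
  · apply NG.of_tot
    have h6 : Tot G (Finset.univ \ W) ((Finset.univ \ W).card + 2 * D) :=
      ⟨_, _, le_rfl, QS.card G _, h4⟩
    obtain ⟨a, b, hab, ha, hb⟩ := hW.union hdisj h6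
    rw [huniv] at ha hb
    exact ⟨a, b, by omega, ha, hb⟩
  · push Not at hk
    by_cases hdeg : ∀ v, (Finset.univ.filter (fun w => G.Adj v w)).card ≤ 84 * D
    · exact NG.of_bounded hdeg hn
    · push Not at hdeg
      obtain ⟨v, hv⟩ := hdeg
      obtain ⟨L, hL, hLc⟩ := Finset.exists_subset_card_eq
        (s := Finset.univ.filter (fun w => G.Adj v w)) (n := 84 * D) (by omega)
      have hL' : ∀ x ∈ L, G.Adj v x := fun x hx => (Finset.mem_filter.1 (hL hx)).2
      have hvL : v ∉ L := fun h => (hL' v h).ne rfl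
      have q1 : QS G (insert v L) (2 * (28 * D) + 1) := QS.star hL' (by omega)
      have q2 := QS.union Finset.disjoint_sdiff q1 (QS.card G (Finset.univ \ insert v L))
      have hc1 : (insert v L).card = 84 * D + 1 := by
        rw [Finset.card_insert_of_notMem hvL, hLc]
      have hc2 : (insert v L).card + (Finset.univ \ insert v L).card = Fintype.card V := by
        rw [Finset.card_sdiff_of_subset (Finset.subset_univ _), Finset.card_univ]
        have := Finset.card_le_univ (insert v L)
        omega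
      have hu : insert v L ∪ (Finset.univ \ insert v L) = Finset.univ := by simp
      rw [hu] at q2
      have q3 := QS.union hdisj (QS.card Gᶜ W) h4
      rw [huniv] at q3
      apply NG.of_tot
      exact ⟨_, _, by omega, q2, q3⟩

/-- The inequality for all graphs of large order. -/
theorem NG.of_large {D N : ℕ} (hD : 2 ^ 24 ≤ D) (hN : 2 ^ 290 ≤ N) (G : SimpleGraph V)
    (hn1 : 14 * N ≤ Fintype.card V)
    (hn : ((84 * D + 84 * D * (84 * D) + 2) * ((84 * D + 84 * D * (84 * D) + 2) * 2)) *
      (1 + 84 * D + 84 * D * (84 * D)) ≤ Fintype.card V) : NG G := by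
  classical
  -- a maximal packing
  let P : ℕ → Prop := fun k => ∃ W : Finset V, W.card = 13 * k ∧ Tot G W (12 * k)
  have hP0 : P 0 := by
    refine ⟨∅, by simp, 0, 0, by simp, ?_, ?_⟩
    · simpa using QS.card G (∅ : Finset V)
    · simpa using QS.card Gᶜ (∅ : Finset V)
  have hPb : ∀ k, P k → k ≤ Fintype.card V := by
    rintro k ⟨W, hW, -⟩
    have := Finset.card_le_univ W
    omega
  set k := Nat.findGreatest P (Fintype.card V) with hk
  have hPk : P k := Nat.findGreatest_spec (P := P) (Nat.zero_le _) hP0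
  obtain ⟨W, hWc, hW⟩ := hPk
  have hmax : ∀ S : Finset V, S.card = 13 → Disjoint S W → ¬ Tot G S 12 := by
    intro S hS hSW hT
    have hP : P (k + 1) := by
      refine ⟨W ∪ S, ?_, ?_⟩
      · rw [Finset.card_union_of_disjoint hSW.symm, hWc, hS]; ring
      · have := hW.union hSW.symm hT
        have e : 12 * k + 12 = 12 * (k + 1) := by ring
        rwa [e] at this
    have := Nat.le_findGreatest (hPb _ hP) hP
    omega
  have hcardV : W.card + (Finset.univ \ W).card = Fintype.card V := by
    rw [Finset.card_sdiff_of_subset (Finset.subset_univ W), Finset.card_univ]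
    have := Finset.card_le_univ W
    omega
  by_cases hsmall : (Finset.univ \ W).card < N
  · apply NG.of_tot
    have hdisj : Disjoint W (Finset.univ \ W) := Finset.disjoint_sdiff
    have huniv : W ∪ (Finset.univ \ W) = Finset.univ := by simp
    have h6 : Tot G (Finset.univ \ W) ((Finset.univ \ W).card + (Finset.univ \ W).card) :=
      ⟨_, _, le_rfl, QS.card G _, QS.card Gᶜ _⟩
    obtain ⟨a, b, hab, ha, hb⟩ := hW.union hdisj h6
    rw [huniv] at ha hb
    exact ⟨a, b, by omega, ha, hb⟩
  · push Not at hsmall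
    rcases ramsey G 290 145 145 rfl _ (hN.trans hsmall) with ⟨K, hK, hKc, hKa⟩ | ⟨I, hI, hIc, hIa⟩
    · apply NG.of_compl
      refine NG.of_indep (G := Gᶜ) (D := D) (k := k) (W := W) (I := K) hWc hW.compl ?_ ?_ ?_
        hKc.ge hD hn
      · intro S hS hSW hT
        have := hT.compl
        rw [compl_compl] at this
        exact hmax S hS hSW this
      · intro x hx
        exact (Finset.mem_sdiff.1 (hK hx)).2
      · intro x hx y hy hxy h
        exact ((SimpleGraph.compl_adj _ _ _).1 h).2 (hKa x hx y hy hxy)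
    · refine NG.of_indep (G := G) (D := D) (k := k) (W := W) (I := I) hWc hW hmax ?_ hIa
        hIc.ge hD hn
      intro x hx
      exact (Finset.mem_sdiff.1 (hI hx)).2

end main

end Pool.Agent.helper46
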