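import Mathlib
import Pool.Agent.helper46.Absorb

set_option autoImplicit false

open Matrix

open scoped Topology

namespace Pool.Agent.helper46

section nearinj

variable {V : Type*} [Fintype V] [DecidableEq V]

omit [DecidableEq V] in
lemma mulVec_close {A M : Matrix V V ℝ} {δ : ℝ} (h : ∀ i j, |M i j - A i j| ≤ δ) (y : V → ℝ) :
    ‖M *ᵥ y - A *ᵥ y‖ ≤ (Fintype.card V * δ) * ‖y‖ := by
  have hδ0 : ∀ _i : V, 0 ≤ δ := fun i => (abs_nonneg _).trans (h i i)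
  rcases isEmpty_or_nonempty V with hV | ⟨⟨v⟩⟩
  · have : y = 0 := by ext a; exact (hV.false a).elim
    simp [this]
  have hδ := hδ0 v
  rw [pi_norm_le_iff_of_nonneg (by positivity)]
  intro i
  rw [← Matrix.sub_mulVec, Real.norm_eq_abs]
  calc |((M - A) *ᵥ y) i| = |∑ j, (M - A) i j * y j| := rfl
    _ ≤ ∑ j, |(M - A) i j * y j| := Finset.abs_sum_le_sum_abs _ _
    _ ≤ ∑ _j : V, δ * ‖y‖ := by
        apply Finset.sum_le_sum
        intro j _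
        rw [abs_mul]
        exact mul_le_mul (h i j) (norm_le_pi_norm y j) (abs_nonneg _) hδ
    _ = (Fintype.card V * δ) * ‖y‖ := by
        rw [Finset.sum_const, Finset.card_univ, nsmul_eq_mul, mul_assoc]

/-- Injectivity of a linear map depending affinely on a matrix is an open condition. -/
lemma near_inj {E G : Type*} [NormedAddCommGroup E] [NormedSpace ℝ E] [FiniteDimensional ℝ E]
    [NormedAddCommGroup G] [NormedSpace ℝ G] (A : Matrix V V ℝ) (P Q : E →ₗ[ℝ] (V → ℝ))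
    (R : E →ₗ[ℝ] G) (h : ∀ e, A *ᵥ (P e) + Q e = 0 → R e = 0 → e = 0) :
    ∃ δ : ℝ, 0 < δ ∧ ∀ M : Matrix V V ℝ, (∀ i j, |M i j - A i j| < δ) →
      ∀ e, M *ᵥ (P e) + Q e = 0 → R e = 0 → e = 0 := by
  set L : E →ₗ[ℝ] (V → ℝ) × G := ((Matrix.mulVecLin A).comp P + Q).prod R with hL
  have hinj : Function.Injective L := by
    rw [← LinearMap.ker_eq_bot, LinearMap.ker_eq_bot']
    intro e he
    have h1 : A *ᵥ (P e) + Q e = 0 := congrArg Prod.fst he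
    have h2 : R e = 0 := congrArg Prod.snd he
    exact h e h1 h2
  obtain ⟨K, hK, hanti⟩ := (LinearMap.injective_iff_antilipschitz L).1 hinj
  have hKpos : (0 : ℝ) < K := hK
  set C : ℝ := ‖LinearMap.toContinuousLinearMap P‖ with hC
  have hC0 : 0 ≤ C := norm_nonneg _
  set c : ℝ := K * (Fintype.card V * C) + 1 with hc
  have hcpos : 0 < c := by positivity
  refine ⟨1 / (2 * c), by positivity, fun M hM e h1 h2 => ?_⟩
  by_contra he0
  have hen : 0 < ‖e‖ := norm_pos_iff.2 he0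
  have h3 : ‖e‖ ≤ K * ‖L e‖ := by
    have := hanti.le_mul_dist e 0
    simpa [dist_eq_norm] using this
  have h4 : L e = (A *ᵥ (P e) - M *ᵥ (P e), 0) := by
    have h5 : L e = (A *ᵥ (P e) + Q e, R e) := rfl
    rw [h5, h2]
    congr 1
    have h6 : Q e = - (M *ᵥ (P e)) := by
      rw [← add_eq_zero_iff_eq_neg, add_comm]; exact h1
    rw [h6, sub_eq_add_neg]
  have h5 : ‖L e‖ ≤ (Fintype.card V * (1 / (2 * c))) * (C * ‖e‖) := by
    rw [h4, Prod.norm_def]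
    simp only [norm_zero]
    rw [max_eq_left (norm_nonneg _)]
    have h7 : ‖A *ᵥ (P e) - M *ᵥ (P e)‖ ≤ (Fintype.card V * (1 / (2 * c))) * ‖P e‖ :=
      mulVec_close (fun i j => by rw [abs_sub_comm]; exact (hM i j).le) _
    refine h7.trans ?_
    have h8 : ‖P e‖ ≤ C * ‖e‖ := (LinearMap.toContinuousLinearMap P).le_opNorm e
    exact mul_le_mul_of_nonneg_left h8 (by positivity)
  have h6 : ‖e‖ ≤ (K * (Fintype.card V * C) / (2 * c)) * ‖e‖ := by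
    calc ‖e‖ ≤ K * ‖L e‖ := h3
      _ ≤ K * ((Fintype.card V * (1 / (2 * c))) * (C * ‖e‖)) :=
        mul_le_mul_of_nonneg_left h5 hKpos.le
      _ = (K * (Fintype.card V * C) / (2 * c)) * ‖e‖ := by ring
  have h7 : K * (Fintype.card V * C) / (2 * c) < 1 := by
    rw [div_lt_one (by positivity)]
    have : 0 ≤ K * (Fintype.card V * C) := by positivity
    linarith
  nlinarith

lemma near_eig (A : Matrix V V ℝ) (μ : ℝ) (h : ∀ y, A *ᵥ y = μ • y → y = 0) :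
    ∃ δ : ℝ, 0 < δ ∧ ∀ M : Matrix V V ℝ, (∀ i j, |M i j - A i j| < δ) →
      ∀ y, M *ᵥ y = μ • y → y = 0 := by
  obtain ⟨δ, hδ, h1⟩ := near_inj (E := V → ℝ) (G := ℝ) A LinearMap.id (-μ • LinearMap.id) 0
    (by
      intro e he _
      apply h
      simpa [← sub_eq_add_neg, sub_eq_zero] using he)
  refine ⟨δ, hδ, fun M hM y hy => h1 M hM y ?_ rfl⟩
  simp [hy]

lemma near_eig_zero (A : Matrix V V ℝ) (μ : ℝ) (a : V)
    (h : ∀ y, A *ᵥ y = μ • y → y a = 0 → y = 0) :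
    ∃ δ : ℝ, 0 < δ ∧ ∀ M : Matrix V V ℝ, (∀ i j, |M i j - A i j| < δ) →
      ∀ y, M *ᵥ y = μ • y → y a = 0 → y = 0 := by
  obtain ⟨δ, hδ, h1⟩ := near_inj (E := V → ℝ) (G := ℝ) A LinearMap.id (-μ • LinearMap.id)
    (LinearMap.proj a) (by
      intro e he h0
      apply h _ _ h0
      simpa [← sub_eq_add_neg, sub_eq_zero] using he)
  refine ⟨δ, hδ, fun M hM y hy h0 => h1 M hM y ?_ h0⟩
  simp [hy]

lemma near_eig_dot (A : Matrix V V ℝ) (μ : ℝ) (c : V → ℝ)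
    (h : ∀ y, A *ᵥ y = μ • y → c ⬝ᵥ y = 0 → y = 0) :
    ∃ δ : ℝ, 0 < δ ∧ ∀ M : Matrix V V ℝ, (∀ i j, |M i j - A i j| < δ) →
      ∀ y, M *ᵥ y = μ • y → c ⬝ᵥ y = 0 → y = 0 := by
  obtain ⟨δ, hδ, h1⟩ := near_inj (E := V → ℝ) (G := ℝ) A LinearMap.id (-μ • LinearMap.id)
    (dotProductBilin ℝ ℝ c) (by
      intro e he h0
      apply h _ _ h0
      simpa [← sub_eq_add_neg, sub_eq_zero] using he)
  refine ⟨δ, hδ, fun M hM y hy h0 => h1 M hM y ?_ h0⟩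
  simp [hy]

lemma near_resolvent (A : Matrix V V ℝ) (μ : ℝ) (c : V → ℝ) (a : V)
    (h : ∀ (z : V → ℝ) (τ : ℝ), A *ᵥ z + τ • c = μ • z → z a = 0 → z = 0 ∧ τ = 0) :
    ∃ δ : ℝ, 0 < δ ∧ ∀ M : Matrix V V ℝ, (∀ i j, |M i j - A i j| < δ) →
      ∀ (z : V → ℝ) (τ : ℝ), M *ᵥ z + τ • c = μ • z → z a = 0 → z = 0 ∧ τ = 0 := by
  obtain ⟨δ, hδ, h1⟩ := near_inj (E := (V → ℝ) × ℝ) (G := ℝ) A (LinearMap.fst ℝ (V → ℝ) ℝ)
    ((LinearMap.snd ℝ (V → ℝ) ℝ).smulRight c + -μ • LinearMap.fst ℝ (V → ℝ) ℝ)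
    ((LinearMap.proj a).comp (LinearMap.fst ℝ (V → ℝ) ℝ)) (by
      rintro ⟨z, τ⟩ he h0
      have := h z τ (by
        simp only [LinearMap.fst_apply, LinearMap.add_apply, LinearMap.smulRight_apply,
          LinearMap.snd_apply, LinearMap.smul_apply] at he
        rw [← add_assoc, neg_smul, ← sub_eq_add_neg, sub_eq_zero] at he
        exact he) h0
      rw [this.1, this.2]; rfl)
  refine ⟨δ, hδ, fun M hM z τ hz h0 => ?_⟩
  have := h1 M hM (z, τ) (by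
    simp only [LinearMap.fst_apply, LinearMap.add_apply, LinearMap.smulRight_apply,
      LinearMap.snd_apply, LinearMap.smul_apply]
    rw [← add_assoc, neg_smul, ← sub_eq_add_neg, sub_eq_zero]
    exact hz) h0
  exact ⟨congrArg Prod.fst this, congrArg Prod.snd this⟩

end nearinj

section existsmu

variable {V : Type*} [Fintype V] [DecidableEq V]

omit [DecidableEq V] in
lemma exists_mulVec_bound (A : Matrix V V ℝ) : ∃ C : ℝ, 1 ≤ C ∧ ∀ y, ‖A *ᵥ y‖ ≤ C * ‖y‖ := by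
  set L := LinearMap.toContinuousLinearMap (Matrix.mulVecLin A)
  refine ⟨max 1 ‖L‖, le_max_left _ _, fun y => ?_⟩
  calc ‖A *ᵥ y‖ = ‖L y‖ := rfl
    _ ≤ ‖L‖ * ‖y‖ := L.le_opNorm y
    _ ≤ max 1 ‖L‖ * ‖y‖ := mul_le_mul_of_nonneg_right (le_max_right _ _) (norm_nonneg _)

/-- For all large `μ`, the entry at `a` of the solution of `(μ - A) z = c` does not vanish, if some
`A ^ k c` has a nonzero entry at `a`. -/
lemma eventually_resolvent (A : Matrix V V ℝ) (c : V → ℝ) (a : V)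
    (h : ∃ k : ℕ, ((A ^ k) *ᵥ c) a ≠ 0) :
    ∀ᶠ μ : ℝ in Filter.atTop, ∀ (z : V → ℝ) (τ : ℝ), A *ᵥ z + τ • c = μ • z → z a = 0 →
      z = 0 ∧ τ = 0 := by
  classical
  obtain ⟨C, hC1, hC⟩ := exists_mulVec_bound A
  set k := Nat.find h with hk
  have hk1 : ((A ^ k) *ᵥ c) a ≠ 0 := Nat.find_spec h
  have hk2 : ∀ i < k, ((A ^ i) *ᵥ c) a = 0 := by
    intro i hi
    by_contra hne
    exact Nat.find_min h hi hne
  have hpow : ∀ (i : ℕ) (y : V → ℝ), ‖(A ^ i) *ᵥ y‖ ≤ C ^ i * ‖y‖ := by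
    intro i
    induction i with
    | zero => intro y; simp
    | succ i ih =>
      intro y
      rw [pow_succ, ← Matrix.mulVec_mulVec]
      calc ‖(A ^ i) *ᵥ (A *ᵥ y)‖ ≤ C ^ i * ‖A *ᵥ y‖ := ih _
        _ ≤ C ^ i * (C * ‖y‖) := mul_le_mul_of_nonneg_left (hC y) (by positivity)
        _ = C ^ (i + 1) * ‖y‖ := by ring
  set g : ℝ := |((A ^ k) *ᵥ c) a| with hg
  have hgpos : 0 < g := abs_pos.2 hk1
  have e1 : ∀ᶠ μ : ℝ in Filter.atTop, 2 * C ≤ μ := Filter.eventually_ge_atTop _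
  have e2 : ∀ᶠ μ : ℝ in Filter.atTop, (2 * C ^ (k + 1) * ‖c‖ + 1) / g < μ :=
    Filter.eventually_gt_atTop _
  filter_upwards [e1, e2] with μ h1 h2 z τ hz hza
  have hμ : 0 < μ := by linarith
  have hzero : ∀ y : V → ℝ, A *ᵥ y = μ • y → y = 0 := by
    intro y hy
    by_contra hne
    have hpos : 0 < ‖y‖ := norm_pos_iff.2 hne
    have := hC y
    rw [hy, norm_smul, Real.norm_eq_abs, abs_of_pos hμ] at this
    nlinarith
  by_cases hτ : τ = 0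
  · refine ⟨hzero z ?_, hτ⟩
    rw [hτ, zero_smul, add_zero] at hz
    exact hz
  exfalso
  -- normalise
  set w : V → ℝ := (μ * τ⁻¹) • z with hw
  have hw1 : w = c + μ⁻¹ • (A *ᵥ w) := by
    have h4 : w = τ⁻¹ • (A *ᵥ z) + c := by
      rw [hw, mul_comm, ← smul_smul, ← hz, smul_add, smul_smul, inv_mul_cancel₀ hτ, one_smul]
    have h5 : μ⁻¹ • (A *ᵥ w) = τ⁻¹ • (A *ᵥ z) := by
      rw [hw, Matrix.mulVec_smul, smul_smul]
      congr 1
      field_simp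
    rw [h5, add_comm]
    exact h4
  have hw0 : w a = 0 := by simp [hw, hza]
  have hwn : ‖w‖ ≤ 2 * ‖c‖ := by
    have h5 : ‖w‖ ≤ ‖c‖ + μ⁻¹ * (C * ‖w‖) := by
      calc ‖w‖ = ‖c + μ⁻¹ • (A *ᵥ w)‖ := by rw [← hw1]
        _ ≤ ‖c‖ + ‖μ⁻¹ • (A *ᵥ w)‖ := norm_add_le _ _
        _ = ‖c‖ + μ⁻¹ * ‖A *ᵥ w‖ := by
            rw [norm_smul, Real.norm_eq_abs, abs_of_pos (inv_pos.2 hμ)]
        _ ≤ ‖c‖ + μ⁻¹ * (C * ‖w‖) := by
            have := mul_le_mul_of_nonneg_left (hC w) (inv_pos.2 hμ).le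
            linarith
    have h6 : μ⁻¹ * (C * ‖w‖) ≤ ‖w‖ / 2 := by
      have h7 : μ⁻¹ * C ≤ 1 / 2 := by
        rw [inv_mul_le_iff₀ hμ]; linarith
      calc μ⁻¹ * (C * ‖w‖) = (μ⁻¹ * C) * ‖w‖ := by ring
        _ ≤ 1 / 2 * ‖w‖ := mul_le_mul_of_nonneg_right h7 (norm_nonneg _)
        _ = ‖w‖ / 2 := by ring
    linarith
  -- all lower terms vanish
  have hlow : ∀ i ≤ k, ((A ^ i) *ᵥ w) a = 0 := by
    intro i hi
    induction i with
    | zero => simpa using hw0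
    | succ i ih =>
      have h8 := ih (by omega)
      have h9 : (A ^ i) *ᵥ w = (A ^ i) *ᵥ c + μ⁻¹ • ((A ^ (i + 1)) *ᵥ w) := by
        conv_lhs => rw [hw1]
        rw [Matrix.mulVec_add, Matrix.mulVec_smul, Matrix.mulVec_mulVec, pow_succ]
      have h10 := congrFun h9 a
      rw [h8, Pi.add_apply, hk2 i (by omega), zero_add, Pi.smul_apply, smul_eq_mul] at h10
      rcases mul_eq_zero.1 h10.symm with h11 | h11
      · exact absurd h11 (inv_ne_zero hμ.ne')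
      · exact h11
  have h12 := hlow k le_rfl
  have h13 : (A ^ k) *ᵥ c = (A ^ k) *ᵥ w - μ⁻¹ • ((A ^ (k + 1)) *ᵥ w) := by
    have : (A ^ k) *ᵥ w = (A ^ k) *ᵥ c + μ⁻¹ • ((A ^ (k + 1)) *ᵥ w) := by
      conv_lhs => rw [hw1]
      rw [Matrix.mulVec_add, Matrix.mulVec_smul, Matrix.mulVec_mulVec, pow_succ]
    rw [this]; abel
  have h14 : g ≤ μ⁻¹ * (C ^ (k + 1) * (2 * ‖c‖)) := by
    rw [hg, h13, Pi.sub_apply, h12, zero_sub, abs_neg, Pi.smul_apply, smul_eq_mul, abs_mul,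
      abs_of_pos (inv_pos.2 hμ)]
    apply mul_le_mul_of_nonneg_left _ (inv_pos.2 hμ).le
    calc |((A ^ (k + 1)) *ᵥ w) a| ≤ ‖(A ^ (k + 1)) *ᵥ w‖ := norm_le_pi_norm ((A ^ (k + 1)) *ᵥ w) a
      _ ≤ C ^ (k + 1) * ‖w‖ := hpow _ _
      _ ≤ C ^ (k + 1) * (2 * ‖c‖) := mul_le_mul_of_nonneg_left hwn (by positivity)
  rw [div_lt_iff₀ hgpos] at h2
  rw [le_inv_mul_iff₀ hμ] at h14
  nlinarith

/-- Existence of a suitable new eigenvalue. -/
lemma exists_mu (A : Matrix V V ℝ) (c : V → ℝ) (K : Finset V) (s : Finset ℝ)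
    (h : ∀ a ∈ K, ∃ k : ℕ, ((A ^ k) *ᵥ c) a ≠ 0) :
    ∃ μ : ℝ, μ ∉ s ∧ (∀ y, A *ᵥ y = μ • y → y = 0) ∧
      ∀ a ∈ K, ∀ (z : V → ℝ) (τ : ℝ), A *ᵥ z + τ • c = μ • z → z a = 0 → z = 0 ∧ τ = 0 := by
  obtain ⟨C, hC1, hC⟩ := exists_mulVec_bound A
  have e1 : ∀ᶠ μ : ℝ in Filter.atTop, ∀ a ∈ K, ∀ (z : V → ℝ) (τ : ℝ),
      A *ᵥ z + τ • c = μ • z → z a = 0 → z = 0 ∧ τ = 0 := by
    rw [Filter.eventually_all_finset]
    intro a ha
    exact eventually_resolvent A c a (h a ha)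
  have e2 : ∀ᶠ μ : ℝ in Filter.atTop, C < μ := Filter.eventually_gt_atTop _
  have e3 : ∀ᶠ μ : ℝ in Filter.atTop, ∀ x ∈ s, x < μ := by
    rw [Filter.eventually_all_finset]
    intro x _
    exact Filter.eventually_gt_atTop x
  obtain ⟨μ, h1, h2, h3⟩ := (e1.and (e2.and e3)).exists
  refine ⟨μ, fun hμ => lt_irrefl _ (h3 μ hμ), fun y hy => ?_, h1⟩
  by_contra hne
  have hpos : 0 < ‖y‖ := norm_pos_iff.2 hne
  have := hC y
  have hμ : 0 < μ := by linarith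
  rw [hy, norm_smul, Real.norm_eq_abs, abs_of_pos hμ] at this
  nlinarith

end existsmu

end Pool.Agent.helper46
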