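import Mathlib
import Pool.Agent.helper46.Border
import Pool.Agent.helper46.Subsets

set_option autoImplicit false

open Matrix

open scoped Topology

namespace Pool.Agent.helper46

section border

variable {V : Type*} [Fintype V] [DecidableEq V]

/-- Adding one new vertex and one new eigenvalue, with complete control of the new column. -/
theorem border {G : SimpleGraph (V ⊕ Unit)} (A : Matrix V V ℝ) (hA : A.IsSymm)
    (hpat : ∀ i j, i ≠ j → (A i j ≠ 0 ↔ G.Adj (Sum.inl i) (Sum.inl j)))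
    (hR : Reg (G.comap (Sum.inl : V → V ⊕ Unit))ᶜ A) (μ : ℝ)
    (hμ : ∀ y, A *ᵥ y = μ • y → y = 0) (c : V → ℝ)
    (hc : ∀ a, c a ≠ 0 ↔ G.Adj (Sum.inl a) (Sum.inr ())) {δ : ℝ} (hδ : 0 < δ) :
    ∃ (M : Matrix (V ⊕ Unit) (V ⊕ Unit) ℝ) (η : ℝ), 0 < η ∧ M.IsSymm ∧
      (∀ i j, i ≠ j → (M i j ≠ 0 ↔ G.Adj i j)) ∧ Reg Gᶜ M ∧
      (∃ u : (Matrix (V ⊕ Unit) (V ⊕ Unit) ℝ)ˣ,
        M = u * fromBlocks A 0 0 (Matrix.diagonal fun _ : Unit => μ) *
          (u⁻¹ : (Matrix (V ⊕ Unit) (V ⊕ Unit) ℝ)ˣ)) ∧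
      (∀ i j, |M i j - fromBlocks A 0 0 (Matrix.diagonal fun _ : Unit => μ) i j| < δ) ∧
      (∀ a, M (Sum.inl a) (Sum.inr ()) = η * c a) := by
  classical
  set M₀ : Matrix (V ⊕ Unit) (V ⊕ Unit) ℝ :=
    fromBlocks A 0 0 (Matrix.diagonal fun _ : Unit => μ) with hM₀
  set F : SimpleGraph (V ⊕ Unit) := Gᶜ ⊔ completeBipartiteGraph V Unit with hF
  have hcomap : F.comap (Sum.inl : V → V ⊕ Unit) = (G.comap (Sum.inl : V → V ⊕ Unit))ᶜ := by
    ext i j
    simp [hF, SimpleGraph.compl_adj, completeBipartiteGraph]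
  have hM₀s : M₀.IsSymm := by
    rw [hM₀, Matrix.isSymm_fromBlocks_iff]
    exact ⟨hA, by simp, by simp, Matrix.isSymm_diagonal _⟩
  have hRF : Reg F M₀ := by
    apply reg_absorb
    · rw [hcomap]; exact hR
    · intro a b _; rfl
    · intro _ y hy _
      exact hμ y hy
  have hRG : Reg Gᶜ M₀ := hRF.mono le_sup_left
  obtain ⟨δ₁, hδ₁, hreg⟩ := reg_open Gᶜ M₀ hRG
  obtain ⟨δ₂, hδ₂, hlow⟩ := exists_lower M₀
  obtain ⟨ε, hε, hper⟩ := perturb F M₀ hM₀s hRF (δ := min δ (min δ₁ δ₂))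
    (lt_min hδ (lt_min hδ₁ hδ₂))
  set η : ℝ := ε / (2 * (1 + ‖c‖)) with hη
  have hc0 : 0 ≤ ‖c‖ := norm_nonneg c
  have hηpos : 0 < η := by positivity
  have hηc : ∀ a, |η * c a| < ε := by
    intro a
    rw [abs_mul, abs_of_pos hηpos]
    have h1 : |c a| ≤ ‖c‖ := norm_le_pi_norm c a
    calc η * |c a| ≤ η * (1 + ‖c‖) := mul_le_mul_of_nonneg_left (by linarith) hηpos.le
      _ = ε / 2 := by rw [hη]; field_simp
      _ < ε := by linarith
  set T : Matrix (V ⊕ Unit) (V ⊕ Unit) ℝ :=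
    fromBlocks A (Matrix.of fun a _ => η * c a) (Matrix.of fun _ a => η * c a)
      (Matrix.diagonal fun _ : Unit => μ) with hT
  have hTs : T.IsSymm := by
    rw [hT, Matrix.isSymm_fromBlocks_iff]
    exact ⟨hA, by ext i j; simp, by ext i j; simp, Matrix.isSymm_diagonal _⟩
  obtain ⟨B, hBs, hBM, hBT, hu⟩ := hper T hTs (by
    rintro (i | i) (j | j) _
    · simp [hT, hM₀, hε]
    · simpa [hT, hM₀] using hηc i
    · simpa [hT, hM₀] using hηc j
    · simp [hT, hM₀, hε])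
  have hcol : ∀ a, B (Sum.inl a) (Sum.inr ()) = η * c a := by
    intro a
    rw [hBT _ _ (Or.inr (by simp [completeBipartiteGraph]))]
    simp [hT]
  refine ⟨B, η, hηpos, hBs, ?_, ?_, hu, ?_, hcol⟩
  · rintro (i | i) (j | j) hij
    · have hij' : i ≠ j := fun h => hij (by rw [h])
      by_cases hG : G.Adj (Sum.inl i) (Sum.inl j)
      · have h1 : M₀ (Sum.inl i) (Sum.inl j) ≠ 0 := by
          simpa [hM₀] using (hpat i j hij').2 hG
        have h2 := hlow _ _ h1
        have h3 := hBM (Sum.inl i) (Sum.inl j)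
        have h4 : |B (Sum.inl i) (Sum.inl j) - M₀ (Sum.inl i) (Sum.inl j)| <
            |M₀ (Sum.inl i) (Sum.inl j)| :=
          lt_of_lt_of_le h3 (((min_le_right _ _).trans (min_le_right _ _)).trans h2)
        refine ⟨fun _ => hG, fun _ h5 => ?_⟩
        rw [h5, zero_sub, abs_neg] at h4
        exact lt_irrefl _ h4
      · rw [hBT _ _ (Or.inl ((SimpleGraph.compl_adj _ _ _).2 ⟨hij, hG⟩))]
        have h0 : A i j = 0 := by
          by_contra h
          exact hG ((hpat i j hij').1 h)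
        simp [hT, h0, hG]
    · rw [hcol i, mul_ne_zero_iff]
      exact ⟨fun h => (hc i).1 h.2, fun h => ⟨hηpos.ne', (hc i).2 h⟩⟩
    · rw [← hBs.apply, G.adj_comm]
      rw [hcol j, mul_ne_zero_iff]
      exact ⟨fun h => (hc j).1 h.2, fun h => ⟨hηpos.ne', (hc j).2 h⟩⟩
    · exact absurd rfl hij
  · exact hreg B (fun i j => (hBM i j).trans_le ((min_le_right _ _).trans (min_le_left _ _)))
  · exact fun i j => (hBM i j).trans_le (min_le_left _ _)

end border

section pair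

variable {V : Type*} [Fintype V] [DecidableEq V]

/-- Pair lemma, matrix form: if two neighbours of the last vertex `t` are reached by the
eigenvector of the new eigenvalue. -/
theorem SSPq.pair_aux {G : SimpleGraph ((V ⊕ Unit) ⊕ Unit)} {k : ℕ}
    (h : SSPq (G.comap (fun v : V => Sum.inl (Sum.inl v))) k) (K : Finset V)
    (hc : ∀ A : Matrix V V ℝ, (∀ i j, i ≠ j → (A i j ≠ 0 ↔
        G.Adj (Sum.inl (Sum.inl i)) (Sum.inl (Sum.inl j)))) →
      ∃ c : V → ℝ, (∀ a, c a ≠ 0 ↔ G.Adj (Sum.inl (Sum.inl a)) (Sum.inl (Sum.inr ()))) ∧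
      ∀ a ∈ K, ∃ k : ℕ, ((A ^ k) *ᵥ c) a ≠ 0)
    (hK : ∃ a b : V ⊕ Unit, a ≠ b ∧ (a = Sum.inr () ∨ ∃ v ∈ K, a = Sum.inl v) ∧
      (b = Sum.inr () ∨ ∃ v ∈ K, b = Sum.inl v) ∧ G.Adj (Sum.inl a) (Sum.inr ()) ∧
      G.Adj (Sum.inl b) (Sum.inr ())) : SSPq G (k + 1) := by
  classical
  obtain ⟨A, h1, h2, h3, s, hs, h4⟩ := h
  obtain ⟨c, hc1, hc2⟩ := hc A h2
  obtain ⟨μ, hμs, hμ0, hμK⟩ := exists_mu A c K s hc2
  -- the radius
  obtain ⟨δ₁, hδ₁, hn1⟩ := near_eig A μ hμ0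
  have hn2 : ∀ᶠ δ in 𝓝[>] (0 : ℝ), ∀ a ∈ K, ∀ M : Matrix V V ℝ, (∀ i j, |M i j - A i j| < δ) →
      ∀ (z : V → ℝ) (τ : ℝ), M *ᵥ z + τ • c = μ • z → z a = 0 → z = 0 ∧ τ = 0 := by
    rw [Filter.eventually_all_finset]
    intro a ha
    obtain ⟨δ, hδ, h⟩ := near_resolvent A μ c a (hμK a ha)
    have : Set.Ioo (0:ℝ) δ ∈ 𝓝[>] (0 : ℝ) := Ioo_mem_nhdsGT hδ
    filter_upwards [this] with δ' hδ' M hM
    exact h M (fun i j => (hM i j).trans hδ'.2)
  obtain ⟨δ₂, hn2', hδ₂⟩ := (hn2.and self_mem_nhdsWithin).exists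
  obtain ⟨M, η, hη, m1, m2, m3, ⟨u, hu⟩, m5, m6⟩ := border
    (G := G.comap (Sum.inl : V ⊕ Unit → (V ⊕ Unit) ⊕ Unit)) A h1 h2 h3 μ hμ0 c hc1
    (δ := min δ₁ δ₂) (lt_min hδ₁ hδ₂)
  -- the eigenvectors of `M` for `μ`
  set MV : Matrix V V ℝ := fun i j => M (Sum.inl i) (Sum.inl j) with hMV
  have hMVA : ∀ i j, |MV i j - A i j| < min δ₁ δ₂ := by
    intro i j
    simpa [hMV] using m5 (Sum.inl i) (Sum.inl j)
  have hblock : ∀ y : V ⊕ Unit → ℝ, M *ᵥ y = μ • y →
      MV *ᵥ (fun i => y (Sum.inl i)) + (η * y (Sum.inr ())) • c =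
        μ • (fun i => y (Sum.inl i)) := by
    intro y hy
    ext i
    have h5 := congrFun hy (Sum.inl i)
    simp only [Matrix.mulVec, dotProduct, Fintype.sum_sum_type, Finset.univ_unique,
      PUnit.default_eq_unit, Finset.sum_singleton, Pi.smul_apply, smul_eq_mul] at h5
    simp only [Matrix.mulVec, dotProduct, Pi.add_apply, Pi.smul_apply, smul_eq_mul, hMV]
    rw [← h5, m6 i]; ring
  have hv1 : ∀ y : V ⊕ Unit → ℝ, M *ᵥ y = μ • y → ∀ a ∈ K, y (Sum.inl a) = 0 → y = 0 := by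
    intro y hy a ha h0
    obtain ⟨e1, e2⟩ := hn2' a ha MV (fun i j => (hMVA i j).trans_le (min_le_right _ _)) _ _
      (hblock y hy) h0
    ext i
    rcases i with i | i
    · exact congrFun e1 i
    · rcases mul_eq_zero.1 e2 with h | h
      · exact absurd h hη.ne'
      · exact h
  have hv2 : ∀ y : V ⊕ Unit → ℝ, M *ᵥ y = μ • y → y (Sum.inr ()) = 0 → y = 0 := by
    intro y hy h0
    have h5 := hblock y hy
    rw [h0, mul_zero, zero_smul, add_zero] at h5
    have e1 := hn1 MV (fun i j => (hMVA i j).trans_le (min_le_left _ _)) _ h5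
    ext i
    rcases i with i | i
    · exact congrFun e1 i
    · exact h0
  have hv : ∀ y : V ⊕ Unit → ℝ, M *ᵥ y = μ • y → ∀ a : V ⊕ Unit,
      (a = Sum.inr () ∨ ∃ v ∈ K, a = Sum.inl v) → y a = 0 → y = 0 := by
    rintro y hy a (rfl | ⟨v, hv, rfl⟩) h0
    · exact hv2 y hy h0
    · exact hv1 y hy v hv h0
  refine SSPq.absorb (G := G) (k := k + 1) M m1 m2 m3 (insert μ s)
    ((Finset.card_insert_le _ _).trans (by omega)) ?_ (fun _ => μ) (fun _ _ _ => rfl)
    (fun _ => Finset.mem_insert_self _ _) ?_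
  · rw [spectrum_conj ⟨u, hu⟩]
    intro x hx
    rcases spectrum_fromBlocks hx with h | h
    · exact Finset.mem_coe.2 (Finset.mem_insert_of_mem (h4 h))
    · rw [spectrum_diagonal] at h
      obtain ⟨_, rfl⟩ := h
      exact Finset.mem_coe.2 (Finset.mem_insert_self _ _)
  · rintro ⟨⟩ y hy w hw
    obtain ⟨a, b, hab, ha, hb, ha', hb'⟩ := hK
    by_cases haw : a = w
    · have hbw : b ≠ w := fun h => hab (haw.trans h.symm)
      exact hv y hy b hb (hw b hbw hb')
    · exact hv y hy a ha (hw a haw ha')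

omit [DecidableEq V] in
/-- Existence of a suitable column. -/
lemma exists_column [DecidableEq V] (A : Matrix V V ℝ) (N : V → Prop) (K : Finset V)
    (hK : ∀ b ∈ K, N b ∨ ∃ w, N w ∧ A b w ≠ 0) :
    ∃ c : V → ℝ, (∀ a, c a ≠ 0 ↔ N a) ∧ ∀ b ∈ K, ∃ k : ℕ, ((A ^ k) *ᵥ c) b ≠ 0 := by
  classical
  let p : Submodule ℝ (V → ℝ) :=
    { carrier := {c | ∀ a, ¬ N a → c a = 0}
      add_mem' := fun {x y} hx hy a ha => by simp [hx a ha, hy a ha]
      zero_mem' := fun a _ => rfl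
      smul_mem' := fun r x hx a ha => by simp [hx a ha] }
  let f : {a : V // N a} ⊕ {b : V // b ∈ K ∧ ¬ N b} → Module.Dual ℝ (V → ℝ)
    | Sum.inl a => LinearMap.proj a.1
    | Sum.inr b => (LinearMap.proj b.1).comp (Matrix.mulVecLin A)
  obtain ⟨c, hcp, hc⟩ := Module.Dual.exists_forall_mem_ne_zero_of_forall_exists p f (by
    rintro (⟨a, ha⟩ | ⟨b, hb, hnb⟩)
    · refine ⟨Pi.single a 1, ?_, ?_⟩
      · intro x hx
        rw [Pi.single_apply, if_neg]
        rintro rfl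
        exact hx ha
      · simp [f]
    · rcases hK b hb with h | ⟨w, hw, hAw⟩
      · exact absurd h hnb
      · refine ⟨Pi.single w 1, ?_, ?_⟩
        · intro x hx
          rw [Pi.single_apply, if_neg]
          rintro rfl
          exact hx hw
        · simpa [f] using hAw)
  refine ⟨c, ?_, ?_⟩
  · intro a
    refine ⟨fun h => ?_, fun h => hc (Sum.inl ⟨a, h⟩)⟩
    by_contra hN
    exact h (hcp a hN)
  · intro b hb
    by_cases hN : N b
    · exact ⟨0, by rw [pow_zero, Matrix.one_mulVec]; exact hc (Sum.inl ⟨b, hN⟩)⟩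
    · exact ⟨1, by simpa [f] using hc (Sum.inr ⟨b, hb, hN⟩)⟩

end pair

section qs

variable {V : Type*} [DecidableEq V]

/-- `a` is within distance two of `t'` (through `S`). -/
def Near (G : SimpleGraph V) (S : Finset V) (t' a : V) : Prop :=
  a = t' ∨ G.Adj t' a ∨ ∃ w ∈ S, G.Adj t' w ∧ G.Adj w a

/-- `t` has two neighbours in `insert t' S` within distance two of `t'`. -/
def Good (G : SimpleGraph V) (S : Finset V) (t' t : V) : Prop :=
  ∃ a b, a ≠ b ∧ a ∈ insert t' S ∧ b ∈ insert t' S ∧ G.Adj t a ∧ G.Adj t b ∧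
    Near G S t' a ∧ Near G S t' b

omit [DecidableEq V] in
lemma Near.mono {G : SimpleGraph V} {S S' : Finset V} (h : S ⊆ S') {t' a : V}
    (hN : Near G S t' a) : Near G S' t' a := by
  rcases hN with h1 | h1 | ⟨w, hw, h2⟩
  · exact Or.inl h1
  · exact Or.inr (Or.inl h1)
  · exact Or.inr (Or.inr ⟨w, h hw, h2⟩)

lemma Good.mono {G : SimpleGraph V} {S S' : Finset V} (h : S ⊆ S') {t' t : V}
    (hG : Good G S t' t) : Good G S' t' t := by
  obtain ⟨a, b, hab, ha, hb, h1, h2, h3, h4⟩ := hG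
  exact ⟨a, b, hab, Finset.insert_subset_insert _ h ha, Finset.insert_subset_insert _ h hb, h1, h2,
    h3.mono h, h4.mono h⟩

/-- Pair lemma: two new vertices, one new eigenvalue. -/
theorem QS.pair {G : SimpleGraph V} {S : Finset V} {k : ℕ} {t t' : V} (ht : t ∉ S)
    (ht' : t' ∉ S) (hne : t ≠ t') (hG : Good G S t' t) (hq : QS G S k) :
    QS G (insert t (insert t' S)) (k + 1) := by
  classical
  let ψ : ({x // x ∈ S} ⊕ Unit) ⊕ Unit → V
    | Sum.inl (Sum.inl x) => x.1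
    | Sum.inl (Sum.inr _) => t'
    | Sum.inr _ => t
  have key : SSPq (G.comap ψ) (k + 1) := by
    refine SSPq.pair_aux (G := G.comap ψ) (k := k) hq
      (Finset.univ.filter fun a : {x // x ∈ S} => G.Adj t' a.1 ∨ ∃ w ∈ S, G.Adj t' w ∧ G.Adj w a.1)
      ?_ ?_
    · intro A hA
      obtain ⟨c, hc1, hc2⟩ := exists_column A (fun a : {x // x ∈ S} => G.Adj t' a.1)
        (Finset.univ.filter fun a : {x // x ∈ S} =>
          G.Adj t' a.1 ∨ ∃ w ∈ S, G.Adj t' w ∧ G.Adj w a.1) (by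
          intro b hb
          rw [Finset.mem_filter] at hb
          rcases hb.2 with h | ⟨w, hw, h1, h2⟩
          · exact Or.inl h
          · refine Or.inr ⟨⟨w, hw⟩, h1, ?_⟩
            rw [hA b ⟨w, hw⟩ (fun h => h2.ne (by rw [h]))]
            exact h2.symm)
      refine ⟨c, fun a => ?_, hc2⟩
      rw [hc1 a]
      exact G.adj_comm _ _
    · obtain ⟨a, b, hab, ha, hb, h1, h2, h3, h4⟩ := hG
      have lift : ∀ a, a ∈ insert t' S → G.Adj t a → Near G S t' a →
          ∃ x : {x // x ∈ S} ⊕ Unit, (x = Sum.inr () ∨ ∃ v ∈ (Finset.univ.filter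
            fun a : {x // x ∈ S} => G.Adj t' a.1 ∨ ∃ w ∈ S, G.Adj t' w ∧ G.Adj w a.1),
            x = Sum.inl v) ∧ ψ (Sum.inl x) = a := by
        intro a ha h1 h3
        rcases Finset.mem_insert.1 ha with h | h
        · exact ⟨Sum.inr (), Or.inl rfl, h.symm⟩
        · refine ⟨Sum.inl ⟨a, h⟩, Or.inr ⟨⟨a, h⟩, ?_, rfl⟩, rfl⟩
          rw [Finset.mem_filter]
          refine ⟨Finset.mem_univ _, ?_⟩
          rcases h3 with h4 | h4
          · exact absurd (h4 ▸ h) ht'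
          · exact h4
      obtain ⟨x, hx1, hx2⟩ := lift a ha h1 h3
      obtain ⟨y, hy1, hy2⟩ := lift b hb h2 h4
      refine ⟨x, y, fun h => hab (by rw [← hx2, ← hy2, h]), hx1, hy1, ?_, ?_⟩
      · rw [SimpleGraph.comap_adj, hx2]; exact h1.symm
      · rw [SimpleGraph.comap_adj, hy2]; exact h2.symm
  let e : ({x // x ∈ S} ⊕ Unit) ⊕ Unit → {x // x ∈ insert t (insert t' S)} := fun x =>
    ⟨ψ x, by
      rcases x with (x | x) | x
      · exact Finset.mem_insert_of_mem (Finset.mem_insert_of_mem x.2)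
      · exact Finset.mem_insert_of_mem (Finset.mem_insert_self _ _)
      · exact Finset.mem_insert_self _ _⟩
  have he : Function.Bijective e := by
    constructor
    · rintro ((x | x) | x) ((y | y) | y) hxy
      · simp only [e, ψ, Subtype.mk.injEq] at hxy
        rw [Subtype.ext hxy]
      · simp only [e, ψ, Subtype.mk.injEq] at hxy
        exact absurd (hxy ▸ x.2) ht'
      · simp only [e, ψ, Subtype.mk.injEq] at hxy
        exact absurd (hxy ▸ x.2) ht
      · simp only [e, ψ, Subtype.mk.injEq] at hxy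
        exact absurd (hxy ▸ y.2) ht'
      · rfl
      · simp only [e, ψ, Subtype.mk.injEq] at hxy
        exact absurd hxy.symm hne
      · simp only [e, ψ, Subtype.mk.injEq] at hxy
        exact absurd (hxy ▸ y.2) ht
      · simp only [e, ψ, Subtype.mk.injEq] at hxy
        exact absurd hxy hne
      · rfl
    · rintro ⟨x, hx⟩
      rcases Finset.mem_insert.1 hx with h | h
      · exact ⟨Sum.inr (), Subtype.ext h.symm⟩
      · rcases Finset.mem_insert.1 h with h | h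
        · exact ⟨Sum.inl (Sum.inr ()), Subtype.ext h.symm⟩
        · exact ⟨Sum.inl (Sum.inl ⟨x, h⟩), rfl⟩
  exact SSPq.transport (Equiv.ofBijective e he) key (fun a b hab => hab)

end qs

end Pool.Agent.helper46
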