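import Mathlib
import Pool.Agent.helper46.Pair

set_option autoImplicit false

open Matrix

open scoped Topology

namespace Pool.Agent.helper46

section eig

variable {V : Type*} [Fintype V] [DecidableEq V]

/-- No eigenvector has a zero entry. -/
def NW (A : Matrix V V ℝ) : Prop :=
  ∀ (μ : ℝ) (y : V → ℝ), A *ᵥ y = μ • y → ∀ a, y a = 0 → y = 0

lemma isHermitian_of_isSymm {A : Matrix V V ℝ} (h : A.IsSymm) : A.IsHermitian := by
  rw [Matrix.IsHermitian, Matrix.conjTranspose_eq_transpose_of_trivial]; exact h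

/-- the eigenvectors as functions -/
noncomputable def evec {A : Matrix V V ℝ} (hA : A.IsHermitian) (i : V) : V → ℝ :=
  ⇑(hA.eigenvectorBasis i)

lemma evec_eq {A : Matrix V V ℝ} (hA : A.IsHermitian) (i : V) :
    A *ᵥ (evec hA i) = hA.eigenvalues i • evec hA i := hA.mulVec_eigenvectorBasis i

lemma evec_ne {A : Matrix V V ℝ} (hA : A.IsHermitian) (i : V) : evec hA i ≠ 0 := by
  intro h0
  apply hA.eigenvectorBasis.orthonormal.ne_zero i
  ext j
  exact congrFun h0 j

lemma evec_dot {A : Matrix V V ℝ} (hA : A.IsHermitian) {i j : V} (hij : i ≠ j) :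
    evec hA i ⬝ᵥ evec hA j = 0 := by
  have h : inner ℝ (hA.eigenvectorBasis i) (hA.eigenvectorBasis j) = 0 :=
    hA.eigenvectorBasis.orthonormal.2 hij
  rw [EuclideanSpace.inner_eq_star_dotProduct] at h
  rw [dotProduct_comm]
  simpa [evec] using h

lemma exists_expansion {A : Matrix V V ℝ} (hA : A.IsHermitian) (y : V → ℝ) :
    y = ∑ j, (evec hA j ⬝ᵥ y) • evec hA j := by
  set y' : EuclideanSpace ℝ V := WithLp.toLp 2 y with hy'
  have hrep := hA.eigenvectorBasis.sum_repr y'
  have h6 := congrArg (fun z : EuclideanSpace ℝ V => (⇑z : V → ℝ)) hrep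
  simp only at h6
  have h7 : (⇑y' : V → ℝ) = y := rfl
  rw [h7] at h6
  conv_lhs => rw [← h6]
  ext i
  simp only [WithLp.ofLp_sum, WithLp.ofLp_smul, Finset.sum_apply, Pi.smul_apply, smul_eq_mul]
  apply Finset.sum_congr rfl
  intro j _
  congr 1
  rw [OrthonormalBasis.repr_apply_apply, EuclideanSpace.inner_eq_star_dotProduct, dotProduct_comm]
  simp [evec, hy']

lemma NW.injective {A : Matrix V V ℝ} (hA : A.IsHermitian) (hN : NW A) :
    Function.Injective hA.eigenvalues := by
  intro i j hij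
  by_contra hne
  have h1 := evec_eq hA i
  have h2 := evec_eq hA j
  rw [← hij] at h2
  have h3 := hN (hA.eigenvalues i) (evec hA j i • evec hA i - evec hA i i • evec hA j) (by
    rw [Matrix.mulVec_sub, Matrix.mulVec_smul, Matrix.mulVec_smul, h1, h2, smul_sub,
      smul_comm, smul_comm (evec hA i i)]) i (by simp [mul_comm])
  have h4 : evec hA i ⬝ᵥ (evec hA j i • evec hA i - evec hA i i • evec hA j) = 0 := by
    rw [h3, dotProduct_zero]
  rw [dotProduct_sub, dotProduct_smul, dotProduct_smul, evec_dot hA hne, smul_zero, sub_zero,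
    smul_eq_mul] at h4
  rcases mul_eq_zero.1 h4 with h | h
  · exact evec_ne hA j (hN _ _ (evec_eq hA j) i h)
  · exact evec_ne hA i (by rwa [dotProduct_self_eq_zero] at h)

/-- every eigenvector is a multiple of a basis eigenvector -/
lemma NW.multiple {A : Matrix V V ℝ} (hA : A.IsHermitian) (hN : NW A) {μ : ℝ} {y : V → ℝ}
    (hy : A *ᵥ y = μ • y) (hne : y ≠ 0) : ∃ i, hA.eigenvalues i = μ ∧
      ∃ κ : ℝ, y = κ • evec hA i := by
  have h1 : μ ∈ spectrum ℝ A := mem_spectrum_of_mulVec hne hy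
  rw [hA.spectrum_real_eq_range_eigenvalues] at h1
  obtain ⟨i, rfl⟩ := h1
  refine ⟨i, rfl, y i * (evec hA i i)⁻¹, ?_⟩
  have h2 : evec hA i i ≠ 0 := fun h => evec_ne hA i (hN _ _ (evec_eq hA i) i h)
  have h3 := hN (hA.eigenvalues i) (y - (y i * (evec hA i i)⁻¹) • evec hA i) (by
    rw [Matrix.mulVec_sub, Matrix.mulVec_smul, hy, evec_eq, smul_sub, smul_comm]) i (by
    simp [h2])
  exact sub_eq_zero.1 h3

lemma pow_mulVec_evec {A : Matrix V V ℝ} (hA : A.IsHermitian) (i : V) (k : ℕ) :
    (A ^ k) *ᵥ (evec hA i) = (hA.eigenvalues i) ^ k • evec hA i := by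
  induction k with
  | zero => simp
  | succ k ih =>
    rw [pow_succ, ← Matrix.mulVec_mulVec, evec_eq, Matrix.mulVec_smul, ih, smul_smul, pow_succ,
      mul_comm]

lemma NW.exists_pow {A : Matrix V V ℝ} (hA : A.IsHermitian) (hN : NW A) {c : V → ℝ}
    (hc : ∀ i, evec hA i ⬝ᵥ c ≠ 0) (a : V) : ∃ k : ℕ, ((A ^ k) *ᵥ c) a ≠ 0 := by
  by_contra hcon
  push Not at hcon
  set e := Fintype.equivFin V with he
  have hinj := NW.injective hA hN
  have key := Matrix.eq_zero_of_forall_pow_sum_mul_pow_eq_zero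
    (f := fun j : Fin (Fintype.card V) => hA.eigenvalues (e.symm j))
    (v := fun j => (evec hA (e.symm j) ⬝ᵥ c) * evec hA (e.symm j) a)
    (fun x y h => e.symm.injective (hinj h)) (by
      intro i
      have h1 := hcon i
      conv at h1 => lhs; rw [exists_expansion hA c]
      rw [Matrix.mulVec_sum, Finset.sum_apply] at h1
      simp only [Matrix.mulVec_smul, pow_mulVec_evec, Pi.smul_apply, smul_eq_mul] at h1
      rw [← h1, ← e.symm.sum_comp]
      apply Finset.sum_congr rfl
      intro j _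
      ring)
  have h2 := congrFun key (e a)
  simp only [Equiv.symm_apply_apply, Pi.zero_apply, mul_eq_zero] at h2
  rcases h2 with h | h
  · exact hc a h
  · exact evec_ne hA a (hN _ _ (evec_eq hA a) a h)

end eig

section step

variable {V : Type*} [Fintype V] [DecidableEq V]

/-- `G` has a symmetric matrix with pattern `G`, the strong spectral property and nowhere zero
eigenvectors. -/
def Nice (G : SimpleGraph V) : Prop :=
  ∃ A : Matrix V V ℝ, A.IsSymm ∧ (∀ i j, i ≠ j → (A i j ≠ 0 ↔ G.Adj i j)) ∧ Reg Gᶜ A ∧ NW A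

theorem Nice.step {G : SimpleGraph (V ⊕ Unit)}
    (h : Nice (G.comap (Sum.inl : V → V ⊕ Unit))) (hN : ∃ a : V, G.Adj (Sum.inl a) (Sum.inr ())) :
    Nice G := by
  classical
  obtain ⟨A, h1, h2, h3, h4⟩ := h
  have hH := isHermitian_of_isSymm h1
  obtain ⟨a₀, ha₀⟩ := hN
  -- the column
  obtain ⟨c, hc1, hc2⟩ : ∃ c : V → ℝ, (∀ a, c a ≠ 0 ↔ G.Adj (Sum.inl a) (Sum.inr ())) ∧
      ∀ i, evec hH i ⬝ᵥ c ≠ 0 := by
    let p : Submodule ℝ (V → ℝ) :=
      { carrier := {c | ∀ a, ¬ G.Adj (Sum.inl a) (Sum.inr ()) → c a = 0}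
        add_mem' := fun {x y} hx hy a ha => by simp [hx a ha, hy a ha]
        zero_mem' := fun a _ => rfl
        smul_mem' := fun r x hx a ha => by simp [hx a ha] }
    let f : {a : V // G.Adj (Sum.inl a) (Sum.inr ())} ⊕ V → Module.Dual ℝ (V → ℝ)
      | Sum.inl a => LinearMap.proj a.1
      | Sum.inr i => dotProductBilin ℝ ℝ (evec hH i)
    obtain ⟨c, hcp, hc⟩ := Module.Dual.exists_forall_mem_ne_zero_of_forall_exists p f (by
      rintro (⟨a, ha⟩ | i)
      · refine ⟨Pi.single a 1, ?_, ?_⟩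
        · intro x hx
          rw [Pi.single_apply, if_neg]
          rintro rfl
          exact hx ha
        · simp [f]
      · refine ⟨Pi.single a₀ 1, ?_, ?_⟩
        · intro x hx
          rw [Pi.single_apply, if_neg]
          rintro rfl
          exact hx ha₀
        · have : evec hH i a₀ ≠ 0 := fun h => evec_ne hH i (h4 _ _ (evec_eq hH i) a₀ h)
          simpa [f] using this)
    refine ⟨c, fun a => ⟨fun h => ?_, fun h => hc (Sum.inl ⟨a, h⟩)⟩, fun i => hc (Sum.inr i)⟩
    by_contra hN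
    exact h (hcp a hN)
  set s : Finset ℝ := Finset.univ.image hH.eigenvalues with hs
  have hsp : spectrum ℝ A ⊆ s := by
    rw [hH.spectrum_real_eq_range_eigenvalues]
    rintro _ ⟨i, rfl⟩
    simp [hs]
  obtain ⟨μ, hμs, hμ0, hμK⟩ := exists_mu A c Finset.univ s
    (fun a _ => NW.exists_pow hH h4 hc2 a)
  set M₀ : Matrix (V ⊕ Unit) (V ⊕ Unit) ℝ :=
    fromBlocks A 0 0 (Matrix.diagonal fun _ : Unit => μ) with hM₀
  have hM₀blk : ∀ (l : ℝ) (y : V ⊕ Unit → ℝ), M₀ *ᵥ y = l • y →
      A *ᵥ (fun i => y (Sum.inl i)) = l • (fun i => y (Sum.inl i)) ∧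
      μ * y (Sum.inr ()) = l * y (Sum.inr ()) := by
    intro l y hy
    constructor
    · ext i
      have := congrFun hy (Sum.inl i)
      simpa [hM₀, Matrix.mulVec, dotProduct, Fintype.sum_sum_type] using this
    · have := congrFun hy (Sum.inr ())
      simpa [hM₀, Matrix.mulVec, dotProduct, Fintype.sum_sum_type] using this
  -- the radius
  obtain ⟨δ₁, hδ₁, hn1⟩ := near_eig A μ hμ0
  have hn2 : ∀ᶠ δ in 𝓝[>] (0 : ℝ), ∀ a, ∀ M : Matrix V V ℝ, (∀ i j, |M i j - A i j| < δ) →
      ∀ (z : V → ℝ) (τ : ℝ), M *ᵥ z + τ • c = μ • z → z a = 0 → z = 0 ∧ τ = 0 := by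
    rw [Filter.eventually_all]
    intro a
    obtain ⟨δ, hδ, h⟩ := near_resolvent A μ c a (hμK a (Finset.mem_univ _))
    have : Set.Ioo (0:ℝ) δ ∈ 𝓝[>] (0 : ℝ) := Ioo_mem_nhdsGT hδ
    filter_upwards [this] with δ' hδ' M hM
    exact h M (fun i j => (hM i j).trans hδ'.2)
  obtain ⟨δ₂, hn2', hδ₂⟩ := (hn2.and self_mem_nhdsWithin).exists
  have hn3 : ∀ᶠ δ in 𝓝[>] (0 : ℝ), ∀ i, ∀ M : Matrix V V ℝ, (∀ i j, |M i j - A i j| < δ) →
      ∀ y : V → ℝ, M *ᵥ y = hH.eigenvalues i • y → c ⬝ᵥ y = 0 → y = 0 := by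
    rw [Filter.eventually_all]
    intro i
    obtain ⟨δ, hδ, h⟩ := near_eig_dot A (hH.eigenvalues i) c (by
      intro y hy hcy
      by_contra hne
      obtain ⟨j, _, κ, hκ⟩ := NW.multiple hH h4 hy hne
      rw [hκ, dotProduct_smul, smul_eq_mul] at hcy
      rcases mul_eq_zero.1 hcy with h | h
      · rw [h, zero_smul] at hκ; exact hne hκ
      · rw [dotProduct_comm] at h
        exact hc2 j h)
    have : Set.Ioo (0:ℝ) δ ∈ 𝓝[>] (0 : ℝ) := Ioo_mem_nhdsGT hδ
    filter_upwards [this] with δ' hδ' M hM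
    exact h M (fun i j => (hM i j).trans hδ'.2)
  obtain ⟨δ₃, hn3', hδ₃⟩ := (hn3.and self_mem_nhdsWithin).exists
  have hn4 : ∀ᶠ δ in 𝓝[>] (0 : ℝ), ∀ i, ∀ a, ∀ M : Matrix (V ⊕ Unit) (V ⊕ Unit) ℝ,
      (∀ i j, |M i j - M₀ i j| < δ) →
      ∀ y : V ⊕ Unit → ℝ, M *ᵥ y = hH.eigenvalues i • y → y (Sum.inl a) = 0 → y = 0 := by
    rw [Filter.eventually_all]
    intro i
    rw [Filter.eventually_all]
    intro a
    obtain ⟨δ, hδ, h⟩ := near_eig_zero M₀ (hH.eigenvalues i) (Sum.inl a) (by
      intro y hy hya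
      obtain ⟨e1, e2⟩ := hM₀blk _ y hy
      have e3 := h4 _ _ e1 a hya
      have e4 : y (Sum.inr ()) = 0 := by
        by_contra hne
        have : μ = hH.eigenvalues i := mul_right_cancel₀ hne e2
        apply hμs
        rw [this]
        simp [hs]
      ext j
      rcases j with j | j
      · exact congrFun e3 j
      · exact e4)
    have : Set.Ioo (0:ℝ) δ ∈ 𝓝[>] (0 : ℝ) := Ioo_mem_nhdsGT hδ
    filter_upwards [this] with δ' hδ' M hM
    exact h M (fun i j => (hM i j).trans hδ'.2)
  obtain ⟨δ₄, hn4', hδ₄⟩ := (hn4.and self_mem_nhdsWithin).exists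
  obtain ⟨M, η, hη, m1, m2, m3, ⟨u, hu⟩, m5, m6⟩ := border
    (G := G) A h1 h2 h3 μ hμ0 c hc1
    (δ := min (min δ₁ δ₂) (min δ₃ δ₄)) (lt_min (lt_min hδ₁ hδ₂) (lt_min hδ₃ hδ₄))
  have l1 : min (min δ₁ δ₂) (min δ₃ δ₄) ≤ δ₁ := (min_le_left _ _).trans (min_le_left _ _)
  have l2 : min (min δ₁ δ₂) (min δ₃ δ₄) ≤ δ₂ := (min_le_left _ _).trans (min_le_right _ _)
  have l3 : min (min δ₁ δ₂) (min δ₃ δ₄) ≤ δ₃ := (min_le_right _ _).trans (min_le_left _ _)
  have l4 : min (min δ₁ δ₂) (min δ₃ δ₄) ≤ δ₄ := (min_le_right _ _).trans (min_le_right _ _)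
  set MV : Matrix V V ℝ := fun i j => M (Sum.inl i) (Sum.inl j) with hMV
  have hMVA : ∀ i j, |MV i j - A i j| < min (min δ₁ δ₂) (min δ₃ δ₄) := by
    intro i j
    simpa [hMV] using m5 (Sum.inl i) (Sum.inl j)
  have hblock : ∀ (l : ℝ) (y : V ⊕ Unit → ℝ), M *ᵥ y = l • y →
      MV *ᵥ (fun i => y (Sum.inl i)) + (η * y (Sum.inr ())) • c =
        l • (fun i => y (Sum.inl i)) := by
    intro l y hy
    ext i
    have h5 := congrFun hy (Sum.inl i)
    simp only [Matrix.mulVec, dotProduct, Fintype.sum_sum_type, Finset.univ_unique,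
      PUnit.default_eq_unit, Finset.sum_singleton, Pi.smul_apply, smul_eq_mul] at h5
    simp only [Matrix.mulVec, dotProduct, Pi.add_apply, Pi.smul_apply, smul_eq_mul, hMV]
    rw [← h5, m6 i]; ring
  refine ⟨M, m1, m2, m3, ?_⟩
  intro l y hy b hb
  by_contra hne
  have hl : l ∈ spectrum ℝ M := mem_spectrum_of_mulVec hne hy
  rw [spectrum_conj ⟨u, hu⟩] at hl
  rcases spectrum_fromBlocks hl with hl' | hl'
  · rw [hH.spectrum_real_eq_range_eigenvalues] at hl'
    obtain ⟨i, rfl⟩ := hl'
    rcases b with b | b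
    · exact hne (hn4' i b M (fun i j => (m5 i j).trans_le l4) y hy hb)
    · have h5 := hblock _ y hy
      have hb' : y (Sum.inr ()) = 0 := hb
      rw [hb', mul_zero, zero_smul, add_zero] at h5
      have h6 : c ⬝ᵥ (fun i => y (Sum.inl i)) = 0 := by
        have h7 := congrFun hy (Sum.inr ())
        simp only [Matrix.mulVec, dotProduct, Fintype.sum_sum_type, Finset.univ_unique,
          PUnit.default_eq_unit, Finset.sum_singleton, Pi.smul_apply, smul_eq_mul, hb',
          mul_zero, add_zero] at h7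
        have h8 : ∀ a, M (Sum.inr ()) (Sum.inl a) = η * c a := by
          intro a
          rw [← m1.apply]; exact m6 a
        simp only [h8, mul_assoc] at h7
        rw [← Finset.mul_sum] at h7
        rcases mul_eq_zero.1 h7 with h | h
        · exact absurd h hη.ne'
        · exact h
      have h9 := hn3' i MV (fun i j => (hMVA i j).trans_le l3) _ h5 h6
      apply hne
      ext j
      rcases j with j | j
      · exact congrFun h9 j
      · exact hb'
  · rw [spectrum_diagonal] at hl'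
    obtain ⟨_, rfl⟩ := hl'
    rcases b with b | b
    · obtain ⟨e1, e2⟩ := hn2' b MV (fun i j => (hMVA i j).trans_le l2) _ _ (hblock _ y hy) hb
      apply hne
      ext j
      rcases j with j | j
      · exact congrFun e1 j
      · rcases mul_eq_zero.1 e2 with h | h
        · exact absurd h hη.ne'
        · exact h
    · have h5 := hblock _ y hy
      have hb' : y (Sum.inr ()) = 0 := hb
      rw [hb', mul_zero, zero_smul, add_zero] at h5
      have e1 := hn1 MV (fun i j => (hMVA i j).trans_le l1) _ h5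
      apply hne
      ext j
      rcases j with j | j
      · exact congrFun e1 j
      · exact hb'

/-- `Nice` is invariant under relabelling. -/
theorem Nice.transport {W : Type*} [Fintype W] [DecidableEq W] {G : SimpleGraph V}
    {H : SimpleGraph W} (e : V ≃ W) (h : Nice G)
    (hGH : ∀ a b, G.Adj a b ↔ H.Adj (e a) (e b)) : Nice H := by
  obtain ⟨A, h1, h2, h3, h4⟩ := h
  refine ⟨A.submatrix e.symm e.symm, ?_, ?_, ?_, ?_⟩
  · ext i j
    simp only [transpose_apply, submatrix_apply]
    exact h1.apply _ _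
  · intro i j hij
    simp only [submatrix_apply]
    rw [h2 _ _ (fun h => hij (e.symm.injective h)), hGH]
    simp
  · intro X hXs hX hcomm
    have hX' : X.submatrix e e = 0 := by
      apply h3 (X.submatrix e e)
      · ext i j
        simp only [transpose_apply, submatrix_apply]
        exact hXs.apply _ _
      · intro i j hij
        simp only [submatrix_apply]
        apply hX
        intro h
        apply hij
        rw [SimpleGraph.compl_adj] at h ⊢
        refine ⟨fun h' => h.1 (by rw [h']), fun h' => h.2 ((hGH _ _).1 h')⟩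
      · have h5 : (A.submatrix e.symm e.symm * X).submatrix e e =
            (X * A.submatrix e.symm e.symm).submatrix e e := by rw [hcomm]
        rw [← Matrix.submatrix_mul_equiv (A.submatrix e.symm e.symm) X e e e,
          ← Matrix.submatrix_mul_equiv X (A.submatrix e.symm e.symm) e e e] at h5
        simpa using h5
    ext i j
    have := congrFun (congrFun hX' (e.symm i)) (e.symm j)
    simpa using this
  · intro μ y hy a ha
    have h5 : A *ᵥ (fun i => y (e i)) = μ • (fun i => y (e i)) := by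
      ext i
      have h6 := congrFun hy (e i)
      simp only [Matrix.mulVec, dotProduct, submatrix_apply, Equiv.symm_apply_apply,
        Pi.smul_apply, smul_eq_mul] at h6 ⊢
      rw [← h6, ← e.sum_comp]
      simp
    have h7 := h4 μ _ h5 (e.symm a) (by simpa using ha)
    ext i
    have := congrFun h7 (e.symm i)
    simpa using this

end step

end Pool.Agent.helper46
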