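import Mathlib
import Pool.Agent.helper46.Nice

set_option autoImplicit false

open Matrix

namespace Pool.Agent.helper46

variable {V : Type*} [DecidableEq V]

/-- `Nice` for the subgraph induced on a finite set of vertices. -/
def NiceS (G : SimpleGraph V) (S : Finset V) : Prop :=
  Nice (G.comap (fun x : {x // x ∈ S} => (x : V)))

lemma NiceS.singleton (G : SimpleGraph V) (v : V) : NiceS G {v} := by
  have hsub : ∀ x y : {x // x ∈ ({v} : Finset V)}, x = y := by
    rintro ⟨x, hx⟩ ⟨y, hy⟩
    rw [Finset.mem_singleton] at hx hy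
    subst hx; subst hy; rfl
  refine ⟨0, by simp [Matrix.IsSymm], ?_, ?_, ?_⟩
  · intro i j hij
    exact absurd (hsub i j) hij
  · intro X _ hX _
    ext i j
    rw [hsub i j]
    exact hX j j (by simp)
  · intro μ y _ a ha
    ext i
    rw [hsub i a]
    exact ha

lemma NiceS.insert {G : SimpleGraph V} {S : Finset V} {v w : V} (h : NiceS G S) (hv : v ∉ S)
    (hw : w ∈ S) (hvw : G.Adj v w) : NiceS G (insert v S) := by
  classical
  let ψ : {x // x ∈ S} ⊕ Unit → V
    | Sum.inl x => x.1
    | Sum.inr _ => v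
  have key : Nice (G.comap ψ) := Nice.step (G := G.comap ψ) h ⟨⟨w, hw⟩, hvw.symm⟩
  let e : {x // x ∈ S} ⊕ Unit → {x // x ∈ Insert.insert v S} := fun x =>
    ⟨ψ x, by
      rcases x with x | x
      · exact Finset.mem_insert_of_mem x.2
      · exact Finset.mem_insert_self _ _⟩
  have he : Function.Bijective e := by
    constructor
    · rintro (x | x) (y | y) hxy
      · simp only [e, ψ, Subtype.mk.injEq] at hxy
        rw [Subtype.ext hxy]
      · simp only [e, ψ, Subtype.mk.injEq] at hxy
        exact absurd (hxy ▸ x.2) hv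
      · simp only [e, ψ, Subtype.mk.injEq] at hxy
        exact absurd (hxy ▸ y.2) hv
      · rfl
    · rintro ⟨x, hx⟩
      rcases Finset.mem_insert.1 hx with h | h
      · exact ⟨Sum.inr (), Subtype.ext h.symm⟩
      · exact ⟨Sum.inl ⟨x, h⟩, rfl⟩
  exact Nice.transport (Equiv.ofBijective e he) key (fun a b => Iff.rfl)

/-- Absorption of new vertices by a nice block. -/
theorem QS.pi {G : SimpleGraph V} {S T : Finset V} (h : NiceS G S) (hST : Disjoint S T)
    (hc : T.card ≤ S.card)
    (hT : ∀ t ∈ T, ∃ a ∈ S, ∃ b ∈ S, a ≠ b ∧ G.Adj t a ∧ G.Adj t b) : QS G (S ∪ T) S.card := by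
  classical
  obtain ⟨A, h1, h2, h3, h4⟩ := h
  have hH := isHermitian_of_isSymm h1
  let ψ : {x // x ∈ S} ⊕ {x // x ∈ T} → V
    | Sum.inl x => x.1
    | Sum.inr x => x.1
  obtain ⟨f⟩ : Nonempty ({x // x ∈ T} ↪ {x // x ∈ S}) := by
    rw [Function.Embedding.nonempty_iff_card_le]
    simpa using hc
  have key : SSPq (G.comap ψ) S.card := by
    refine SSPq.absorb (G := G.comap ψ) A h1 h2 h3 (Finset.univ.image hH.eigenvalues) ?_ ?_
      (fun t => hH.eigenvalues (f t)) ?_ ?_ ?_
    · refine Finset.card_image_le.trans ?_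
      simp
    · rw [hH.spectrum_real_eq_range_eigenvalues]
      rintro _ ⟨i, rfl⟩
      simp
    · intro x y hxy
      exact f.injective (NW.injective hH h4 hxy)
    · intro t
      simp
    · intro t y hy w hw
      obtain ⟨a, ha, b, hb, hab, ha', hb'⟩ := hT t.1 t.2
      by_cases haw : (⟨a, ha⟩ : {x // x ∈ S}) = w
      · have hbw : (⟨b, hb⟩ : {x // x ∈ S}) ≠ w := by
          intro h
          rw [← haw] at h
          exact hab (congrArg Subtype.val h).symm
        exact h4 _ y hy ⟨b, hb⟩ (hw _ hbw hb'.symm)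
      · exact h4 _ y hy ⟨a, ha⟩ (hw _ haw ha'.symm)
  have hbij : Function.Bijective (Sum.elim (fun x : {x // x ∈ S} =>
      (⟨x.1, Finset.mem_union_left _ x.2⟩ : {x // x ∈ S ∪ T}))
      (fun x : {x // x ∈ T} => (⟨x.1, Finset.mem_union_right _ x.2⟩ : {x // x ∈ S ∪ T}))) := by
    constructor
    · rintro (⟨a, ha⟩ | ⟨a, ha⟩) (⟨b, hb⟩ | ⟨b, hb⟩) hab
      · simp only [Sum.elim_inl, Subtype.mk.injEq] at hab
        subst hab; rfl
      · simp only [Sum.elim_inl, Sum.elim_inr, Subtype.mk.injEq] at hab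
        subst hab
        exact absurd hb (Finset.disjoint_left.1 hST ha)
      · simp only [Sum.elim_inl, Sum.elim_inr, Subtype.mk.injEq] at hab
        subst hab
        exact absurd ha (Finset.disjoint_left.1 hST hb)
      · simp only [Sum.elim_inr, Subtype.mk.injEq] at hab
        subst hab; rfl
    · rintro ⟨x, hx⟩
      rcases Finset.mem_union.1 hx with h | h
      · exact ⟨Sum.inl ⟨x, h⟩, rfl⟩
      · exact ⟨Sum.inr ⟨x, h⟩, rfl⟩
  refine SSPq.transport (Equiv.ofBijective _ hbij) key ?_
  rintro (a | a) (b | b) hab <;> exact hab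

lemma NiceS.union {G : SimpleGraph V} {S : Finset V} (h : NiceS G S) (N : Finset V)
    (hSN : Disjoint S N) (hN : ∀ v ∈ N, ∃ w ∈ S, G.Adj v w) : NiceS G (S ∪ N) := by
  induction N using Finset.induction_on with
  | empty => simpa using h
  | insert v N hv ih =>
    have hd := Finset.disjoint_insert_right.1 hSN
    have h1 := ih hd.2 (fun x hx => hN x (Finset.mem_insert_of_mem hx))
    obtain ⟨w, hw, hvw⟩ := hN v (Finset.mem_insert_self _ _)
    rw [Finset.union_insert]
    refine NiceS.insert h1 ?_ (Finset.mem_union_left _ hw) hvw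
    simp [hd.1, hv]

/-- Absorption of arbitrarily many new vertices, half of them into old eigenvalues. -/
theorem QS.pi_half {G : SimpleGraph V} {S T : Finset V} (h : NiceS G S) (hST : Disjoint S T)
    (hS : S.Nonempty)
    (hT : ∀ t ∈ T, ∃ a ∈ S, ∃ b ∈ S, a ≠ b ∧ G.Adj t a ∧ G.Adj t b) :
    QS G (S ∪ T) (S.card + T.card / 2) := by
  obtain ⟨N, hN, hNc⟩ := Finset.exists_subset_card_eq (s := T) (n := T.card / 2) (by omega)
  have h1 : NiceS G (S ∪ N) := by
    refine h.union N (Finset.disjoint_of_subset_right hN hST) ?_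
    intro v hv
    obtain ⟨a, ha, _, _, _, h2, _⟩ := hT v (hN hv)
    exact ⟨a, ha, h2⟩
  have hcard : (S ∪ N).card = S.card + T.card / 2 := by
    rw [Finset.card_union_of_disjoint (Finset.disjoint_of_subset_right hN hST), hNc]
  have hsd : (T \ N).card = T.card - T.card / 2 := by
    rw [Finset.card_sdiff_of_subset hN, hNc]
  have hpos := Finset.card_pos.2 hS
  have h2 := QS.pi (T := T \ N) h1 (by
    rw [Finset.disjoint_union_left]
    exact ⟨Finset.disjoint_of_subset_right Finset.sdiff_subset hST, Finset.disjoint_sdiff⟩) (by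
    rw [hcard, hsd]; omega) (by
    intro t ht
    obtain ⟨a, ha, b, hb, h3⟩ := hT t (Finset.sdiff_subset ht)
    exact ⟨a, Finset.mem_union_left _ ha, b, Finset.mem_union_left _ hb, h3⟩)
  rw [hcard] at h2
  have h3 : S ∪ N ∪ (T \ N) = S ∪ T := by
    rw [Finset.union_assoc, Finset.union_sdiff_of_subset hN]
  rwa [h3] at h2

end Pool.Agent.helper46
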