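import Mathlib
import Pool.Agent.helper46.NiceS

set_option autoImplicit false

open Matrix

namespace Pool.Agent.helper46

section typelevel

variable {V : Type*} [Fintype V] [DecidableEq V]

/-- Some eigenvalue has no eigenvector supported on a single vertex. -/
lemma exists_good_eigenvalue {H : SimpleGraph V} {A : Matrix V V ℝ} (h1 : A.IsSymm)
    (h2 : ∀ i j, i ≠ j → (A i j ≠ 0 ↔ H.Adj i j)) (h3 : Reg Hᶜ A) (hedge : ∃ a b, H.Adj a b) :
    ∃ μ ∈ spectrum ℝ A, ∀ (u : V) (y : V → ℝ), A *ᵥ y = μ • y → (∀ a, a ≠ u → y a = 0) →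
      y = 0 := by
  have hH := isHermitian_of_isSymm h1
  obtain ⟨a, b, hab⟩ := hedge
  obtain ⟨i, hi⟩ : ∃ i, evec hH i a ≠ 0 := by
    by_contra hcon
    push Not at hcon
    have h := congrFun (exists_expansion hH (Pi.single a 1)) a
    rw [Finset.sum_apply] at h
    simp [hcon] at h
  refine ⟨hH.eigenvalues i, hH.eigenvalues_mem_spectrum_real i, ?_⟩
  intro u y hy hsupp
  by_contra hne
  have hyu : y u ≠ 0 := by
    intro h0
    apply hne
    ext j
    by_cases hj : j = u
    · rw [hj]; exact h0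
    · exact hsupp j hj
  -- the vertex `u` is isolated
  have hcol : ∀ j, j ≠ u → A j u = 0 := by
    intro j hj
    have h5 := congrFun hy j
    simp only [Matrix.mulVec, dotProduct, Pi.smul_apply, smul_eq_mul, hsupp j hj, mul_zero] at h5
    rw [Finset.sum_eq_single u] at h5
    · exact (mul_eq_zero.1 h5).resolve_right hyu
    · intro l _ hl
      rw [hsupp l hl, mul_zero]
    · simp
  have hau : a ≠ u := by
    rintro rfl
    exact (h2 b a hab.ne.symm).2 hab.symm (hcol b hab.ne.symm)
  have huu : A u u = hH.eigenvalues i := by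
    have h5 := congrFun hy u
    simp only [Matrix.mulVec, dotProduct, Pi.smul_apply, smul_eq_mul] at h5
    rw [Finset.sum_eq_single u] at h5
    · exact mul_right_cancel₀ hyu h5
    · intro l _ hl
      rw [hsupp l hl, mul_zero]
    · simp
  set x : V → ℝ := fun j => if j = u then 0 else evec hH i j with hx
  have hrow : ∀ j, j ≠ u → A u j = 0 := fun j hj => by rw [← h1.apply]; exact hcol j hj
  have hAx : A *ᵥ x = hH.eigenvalues i • x := by
    ext j
    by_cases hj : j = u
    · subst hj
      simp only [Matrix.mulVec, dotProduct, Pi.smul_apply, smul_eq_mul]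
      rw [Finset.sum_eq_zero]
      · simp [hx]
      · intro l _
        by_cases hl : l = j
        · simp [hx, hl]
        · rw [hrow l hl, zero_mul]
    · have h6 := congrFun (evec_eq hH i) j
      simp only [Matrix.mulVec, dotProduct, Pi.smul_apply, smul_eq_mul] at h6 ⊢
      have h7 : x j = evec hH i j := by simp [hx, hj]
      rw [h7, ← h6]
      apply Finset.sum_congr rfl
      intro l _
      by_cases hl : l = u
      · rw [hl, hcol j hj, zero_mul, zero_mul]
      · simp [hx, hl]
  set X : Matrix V V ℝ := Matrix.of fun j l => (if j = u then x l else 0) +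
    (if l = u then x j else 0) with hX
  have hX0 : X = 0 := by
    apply h3 X
    · ext j l
      simp only [hX, transpose_apply, of_apply]
      ring
    · intro j l hjl
      rw [SimpleGraph.compl_adj] at hjl
      simp only [hX, of_apply]
      by_cases hj : j = u
      · by_cases hl : l = u
        · simp [hj, hl, hx]
        · exfalso
          apply hjl
          refine ⟨fun h => hl (h ▸ hj), fun h => ?_⟩
          rw [hj] at h
          exact (h2 l u hl).2 h.symm (hcol l hl)
      · by_cases hl : l = u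
        · exfalso
          apply hjl
          refine ⟨fun h => hj (h ▸ hl), fun h => ?_⟩
          rw [hl] at h
          exact (h2 j u hj).2 h (hcol j hj)
        · simp [hj, hl]
    · -- commutation
      have hL : ∀ j l, (A * X) j l = hH.eigenvalues i * X j l := by
        intro j l
        rw [Matrix.mul_apply]
        simp only [hX, of_apply, mul_add, Finset.sum_add_distrib, mul_ite, mul_zero,
          Finset.sum_ite_eq', Finset.mem_univ, if_true]
        have e1 : (∑ m, if l = u then A j m * x m else 0) =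
            if l = u then hH.eigenvalues i * x j else 0 := by
          by_cases hl : l = u
          · simp only [hl, if_true]
            exact congrFun hAx j
          · simp [hl]
        rw [e1]
        by_cases hj : j = u
        · simp [hj, huu]
        · rw [hcol j hj]; simp [hj]
      have hXs : Xᵀ = X := by
        ext j l
        simp only [hX, transpose_apply, of_apply]
        ring
      have hLm : A * X = hH.eigenvalues i • X := by
        ext j l
        rw [hL j l]; rfl
      have : (A * X)ᵀ = X * A := by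
        rw [Matrix.transpose_mul, hXs, h1.eq]
      rw [← this, hLm, Matrix.transpose_smul, hXs]
  have h8 := congrFun (congrFun hX0 u) a
  simp [hX, hx, hau] at h8
  exact hi h8

/-- A new vertex adjacent to everything costs nothing. -/
theorem SSPq.codom {G : SimpleGraph (V ⊕ Unit)} {k : ℕ}
    (h : SSPq (G.comap (Sum.inl : V → V ⊕ Unit)) k)
    (hedge : ∃ a b : V, G.Adj (Sum.inl a) (Sum.inl b))
    (hdom : ∀ a : V, G.Adj (Sum.inl a) (Sum.inr ())) : SSPq G k := by
  obtain ⟨A, h1, h2, h3, s, hs, h4⟩ := h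
  obtain ⟨μ, hμ, hμ'⟩ := exists_good_eigenvalue h1 h2 h3 hedge
  refine SSPq.absorb A h1 h2 h3 s hs h4 (fun _ => μ) (fun _ _ _ => rfl) (fun _ => h4 hμ) ?_
  rintro ⟨⟩ y hy w hw
  exact hμ' w y hy (fun a ha => hw a ha (hdom a))

/-- A new vertex adjacent to everything except a vertex without twin costs nothing. -/
theorem SSPq.coleaf {G : SimpleGraph (V ⊕ Unit)} {k : ℕ}
    (h : SSPq (G.comap (Sum.inl : V → V ⊕ Unit)) k)
    (hedge : ∃ a b : V, G.Adj (Sum.inl a) (Sum.inl b)) (z : V)
    (hdom : ∀ a : V, a ≠ z → G.Adj (Sum.inl a) (Sum.inr ()))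
    (htw : ∀ w, w ≠ z → ∃ a, a ≠ z ∧ a ≠ w ∧
      ¬ (G.Adj (Sum.inl a) (Sum.inl z) ↔ G.Adj (Sum.inl a) (Sum.inl w))) : SSPq G k := by
  obtain ⟨A, h1, h2, h3, s, hs, h4⟩ := h
  obtain ⟨μ, hμ, hμ'⟩ := exists_good_eigenvalue h1 h2 h3 hedge
  refine SSPq.absorb A h1 h2 h3 s hs h4 (fun _ => μ) (fun _ _ _ => rfl) (fun _ => h4 hμ) ?_
  rintro ⟨⟩ y hy w hw
  have hsupp : ∀ a, a ≠ z → a ≠ w → y a = 0 := fun a haz haw => hw a haw (hdom a haz)
  by_cases hwz : w = z
  · subst hwz
    exact hμ' w y hy (fun a ha => hsupp a ha ha)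
  by_cases hyz : y z = 0
  · refine hμ' w y hy (fun a ha => ?_)
    by_cases haz : a = z
    · rw [haz]; exact hyz
    · exact hsupp a haz ha
  by_cases hyw : y w = 0
  · refine hμ' z y hy (fun a ha => ?_)
    by_cases haw : a = w
    · rw [haw]; exact hyw
    · exact hsupp a ha haw
  exfalso
  obtain ⟨a, haz, haw, hne⟩ := htw w hwz
  apply hne
  have h5 := congrFun hy a
  simp only [Matrix.mulVec, dotProduct, Pi.smul_apply, smul_eq_mul, hsupp a haz haw,
    mul_zero] at h5
  have h6 : ∑ j, A a j * y j = A a z * y z + A a w * y w := by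
    rw [← Finset.sum_subset (Finset.subset_univ {z, w})]
    · rw [Finset.sum_pair (Ne.symm hwz)]
    · intro j _ hj
      simp only [Finset.mem_insert, Finset.mem_singleton, not_or] at hj
      rw [hsupp j hj.1 hj.2, mul_zero]
  rw [h6] at h5
  have e1 := h2 a z haz
  have e2 := h2 a w haw
  simp only [SimpleGraph.comap_adj] at e1 e2
  rw [← e1, ← e2]
  constructor
  · intro h h'
    rw [h', zero_mul, add_zero] at h5
    exact (mul_ne_zero h hyz) h5
  · intro h h'
    rw [h', zero_mul, zero_add] at h5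
    exact (mul_ne_zero h hyw) h5

/-- Join with a graph having two distinct eigenvalues. -/
theorem SSPq.join {W : Type*} [Fintype W] [DecidableEq W] {G : SimpleGraph (V ⊕ W)} {l : ℕ}
    (hV : SSPq (G.comap (Sum.inl : V → V ⊕ W)) 2) (hW : SSPq (G.comap (Sum.inr : W → V ⊕ W)) l)
    (hiso : ∀ a : V, ∃ b : V, G.Adj (Sum.inl a) (Sum.inl b))
    (hcross : ∀ (a : V) (b : W), G.Adj (Sum.inl a) (Sum.inr b)) : SSPq G (max 2 l) := by
  classical
  obtain ⟨A₀, a1, a2, a3, s, hs, a4⟩ := hV
  obtain ⟨B, b1, b2, b3, t, ht, b4⟩ := hW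
  -- enlarge both sets of eigenvalues
  obtain ⟨s', hs', hs'c⟩ := Infinite.exists_superset_card_eq s 2 hs
  obtain ⟨t', ht', ht'c⟩ := Infinite.exists_superset_card_eq t (max 2 l) (ht.trans (le_max_right _ _))
  obtain ⟨α₁, α₂, hα, hsα⟩ := Finset.card_eq_two.1 hs'c
  obtain ⟨t₂, ht₂, ht₂c⟩ := Finset.exists_subset_card_eq (s := t') (n := 2)
    (by rw [ht'c]; exact le_max_left _ _)
  obtain ⟨β₁, β₂, hβ, htβ⟩ := Finset.card_eq_two.1 ht₂c
  have hβ₁ : β₁ ∈ t' := ht₂ (by rw [htβ]; simp)
  have hβ₂ : β₂ ∈ t' := ht₂ (by rw [htβ]; simp)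
  set p : ℝ := (β₂ - β₁) / (α₂ - α₁) with hp
  set q : ℝ := β₁ - p * α₁ with hq
  have hα' : α₂ - α₁ ≠ 0 := sub_ne_zero.2 hα.symm
  have hp0 : p ≠ 0 := div_ne_zero (sub_ne_zero.2 hβ.symm) hα'
  set A : Matrix V V ℝ := p • A₀ + q • (1 : Matrix V V ℝ) with hA
  have hAs : A.IsSymm := (a1.smul p).add ((Matrix.isSymm_one).smul q)
  have hAoff : ∀ i j, i ≠ j → A i j = p * A₀ i j := by
    intro i j hij
    simp [hA, Matrix.one_apply_ne hij]
  have hApat : ∀ i j, i ≠ j → (A i j ≠ 0 ↔ G.Adj (Sum.inl i) (Sum.inl j)) := by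
    intro i j hij
    rw [hAoff i j hij, mul_ne_zero_iff]
    refine ⟨fun h => (a2 i j hij).1 h.2, fun h => ⟨hp0, (a2 i j hij).2 h⟩⟩
  have hAreg : Reg (G.comap (Sum.inl : V → V ⊕ W))ᶜ A := by
    intro X hXs hX hcomm
    apply a3 X hXs hX
    rw [hA, Matrix.add_mul, Matrix.mul_add, Matrix.smul_mul, Matrix.mul_smul, Matrix.smul_mul,
      Matrix.mul_smul, Matrix.one_mul, Matrix.mul_one] at hcomm
    have h5 := add_right_cancel hcomm
    exact smul_right_injective _ hp0 h5
  have hAsp : spectrum ℝ A ⊆ t' := by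
    intro x hx
    have hx' : (x - q) / p ∈ spectrum ℝ A₀ := by
      rw [spectrum.mem_iff] at hx ⊢
      intro hu
      apply hx
      have h6 : algebraMap ℝ (Matrix V V ℝ) x - A =
          p • (algebraMap ℝ (Matrix V V ℝ) ((x - q) / p) - A₀) := by
        have h66 : p * ((x - q) / p) = x - q := by field_simp
        rw [hA, Algebra.algebraMap_eq_smul_one, Algebra.algebraMap_eq_smul_one, smul_sub,
          smul_smul, h66]
        clear_value q
        module
      rw [h6]
      exact hu.smul (Units.mk0 p hp0)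
    have h7 := hs' (a4 hx')
    rw [hsα] at h7
    rcases Finset.mem_insert.1 h7 with h | h
    · have : x = β₁ := by
        rw [div_eq_iff hp0] at h
        rw [hq] at h; linarith
      rw [this]; exact hβ₁
    · rw [Finset.mem_singleton, div_eq_iff hp0] at h
      have h8 : p * (α₂ - α₁) = β₂ - β₁ := by rw [hp]; field_simp
      have : x = β₂ := by
        rw [hq] at h; nlinarith
      rw [this]; exact hβ₂
  -- commuting matrices
  have hcomapL : (Gᶜ).comap (Sum.inl : V → V ⊕ W) = (G.comap (Sum.inl : V → V ⊕ W))ᶜ := by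
    ext i j
    simp [SimpleGraph.compl_adj]
  have hcomapR : (Gᶜ).comap (Sum.inr : W → V ⊕ W) = (G.comap (Sum.inr : W → V ⊕ W))ᶜ := by
    ext i j
    simp [SimpleGraph.compl_adj]
  -- main regularity statement
  have hmain : ∀ F : SimpleGraph (V ⊕ W), F.comap (Sum.inl : V → V ⊕ W) ≤
      (G.comap (Sum.inl : V → V ⊕ W))ᶜ → F.comap (Sum.inr : W → V ⊕ W) ≤
      (G.comap (Sum.inr : W → V ⊕ W))ᶜ → (∀ a a' b b', F.Adj (Sum.inl a) (Sum.inr b) →
        F.Adj (Sum.inl a') (Sum.inr b') → a = a' ∧ b = b') → Reg F (fromBlocks A 0 0 B) := by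
    intro F hF1 hF2 hF3 X hXs hX hcomm
    obtain ⟨X₁₁, X₁₂, X₂₁, X₂₂, rfl⟩ : ∃ X₁₁ X₁₂ X₂₁ X₂₂, X = fromBlocks X₁₁ X₁₂ X₂₁ X₂₂ :=
      ⟨_, _, _, _, (Matrix.fromBlocks_toBlocks X).symm⟩
    rw [Matrix.isSymm_fromBlocks_iff] at hXs
    rw [Matrix.fromBlocks_multiply, Matrix.fromBlocks_multiply, Matrix.fromBlocks_inj] at hcomm
    simp only [Matrix.zero_mul, Matrix.mul_zero, add_zero, zero_add] at hcomm
    have h11 : X₁₁ = 0 := by
      apply (hAreg.mono hF1) X₁₁ hXs.1 _ hcomm.1
      intro i j hij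
      simpa using hX (Sum.inl i) (Sum.inl j) (by simpa using hij)
    have h22 : X₂₂ = 0 := by
      apply (b3.mono hF2) X₂₂ hXs.2.2.2 _ hcomm.2.2.2
      intro i j hij
      simpa using hX (Sum.inr i) (Sum.inr j) (by simpa using hij)
    have h12 : X₁₂ = 0 := by
      ext a b
      by_contra hne
      have hFab : F.Adj (Sum.inl a) (Sum.inr b) := by
        by_contra h
        exact hne (by simpa using hX (Sum.inl a) (Sum.inr b) h)
      have hother : ∀ a' b', ¬ (a' = a ∧ b' = b) → X₁₂ a' b' = 0 := by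
        intro a' b' h
        by_contra h'
        have hF' : F.Adj (Sum.inl a') (Sum.inr b') := by
          by_contra h''
          exact h' (by simpa using hX (Sum.inl a') (Sum.inr b') h'')
        obtain ⟨e1, e2⟩ := hF3 a a' b b' hFab hF'
        exact h ⟨e1.symm, e2.symm⟩
      obtain ⟨a', haa'⟩ := hiso a
      have hane : a' ≠ a := by
        rintro rfl
        exact haa'.ne rfl
      have h9 := congrFun (congrFun hcomm.2.1 a') b
      rw [Matrix.mul_apply, Matrix.mul_apply] at h9
      rw [Finset.sum_eq_single a, Finset.sum_eq_zero] at h9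
      · rcases mul_eq_zero.1 h9 with h | h
        · exact (hApat a' a hane).2 haa'.symm h
        · exact hne h
      · intro j _
        rw [hother a' j (fun h => hane h.1), zero_mul]
      · intro j _ hj
        rw [hother j b (fun h => hj h.1), mul_zero]
      · simp
    have h21 : X₂₁ = 0 := by rw [← hXs.2.1, h12, Matrix.transpose_zero]
    rw [h11, h12, h21, h22, Matrix.fromBlocks_zero]
  refine SSPq.of_fill (fromBlocks A 0 0 B) ?_ ?_ ?_ ?_ t' ht'c.le ?_
  · rw [Matrix.isSymm_fromBlocks_iff]
    exact ⟨hAs, by simp, by simp, b1⟩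
  · rintro (i | i) (j | j) hij hadj
    · simp only [fromBlocks_apply₁₁]
      by_contra h
      exact hadj ((hApat i j (fun h => hij (by rw [h]))).1 h)
    · simp
    · simp
    · simp only [fromBlocks_apply₂₂]
      by_contra h
      exact hadj ((b2 i j (fun h => hij (by rw [h]))).1 h)
  · apply hmain
    · rw [hcomapL]
    · rw [hcomapR]
    · intro a a' b b' h
      exact absurd (hcross a b) ((SimpleGraph.compl_adj _ _ _).1 h).2
  · intro x y hxy hz
    have hblock : (∃ a b, x = Sum.inl a ∧ y = Sum.inr b) ∨ (∃ a b, x = Sum.inr b ∧ y = Sum.inl a) := by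
      rcases x with x | x <;> rcases y with y | y
      · exfalso
        simp only [fromBlocks_apply₁₁] at hz
        exact (hApat x y (fun h => hxy.ne (by rw [h]))).2 hxy hz
      · exact Or.inl ⟨x, y, rfl, rfl⟩
      · exact Or.inr ⟨y, x, rfl, rfl⟩
      · exfalso
        simp only [fromBlocks_apply₂₂] at hz
        exact (b2 x y (fun h => hxy.ne (by rw [h]))).2 hxy hz
    apply hmain
    · intro i j hij
      rw [SimpleGraph.comap_adj, SimpleGraph.sup_adj] at hij
      rcases hij with h | h
      · rw [← hcomapL]; exact h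
      · exfalso
        rw [SimpleGraph.edge_adj] at h
        rcases hblock with ⟨a, b, rfl, rfl⟩ | ⟨a, b, rfl, rfl⟩ <;> simp at h
    · intro i j hij
      rw [SimpleGraph.comap_adj, SimpleGraph.sup_adj] at hij
      rcases hij with h | h
      · rw [← hcomapR]; exact h
      · exfalso
        rw [SimpleGraph.edge_adj] at h
        rcases hblock with ⟨a, b, rfl, rfl⟩ | ⟨a, b, rfl, rfl⟩ <;> simp at h
    · intro a a' b b' h h'
      have e1 : ∀ a b, (Gᶜ ⊔ SimpleGraph.edge x y).Adj (Sum.inl a) (Sum.inr b) →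
          (SimpleGraph.edge x y).Adj (Sum.inl a) (Sum.inr b) := by
        intro a b h
        rcases h with h | h
        · exact absurd (hcross a b) ((SimpleGraph.compl_adj _ _ _).1 h).2
        · exact h
      have f1 := e1 a b h
      have f2 := e1 a' b' h'
      rw [SimpleGraph.edge_adj] at f1 f2
      rcases hblock with ⟨c, d, rfl, rfl⟩ | ⟨c, d, rfl, rfl⟩
      · simp only [Sum.inl.injEq, Sum.inr.injEq, reduceCtorEq, and_false, or_false, and_self] at f1 f2
        exact ⟨f1.1.1.trans f2.1.1.symm, f1.1.2.trans f2.1.2.symm⟩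
      · simp only [Sum.inl.injEq, Sum.inr.injEq, reduceCtorEq, and_false, false_or, and_self] at f1 f2
        exact ⟨f1.1.1.trans f2.1.1.symm, f1.1.2.trans f2.1.2.symm⟩
  · intro x hx
    rcases spectrum_fromBlocks hx with h | h
    · exact hAsp h
    · exact ht' (b4 h)

end typelevel

end Pool.Agent.helper46
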