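import Mathlib
import Pool.Agent.helper46.Twin

set_option autoImplicit false

open Matrix

namespace Pool.Agent.helper46

variable {V : Type*} [DecidableEq V]

/-- the labelling of `insert v S` by `S ⊕ Unit` -/
def insMap (S : Finset V) (v : V) : {x // x ∈ S} ⊕ Unit → V
  | Sum.inl x => x.1
  | Sum.inr _ => v

lemma insMap_bijective {S : Finset V} {v : V} (hv : v ∉ S) :
    Function.Bijective (fun x : {x // x ∈ S} ⊕ Unit =>
      (⟨insMap S v x, by
        rcases x with x | x
        · exact Finset.mem_insert_of_mem x.2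
        · exact Finset.mem_insert_self _ _⟩ : {x // x ∈ insert v S})) := by
  constructor
  · rintro (x | x) (y | y) hxy
    · simp only [insMap, Subtype.mk.injEq] at hxy
      rw [Subtype.ext hxy]
    · simp only [insMap, Subtype.mk.injEq] at hxy
      exact absurd (hxy ▸ x.2) hv
    · simp only [insMap, Subtype.mk.injEq] at hxy
      exact absurd (hxy ▸ y.2) hv
    · rfl
  · rintro ⟨x, hx⟩
    rcases Finset.mem_insert.1 hx with h | h
    · exact ⟨Sum.inr (), Subtype.ext h.symm⟩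
    · exact ⟨Sum.inl ⟨x, h⟩, rfl⟩

/-- A new vertex adjacent to everything costs nothing. -/
theorem QS.codom {G : SimpleGraph V} {S : Finset V} {k : ℕ} {v : V} (hv : v ∉ S)
    (hedge : ∃ a ∈ S, ∃ b ∈ S, G.Adj a b) (hdom : ∀ a ∈ S, G.Adj v a) (hq : QS G S k) :
    QS G (insert v S) k := by
  have key : SSPq (G.comap (insMap S v)) k := by
    refine SSPq.codom (G := G.comap (insMap S v)) hq ?_ ?_
    · obtain ⟨a, ha, b, hb, hab⟩ := hedge
      exact ⟨⟨a, ha⟩, ⟨b, hb⟩, hab⟩
    · intro a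
      exact (hdom a.1 a.2).symm
  exact SSPq.transport (Equiv.ofBijective _ (insMap_bijective hv)) key (fun a b hab => hab)

/-- A new vertex adjacent to everything except a vertex without twin costs nothing. -/
theorem QS.coleaf {G : SimpleGraph V} {S : Finset V} {k : ℕ} {v z : V} (hv : v ∉ S)
    (hz : z ∈ S) (hedge : ∃ a ∈ S, ∃ b ∈ S, G.Adj a b) (hdom : ∀ a ∈ S, a ≠ z → G.Adj v a)
    (htw : ∀ w ∈ S, w ≠ z → ∃ a ∈ S, a ≠ z ∧ a ≠ w ∧ ¬ (G.Adj a z ↔ G.Adj a w))
    (hq : QS G S k) : QS G (insert v S) k := by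
  have key : SSPq (G.comap (insMap S v)) k := by
    refine SSPq.coleaf (G := G.comap (insMap S v)) hq ?_ ⟨z, hz⟩ ?_ ?_
    · obtain ⟨a, ha, b, hb, hab⟩ := hedge
      exact ⟨⟨a, ha⟩, ⟨b, hb⟩, hab⟩
    · intro a ha
      exact (hdom a.1 a.2 (fun h => ha (Subtype.ext h))).symm
    · rintro ⟨w, hw⟩ hwz
      obtain ⟨a, ha, haz, haw, h⟩ := htw w hw (fun h => hwz (Subtype.ext h))
      exact ⟨⟨a, ha⟩, fun h => haz (congrArg Subtype.val h), fun h => haw (congrArg Subtype.val h),
        h⟩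
  exact SSPq.transport (Equiv.ofBijective _ (insMap_bijective hv)) key (fun a b hab => hab)

/-- Join with a set carrying two distinct eigenvalues. -/
theorem QS.join {G : SimpleGraph V} {S T : Finset V} {l : ℕ} (hST : Disjoint S T)
    (hiso : ∀ a ∈ S, ∃ b ∈ S, G.Adj a b) (hcross : ∀ a ∈ S, ∀ b ∈ T, G.Adj a b)
    (hS : QS G S 2) (hT : QS G T l) : QS G (S ∪ T) (max 2 l) := by
  let ψ : {x // x ∈ S} ⊕ {x // x ∈ T} → V
    | Sum.inl x => x.1
    | Sum.inr x => x.1
  have key : SSPq (G.comap ψ) (max 2 l) := by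
    refine SSPq.join (G := G.comap ψ) hS hT ?_ ?_
    · intro a
      obtain ⟨b, hb, hab⟩ := hiso a.1 a.2
      exact ⟨⟨b, hb⟩, hab⟩
    · intro a b
      exact hcross a.1 a.2 b.1 b.2
  have hbij : Function.Bijective (Sum.elim (fun x : {x // x ∈ S} =>
      (⟨x.1, Finset.mem_union_left _ x.2⟩ : {x // x ∈ S ∪ T}))
      (fun x : {x // x ∈ T} => (⟨x.1, Finset.mem_union_right _ x.2⟩ : {x // x ∈ S ∪ T}))) := by
    constructor
    · rintro (⟨a, ha⟩ | ⟨a, ha⟩) (⟨b, hb⟩ | ⟨b, hb⟩) hab
      · simp only [Sum.elim_inl, Subtype.mk.injEq] at hab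
        subst hab; rfl
      · simp only [Sum.elim_inl, Sum.elim_inr, Subtype.mk.injEq] at hab
        subst hab
        exact absurd hb (Finset.disjoint_left.1 hST ha)
      · simp only [Sum.elim_inl, Sum.elim_inr, Subtype.mk.injEq] at hab
        subst hab
        exact absurd ha (Finset.disjoint_left.1 hST hb)
      · simp only [Sum.elim_inr, Subtype.mk.injEq] at hab
        subst hab; rfl
    · rintro ⟨x, hx⟩
      rcases Finset.mem_union.1 hx with h | h
      · exact ⟨Sum.inl ⟨x, h⟩, rfl⟩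
      · exact ⟨Sum.inr ⟨x, h⟩, rfl⟩
  refine SSPq.transport (Equiv.ofBijective _ hbij) key ?_
  rintro (a | a) (b | b) hab <;> exact hab

/-- adding one vertex costs at most one eigenvalue -/
theorem QS.insert {G : SimpleGraph V} {S : Finset V} {k : ℕ} {v : V} (hv : v ∉ S)
    (hq : QS G S k) : QS G (insert v S) (k + 1) := by
  have h1 : QS G {v} 1 := by simpa using QS.card G {v}
  have h2 := QS.union (Finset.disjoint_singleton_left.2 hv) h1 hq
  rw [← Finset.insert_eq, add_comm] at h2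
  exact h2

lemma QS.mono {G H : SimpleGraph V} {S : Finset V} {k : ℕ} (hq : QS G S k)
    (h : ∀ a ∈ S, ∀ b ∈ S, G.Adj a b → H.Adj a b) : QS H S k :=
  SSPq.mono hq (fun a b hab => h a.1 a.2 b.1 b.2 hab)

end Pool.Agent.helper46
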