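import Mathlib
import Pool.Agent.helper46.TwinS

set_option autoImplicit false

open Matrix

namespace Pool.Agent.helper46

section host

variable {V : Type*} [DecidableEq V]

/-- the oriented relation of the host graph -/
def hostRel (b : Fin 6 → V) (par : V → V) (x y : V) : Prop :=
  (∃ i : Fin 6, x = b i ∧ y = b (i + 1)) ∨ (x ∉ Set.range b ∧ y = par x)

/-- the host graph: a hexagon with rooted trees attached -/
def host (b : Fin 6 → V) (par : V → V) : SimpleGraph V := SimpleGraph.fromRel (hostRel b par)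

/-- data for the host graph -/
structure HostData (b : Fin 6 → V) (par : V → V) (r : V → ℕ) : Prop where
  inj : Function.Injective b
  par_lt : ∀ v, v ∉ Set.range b → r (par v) < r v

variable {b : Fin 6 → V} {par : V → V} {r : V → ℕ}

lemma host_adj {x y : V} : (host b par).Adj x y ↔
    x ≠ y ∧ (hostRel b par x y ∨ hostRel b par y x) := SimpleGraph.fromRel_adj _ _ _

lemma HostData.par_ne (h : HostData b par r) {v : V} (hv : v ∉ Set.range b) : par v ≠ v := by
  intro h'
  have := h.par_lt v hv
  rw [h'] at this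
  exact lt_irrefl _ this

lemma HostData.adj_par (h : HostData b par r) {v : V} (hv : v ∉ Set.range b) :
    (host b par).Adj (par v) v :=
  host_adj.2 ⟨h.par_ne hv, Or.inr (Or.inr ⟨hv, rfl⟩)⟩

/-- neighbours of a vertex outside the hexagon -/
lemma host_adj_out {x y : V} (hx : x ∉ Set.range b) (hxy : (host b par).Adj x y) :
    y = par x ∨ (y ∉ Set.range b ∧ par y = x) := by
  rcases (host_adj.1 hxy).2 with (⟨i, h1, _⟩ | ⟨_, h2⟩) | (⟨i, _, h2⟩ | ⟨h1, h2⟩)
  · exact absurd ⟨i, h1.symm⟩ hx
  · exact Or.inl h2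
  · exact absurd ⟨i + 1, h2.symm⟩ hx
  · exact Or.inr ⟨h1, h2.symm⟩

/-- adjacency inside the hexagon -/
lemma HostData.adj_in (h : HostData b par r) {i j : Fin 6} :
    (host b par).Adj (b i) (b j) ↔ (j = i + 1 ∨ i = j + 1) := by
  rw [host_adj]
  constructor
  · rintro ⟨_, (⟨k, h1, h2⟩ | ⟨h1, _⟩) | (⟨k, h1, h2⟩ | ⟨h1, _⟩)⟩
    · rw [h.inj h1, h.inj h2]; exact Or.inl rfl
    · exact absurd ⟨i, rfl⟩ h1
    · rw [h.inj h1, h.inj h2]; exact Or.inr rfl
    · exact absurd ⟨j, rfl⟩ h1
  · rintro (rfl | rfl)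
    · refine ⟨fun h' => ?_, Or.inl (Or.inl ⟨i, rfl, rfl⟩)⟩
      have k : ∀ i : Fin 6, i ≠ i + 1 := by decide
      exact k i (h.inj h')
    · refine ⟨fun h' => ?_, Or.inr (Or.inl ⟨j, rfl, rfl⟩)⟩
      have k : ∀ i : Fin 6, i + 1 ≠ i := by decide
      exact k j (h.inj h')

/-- closed sets -/
def HClosed (b : Fin 6 → V) (par : V → V) (S : Finset V) : Prop :=
  (∀ i, b i ∈ S) ∧ ∀ v ∈ S, v ∉ Set.range b → par v ∈ S

/-- no twins for `z` -/
def TF (H : SimpleGraph V) (S : Finset V) (z : V) : Prop :=
  ∀ w ∈ S, w ≠ z → ∃ a ∈ S, a ≠ z ∧ a ≠ w ∧ ¬ (H.Adj a z ↔ H.Adj a w)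

lemma TF.compl {H : SimpleGraph V} {S : Finset V} {z : V} (h : TF H S z) : TF Hᶜ S z := by
  intro w hw hwz
  obtain ⟨a, ha, haz, haw, hne⟩ := h w hw hwz
  refine ⟨a, ha, haz, haw, ?_⟩
  rw [SimpleGraph.compl_adj, SimpleGraph.compl_adj]
  tauto

lemma HostData.tf_in (h : HostData b par r) {S : Finset V} (hS : HClosed b par S) (i : Fin 6) :
    TF (host b par) S (b i) := by
  intro w hw hwz
  by_cases hwb : w ∈ Set.range b
  · obtain ⟨k, rfl⟩ := hwb
    have hki : k ≠ i := fun h' => hwz (by rw [h'])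
    have key : ∀ i k : Fin 6, k ≠ i → ∃ a : Fin 6, (a = i + 1 ∨ i = a + 1) ∧ a ≠ i ∧ a ≠ k ∧
        ¬ (k = a + 1 ∨ a = k + 1) := by decide
    obtain ⟨a, h1, h2, h3, h4⟩ := key i k hki
    refine ⟨b a, hS.1 a, fun h' => h2 (h.inj h'), fun h' => h3 (h.inj h'), ?_⟩
    rw [h.adj_in, h.adj_in]
    intro hiff
    exact h4 (hiff.1 (by tauto))
  · have key : ∃ a : Fin 6, (a = i + 1 ∨ i = a + 1) ∧ a ≠ i ∧ b a ≠ par w := by
      by_contra hcon
      push Not at hcon
      have k1 : ∀ i : Fin 6, i + 1 ≠ i := by decide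
      have k2 : ∀ i : Fin 6, i = i + 5 + 1 := by decide
      have k3 : ∀ i : Fin 6, i + 5 ≠ i := by decide
      have k4 : ∀ i : Fin 6, i + 1 ≠ i + 5 := by decide
      have h1 := hcon (i + 1) (Or.inl rfl) (k1 i)
      have h2 := hcon (i + 5) (Or.inr (k2 i)) (k3 i)
      exact k4 i (h.inj (h1.trans h2.symm))
    obtain ⟨a, h1, h2, h3⟩ := key
    refine ⟨b a, hS.1 a, fun h' => h2 (h.inj h'), fun h' => hwb ⟨a, h'⟩, ?_⟩
    intro hiff
    have h4 : (host b par).Adj (b a) (b i) := h.adj_in.2 (by tauto)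
    rcases host_adj_out hwb (hiff.1 h4).symm with h5 | h5
    · exact h3 h5
    · exact h5.1 ⟨a, rfl⟩

lemma HostData.tf_child (h : HostData b par r) {S : Finset V} (hS : HClosed b par S) {z c : V}
    (hz : z ∈ S) (hzb : z ∉ Set.range b) (hc : c ∈ S) (hcb : c ∉ Set.range b)
    (hcz : par c = z) : TF (host b par) S z := by
  have r1 : r (par z) < r z := h.par_lt z hzb
  have r2 : r z < r c := by have := h.par_lt c hcb; rwa [hcz] at this
  have hpz : par z ∈ S := hS.2 z hz hzb
  have hac : (host b par).Adj c z := by rw [← hcz]; exact (h.adj_par hcb).symm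
  have hap : (host b par).Adj (par z) z := h.adj_par hzb
  have ne1 : c ≠ z := hac.ne
  have ne2 : par z ≠ z := hap.ne
  intro w hw hwz
  by_cases hw1 : w = par z
  · subst hw1
    refine ⟨c, hc, ne1, ?_, ?_⟩
    · intro h'; rw [h'] at r2; omega
    · intro hiff
      rcases host_adj_out hcb (hiff.1 hac) with h5 | ⟨h5, h6⟩
      · rw [hcz] at h5; exact ne2 h5
      · have := h.par_lt _ h5
        rw [h6] at this; omega
  · by_cases hw2 : (host b par).Adj (par z) w
    · have hwc : w ≠ c := by
        rintro rfl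
        rcases host_adj_out hcb hw2.symm with h5 | ⟨h5, h6⟩
        · rw [hcz] at h5; exact ne2 h5
        · have := h.par_lt _ h5
          rw [h6] at this; omega
      refine ⟨c, hc, ne1, Ne.symm hwc, ?_⟩
      intro hiff
      rcases host_adj_out hcb (hiff.1 hac) with h5 | ⟨h5, h6⟩
      · rw [hcz] at h5; exact hwz h5
      · have r3 := h.par_lt _ h5
        rw [h6] at r3
        rcases host_adj_out h5 hw2.symm with h7 | ⟨h7, h8⟩
        · rw [h6] at h7
          rw [h7] at r1; omega
        · have := h.par_lt _ h7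
          rw [h8] at this; omega
    · exact ⟨par z, hpz, ne2, Ne.symm hw1, fun hiff => hw2 (hiff.1 hap)⟩

lemma HostData.tf_leaf (h : HostData b par r) {S : Finset V} (hS : HClosed b par S) {z : V}
    (hz : z ∈ S) (hzb : z ∉ Set.range b) (hnc : ∀ c ∈ S, c ∉ Set.range b → par c ≠ z)
    (hsib : ∀ w ∈ S, w ∉ Set.range b → w ≠ z → par w = par z →
      ∃ c ∈ S, c ∉ Set.range b ∧ par c = w) : TF (host b par) S z := by
  have hpz : par z ∈ S := hS.2 z hz hzb
  have hap : (host b par).Adj (par z) z := h.adj_par hzb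
  have r1 : r (par z) < r z := h.par_lt z hzb
  -- the only neighbour of `z` in `S` is its parent
  have honly : ∀ a ∈ S, (host b par).Adj a z → a = par z := by
    intro a ha haz
    rcases host_adj_out hzb haz.symm with h5 | ⟨h5, h6⟩
    · exact h5
    · exact absurd h6 (hnc a ha h5)
  -- it suffices to find another neighbour of `w`
  have hsuff : ∀ w, (∃ a ∈ S, a ≠ z ∧ a ≠ par z ∧ (host b par).Adj a w) →
      ∃ a ∈ S, a ≠ z ∧ a ≠ w ∧ ¬ ((host b par).Adj a z ↔ (host b par).Adj a w) := by
    rintro w ⟨a, ha, h1, h2, h3⟩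
    exact ⟨a, ha, h1, h3.ne, fun hiff => h2 (honly a ha (hiff.2 h3))⟩
  intro w hw hwz
  by_cases hw1 : w = par z
  · apply hsuff
    by_cases hwb : w ∈ Set.range b
    · obtain ⟨i, rfl⟩ := hwb
      have hadj : (host b par).Adj (b (i + 1)) (b i) := h.adj_in.2 (Or.inr rfl)
      refine ⟨b (i + 1), hS.1 _, fun h' => hzb ⟨_, h'⟩, ?_, hadj⟩
      rw [← hw1]; exact hadj.ne
    · have hadj := h.adj_par hwb
      refine ⟨par w, hS.2 w hw hwb, ?_, ?_, hadj⟩
      · intro h'
        have := h.par_lt w hwb
        rw [h', hw1] at this; omega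
      · rw [← hw1]; exact hadj.ne
  · by_cases hw2 : (host b par).Adj (par z) w
    · apply hsuff
      by_cases hwb : w ∈ Set.range b
      · obtain ⟨i, rfl⟩ := hwb
        by_cases hzb' : par z ∈ Set.range b
        · obtain ⟨j, hj⟩ := hzb'
          have key : ∀ i j : Fin 6, ∃ a : Fin 6, (i = a + 1 ∨ a = i + 1) ∧ a ≠ j := by decide
          obtain ⟨a, h1, h2⟩ := key i j
          refine ⟨b a, hS.1 _, fun h' => hzb ⟨_, h'⟩, ?_, h.adj_in.2 h1⟩
          rw [← hj]
          exact fun h' => h2 (h.inj h')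
        · refine ⟨b (i + 1), hS.1 _, fun h' => hzb ⟨_, h'⟩, fun h' => hzb' ⟨_, h'⟩,
            h.adj_in.2 (Or.inr rfl)⟩
      · rcases host_adj_out hwb hw2.symm with h5 | ⟨h5, h6⟩
        · obtain ⟨c, hc, hcb, hcw⟩ := hsib w hw hwb hwz h5.symm
          have hadj := h.adj_par hcb
          rw [hcw] at hadj
          refine ⟨c, hc, ?_, ?_, hadj.symm⟩
          · rintro rfl
            exact hw1 hcw.symm
          · intro h'
            have r3 := h.par_lt c hcb
            have r4 := h.par_lt w hwb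
            rw [hcw] at r3
            rw [← h5, ← h'] at r4
            omega
        · have hadj := h.adj_par hwb
          refine ⟨par w, hS.2 w hw hwb, ?_, ?_, hadj⟩
          · intro h'
            have r3 := h.par_lt w hwb
            have r4 := h.par_lt _ h5
            rw [h6] at r4
            rw [h'] at r3
            omega
          · intro h'
            have r3 := h.par_lt w hwb
            have r4 := h.par_lt _ h5
            rw [h6] at r4
            rw [h'] at r3
            omega
    · exact ⟨par z, hpz, hap.ne, Ne.symm hw1, fun hiff => hw2 (hiff.1 hap)⟩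

/-- The complement of the host graph has two distinct eigenvalues on every closed set. -/
theorem HostData.qs (h : HostData b par r)
    (hbase : QS (host b par)ᶜ (Finset.univ.image b) 2) :
    ∀ (n : ℕ) (S : Finset V), S.card = n → HClosed b par S → QS (host b par)ᶜ S 2 := by
  classical
  -- the step
  have hstep : ∀ (S : Finset V) (v : V), HClosed b par S → v ∈ S → v ∉ Set.range b →
      (∀ c ∈ S, c ∉ Set.range b → par c ≠ v) → TF (host b par) (S.erase v) (par v) →
      QS (host b par)ᶜ (S.erase v) 2 → QS (host b par)ᶜ S 2 := by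
    intro S v hS hv hvb hnc htf hq
    have h1 : QS (host b par)ᶜ (insert v (S.erase v)) 2 := by
      refine QS.coleaf (z := par v) (Finset.notMem_erase v S)
        (Finset.mem_erase.2 ⟨h.par_ne hvb, hS.2 v hv hvb⟩) ?_ ?_ htf.compl hq
      · refine ⟨b 0, Finset.mem_erase.2 ⟨fun h' => hvb ⟨_, h'⟩, hS.1 0⟩, b 2,
          Finset.mem_erase.2 ⟨fun h' => hvb ⟨_, h'⟩, hS.1 2⟩, ?_⟩
        rw [SimpleGraph.compl_adj]
        refine ⟨fun h' => ?_, fun h' => ?_⟩
        · have := h.inj h'; revert this; decide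
        · rw [h.adj_in] at h'; revert h'; decide
      · intro a ha hap
        have ha' := Finset.mem_erase.1 ha
        rw [SimpleGraph.compl_adj]
        refine ⟨Ne.symm ha'.1, fun h' => ?_⟩
        rcases host_adj_out hvb h' with h5 | ⟨h5, h6⟩
        · exact hap h5
        · exact hnc a ha'.2 h5 h6
    rwa [Finset.insert_erase hv] at h1
  have hclosed : ∀ (S : Finset V) (v : V), HClosed b par S → v ∉ Set.range b →
      (∀ c ∈ S, c ∉ Set.range b → par c ≠ v) → HClosed b par (S.erase v) := by
    intro S v hS hvb hnc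
    refine ⟨fun i => Finset.mem_erase.2 ⟨fun h' => hvb ⟨_, h'⟩, hS.1 i⟩, ?_⟩
    intro w hw hwb
    have hw' := Finset.mem_erase.1 hw
    exact Finset.mem_erase.2 ⟨hnc w hw'.2 hwb, hS.2 w hw'.2 hwb⟩
  intro n
  induction n with
  | zero =>
    intro S hS hcl
    exact absurd (Finset.card_pos.2 ⟨_, hcl.1 0⟩) (by omega)
  | succ n ih =>
    intro S hSn hS
    by_cases hex : ∃ v ∈ S, v ∉ Set.range b
    · -- a vertex of maximal rank
      obtain ⟨v, hvm, hvmax⟩ := Finset.exists_max_image (S.filter (fun v => v ∉ Set.range b)) r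
        (by obtain ⟨v, h1, h2⟩ := hex; exact ⟨v, by simp only [Finset.mem_filter]; exact ⟨h1, h2⟩⟩)
      rw [Finset.mem_filter] at hvm
      obtain ⟨hv, hvb⟩ := hvm
      have hnc : ∀ c ∈ S, c ∉ Set.range b → par c ≠ v := by
        intro c hc hcb hcv
        have h1 := hvmax c (Finset.mem_filter.2 ⟨hc, hcb⟩)
        have h2 := h.par_lt c hcb
        rw [hcv] at h2; omega
      have hcl' := hclosed S v hS hvb hnc
      have hcard' : (S.erase v).card = n := by
        rw [Finset.card_erase_of_mem hv, hSn]; rfl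
      have hq' := ih _ hcard' hcl'
      by_cases hzb : par v ∈ Set.range b
      · obtain ⟨i, hi⟩ := hzb
        refine hstep S v hS hv hvb hnc ?_ hq'
        rw [← hi]
        exact h.tf_in hcl' i
      · have hzS : par v ∈ S.erase v := Finset.mem_erase.2 ⟨h.par_ne hvb, hS.2 v hv hvb⟩
        by_cases hc : ∃ c ∈ S, c ≠ v ∧ c ∉ Set.range b ∧ par c = par v
        · obtain ⟨c, hcS, hcv, hcb, hcp⟩ := hc
          exact hstep S v hS hv hvb hnc
            (h.tf_child hcl' hzS hzb (Finset.mem_erase.2 ⟨hcv, hcS⟩) hcb hcp) hq'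
        · push Not at hc
          by_cases hw : ∃ w ∈ S, w ∉ Set.range b ∧ w ≠ par v ∧ par w = par (par v) ∧
              ∀ c ∈ S, c ∉ Set.range b → par c ≠ w
          · obtain ⟨w, hwS, hwb, hwz, hwp, hwc⟩ := hw
            have hclw := hclosed S w hS hwb hwc
            have hcardw : (S.erase w).card = n := by
              rw [Finset.card_erase_of_mem hwS, hSn]; rfl
            refine hstep S w hS hwS hwb hwc ?_ (ih _ hcardw hclw)
            rw [hwp]
            have hzS' : par v ∈ S.erase w :=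
              Finset.mem_erase.2 ⟨Ne.symm hwz, hS.2 v hv hvb⟩
            by_cases hpb : par (par v) ∈ Set.range b
            · obtain ⟨i, hi⟩ := hpb
              rw [← hi]
              exact h.tf_in hclw i
            · exact h.tf_child hclw (hclw.2 _ hzS' hzb) hpb hzS' hzb rfl
          · push Not at hw
            refine hstep S v hS hv hvb hnc (h.tf_leaf hcl' hzS hzb ?_ ?_) hq'
            · intro c hc' hcb hcp
              have hc'' := Finset.mem_erase.1 hc'
              exact hc c hc''.2 hc''.1 hcb hcp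
            · intro w hwS hwb hwz hwp
              have hw' := Finset.mem_erase.1 hwS
              obtain ⟨c, hcS, hcb, hcw⟩ := hw w hw'.2 hwb hwz hwp
              refine ⟨c, Finset.mem_erase.2 ⟨?_, hcS⟩, hcb, hcw⟩
              rintro rfl
              exact hwz hcw.symm
    · push Not at hex
      have : S = Finset.univ.image b := by
        ext x
        simp only [Finset.mem_image, Finset.mem_univ, true_and]
        constructor
        · intro hx
          obtain ⟨i, hi⟩ := not_not.1 (fun h' => h' (hex x hx))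
          exact ⟨i, hi⟩
        · rintro ⟨i, rfl⟩
          exact hS.1 i
      rw [this]
      exact hbase

end host

end Pool.Agent.helper46
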