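import Mathlib
import Pool.Agent.helper46.Host

set_option autoImplicit false

open Matrix

namespace Pool.Agent.helper46

/-- the hexagon -/
def hex : SimpleGraph (Fin 6) where
  Adj i j := j = i + 1 ∨ i = j + 1
  symm := ⟨fun _ _ h => h.symm⟩
  loopless := ⟨fun i h => by revert h; revert i; decide⟩

instance : DecidableRel hex.Adj := fun i j => inferInstanceAs (Decidable (j = i + 1 ∨ i = j + 1))

/-- an idempotent matrix with the pattern of the prism -/
noncomputable def prismMat : Matrix (Fin 6) (Fin 6) ℝ :=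
  !![3/5, 0, -1/5, 2/5, -1/5, 0;
     0, 2/5, 0, 1/5, 2/5, 1/5;
     -1/5, 0, 3/5, 0, -1/5, 2/5;
     2/5, 1/5, 0, 2/5, 0, 1/5;
     -1/5, 2/5, -1/5, 0, 3/5, 0;
     0, 1/5, 2/5, 1/5, 0, 2/5]

theorem SSPq.prism : SSPq hexᶜ 2 := by
  refine ⟨prismMat, ?_, ?_, ?_, {0, 1}, Finset.card_le_two, ?_⟩
  · ext i j
    fin_cases i <;> fin_cases j <;> simp [prismMat]
  · intro i j hij
    have hdec : hexᶜ.Adj i j ↔ (i ≠ j ∧ ¬ (j = i + 1 ∨ i = j + 1)) := by
      rw [SimpleGraph.compl_adj]; rfl
    rw [hdec]
    fin_cases i <;> fin_cases j <;> simp [prismMat] at hij ⊢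
  · intro X hXs hX hcomm
    have hz : ∀ i j : Fin 6, ¬ (j = i + 1 ∨ i = j + 1) → X i j = 0 := by
      intro i j hij
      apply hX
      rw [compl_compl]
      exact hij
    have hs : ∀ i j, X i j = X j i := fun i j => hXs.apply j i
    have e : ∀ i j, (prismMat * X) i j = (X * prismMat) i j := fun i j => by rw [hcomm]
    have h10 := hs 1 0
    have h21 := hs 2 1
    have h32 := hs 3 2
    have h43 := hs 4 3
    have h54 := hs 5 4
    have h05 := hs 0 5
    have z00 := hz 0 0 (by decide)
    have z11 := hz 1 1 (by decide)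
    have z22 := hz 2 2 (by decide)
    have z33 := hz 3 3 (by decide)
    have z44 := hz 4 4 (by decide)
    have z55 := hz 5 5 (by decide)
    have z02 := hz 0 2 (by decide)
    have z20 := hz 2 0 (by decide)
    have z03 := hz 0 3 (by decide)
    have z30 := hz 3 0 (by decide)
    have z04 := hz 0 4 (by decide)
    have z40 := hz 4 0 (by decide)
    have z13 := hz 1 3 (by decide)
    have z31 := hz 3 1 (by decide)
    have z14 := hz 1 4 (by decide)
    have z41 := hz 4 1 (by decide)
    have z15 := hz 1 5 (by decide)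
    have z51 := hz 5 1 (by decide)
    have z24 := hz 2 4 (by decide)
    have z42 := hz 4 2 (by decide)
    have z25 := hz 2 5 (by decide)
    have z52 := hz 5 2 (by decide)
    have z35 := hz 3 5 (by decide)
    have z53 := hz 5 3 (by decide)
    have key : X 0 1 = 0 ∧ X 1 2 = 0 ∧ X 2 3 = 0 ∧ X 3 4 = 0 ∧ X 4 5 = 0 ∧ X 5 0 = 0 := by
      have e03 := e 0 3
      have e01 := e 0 1
      have e05 := e 0 5
      have e23 := e 2 3
      have e21 := e 2 1
      have e25 := e 2 5
      have e43 := e 4 3
      have e45 := e 4 5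
      have e41 := e 4 1
      have e02 := e 0 2
      have e04 := e 0 4
      have e24 := e 2 4
      have e13 := e 1 3
      have e15 := e 1 5
      have e35 := e 3 5
      clear hs hz e hcomm
      simp only [Matrix.mul_apply, Fin.sum_univ_six, prismMat, Matrix.of_apply, Matrix.cons_val, z00, z11, z22, z33, z44, z55, z02, z20, z03, z30, z04, z40, z13, z31, z14, z41, z15, z51, z24, z42, z25, z52, z35, z53, h10, h21, h32, h43, h54, h05, mul_zero, zero_mul, add_zero, zero_add] at e03 e01 e05 e23 e21 e25 e43 e45 e41 e02 e04 e24 e13 e15 e35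
      clear z00 z11 z22 z33 z44 z55 z02 z20 z03 z30 z04 z40 z13 z31 z14 z41 z15 z51 z24 z42 z25 z52 z35 z53 h10 h21 h32 h43 h54 h05
      refine ⟨?_, ?_, ?_, ?_, ?_, ?_⟩ <;> linarith
    obtain ⟨k0, k1, k2, k3, k4, k5⟩ := key
    ext i j
    fin_cases i <;> fin_cases j <;>
      simp only [Fin.zero_eta, Fin.mk_one, Fin.reduceFinMk, Matrix.zero_apply] <;>
      first
        | assumption
        | (simp only [h10, h21, h32, h43, h54, h05]; assumption)
  · have hid : IsIdempotentElem prismMat := by
      ext i j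
      rw [Matrix.mul_apply]
      fin_cases i <;> fin_cases j <;>
        simp [Fin.sum_univ_six, prismMat] <;> norm_num
    have := hid.spectrum_subset ℝ
    simpa using this

end Pool.Agent.helper46
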