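import Mathlib
import Pool.Agent.helper46.Grow

set_option autoImplicit false

open Matrix

namespace Pool.Agent.helper46

variable {V : Type*} [DecidableEq V]

/-- `S` arises from `B` by adding vertices with at most one neighbour in the current set -/
inductive Grow (G : SimpleGraph V) (B : Finset V) : Finset V → Prop
  | base : Grow G B B
  | add {S : Finset V} {v : V} : Grow G B S → v ∉ S →
      (∀ x ∈ S, ∀ y ∈ S, G.Adj v x → G.Adj v y → x = y) → Grow G B (insert v S)

lemma Grow.subset {G : SimpleGraph V} {B S : Finset V} (h : Grow G B S) : B ⊆ S := by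
  induction h with
  | base => exact Finset.Subset.refl _
  | add _ _ _ ih => exact ih.trans (Finset.subset_insert _ _)

lemma Grow.data {G : SimpleGraph V} {b : Fin 6 → V} (hb : Function.Injective b)
    (hhex : ∀ i j, G.Adj (b i) (b j) → j = i + 1 ∨ i = j + 1) {S : Finset V}
    (h : Grow G (Finset.univ.image b) S) :
    ∃ (par : V → V) (r : V → ℕ), HostData b par r ∧ HClosed b par S ∧
      (∀ w, w ∉ S → par w = b 0) ∧
      ∀ x ∈ S, ∀ y ∈ S, G.Adj x y → (host b par).Adj x y := by
  classical
  induction h with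
  | base =>
    have hmem : ∀ x, x ∈ Finset.univ.image b ↔ x ∈ Set.range b := by
      intro x; simp
    refine ⟨fun _ => b 0, fun v => if v ∈ Set.range b then 0 else 1, ⟨hb, ?_⟩, ⟨?_, ?_⟩, ?_, ?_⟩
    · intro v hv
      simp [hv]
    · intro i; simp
    · intro v _ _
      simp
    · intro _ _; rfl
    · intro x hx y hy hxy
      rw [hmem] at hx hy
      obtain ⟨i, rfl⟩ := hx
      obtain ⟨j, rfl⟩ := hy
      rw [host_adj]
      refine ⟨hxy.ne, ?_⟩
      rcases hhex i j hxy with rfl | rfl
      · exact Or.inl (Or.inl ⟨i, rfl, rfl⟩)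
      · exact Or.inr (Or.inl ⟨j, rfl, rfl⟩)
  | @add S v hS hv hu ih =>
    obtain ⟨par, r, hd, hcl, hout, hadj⟩ := ih
    have hvb : v ∉ Set.range b := fun ⟨i, hi⟩ => hv (hi ▸ hcl.1 i)
    -- the parent of the new vertex
    obtain ⟨z, hzS, hz⟩ : ∃ z ∈ S, ∀ x ∈ S, G.Adj v x → x = z := by
      by_cases hex : ∃ z ∈ S, G.Adj v z
      · obtain ⟨z, hz, hvz⟩ := hex
        exact ⟨z, hz, fun x hx hvx => hu x hx z hz hvx hvz⟩
      · push Not at hex
        exact ⟨b 0, hcl.1 0, fun x hx hvx => absurd hvx (hex x hx)⟩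
    have hzv : z ≠ v := fun h' => hv (h' ▸ hzS)
    have hpar : ∀ w, w ≠ v → Function.update par v z w = par w :=
      fun w hw => Function.update_of_ne hw _ _
    have hrr : ∀ w, w ≠ v → Function.update r v (r z + 1) w = r w :=
      fun w hw => Function.update_of_ne hw _ _
    have hpne : ∀ w, w ∉ Set.range b → w ≠ v → par w ≠ v := by
      intro w hwb hwv h'
      by_cases hwS : w ∈ S
      · exact hv (h' ▸ hcl.2 w hwS hwb)
      · exact hvb ⟨0, by rw [← hout w hwS]; exact h'⟩
    refine ⟨Function.update par v z, Function.update r v (r z + 1), ⟨hb, ?_⟩, ⟨?_, ?_⟩, ?_, ?_⟩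
    · intro w hwb
      by_cases hwv : w = v
      · subst hwv
        rw [Function.update_self, Function.update_self, hrr z hzv]
        exact Nat.lt_succ_self _
      · rw [hpar w hwv, hrr w hwv, hrr _ (hpne w hwb hwv)]
        exact hd.par_lt w hwb
    · intro i; exact Finset.mem_insert_of_mem (hcl.1 i)
    · intro w hw hwb
      by_cases hwv : w = v
      · subst hwv
        rw [Function.update_self]
        exact Finset.mem_insert_of_mem hzS
      · rw [hpar w hwv]
        exact Finset.mem_insert_of_mem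
          (hcl.2 w ((Finset.mem_insert.1 hw).resolve_left hwv) hwb)
    · intro w hw
      have hwv : w ≠ v := fun h' => hw (h' ▸ Finset.mem_insert_self _ _)
      rw [hpar w hwv]
      exact hout w (fun h' => hw (Finset.mem_insert_of_mem h'))
    · have hrel : ∀ x y, x ≠ v → hostRel b par x y → hostRel b (Function.update par v z) x y := by
        rintro x y hxv (⟨i, h1, h2⟩ | ⟨h1, h2⟩)
        · exact Or.inl ⟨i, h1, h2⟩
        · exact Or.inr ⟨h1, by rw [hpar x hxv]; exact h2⟩
      have hnew : hostRel b (Function.update par v z) v z :=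
        Or.inr ⟨hvb, by rw [Function.update_self]⟩
      intro x hx y hy hxy
      rw [host_adj]
      refine ⟨hxy.ne, ?_⟩
      rcases Finset.mem_insert.1 hx with hx' | hx' <;> rcases Finset.mem_insert.1 hy with hy' | hy'
      · exact absurd (hx'.trans hy'.symm) hxy.ne
      · rw [hx'] at hxy ⊢
        rw [hz y hy' hxy]
        exact Or.inl hnew
      · rw [hy'] at hxy ⊢
        rw [hz x hx' hxy.symm]
        exact Or.inr hnew
      · have hxv : x ≠ v := fun h' => hv (h' ▸ hx')
        have hyv : y ≠ v := fun h' => hv (h' ▸ hy')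
        rcases (host_adj.1 (hadj x hx' y hy' hxy)).2 with h | h
        · exact Or.inl (hrel _ _ hxv h)
        · exact Or.inr (hrel _ _ hyv h)

/-- the complement of a grown set has two distinct eigenvalues -/
theorem QS.grow {G : SimpleGraph V} {b : Fin 6 → V} (hb : Function.Injective b)
    (hhex : ∀ i j, G.Adj (b i) (b j) → j = i + 1 ∨ i = j + 1) {S : Finset V}
    (h : Grow G (Finset.univ.image b) S) : QS Gᶜ S 2 := by
  obtain ⟨par, r, hd, hcl, -, hadj⟩ := h.data hb hhex
  have hbase : QS (host b par)ᶜ (Finset.univ.image b) 2 := by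
    let e : Fin 6 ≃ {x // x ∈ Finset.univ.image b} :=
      Equiv.ofBijective (fun i => ⟨b i, Finset.mem_image_of_mem _ (Finset.mem_univ _)⟩) (by
        constructor
        · intro i j hij
          exact hb (congrArg Subtype.val hij)
        · rintro ⟨x, hx⟩
          obtain ⟨i, _, rfl⟩ := Finset.mem_image.1 hx
          exact ⟨i, rfl⟩)
    refine SSPq.transport e SSPq.prism ?_
    intro i j hij
    rw [SimpleGraph.comap_adj]
    change (host b par)ᶜ.Adj (b i) (b j)
    rw [SimpleGraph.compl_adj] at hij ⊢
    refine ⟨fun h' => hij.1 (hb h'), fun h' => hij.2 ?_⟩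
    exact hd.adj_in.1 h'
  refine (hd.qs hbase S.card S rfl hcl).mono ?_
  intro x hx y hy hxy
  rw [SimpleGraph.compl_adj] at hxy ⊢
  exact ⟨hxy.1, fun h' => hxy.2 (hadj x hx y hy h')⟩

end Pool.Agent.helper46
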