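import Mathlib
import Pool.Agent.helper46.GrowS

set_option autoImplicit false

open Matrix

namespace Pool.Agent.helper46

variable {V : Type*}

/-- `v` has at most one neighbour in `U` -/
def Low (G : SimpleGraph V) (U : Finset V) (v : V) : Prop :=
  ∀ x ∈ U, ∀ y ∈ U, G.Adj v x → G.Adj v y → x = y

lemma Low.mono {G : SimpleGraph V} {U U' : Finset V} {v : V} (h : U ⊆ U') (hL : Low G U' v) :
    Low G U v := fun x hx y hy => hL x (h hx) y (h hy)

/-- no cycles in `G[S]` -/
def Sparse (G : SimpleGraph V) (S : Finset V) : Prop :=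
  ∀ U ⊆ S, U.Nonempty → ∃ v ∈ U, Low G U v

/-- no cycles with at most six vertices in `G[S]` -/
def Star6 (G : SimpleGraph V) (S : Finset V) : Prop :=
  ∀ U ⊆ S, U.Nonempty → U.card ≤ 6 → ∃ v ∈ U, Low G U v

lemma Sparse.mono {G : SimpleGraph V} {S S' : Finset V} (h : S ⊆ S') (hS : Sparse G S') :
    Sparse G S := fun U hU => hS U (hU.trans h)

lemma Star6.mono {G : SimpleGraph V} {S S' : Finset V} (h : S ⊆ S') (hS : Star6 G S') :
    Star6 G S := fun U hU => hS U (hU.trans h)

lemma Star6.sparse {G : SimpleGraph V} {S : Finset V} (hS : Star6 G S) (h : S.card ≤ 6) :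
    Sparse G S := fun U hU hne => hS U hU hne ((Finset.card_le_card hU).trans h)

lemma Sparse.star6 {G : SimpleGraph V} {S : Finset V} (hS : Sparse G S) :
    Star6 G S := fun U hU hne _ => hS U hU hne

variable [DecidableEq V]

lemma Star6.no3 {G : SimpleGraph V} {S : Finset V} (hS : Star6 G S) {a b c : V} (ha : a ∈ S)
    (hb : b ∈ S) (hc : c ∈ S) (hab : G.Adj a b) (hbc : G.Adj b c) (hca : G.Adj c a) : False := by
  have hsub : ({a, b, c} : Finset V) ⊆ S := by
    intro x hx
    simp only [Finset.mem_insert, Finset.mem_singleton] at hx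
    rcases hx with rfl | rfl | rfl <;> assumption
  have hcard : ({a, b, c} : Finset V).card ≤ 6 := Finset.card_le_three.trans (by norm_num)
  obtain ⟨v, hv, hL⟩ := hS _ hsub ⟨a, by simp⟩ hcard
  have ma : a ∈ ({a, b, c} : Finset V) := by simp
  have mb : b ∈ ({a, b, c} : Finset V) := by simp
  have mc : c ∈ ({a, b, c} : Finset V) := by simp
  simp only [Finset.mem_insert, Finset.mem_singleton] at hv
  rcases hv with rfl | rfl | rfl
  · exact hbc.ne (hL b mb c mc hab hca.symm)
  · exact hca.ne (hL c mc a ma hbc hab.symm)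
  · exact hab.ne (hL a ma b mb hca hbc.symm)

lemma Star6.no4 {G : SimpleGraph V} {S : Finset V} (hS : Star6 G S) {a b c d : V} (ha : a ∈ S)
    (hb : b ∈ S) (hc : c ∈ S) (hd : d ∈ S) (hab : G.Adj a b) (hbc : G.Adj b c) (hcd : G.Adj c d)
    (hda : G.Adj d a) (nac : a ≠ c) (nbd : b ≠ d) : False := by
  have hsub : ({a, b, c, d} : Finset V) ⊆ S := by
    intro x hx
    simp only [Finset.mem_insert, Finset.mem_singleton] at hx
    rcases hx with rfl | rfl | rfl | rfl <;> assumption
  have hcard : ({a, b, c, d} : Finset V).card ≤ 6 := Finset.card_le_four.trans (by norm_num)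
  obtain ⟨v, hv, hL⟩ := hS _ hsub ⟨a, by simp⟩ hcard
  have ma : a ∈ ({a, b, c, d} : Finset V) := by simp
  have mb : b ∈ ({a, b, c, d} : Finset V) := by simp
  have mc : c ∈ ({a, b, c, d} : Finset V) := by simp
  have md : d ∈ ({a, b, c, d} : Finset V) := by simp
  simp only [Finset.mem_insert, Finset.mem_singleton] at hv
  rcases hv with rfl | rfl | rfl | rfl
  · exact nbd (hL b mb d md hab hda.symm)
  · exact nac (hL a ma c mc hab.symm hbc)
  · exact nbd (hL b mb d md hbc.symm hcd)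
  · exact nac (hL a ma c mc hda hcd.symm)

lemma Star6.no5 {G : SimpleGraph V} {S : Finset V} (hS : Star6 G S) {a b c d e : V} (ha : a ∈ S)
    (hb : b ∈ S) (hc : c ∈ S) (hd : d ∈ S) (he : e ∈ S) (hab : G.Adj a b) (hbc : G.Adj b c)
    (hcd : G.Adj c d) (hde : G.Adj d e) (hea : G.Adj e a) (nac : a ≠ c) (nbd : b ≠ d)
    (nce : c ≠ e) (nda : d ≠ a) (neb : e ≠ b) : False := by
  have hsub : ({a, b, c, d, e} : Finset V) ⊆ S := by
    intro x hx
    simp only [Finset.mem_insert, Finset.mem_singleton] at hx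
    rcases hx with rfl | rfl | rfl | rfl | rfl <;> assumption
  have hcard : ({a, b, c, d, e} : Finset V).card ≤ 6 := Finset.card_le_five.trans (by norm_num)
  obtain ⟨v, hv, hL⟩ := hS _ hsub ⟨a, by simp⟩ hcard
  have ma : a ∈ ({a, b, c, d, e} : Finset V) := by simp
  have mb : b ∈ ({a, b, c, d, e} : Finset V) := by simp
  have mc : c ∈ ({a, b, c, d, e} : Finset V) := by simp
  have md : d ∈ ({a, b, c, d, e} : Finset V) := by simp
  have me : e ∈ ({a, b, c, d, e} : Finset V) := by simp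
  simp only [Finset.mem_insert, Finset.mem_singleton] at hv
  rcases hv with rfl | rfl | rfl | rfl | rfl
  · exact neb (hL e me b mb hea.symm hab)
  · exact nac (hL a ma c mc hab.symm hbc)
  · exact nbd (hL b mb d md hbc.symm hcd)
  · exact nce (hL c mc e me hcd.symm hde)
  · exact nda (hL d md a ma hde.symm hea)

lemma Star6.no6 {G : SimpleGraph V} {S : Finset V} (hS : Star6 G S) {a b c d e f : V} (ha : a ∈ S)
    (hb : b ∈ S) (hc : c ∈ S) (hd : d ∈ S) (he : e ∈ S) (hf : f ∈ S) (hab : G.Adj a b)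
    (hbc : G.Adj b c) (hcd : G.Adj c d) (hde : G.Adj d e) (hef : G.Adj e f) (hfa : G.Adj f a)
    (nac : a ≠ c) (nbd : b ≠ d) (nce : c ≠ e) (ndf : d ≠ f) (nea : e ≠ a) (nfb : f ≠ b) :
    False := by
  have hsub : ({a, b, c, d, e, f} : Finset V) ⊆ S := by
    intro x hx
    simp only [Finset.mem_insert, Finset.mem_singleton] at hx
    rcases hx with rfl | rfl | rfl | rfl | rfl | rfl <;> assumption
  have hcard : ({a, b, c, d, e, f} : Finset V).card ≤ 6 := Finset.card_le_six
  obtain ⟨v, hv, hL⟩ := hS _ hsub ⟨a, by simp⟩ hcard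
  have ma : a ∈ ({a, b, c, d, e, f} : Finset V) := by simp
  have mb : b ∈ ({a, b, c, d, e, f} : Finset V) := by simp
  have mc : c ∈ ({a, b, c, d, e, f} : Finset V) := by simp
  have md : d ∈ ({a, b, c, d, e, f} : Finset V) := by simp
  have me : e ∈ ({a, b, c, d, e, f} : Finset V) := by simp
  have mf : f ∈ ({a, b, c, d, e, f} : Finset V) := by simp
  simp only [Finset.mem_insert, Finset.mem_singleton] at hv
  rcases hv with rfl | rfl | rfl | rfl | rfl | rfl
  · exact nfb (hL f mf b mb hfa.symm hab)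
  · exact nac (hL a ma c mc hab.symm hbc)
  · exact nbd (hL b mb d md hbc.symm hcd)
  · exact nce (hL c mc e me hcd.symm hde)
  · exact ndf (hL d md f mf hde.symm hef)
  · exact nea (hL e me a ma hef.symm hfa)

/-- `b` is an induced path on six vertices of `S` such that no vertex of `S` closes a short cycle -/
structure P6 (G : SimpleGraph V) (S : Finset V) (b : Fin 6 → V) : Prop where
  inj : Function.Injective b
  mem : ∀ i, b i ∈ S
  adj : ∀ i j, G.Adj (b i) (b j) ↔ (j.val = i.val + 1 ∨ i.val = j.val + 1)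
  out : ∀ u ∈ S, u ∉ Set.range b → ∀ i j, G.Adj u (b i) → G.Adj u (b j) → i < j → i = 0 ∧ j = 5

/-- an infinite walk without backtracking -/
lemma exists_walk {G : SimpleGraph V} {U : Finset V} (hne : U.Nonempty)
    (hU : ∀ v ∈ U, ¬ Low G U v) :
    ∃ a : ℕ → V, ∀ n, a n ∈ U ∧ G.Adj (a n) (a (n + 1)) ∧ a n ≠ a (n + 2) := by
  have hstep : ∀ v p : V, ∃ q, v ∈ U → q ∈ U ∧ G.Adj v q ∧ q ≠ p := by
    intro v p
    by_cases hv : v ∈ U
    · have := hU v hv
      simp only [Low] at this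
      push Not at this
      obtain ⟨x, hx, y, hy, hvx, hvy, hxy⟩ := this
      by_cases hxp : x = p
      · exact ⟨y, fun _ => ⟨hy, hvy, fun h => hxy (hxp.trans h.symm)⟩⟩
      · exact ⟨x, fun _ => ⟨hx, hvx, hxp⟩⟩
    · exact ⟨v, fun h => absurd h hv⟩
  choose nxt hnxt using hstep
  obtain ⟨x₀, hx₀⟩ := hne
  let s : ℕ → V × V := fun n => Nat.rec (x₀, nxt x₀ x₀) (fun _ t => (t.2, nxt t.2 t.1)) n
  have hs : ∀ n, (s n).1 ∈ U ∧ (s n).2 ∈ U ∧ G.Adj (s n).1 (s n).2 := by
    intro n
    induction n with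
    | zero =>
      have h := hnxt x₀ x₀ hx₀
      exact ⟨hx₀, h.1, h.2.1⟩
    | succ n ih =>
      have h := hnxt (s n).2 (s n).1 ih.2.1
      exact ⟨ih.2.1, h.1, h.2.1⟩
  refine ⟨fun n => (s n).1, fun n => ⟨(hs n).1, (hs n).2.2, ?_⟩⟩
  have h := hnxt (s n).2 (s n).1 (hs n).2.1
  exact fun h' => h.2.2 h'.symm

lemma Star6.exists_p6 {G : SimpleGraph V} {S : Finset V} (hS : Star6 G S) (hn : ¬ Sparse G S) :
    ∃ b : Fin 6 → V, P6 G S b := by
  simp only [Sparse] at hn
  push Not at hn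
  obtain ⟨U, hUS, hUn, hU⟩ := hn
  obtain ⟨a, ha⟩ := exists_walk hUn hU
  have hm : ∀ n, a n ∈ S := fun n => hUS (ha n).1
  have hadj : ∀ n, G.Adj (a n) (a (n + 1)) := fun n => (ha n).2.1
  have n2 : ∀ n, a n ≠ a (n + 2) := fun n => (ha n).2.2
  have n1 : ∀ n, a n ≠ a (n + 1) := fun n => (hadj n).ne
  have n3 : ∀ n, a n ≠ a (n + 3) := by
    intro n h
    have h3 := hadj (n + 2)
    rw [← h] at h3
    exact hS.no3 (hm _) (hm _) (hm _) (hadj n) (hadj (n + 1)) h3
  have e2 : ∀ n, ¬ G.Adj (a n) (a (n + 2)) := by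
    intro n h
    exact hS.no3 (hm _) (hm _) (hm _) (hadj n) (hadj (n + 1)) h.symm
  have n4 : ∀ n, a n ≠ a (n + 4) := by
    intro n h
    have h3 := hadj (n + 3)
    rw [← h] at h3
    exact hS.no4 (hm _) (hm _) (hm _) (hm _) (hadj n) (hadj (n + 1)) (hadj (n + 2)) h3 (n2 n)
      (n2 (n + 1))
  have e3 : ∀ n, ¬ G.Adj (a n) (a (n + 3)) := by
    intro n h
    exact hS.no4 (hm _) (hm _) (hm _) (hm _) (hadj n) (hadj (n + 1)) (hadj (n + 2)) h.symm (n2 n)
      (n2 (n + 1))
  have n5 : ∀ n, a n ≠ a (n + 5) := by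
    intro n h
    have h3 := hadj (n + 4)
    rw [← h] at h3
    exact hS.no5 (hm _) (hm _) (hm _) (hm _) (hm _) (hadj n) (hadj (n + 1)) (hadj (n + 2))
      (hadj (n + 3)) h3 (n2 n) (n2 (n + 1)) (n2 (n + 2)) (n3 n).symm (n3 (n + 1)).symm
  have e4 : ∀ n, ¬ G.Adj (a n) (a (n + 4)) := by
    intro n h
    exact hS.no5 (hm _) (hm _) (hm _) (hm _) (hm _) (hadj n) (hadj (n + 1)) (hadj (n + 2))
      (hadj (n + 3)) h.symm (n2 n) (n2 (n + 1)) (n2 (n + 2)) (n3 n).symm (n3 (n + 1)).symm
  have e5 : ∀ n, ¬ G.Adj (a n) (a (n + 5)) := by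
    intro n h
    exact hS.no6 (hm _) (hm _) (hm _) (hm _) (hm _) (hm _) (hadj n) (hadj (n + 1)) (hadj (n + 2))
      (hadj (n + 3)) (hadj (n + 4)) h.symm (n2 n) (n2 (n + 1)) (n2 (n + 2)) (n2 (n + 3))
      (n4 n).symm (n4 (n + 1)).symm
  have hdiff : ∀ i j : Fin 6, i < j → j.val = i.val + 1 ∨ j.val = i.val + 2 ∨ j.val = i.val + 3 ∨
      j.val = i.val + 4 ∨ j.val = i.val + 5 := by decide
  have hlt : ∀ i j : Fin 6, i < j → a i.val ≠ a j.val := by
    intro i j hij
    rcases hdiff i j hij with h | h | h | h | h <;> rw [h]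
    · exact n1 _
    · exact n2 _
    · exact n3 _
    · exact n4 _
    · exact n5 _
  have hltadj : ∀ i j : Fin 6, i < j → (G.Adj (a i.val) (a j.val) ↔ j.val = i.val + 1) := by
    intro i j hij
    rcases hdiff i j hij with h | h | h | h | h <;> rw [h]
    · exact ⟨fun _ => rfl, fun _ => hadj _⟩
    · exact ⟨fun h' => absurd h' (e2 _), fun h' => by omega⟩
    · exact ⟨fun h' => absurd h' (e3 _), fun h' => by omega⟩
    · exact ⟨fun h' => absurd h' (e4 _), fun h' => by omega⟩
    · exact ⟨fun h' => absurd h' (e5 _), fun h' => by omega⟩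
  refine ⟨fun i => a i.val, ?_, fun i => hm _, ?_, ?_⟩
  · intro i j hij
    rcases lt_trichotomy i j with h | h | h
    · exact absurd hij (hlt i j h)
    · exact h
    · exact absurd hij.symm (hlt j i h)
  · intro i j
    rcases lt_trichotomy i j with h | h | h
    · rw [hltadj i j h]
      have : i.val < j.val := h
      omega
    · subst h
      constructor
      · intro h'; exact absurd rfl h'.ne
      · intro h'; omega
    · rw [G.adj_comm, hltadj j i h]
      have : j.val < i.val := h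
      omega
  · intro u hu hub i j hui huj hij
    have hun : ∀ k : Fin 6, u ≠ a k.val := fun k h => hub ⟨k, h.symm⟩
    rcases hdiff i j hij with h | h | h | h | h
    · simp only [h] at huj
      exact absurd (hS.no3 hu (hm _) (hm _) hui (hadj _) huj.symm) id
    · simp only [h] at huj
      have h1 := hun ⟨i.val + 1, by omega⟩
      exact absurd (hS.no4 hu (hm _) (hm _) (hm _) hui (hadj _) (hadj _) huj.symm h1 (n2 _)) id
    · simp only [h] at huj
      have h1 := hun ⟨i.val + 1, by omega⟩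
      have h2 := hun ⟨i.val + 2, by omega⟩
      exact absurd (hS.no5 hu (hm _) (hm _) (hm _) (hm _) hui (hadj _) (hadj _) (hadj _) huj.symm
        h1 (n2 _) (n2 _) h2.symm (n3 _).symm) id
    · simp only [h] at huj
      have h1 := hun ⟨i.val + 1, by omega⟩
      have h2 := hun ⟨i.val + 2, by omega⟩
      have h3 := hun ⟨i.val + 3, by omega⟩
      exact absurd (hS.no6 hu (hm _) (hm _) (hm _) (hm _) (hm _) hui (hadj _) (hadj _) (hadj _)
        (hadj _) huj.symm h1 (n2 _) (n2 _) (n2 _) h3.symm (n4 _).symm) id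
    · have := j.isLt
      constructor
      · apply Fin.ext; simp; omega
      · apply Fin.ext; simp; omega

end Pool.Agent.helper46
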