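import Mathlib
import Pool.Agent.helper46.Cycle
import Pool.Agent.helper46.Pair
import Pool.Agent.helper46.Asym

set_option autoImplicit false

open Matrix

namespace Pool.Agent.helper46

variable {V : Type*} [DecidableEq V]

/-- adding vertices with exactly one neighbour in the current set -/
inductive GrowT (G : SimpleGraph V) (B : Finset V) : Finset V → Prop
  | base : GrowT G B B
  | add {S : Finset V} {v : V} : GrowT G B S → v ∉ S → (∃ z ∈ S, G.Adj v z) → Low G S v →
      GrowT G B (insert v S)

lemma GrowT.grow {G : SimpleGraph V} {B S : Finset V} (h : GrowT G B S) : Grow G B S := by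
  induction h with
  | base => exact Grow.base
  | add _ hv _ hL ih => exact Grow.add ih hv hL

lemma GrowT.nice {G : SimpleGraph V} {B S : Finset V} (hB : NiceS G B) (h : GrowT G B S) :
    NiceS G S := by
  induction h with
  | base => exact hB
  | add _ hv hz _ ih =>
    obtain ⟨z, hz, hvz⟩ := hz
    exact NiceS.insert ih hv hz hvz

lemma Grow.extend {G : SimpleGraph V} {B : Finset V} : ∀ (n : ℕ) (R T : Finset V), T.card = n →
    Grow G B R → Disjoint R T → (∀ U ⊆ T, U.Nonempty → ∃ v ∈ U, Low G (R ∪ U) v) →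
    Grow G B (R ∪ T) := by
  intro n
  induction n with
  | zero =>
    intro R T hT hR _ _
    rw [Finset.card_eq_zero.1 hT, Finset.union_empty]
    exact hR
  | succ n ih =>
    intro R T hT hR hd h
    obtain ⟨v, hv, hL⟩ := h T (Finset.Subset.refl _) (Finset.card_pos.1 (by omega))
    have hcard : (T.erase v).card = n := by
      rw [Finset.card_erase_of_mem hv, hT]; rfl
    have h1 := ih R (T.erase v) hcard hR
      (Finset.disjoint_of_subset_right (Finset.erase_subset _ _) hd)
      (fun U hU hUn => h U (hU.trans (Finset.erase_subset _ _)) hUn)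
    have h2 : insert v (R ∪ T.erase v) = R ∪ T := by
      rw [← Finset.union_insert, Finset.insert_erase hv]
    rw [← h2]
    refine Grow.add h1 ?_ (Low.mono (Finset.union_subset_union_right (Finset.erase_subset _ _)) hL)
    rw [Finset.mem_union, not_or]
    exact ⟨fun h' => Finset.disjoint_left.1 hd h' hv, Finset.notMem_erase _ _⟩

lemma exists_max_growT (G : SimpleGraph V) {B S : Finset V} (hBS : B ⊆ S) :
    ∃ R ⊆ S, GrowT G B R ∧ ∀ v ∈ S, v ∉ R → (∃ z ∈ R, G.Adj v z) →
      ∃ a ∈ R, ∃ b ∈ R, a ≠ b ∧ G.Adj v a ∧ G.Adj v b := by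
  classical
  obtain ⟨R, hR, hmax⟩ := Finset.exists_max_image (S.powerset.filter (fun R => GrowT G B R))
    Finset.card ⟨B, by simp [hBS, GrowT.base]⟩
  rw [Finset.mem_filter, Finset.mem_powerset] at hR
  refine ⟨R, hR.1, hR.2, ?_⟩
  intro v hv hvR hz
  by_contra hcon
  push Not at hcon
  have hL : Low G R v := by
    intro x hx y hy hvx hvy
    by_contra hxy
    exact hcon x hx y hy hxy hvx hvy
  have h1 := hmax (insert v R) (by
    rw [Finset.mem_filter, Finset.mem_powerset]
    exact ⟨Finset.insert_subset hv hR.1, GrowT.add hR.2 hvR hz hL⟩)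
  rw [Finset.card_insert_of_notMem hvR] at h1
  omega

/-- adding vertices in pairs -/
lemma QS.pairs {H : SimpleGraph V} {X : Finset V} {c : ℕ} (hq : QS H X c) :
    ∀ (n : ℕ) (T : Finset V), T.card = n → Disjoint X T →
      (∀ t ∈ T, ∀ t' ∈ T, t ≠ t' → Good H X t' t) → QS H (X ∪ T) (c + (n + 1) / 2) := by
  intro n
  induction n using Nat.strong_induction_on with
  | _ n ih =>
    intro T hT hd hG
    rcases Nat.lt_or_ge n 2 with hn | hn
    · interval_cases n
      · rw [Finset.card_eq_zero.1 hT, Finset.union_empty]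
        exact hq.le (by omega)
      · obtain ⟨v, rfl⟩ := Finset.card_eq_one.1 hT
        have h1 : X ∪ {v} = Insert.insert v X := by
          rw [Finset.union_comm, Finset.insert_eq]
        rw [h1]
        exact (QS.insert (Finset.disjoint_singleton_right.1 hd) hq).le (by omega)
    · obtain ⟨t, ht, t', ht', hne⟩ := Finset.one_lt_card.1 (by omega : 1 < T.card)
      have ht'' : t' ∈ T.erase t := Finset.mem_erase.2 ⟨hne.symm, ht'⟩
      have hcard : ((T.erase t).erase t').card = n - 2 := by
        rw [Finset.card_erase_of_mem ht'', Finset.card_erase_of_mem ht, hT]; omega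
      have hsub : (T.erase t).erase t' ⊆ T :=
        (Finset.erase_subset _ _).trans (Finset.erase_subset _ _)
      have h1 := ih (n - 2) (by omega) _ hcard (Finset.disjoint_of_subset_right hsub hd)
        (fun x hx y hy hxy => hG x (hsub hx) y (hsub hy) hxy)
      have h2 : Insert.insert t (Insert.insert t' (X ∪ (T.erase t).erase t')) = X ∪ T := by
        rw [← Finset.union_insert, ← Finset.union_insert, Finset.insert_erase ht'',
          Finset.insert_erase ht]
      have h3 := QS.pair (t := t) (t' := t') (S := X ∪ (T.erase t).erase t') ?_ ?_ hne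
        (Good.mono Finset.subset_union_left (hG t ht t' ht' hne)) h1
      · rw [h2] at h3
        refine h3.le ?_
        omega
      · rw [Finset.mem_union, not_or]
        refine ⟨fun h' => Finset.disjoint_left.1 hd h' ht, ?_⟩
        simp
      · rw [Finset.mem_union, not_or]
        refine ⟨fun h' => Finset.disjoint_left.1 hd h' ht', ?_⟩
        simp

lemma P6.nice {G : SimpleGraph V} {S : Finset V} {b : Fin 6 → V} (hb : P6 G S b) :
    NiceS G (Finset.univ.image b) := by
  have e : Finset.univ.image b = insert (b 5) (insert (b 4) (insert (b 3)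
      (insert (b 2) (insert (b 1) {b 0})))) := by
    ext x
    simp only [Finset.mem_image, Finset.mem_univ, true_and, Finset.mem_insert,
      Finset.mem_singleton]
    constructor
    · rintro ⟨i, rfl⟩
      fin_cases i <;> simp
    · rintro (rfl | rfl | rfl | rfl | rfl | rfl) <;> exact ⟨_, rfl⟩
  rw [e]
  have hne : ∀ i j : Fin 6, i ≠ j → b i ≠ b j := fun i j h h' => h (hb.inj h')
  have h0 := NiceS.singleton G (b 0)
  have h1 := h0.insert (v := b 1) (w := b 0) (by simp [hne 1 0 (by decide)]) (by simp)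
    ((hb.adj 1 0).2 (by decide))
  have h2 := h1.insert (v := b 2) (w := b 1) (by
    simp [hne 2 1 (by decide), hne 2 0 (by decide)]) (by simp) ((hb.adj 2 1).2 (by decide))
  have h3 := h2.insert (v := b 3) (w := b 2) (by
    simp [hne 3 2 (by decide), hne 3 1 (by decide), hne 3 0 (by decide)]) (by simp)
    ((hb.adj 3 2).2 (by decide))
  have h4 := h3.insert (v := b 4) (w := b 3) (by
    simp [hne 4 3 (by decide), hne 4 2 (by decide), hne 4 1 (by decide), hne 4 0 (by decide)])
    (by simp) ((hb.adj 4 3).2 (by decide))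
  exact h4.insert (v := b 5) (w := b 4) (by
    simp [hne 5 4 (by decide), hne 5 3 (by decide), hne 5 2 (by decide), hne 5 1 (by decide),
      hne 5 0 (by decide)])
    (by simp) ((hb.adj 5 4).2 (by decide))

/-- every vertex of the path is near to `t'` in the complement -/
lemma P6.near {G : SimpleGraph V} {S : Finset V} {b : Fin 6 → V} (hb : P6 G S b) {X : Finset V}
    (hX : ∀ i, b i ∈ X) {t' : V} (ht' : t' ∈ S) (htb : t' ∉ Set.range b) (i : Fin 6) :
    Near Gᶜ X t' (b i) := by
  have hne : ∀ i, t' ≠ b i := fun i h => htb ⟨i, h.symm⟩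
  by_cases h : G.Adj t' (b i)
  · right; right
    have key : ∀ i : Fin 6, ((i + 2).val ≠ i.val + 1 ∧ i.val ≠ (i + 2).val + 1) ∧ i ≠ i + 2 ∧
        ¬ (i = 0 ∧ i + 2 = 5) ∧ ¬ (i + 2 = 0 ∧ i = 5) := by decide
    obtain ⟨k1, k2, k3, k4⟩ := key i
    refine ⟨b (i + 2), hX _, ?_, ?_⟩
    · rw [SimpleGraph.compl_adj]
      refine ⟨hne _, fun h' => ?_⟩
      rcases lt_or_gt_of_ne k2 with hlt | hlt
      · exact k3 (hb.out t' ht' htb _ _ h h' hlt)
      · exact k4 (hb.out t' ht' htb _ _ h' h hlt)
    · rw [SimpleGraph.compl_adj]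
      refine ⟨fun h' => k2 (hb.inj h').symm, fun h' => ?_⟩
      rcases (hb.adj _ _).1 h' with h5 | h5
      · exact k1.2 h5
      · exact k1.1 h5
  · right; left
    rw [SimpleGraph.compl_adj]
    exact ⟨hne i, h⟩

lemma P6.good {G : SimpleGraph V} {S : Finset V} {b : Fin 6 → V} (hb : P6 G S b) {X : Finset V}
    (hX : ∀ i, b i ∈ X) {t t' : V} (ht : t ∈ S) (ht' : t' ∈ S) (htb : t ∉ Set.range b)
    (htb' : t' ∉ Set.range b) : Good Gᶜ X t' t := by
  have hne : ∀ i, t ≠ b i := fun i h => htb ⟨i, h.symm⟩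
  have hfin : ∀ i j : Fin 6, i < j → ¬ (i = 0 ∧ j = 5) → ¬ G.Adj t (b i) → ¬ G.Adj t (b j) →
      Good Gᶜ X t' t := by
    intro i j hij _ hi hj
    refine ⟨b i, b j, fun h' => hij.ne (hb.inj h'), Finset.mem_insert_of_mem (hX _),
      Finset.mem_insert_of_mem (hX _), ?_, ?_, hb.near hX ht' htb' i, hb.near hX ht' htb' j⟩
    · rw [SimpleGraph.compl_adj]; exact ⟨hne _, hi⟩
    · rw [SimpleGraph.compl_adj]; exact ⟨hne _, hj⟩
  have hno : ∀ i j : Fin 6, i < j → ¬ (i = 0 ∧ j = 5) → ¬ (G.Adj t (b i) ∧ G.Adj t (b j)) :=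
    fun i j hij hn h => hn (hb.out t ht htb i j h.1 h.2 hij)
  by_cases h1 : G.Adj t (b 1)
  · have h2 : ¬ G.Adj t (b 2) := fun h => hno 1 2 (by decide) (by decide) ⟨h1, h⟩
    have h3 : ¬ G.Adj t (b 3) := fun h => hno 1 3 (by decide) (by decide) ⟨h1, h⟩
    exact hfin 2 3 (by decide) (by decide) h2 h3
  · by_cases h2 : G.Adj t (b 2)
    · have h3 : ¬ G.Adj t (b 3) := fun h => hno 2 3 (by decide) (by decide) ⟨h2, h⟩
      exact hfin 1 3 (by decide) (by decide) h1 h3
    · exact hfin 1 2 (by decide) (by decide) h1 h2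

lemma P6.hex {G : SimpleGraph V} {S : Finset V} {b : Fin 6 → V} (hb : P6 G S b) :
    ∀ i j, G.Adj (b i) (b j) → j = i + 1 ∨ i = j + 1 := by
  intro i j hij
  have key : ∀ i j : Fin 6, (j.val = i.val + 1 ∨ i.val = j.val + 1) → (j = i + 1 ∨ i = j + 1) := by
    decide
  exact key i j ((hb.adj i j).1 hij)

/-- graphs with a cycle but no cycle of length at most six -/
theorem tot_caseI {G : SimpleGraph V} {S : Finset V} (hS : Star6 G S) (hn : ¬ Sparse G S)
    (ih : ∀ T ⊆ S, 7 ≤ T.card → T.card < S.card → Tot G T (T.card + 2)) :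
    Tot G S (S.card + 2) := by
  classical
  obtain ⟨b, hb⟩ := hS.exists_p6 hn
  set B := Finset.univ.image b with hB
  have hBS : B ⊆ S := by
    intro x hx
    obtain ⟨i, _, rfl⟩ := Finset.mem_image.1 hx
    exact hb.mem i
  have hbB : ∀ i, b i ∈ B := fun i => Finset.mem_image_of_mem _ (Finset.mem_univ _)
  obtain ⟨R, hRS, hRg, hRmax⟩ := exists_max_growT G hBS
  have hBR : B ⊆ R := hRg.grow.subset
  have hBc : B.card = 6 := by
    rw [hB, Finset.card_image_of_injective _ hb.inj]; rfl
  set T1 := (S \ R).filter (fun v => ∃ z ∈ R, G.Adj v z) with hT1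
  set T0 := (S \ R).filter (fun v => ¬ ∃ z ∈ R, G.Adj v z) with hT0
  have hdis : Disjoint T1 T0 := Finset.disjoint_filter_filter_not _ _ _
  have hun : T1 ∪ T0 = S \ R := Finset.filter_union_filter_not_eq _ _
  have hRT1 : Disjoint R T1 := Finset.disjoint_of_subset_right (Finset.filter_subset _ _)
    Finset.disjoint_sdiff
  have hRT0 : Disjoint R T0 := Finset.disjoint_of_subset_right (Finset.filter_subset _ _)
    Finset.disjoint_sdiff
  have hT0S : T0 ⊆ S := (Finset.filter_subset _ _).trans Finset.sdiff_subset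
  have hT1S : T1 ⊆ S := (Finset.filter_subset _ _).trans Finset.sdiff_subset
  have hcard : R.card + T1.card + T0.card = S.card := by
    have h1 := Finset.card_union_of_disjoint hdis
    rw [hun, Finset.card_sdiff_of_subset hRS] at h1
    have h2 := Finset.card_le_card hRS
    omega
  -- the graph `G` on `R ∪ T1`
  have hG1 : QS G (R ∪ T1) (R.card + T1.card / 2) := by
    refine QS.pi_half (hRg.nice hb.nice) hRT1 ⟨b 0, hBR (hbB 0)⟩ ?_
    intro t ht
    rw [hT1, Finset.mem_filter, Finset.mem_sdiff] at ht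
    exact hRmax t ht.1.1 ht.1.2 ht.2
  -- both graphs on `T0`
  have hT0both : ∃ a c, QS G T0 a ∧ QS Gᶜ (R ∪ T0) c ∧ a + c ≤ T0.card + 2 := by
    rcases Nat.lt_or_ge T0.card 7 with hlt | hge
    · refine ⟨T0.card, 2, QS.card _ _, ?_, le_rfl⟩
      have hsp : Sparse G T0 := (hS.mono hT0S).sparse (by omega)
      have hgrow : Grow G B (R ∪ T0) := by
        refine Grow.extend _ R T0 rfl hRg.grow hRT0 ?_
        intro U hU hUn
        obtain ⟨v, hv, hL⟩ := hsp U hU hUn
        refine ⟨v, hv, ?_⟩
        have hvn : ∀ z ∈ R, ¬ G.Adj v z := by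
          have := hU hv
          rw [hT0, Finset.mem_filter] at this
          intro z hz hvz
          exact this.2 ⟨z, hz, hvz⟩
        intro x hx y hy hvx hvy
        rcases Finset.mem_union.1 hx with hx' | hx'
        · exact absurd hvx (hvn x hx')
        · rcases Finset.mem_union.1 hy with hy' | hy'
          · exact absurd hvy (hvn y hy')
          · exact hL x hx' y hy' hvx hvy
      exact QS.grow hb.inj hb.hex hgrow
    · have hlt : T0.card < S.card := by
        have := Finset.card_le_card hBR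
        omega
      obtain ⟨a, c, hac, ha, hc⟩ := ih T0 hT0S hge hlt
      have hRq : QS Gᶜ R 2 := QS.grow hb.inj hb.hex hRg.grow
      have hjoin : QS Gᶜ (R ∪ T0) (max 2 c) := by
        refine QS.join hRT0 ?_ ?_ hRq hc
        · intro x hx
          by_cases hxb : x ∈ Set.range b
          · obtain ⟨i, rfl⟩ := hxb
            refine ⟨b (i + 2), hBR (hbB _), ?_⟩
            have key : ∀ i : Fin 6, ((i + 2).val ≠ i.val + 1 ∧ i.val ≠ (i + 2).val + 1) ∧
                i ≠ i + 2 := by decide
            rw [SimpleGraph.compl_adj]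
            refine ⟨fun h' => (key i).2 (hb.inj h'), fun h' => ?_⟩
            rcases (hb.adj _ _).1 h' with h5 | h5
            · exact (key i).1.1 h5
            · exact (key i).1.2 h5
          · by_cases h1 : G.Adj x (b 1)
            · refine ⟨b 2, hBR (hbB _), ?_⟩
              rw [SimpleGraph.compl_adj]
              refine ⟨fun h' => hxb ⟨_, h'.symm⟩, fun h' => ?_⟩
              have := hb.out x (hRS hx) hxb 1 2 h1 h' (by decide)
              exact absurd this.1 (by decide)
            · refine ⟨b 1, hBR (hbB _), ?_⟩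
              rw [SimpleGraph.compl_adj]
              exact ⟨fun h' => hxb ⟨_, h'.symm⟩, h1⟩
        · intro x hx y hy
          rw [SimpleGraph.compl_adj]
          rw [hT0, Finset.mem_filter, Finset.mem_sdiff] at hy
          exact ⟨fun h' => hy.1.2 (h' ▸ hx), fun h' => hy.2 ⟨x, hx, h'.symm⟩⟩
      rcases Nat.lt_or_ge c 2 with h2 | h2
      · rcases le_total a T0.card with h3 | h3
        · exact ⟨a, max 2 c, ha, hjoin, by rw [max_eq_left (by omega)]; omega⟩
        · exact ⟨T0.card, max 2 c, QS.card _ _, hjoin, by rw [max_eq_left (by omega)]⟩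
      · exact ⟨a, max 2 c, ha, hjoin, by rw [max_eq_right h2]; omega⟩
  obtain ⟨a, c, ha, hc, hac⟩ := hT0both
  -- assemble
  have hd1 : Disjoint (R ∪ T1) T0 := by
    rw [Finset.disjoint_union_left]; exact ⟨hRT0, hdis⟩
  have hd2 : Disjoint (R ∪ T0) T1 := by
    rw [Finset.disjoint_union_left]; exact ⟨hRT1, hdis.symm⟩
  have hS1 : (R ∪ T1) ∪ T0 = S := by
    rw [Finset.union_assoc, hun, Finset.union_sdiff_of_subset hRS]
  have hS2 : (R ∪ T0) ∪ T1 = S := by
    rw [Finset.union_assoc, Finset.union_comm T0 T1, hun, Finset.union_sdiff_of_subset hRS]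
  have hGS := QS.union hd1 hG1 ha
  rw [hS1] at hGS
  have hcS := QS.pairs hc T1.card T1 rfl hd2 (by
    intro t ht t' ht' _
    have m1 := ht
    have m2 := ht'
    rw [hT1, Finset.mem_filter, Finset.mem_sdiff] at m1 m2
    refine hb.good (fun i => Finset.mem_union_left _ (hBR (hbB i))) (hT1S ht) (hT1S ht') ?_ ?_
    · rintro ⟨i, hi⟩
      exact m1.1.2 (hi ▸ hBR (hbB i))
    · rintro ⟨i, hi⟩
      exact m2.1.2 (hi ▸ hBR (hbB i)))
  rw [hS2] at hcS
  exact ⟨_, _, by omega, hGS, hcS⟩

end Pool.Agent.helper46
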