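import Mathlib
import Pool.Agent.helper46.SparseA

set_option autoImplicit false

open Matrix

namespace Pool.Agent.helper46

variable {V : Type*} [DecidableEq V]

lemma Star6.exists_compl_edge {G : SimpleGraph V} {S : Finset V} (hS : Star6 G S)
    (h : 2 < S.card) : ∃ a ∈ S, ∃ b ∈ S, Gᶜ.Adj a b := by
  obtain ⟨a, b, c, ha, hb, hc, hab, hac, hbc⟩ := Finset.two_lt_card_iff.1 h
  by_contra hcon
  push Not at hcon
  have key : ∀ x ∈ S, ∀ y ∈ S, x ≠ y → G.Adj x y := by
    intro x hx y hy hxy
    have := hcon x hx y hy
    rw [SimpleGraph.compl_adj] at this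
    by_contra h'
    exact this ⟨hxy, h'⟩
  exact hS.no3 ha hb hc (key a ha b hb hab) (key b hb c hc hbc) (key c hc a ha hac.symm)

/-- a small component with a path on three vertices -/
structure Comp (G : SimpleGraph V) (S : Finset V) (v z w : V) (C : Finset V) : Prop where
  sub : C ⊆ S
  card : C.card ≤ 4
  mv : v ∈ C
  mz : z ∈ C
  mw : w ∈ C
  vz : G.Adj v z
  zw : G.Adj z w
  nvw : v ≠ w
  evw : ¬ G.Adj v w
  closed : ∀ x ∈ C, ∀ y ∈ S, G.Adj x y → y ∈ C
  low : ∀ u ∈ C, u = v ∨ u = z ∨ u = w ∨ Low G S u

lemma exists_comp {G : SimpleGraph V} {S : Finset V} (hS : Star6 G S)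
    (h1 : ∀ v ∈ S, ∃ x ∈ S, G.Adj v x)
    (h2 : ∀ v ∈ S, ∀ z ∈ S, G.Adj v z → (∀ x ∈ S, G.Adj v x → x = z) → ¬ TF G (S.erase v) z)
    {v : V} (hv : v ∈ S) (hL : Low G S v) : ∃ z w C, Comp G S v z w C := by
  have twin : ∀ v ∈ S, ∀ z ∈ S, G.Adj v z → (∀ x ∈ S, G.Adj v x → x = z) →
      ∃ w ∈ S, w ≠ v ∧ w ≠ z ∧ ∀ a ∈ S, a ≠ v → a ≠ z → a ≠ w → (G.Adj a z ↔ G.Adj a w) := by
    intro v hv z hz hvz hvo
    have h := h2 v hv z hz hvz hvo
    simp only [TF] at h
    push Not at h
    obtain ⟨w, hw, hwz, hw2⟩ := h
    refine ⟨w, Finset.mem_of_mem_erase hw, Finset.ne_of_mem_erase hw, hwz, ?_⟩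
    intro a ha hav haz haw
    exact hw2 a (Finset.mem_erase.2 ⟨hav, ha⟩) haz haw
  obtain ⟨z, hz, hvz⟩ := h1 v hv
  have hvo : ∀ x ∈ S, G.Adj v x → x = z := fun x hx hvx => hL x hx z hz hvx hvz
  obtain ⟨w, hw, hwv, hwz, hiff⟩ := twin v hv z hz hvz hvo
  by_cases hzw : G.Adj z w
  · -- path on three vertices
    have hNw : ∀ y ∈ S, G.Adj w y → y = z := by
      intro y hy hwy
      by_contra hyz
      have hyv : y ≠ v := by
        rintro rfl
        exact hwz (hvo w hw hwy.symm)
      have := (hiff y hy hyv hyz hwy.ne.symm).2 hwy.symm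
      exact hS.no3 hy hz hw this hzw hwy
    have hNz : ∀ y ∈ S, G.Adj z y → y = v ∨ y = w := by
      intro y hy hzy
      by_contra hcon
      rw [not_or] at hcon
      have := (hiff y hy hcon.1 hzy.ne.symm hcon.2).1 hzy.symm
      exact hS.no3 hy hz hw hzy.symm hzw this.symm
    refine ⟨z, w, {v, z, w}, ?_, (Finset.card_le_three).trans (by norm_num), by simp, by simp,
      by simp, hvz, hzw, Ne.symm hwv, fun h => hwz (hvo w hw h), ?_, ?_⟩
    · intro x hx
      simp only [Finset.mem_insert, Finset.mem_singleton] at hx
      rcases hx with rfl | rfl | rfl <;> assumption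
    · intro x hx y hy hxy
      simp only [Finset.mem_insert, Finset.mem_singleton] at hx ⊢
      rcases hx with rfl | rfl | rfl
      · exact Or.inr (Or.inl (hvo y hy hxy))
      · rcases hNz y hy hxy with h | h
        · exact Or.inl h
        · exact Or.inr (Or.inr h)
      · exact Or.inr (Or.inl (hNw y hy hxy))
    · intro u hu
      simp only [Finset.mem_insert, Finset.mem_singleton] at hu
      tauto
  · -- path on four vertices
    obtain ⟨x, hx, hwx⟩ := h1 w hw
    have hvw : ¬ G.Adj v w := fun h => hwz (hvo w hw h)
    have hxv : x ≠ v := by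
      rintro rfl
      exact hvw hwx.symm
    have hxz : x ≠ z := by
      rintro rfl
      exact hzw hwx.symm
    have hxz' : G.Adj x z := (hiff x hx hxv hxz hwx.ne.symm).2 hwx.symm
    have hNw : ∀ y ∈ S, G.Adj w y → y = x := by
      intro y hy hwy
      by_contra hyx
      have hyv : y ≠ v := by
        rintro rfl
        exact hvw hwy.symm
      have hyz : y ≠ z := by
        rintro rfl
        exact hzw hwy.symm
      have := (hiff y hy hyv hyz hwy.ne.symm).2 hwy.symm
      exact hS.no4 hz hx hw hy hxz'.symm hwx.symm hwy this (Ne.symm hwz) (Ne.symm hyx)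
    have hNz : ∀ y ∈ S, G.Adj z y → y = v ∨ y = x := by
      intro y hy hzy
      by_cases hyv : y = v
      · exact Or.inl hyv
      · have hyw : y ≠ w := by
          rintro rfl
          exact hzw hzy
        have := (hiff y hy hyv hzy.ne.symm hyw).1 hzy.symm
        exact Or.inr (hNw y hy this.symm)
    obtain ⟨u, hu, huw, hux, hiff2⟩ := twin w hw x hx hwx hNw
    have hzu : z ≠ u := by
      rintro rfl
      have := (hiff2 v hv (Ne.symm hwv) (Ne.symm hxv) hvz.ne).2 hvz
      exact hxz (hvo x hx this)
    have huv : u = v := by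
      have := (hiff2 z hz (Ne.symm hwz) (Ne.symm hxz) hzu).1 hxz'.symm
      rcases hNz u hu this with h | h
      · exact h
      · exact absurd h hux
    have hvx : ¬ G.Adj v x := fun h => hxz (hvo x hx h)
    have hNx : ∀ y ∈ S, G.Adj x y → y = w ∨ y = z := by
      intro y hy hxy
      by_cases hyw : y = w
      · exact Or.inl hyw
      · have hyv : y ≠ v := by
          rintro rfl
          exact hvx hxy.symm
        have := (hiff2 y hy hyw hxy.ne.symm (by rw [huv]; exact hyv)).1 hxy.symm
        rw [huv] at this
        exact Or.inr (hvo y hy this.symm)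
    refine ⟨z, x, {v, z, x, w}, ?_, Finset.card_le_four, by simp, by simp,
      by simp, hvz, hxz'.symm, Ne.symm hxv, hvx, ?_, ?_⟩
    · intro y hy
      simp only [Finset.mem_insert, Finset.mem_singleton] at hy
      rcases hy with rfl | rfl | rfl | rfl <;> assumption
    · intro a ha y hy hay
      simp only [Finset.mem_insert, Finset.mem_singleton] at ha ⊢
      rcases ha with rfl | rfl | rfl | rfl
      · exact Or.inr (Or.inl (hvo y hy hay))
      · rcases hNz y hy hay with h | h
        · exact Or.inl h
        · exact Or.inr (Or.inr (Or.inl h))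
      · rcases hNx y hy hay with h | h
        · exact Or.inr (Or.inr (Or.inr h))
        · exact Or.inr (Or.inl h)
      · exact Or.inr (Or.inr (Or.inl (hNw y hy hay)))
    · intro a ha
      simp only [Finset.mem_insert, Finset.mem_singleton] at ha
      rcases ha with h | h | h | h
      · exact Or.inl h
      · exact Or.inr (Or.inl h)
      · exact Or.inr (Or.inr (Or.inl h))
      · refine Or.inr (Or.inr (Or.inr ?_))
        rw [h]
        intro a ha b hb h1 h2
        rw [hNw a ha h1, hNw b hb h2]

/-- forests -/
theorem tot_caseII {G : SimpleGraph V} {S : Finset V} (hsp : Sparse G S) (h7 : 7 ≤ S.card)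
    (ih : ∀ T ⊆ S, 6 ≤ T.card → T.card < S.card → Tot G T (T.card + 2)) :
    Tot G S (S.card + 2) := by
  classical
  have hS := hsp.star6
  -- removal of one vertex
  have hrem : ∀ v ∈ S, Tot G (S.erase v) ((S.erase v).card + 2) := by
    intro v hv
    have hc := Finset.card_erase_of_mem hv
    exact ih _ (Finset.erase_subset _ _) (by omega) (by omega)
  by_cases h1 : ∀ v ∈ S, ∃ x ∈ S, G.Adj v x
  · by_cases h2 : ∀ v ∈ S, ∀ z ∈ S, G.Adj v z → (∀ x ∈ S, G.Adj v x → x = z) →
        ¬ TF G (S.erase v) z
    · -- stuck
      obtain ⟨v, hv, hL⟩ := hsp S (Finset.Subset.refl _) (Finset.card_pos.1 (by omega))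
      obtain ⟨z, w, C, hC⟩ := exists_comp hS h1 h2 hv hL
      have hU : (S \ C).Nonempty := by
        rw [← Finset.card_pos, Finset.card_sdiff_of_subset hC.sub]
        have := hC.card
        omega
      obtain ⟨v', hv', hL'⟩ := hsp (S \ C) Finset.sdiff_subset hU
      rw [Finset.mem_sdiff] at hv'
      have hL'' : Low G S v' := by
        intro x hx y hy hvx hvy
        have hm : ∀ x ∈ S, G.Adj v' x → x ∈ S \ C := by
          intro x hx hvx
          rw [Finset.mem_sdiff]
          exact ⟨hx, fun h => hv'.2 (hC.closed x h v' hv'.1 hvx.symm)⟩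
        exact hL' x (hm x hx hvx) y (hm y hy hvy) hvx hvy
      obtain ⟨z', w', D, hD⟩ := exists_comp hS h1 h2 hv'.1 hL''
      have nv' : v' ∉ C := hv'.2
      have nz' : z' ∉ C := fun h => nv' (hC.closed z' h v' hv'.1 hD.vz.symm)
      have nw' : w' ∉ C := fun h => nz' (hC.closed w' h z' (hD.sub hD.mz) hD.zw.symm)
      have hne : ∀ x ∈ C, ∀ y, y ∉ C → x ≠ y := fun x hx y hy h => hy (h ▸ hx)
      have hna : ∀ x ∈ C, ∀ y ∈ S, y ∉ C → ¬ G.Adj x y :=
        fun x hx y hy hyC h => hyC (hC.closed x hx y hy h)
      have sv' := hv'.1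
      have sz' := hD.sub hD.mz
      have sw' := hD.sub hD.mw
      set b : Fin 6 → V := ![v, z, w, v', z', w'] with hb
      have hbinj : Function.Injective b := by
        have key : ∀ i j : Fin 6, i < j → b i ≠ b j := by
          intro i j hij
          fin_cases i <;> fin_cases j <;> first
            | exact absurd hij (by decide)
            | exact hC.vz.ne
            | exact hC.zw.ne
            | exact hC.nvw
            | exact hD.vz.ne
            | exact hD.zw.ne
            | exact hD.nvw
            | exact hne _ hC.mv _ nv'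
            | exact hne _ hC.mv _ nz'
            | exact hne _ hC.mv _ nw'
            | exact hne _ hC.mz _ nv'
            | exact hne _ hC.mz _ nz'
            | exact hne _ hC.mz _ nw'
            | exact hne _ hC.mw _ nv'
            | exact hne _ hC.mw _ nz'
            | exact hne _ hC.mw _ nw'
        intro i j hij
        rcases lt_trichotomy i j with h | h | h
        · exact absurd hij (key i j h)
        · exact h
        · exact absurd hij.symm (key j i h)
      have hhex : ∀ i j, G.Adj (b i) (b j) → j = i + 1 ∨ i = j + 1 := by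
        have key : ∀ i j : Fin 6, i < j → G.Adj (b i) (b j) → j = i + 1 ∨ i = j + 1 := by
          intro i j hij
          fin_cases i <;> fin_cases j <;> first
            | exact absurd hij (by decide)
            | exact fun _ => by decide
            | exact fun h => absurd h hC.evw
            | exact fun h => absurd h hD.evw
            | exact fun h => absurd h (hna _ hC.mv _ sv' nv')
            | exact fun h => absurd h (hna _ hC.mv _ sz' nz')
            | exact fun h => absurd h (hna _ hC.mv _ sw' nw')
            | exact fun h => absurd h (hna _ hC.mz _ sv' nv')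
            | exact fun h => absurd h (hna _ hC.mz _ sz' nz')
            | exact fun h => absurd h (hna _ hC.mz _ sw' nw')
            | exact fun h => absurd h (hna _ hC.mw _ sv' nv')
            | exact fun h => absurd h (hna _ hC.mw _ sz' nz')
            | exact fun h => absurd h (hna _ hC.mw _ sw' nw')
        intro i j hij
        rcases lt_trichotomy i j with h | h | h
        · exact key i j h hij
        · rw [h] at hij; exact absurd rfl hij.ne
        · exact (key j i h hij.symm).symm
      have hBmem : ∀ x, x ∈ Finset.univ.image b ↔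
          x = v ∨ x = z ∨ x = w ∨ x = v' ∨ x = z' ∨ x = w' := by
        intro x
        simp only [Finset.mem_image, Finset.mem_univ, true_and]
        constructor
        · rintro ⟨i, rfl⟩
          fin_cases i <;> simp [hb]
        · rintro (rfl | rfl | rfl | rfl | rfl | rfl)
          · exact ⟨0, rfl⟩
          · exact ⟨1, rfl⟩
          · exact ⟨2, rfl⟩
          · exact ⟨3, rfl⟩
          · exact ⟨4, rfl⟩
          · exact ⟨5, rfl⟩
      have hBC : ∀ x ∈ Finset.univ.image b, x ∈ C ∨ x ∈ D := by
        intro x hx
        rcases (hBmem x).1 hx with rfl | rfl | rfl | rfl | rfl | rfl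
        · exact Or.inl hC.mv
        · exact Or.inl hC.mz
        · exact Or.inl hC.mw
        · exact Or.inr hD.mv
        · exact Or.inr hD.mz
        · exact Or.inr hD.mw
      have hBS : Finset.univ.image b ⊆ S := by
        intro x hx
        rcases hBC x hx with h | h
        · exact hC.sub h
        · exact hD.sub h
      have hgrow : Grow G (Finset.univ.image b) (Finset.univ.image b ∪ (S \ Finset.univ.image b)) := by
        refine Grow.extend _ _ _ rfl Grow.base Finset.disjoint_sdiff ?_
        intro U hU hUn
        have hBU : Finset.univ.image b ∪ U ⊆ S := Finset.union_subset hBS (hU.trans Finset.sdiff_subset)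
        by_cases hUC : ∃ u ∈ U, u ∈ C
        · obtain ⟨u, hu, huC⟩ := hUC
          have hub := (Finset.mem_sdiff.1 (hU hu)).2
          rw [hBmem] at hub
          rcases hC.low u huC with h | h | h | h
          · exact absurd (Or.inl h) hub
          · exact absurd (Or.inr (Or.inl h)) hub
          · exact absurd (Or.inr (Or.inr (Or.inl h))) hub
          · exact ⟨u, hu, h.mono hBU⟩
        · by_cases hUD : ∃ u ∈ U, u ∈ D
          · obtain ⟨u, hu, huD⟩ := hUD
            have hub := (Finset.mem_sdiff.1 (hU hu)).2
            rw [hBmem] at hub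
            rcases hD.low u huD with h | h | h | h
            · exact absurd (Or.inr (Or.inr (Or.inr (Or.inl h)))) hub
            · exact absurd (Or.inr (Or.inr (Or.inr (Or.inr (Or.inl h))))) hub
            · exact absurd (Or.inr (Or.inr (Or.inr (Or.inr (Or.inr h))))) hub
            · exact ⟨u, hu, h.mono hBU⟩
          · push Not at hUC hUD
            obtain ⟨u, hu, hLu⟩ := hsp U (hU.trans Finset.sdiff_subset) hUn
            have huS : u ∈ S := (Finset.mem_sdiff.1 (hU hu)).1
            have hnb : ∀ x ∈ Finset.univ.image b, ¬ G.Adj u x := by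
              intro x hx hux
              rcases hBC x hx with h | h
              · exact hUC u hu (hC.closed x h u huS hux.symm)
              · exact hUD u hu (hD.closed x h u huS hux.symm)
            refine ⟨u, hu, ?_⟩
            intro x hx y hy hux huy
            rcases Finset.mem_union.1 hx with hx' | hx'
            · exact absurd hux (hnb x hx')
            · rcases Finset.mem_union.1 hy with hy' | hy'
              · exact absurd huy (hnb y hy')
              · exact hLu x hx' y hy' hux huy
      rw [Finset.union_sdiff_of_subset hBS] at hgrow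
      exact ⟨S.card, 2, le_rfl, QS.card _ _, QS.grow hbinj hhex hgrow⟩
    · push Not at h2
      obtain ⟨v, hv, z, hz, hvz, hvo, htf⟩ := h2
      obtain ⟨a, c, hac, ha, hc⟩ := hrem v hv
      have hcard := Finset.card_erase_of_mem hv
      obtain ⟨x, hx, y, hy, hxy⟩ := (hS.mono (Finset.erase_subset v S)).exists_compl_edge (by omega)
      have hcq : QS Gᶜ (insert v (S.erase v)) c := by
        refine QS.coleaf (z := z) (Finset.notMem_erase v S)
          (Finset.mem_erase.2 ⟨hvz.ne.symm, hz⟩) ⟨x, hx, y, hy, hxy⟩ ?_ htf.compl hc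
        intro a ha haz
        have ha' := Finset.mem_erase.1 ha
        rw [SimpleGraph.compl_adj]
        exact ⟨Ne.symm ha'.1, fun h' => haz (hvo a ha'.2 h')⟩
      have haq := QS.insert (Finset.notMem_erase v S) ha
      rw [Finset.insert_erase hv] at hcq haq
      exact ⟨a + 1, c, by omega, haq, hcq⟩
  · push Not at h1
    obtain ⟨v, hv, hvo⟩ := h1
    obtain ⟨a, c, hac, ha, hc⟩ := hrem v hv
    have hcard := Finset.card_erase_of_mem hv
    obtain ⟨x, hx, y, hy, hxy⟩ := (hS.mono (Finset.erase_subset v S)).exists_compl_edge (by omega)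
    have hcq : QS Gᶜ (insert v (S.erase v)) c := by
      refine QS.codom (Finset.notMem_erase v S) ⟨x, hx, y, hy, hxy⟩ ?_ hc
      intro a ha
      have ha' := Finset.mem_erase.1 ha
      rw [SimpleGraph.compl_adj]
      exact ⟨Ne.symm ha'.1, hvo a ha'.2⟩
    have haq := QS.insert (Finset.notMem_erase v S) ha
    rw [Finset.insert_erase hv] at hcq haq
    exact ⟨a + 1, c, by omega, haq, hcq⟩

end Pool.Agent.helper46
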