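import Mathlib
import Pool.Agent.helper46.SparseB

set_option autoImplicit false

open Matrix

namespace Pool.Agent.helper46

variable {V : Type*} [DecidableEq V]

/-- no five vertices are cycle-free on both sides -/
lemma not_sparse_both {G : SimpleGraph V} {S : Finset V} (h5 : 5 ≤ S.card) (h : Sparse G S)
    (h' : Sparse Gᶜ S) : False := by
  classical
  obtain ⟨v, hv, hL⟩ := h S (Finset.Subset.refl _) (Finset.card_pos.1 (by omega))
  set N := (S.erase v).filter (fun x => G.Adj v x) with hN
  set M := (S.erase v).filter (fun x => ¬ G.Adj v x) with hM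
  have h1 := Finset.card_filter_add_card_filter_not (s := S.erase v) (fun x => G.Adj v x)
  rw [Finset.card_erase_of_mem hv] at h1
  have h2 : N.card ≤ 1 := by
    rw [Finset.card_le_one]
    intro a ha b hb
    rw [hN, Finset.mem_filter] at ha hb
    exact hL a (Finset.mem_of_mem_erase ha.1) b (Finset.mem_of_mem_erase hb.1) ha.2 hb.2
  have h3 : 2 < M.card := by
    have : N.card + M.card = S.card - 1 := h1
    omega
  have hMS : M ⊆ S := (Finset.filter_subset _ _).trans (Finset.erase_subset _ _)
  have hvM : ∀ x ∈ M, Gᶜ.Adj v x := by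
    intro x hx
    rw [hM, Finset.mem_filter, Finset.mem_erase] at hx
    rw [SimpleGraph.compl_adj]
    exact ⟨Ne.symm hx.1.1, hx.2⟩
  obtain ⟨a, ha, b, hb, hab⟩ := (h.star6.mono hMS).exists_compl_edge h3
  exact h'.star6.no3 hv (hMS ha) (hMS hb) (hvM a ha) hab (hvM b hb).symm

lemma sparse_swap {G : SimpleGraph V} {S : Finset V}
    (h : ∀ W ⊆ S, W.card = 6 → Sparse G W ∨ Sparse Gᶜ W) :
    (∀ W ⊆ S, W.card = 6 → Sparse G W) ∨ (∀ W ⊆ S, W.card = 6 → Sparse Gᶜ W) := by
  classical
  by_contra hcon
  push Not at hcon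
  obtain ⟨⟨W₁, hW₁, hc₁, hn₁⟩, W₂, hW₂, hc₂, hn₂⟩ := hcon
  have h1 : Sparse Gᶜ W₁ := (h W₁ hW₁ hc₁).resolve_left hn₁
  have key : ∀ n, ∀ W ⊆ S, W.card = 6 → (W \ W₂).card = n → Sparse Gᶜ W → False := by
    intro n
    induction n with
    | zero =>
      intro W hW hc hd hsp
      have hsub : W ⊆ W₂ := by
        rw [← Finset.sdiff_eq_empty_iff_subset]
        exact Finset.card_eq_zero.1 hd
      have : W = W₂ := Finset.eq_of_subset_of_card_le hsub (by omega)
      exact hn₂ (this ▸ hsp)
    | succ n ih =>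
      intro W hW hc hd hsp
      obtain ⟨x, hx⟩ := Finset.card_pos.1 (by omega : 0 < (W \ W₂).card)
      have hd2 : (W₂ \ W).card = (W \ W₂).card := by
        have e1 := Finset.card_sdiff_add_card_inter W W₂
        have e2 := Finset.card_sdiff_add_card_inter W₂ W
        rw [Finset.inter_comm] at e2
        omega
      obtain ⟨y, hy⟩ := Finset.card_pos.1 (by omega : 0 < (W₂ \ W).card)
      rw [Finset.mem_sdiff] at hx hy
      have hyW : y ∉ W.erase x := fun h' => hy.2 (Finset.mem_of_mem_erase h')
      have hce : (W.erase x).card = 5 := by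
        rw [Finset.card_erase_of_mem hx.1, hc]
      have hW' : insert y (W.erase x) ⊆ S :=
        Finset.insert_subset (hW₂ hy.1) ((Finset.erase_subset _ _).trans hW)
      have hc' : (insert y (W.erase x)).card = 6 := by
        rw [Finset.card_insert_of_notMem hyW, hce]
      have hsp' : Sparse Gᶜ (insert y (W.erase x)) := by
        rcases h _ hW' hc' with h2 | h2
        · exact (not_sparse_both (S := W.erase x) (by omega)
            (h2.mono (Finset.subset_insert _ _)) (hsp.mono (Finset.erase_subset _ _))).elim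
        · exact h2
      refine ih _ hW' hc' ?_ hsp'
      have e : insert y (W.erase x) \ W₂ = (W \ W₂).erase x := by
        ext a
        simp only [Finset.mem_sdiff, Finset.mem_insert, Finset.mem_erase]
        constructor
        · rintro ⟨h3 | h3, h4⟩
          · exact absurd (h3 ▸ hy.1) h4
          · exact ⟨h3.1, h3.2, h4⟩
        · rintro ⟨h3, h4, h5⟩
          exact ⟨Or.inr ⟨h3, h4⟩, h5⟩
      rw [e, Finset.card_erase_of_mem (Finset.mem_sdiff.2 hx), hd]
      rfl
  exact key _ W₁ hW₁ hc₁ rfl h1

/-- a doubly good pair in `W` -/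
def DG (G : SimpleGraph V) (W : Finset V) : Prop :=
  ∃ t ∈ W, ∃ t' ∈ W, t ≠ t' ∧
    (Good G ((W.erase t).erase t') t' t ∨ Good G ((W.erase t).erase t') t t') ∧
    (Good Gᶜ ((W.erase t).erase t') t' t ∨ Good Gᶜ ((W.erase t).erase t') t t')

lemma tot_of_dg {G : SimpleGraph V} {S W : Finset V} (hWS : W ⊆ S) (hdg : DG G W)
    (ih : ∀ T ⊆ S, T.card + 2 = S.card → Tot G T (T.card + 2)) : Tot G S (S.card + 2) := by
  obtain ⟨t, ht, t', ht', hne, h1, h2⟩ := hdg
  have htS := hWS ht
  have ht'S := hWS ht'
  have ht'S' : t' ∈ S.erase t := Finset.mem_erase.2 ⟨hne.symm, ht'S⟩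
  set T := (S.erase t).erase t' with hT
  have hTc : T.card + 2 = S.card := by
    rw [hT, Finset.card_erase_of_mem ht'S', Finset.card_erase_of_mem htS]
    have := Finset.one_lt_card.2 ⟨t, htS, t', ht'S, hne⟩
    omega
  have hsub : (W.erase t).erase t' ⊆ T :=
    Finset.erase_subset_erase _ (Finset.erase_subset_erase _ hWS)
  obtain ⟨a, c, hac, ha, hc⟩ := ih T ((Finset.erase_subset _ _).trans (Finset.erase_subset _ _)) hTc
  have htT : t ∉ T := by simp [hT]
  have ht'T : t' ∉ T := by simp [hT]
  have e1 : insert t (insert t' T) = S := by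
    rw [hT, Finset.insert_erase ht'S', Finset.insert_erase htS]
  have e2 : insert t' (insert t T) = S := by
    rw [Finset.insert_comm, e1]
  have hA : QS G S (a + 1) := by
    rcases h1 with h | h
    · rw [← e1]; exact QS.pair htT ht'T hne (h.mono hsub) ha
    · rw [← e2]; exact QS.pair ht'T htT hne.symm (h.mono hsub) ha
  have hC : QS Gᶜ S (c + 1) := by
    rcases h2 with h | h
    · rw [← e1]; exact QS.pair htT ht'T hne (h.mono hsub) hc
    · rw [← e2]; exact QS.pair ht'T htT hne.symm (h.mono hsub) hc
  exact ⟨a + 1, c + 1, by omega, hA, hC⟩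

/-- graphs without short cycles -/
theorem tot_star6 {G : SimpleGraph V} (h6 : ∀ S : Finset V, S.card = 6 → Tot G S (S.card + 2)) :
    ∀ (n : ℕ) (S : Finset V), S.card = n → Star6 G S → 6 ≤ S.card → Tot G S (S.card + 2) := by
  intro n
  induction n using Nat.strong_induction_on with
  | _ n ih =>
    intro S hn hS h
    rcases Nat.eq_or_lt_of_le h with h' | h'
    · exact h6 S h'.symm
    · have ih' : ∀ T ⊆ S, 6 ≤ T.card → T.card < S.card → Tot G T (T.card + 2) := by
        intro T hT hT6 hlt
        exact ih T.card (by omega) T rfl (hS.mono hT) hT6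
      by_cases hsp : Sparse G S
      · exact tot_caseII hsp h' ih'
      · exact tot_caseI hS hsp (fun T hT hT7 hlt => ih' T hT (by omega) hlt)

/-- the main induction, from the finite facts on at most seven vertices -/
theorem tot_main (h6 : ∀ (G : SimpleGraph V) (S : Finset V), S.card = 6 → Tot G S (S.card + 2))
    (h7 : ∀ (G : SimpleGraph V) (S : Finset V), S.card = 7 → Tot G S (S.card + 2))
    (hB : ∀ (G : SimpleGraph V) (W : Finset V), W.card = 6 → ¬ Sparse G W → ¬ Sparse Gᶜ W →
      DG G W) (G : SimpleGraph V) :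
    ∀ (n : ℕ) (S : Finset V), S.card = n → 6 ≤ S.card → Tot G S (S.card + 2) := by
  intro n
  induction n using Nat.strong_induction_on with
  | _ n ih =>
    intro S hn h
    rcases Nat.lt_or_ge S.card 8 with h8 | h8
    · have : S.card = 6 ∨ S.card = 7 := by omega
      rcases this with h' | h'
      · exact h6 G S h'
      · exact h7 G S h'
    · by_cases hmix : ∃ W ⊆ S, W.card = 6 ∧ ¬ Sparse G W ∧ ¬ Sparse Gᶜ W
      · obtain ⟨W, hWS, hWc, h1, h2⟩ := hmix
        refine tot_of_dg hWS (hB G W hWc h1 h2) ?_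
        intro T hT hTc
        exact ih T.card (by omega) T rfl (by omega)
      · have hmix' : ∀ W ⊆ S, W.card = 6 → Sparse G W ∨ Sparse Gᶜ W := by
          intro W hW hWc
          by_contra hcon
          rw [not_or] at hcon
          exact hmix ⟨W, hW, hWc, hcon.1, hcon.2⟩
        have hext : ∀ H : SimpleGraph V, (∀ W ⊆ S, W.card = 6 → Sparse H W) → Star6 H S := by
          intro H hH U hU hUn hUc
          obtain ⟨W, hUW, hWS, hWc⟩ := Finset.exists_subsuperset_card_eq hU hUc (by omega)
          exact hH W hWS hWc U hUW hUn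
        rcases sparse_swap hmix' with h' | h'
        · exact tot_star6 (h6 G) _ S rfl (hext _ h') h
        · have := (tot_star6 (h6 Gᶜ) _ S rfl (hext _ h') h).compl
          rwa [compl_compl] at this

end Pool.Agent.helper46
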