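import Mathlib
import Pool.Agent.helper46.Units

set_option autoImplicit false

open Matrix

namespace Pool.Agent.helper46

/-- the graph with a given list of edges -/
def graphOf {n : ℕ} (L : List (Fin n × Fin n)) : SimpleGraph (Fin n) where
  Adj i j := i ≠ j ∧ ((i, j) ∈ L ∨ (j, i) ∈ L)
  symm := ⟨fun _ _ h => ⟨h.1.symm, h.2.symm⟩⟩
  loopless := ⟨fun _ h => h.1 rfl⟩

instance {n : ℕ} (L : List (Fin n × Fin n)) : DecidableRel (graphOf L).Adj :=
  fun i j => inferInstanceAs (Decidable (i ≠ j ∧ ((i, j) ∈ L ∨ (j, i) ∈ L)))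

lemma spectrum_subset_of_aeval {V : Type*} [Fintype V] [DecidableEq V] [Nonempty V]
    {A : Matrix V V ℝ} {p : Polynomial ℝ} (h : Polynomial.aeval A p = 0) {μ : ℝ}
    (hμ : μ ∈ spectrum ℝ A) : p.eval μ = 0 := by
  have h1 := spectrum.subset_polynomial_aeval A p ⟨μ, hμ, rfl⟩
  rw [h, spectrum.zero_eq] at h1
  simpa using h1

/-- the seed graph `c4` -/
abbrev c4G : SimpleGraph (Fin 4) :=
  graphOf [(0, 1), (0, 3), (1, 2), (2, 3)]

/-- the seed matrix `c4` -/
noncomputable def c4Mat : Matrix (Fin 4) (Fin 4) ℝ :=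
  !![1/2, 3/10, 0, 2/5;
     3/10, 1/2, 2/5, 0;
     0, 2/5, 1/2, -3/10;
     2/5, 0, -3/10, 1/2]

lemma c4Mat_symm : (c4Mat).IsSymm := by
  ext i j
  fin_cases i <;> fin_cases j <;> simp [c4Mat]

lemma c4Mat_pattern : ∀ i j, i ≠ j → (c4Mat i j ≠ 0 ↔ (c4G).Adj i j) := by
  intro i j hij
  fin_cases i <;> fin_cases j <;> first
    | exact absurd rfl hij
    | exact iff_of_true (by simp [c4Mat]) (by decide)
    | exact iff_of_false (by simp [c4Mat]) (by decide)

lemma c4Mat_reg : Reg (c4G)ᶜ c4Mat := by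
  intro X hXs hX hcomm
  have hz : ∀ i j : Fin 4, ¬ ((c4G)ᶜ.Adj i j) → X i j = 0 := hX
  have hs : ∀ i j, X i j = X j i := fun i j => hXs.apply j i
  have e : ∀ i j, (c4Mat * X) i j = (X * c4Mat) i j := fun i j => by rw [hcomm]
  have z00 := hz 0 0 (by decide)
  have z01 := hz 0 1 (by decide)
  have z03 := hz 0 3 (by decide)
  have z10 := hz 1 0 (by decide)
  have z11 := hz 1 1 (by decide)
  have z12 := hz 1 2 (by decide)
  have z21 := hz 2 1 (by decide)
  have z22 := hz 2 2 (by decide)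
  have z23 := hz 2 3 (by decide)
  have z30 := hz 3 0 (by decide)
  have z32 := hz 3 2 (by decide)
  have z33 := hz 3 3 (by decide)
  have s20 := hs 2 0
  have s31 := hs 3 1
  have e01 := e 0 1
  have e03 := e 0 3
  clear hs hz e hcomm
  simp only [Matrix.mul_apply, Fin.sum_univ_four, c4Mat, Matrix.of_apply, Matrix.cons_val, z00, z01, z03, z10, z11, z12, z21, z22, z23, z30, z32, z33, s20, s31, mul_zero, zero_mul, add_zero, zero_add] at e01 e03
  have k02 : X 0 2 = 0 := by linear_combination (-5 / 4) * e01 + (5 / 3) * e03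
  have k13 : X 1 3 = 0 := by linear_combination (5 / 4) * e01 + (5 / 3) * e03
  ext i j
  fin_cases i <;> fin_cases j <;>
    simp only [Fin.zero_eta, Fin.mk_one, Fin.reduceFinMk, Matrix.zero_apply] <;>
    first
      | assumption
      | (simp only [s20, s31]; assumption)

theorem SSPq.c4 : SSPq (c4G) 2 := by
  refine ⟨c4Mat, c4Mat_symm, c4Mat_pattern, c4Mat_reg, {0, 1}, Finset.card_le_two, ?_⟩
  have hid : IsIdempotentElem c4Mat := by
    ext i j
    rw [Matrix.mul_apply]
    fin_cases i <;> fin_cases j <;>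
      simp [Fin.sum_univ_four, c4Mat] <;> norm_num
  have := hid.spectrum_subset ℝ
  simpa using this

/-- the seed graph `cpk` -/
abbrev cpkG : SimpleGraph (Fin 5) :=
  graphOf [(0, 2), (0, 3), (0, 4), (1, 3), (1, 4), (2, 3), (2, 4)]

/-- the seed matrix `cpk` -/
noncomputable def cpkMat : Matrix (Fin 5) (Fin 5) ℝ :=
  !![144/625, 0, 192/625, 144/625, 108/625;
     0, 16/25, 0, 36/125, -48/125;
     192/625, 0, 256/625, 192/625, 144/625;
     144/625, 36/125, 192/625, 9/25, 0;
     108/625, -48/125, 144/625, 0, 9/25]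

lemma cpkMat_symm : (cpkMat).IsSymm := by
  ext i j
  fin_cases i <;> fin_cases j <;> simp [cpkMat]

lemma cpkMat_pattern : ∀ i j, i ≠ j → (cpkMat i j ≠ 0 ↔ (cpkG).Adj i j) := by
  intro i j hij
  fin_cases i <;> fin_cases j <;> first
    | exact absurd rfl hij
    | exact iff_of_true (by simp [cpkMat]) (by decide)
    | exact iff_of_false (by simp [cpkMat]) (by decide)

lemma cpkMat_reg : Reg (cpkG)ᶜ cpkMat := by
  intro X hXs hX hcomm
  have hz : ∀ i j : Fin 5, ¬ ((cpkG)ᶜ.Adj i j) → X i j = 0 := hX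
  have hs : ∀ i j, X i j = X j i := fun i j => hXs.apply j i
  have e : ∀ i j, (cpkMat * X) i j = (X * cpkMat) i j := fun i j => by rw [hcomm]
  have z00 := hz 0 0 (by decide)
  have z02 := hz 0 2 (by decide)
  have z03 := hz 0 3 (by decide)
  have z04 := hz 0 4 (by decide)
  have z11 := hz 1 1 (by decide)
  have z13 := hz 1 3 (by decide)
  have z14 := hz 1 4 (by decide)
  have z20 := hz 2 0 (by decide)
  have z22 := hz 2 2 (by decide)
  have z23 := hz 2 3 (by decide)
  have z24 := hz 2 4 (by decide)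
  have z30 := hz 3 0 (by decide)
  have z31 := hz 3 1 (by decide)
  have z32 := hz 3 2 (by decide)
  have z33 := hz 3 3 (by decide)
  have z40 := hz 4 0 (by decide)
  have z41 := hz 4 1 (by decide)
  have z42 := hz 4 2 (by decide)
  have z44 := hz 4 4 (by decide)
  have s10 := hs 1 0
  have s21 := hs 2 1
  have s43 := hs 4 3
  have e01 := e 0 1
  have e03 := e 0 3
  have e04 := e 0 4
  clear hs hz e hcomm
  simp only [Matrix.mul_apply, Fin.sum_univ_five, cpkMat, Matrix.of_apply, Matrix.cons_val, z00, z02, z03, z04, z11, z13, z14, z20, z22, z23, z24, z30, z31, z32, z33, z40, z41, z42, z44, s10, s21, s43, mul_zero, zero_mul, add_zero, zero_add] at e01 e03 e04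
  have k01 : X 0 1 = 0 := by linear_combination (-125 / 72) * e03 + (125 / 96) * e04
  have k12 : X 1 2 = 0 := by linear_combination (625 / 192) * e01 + (-125 / 54) * e03 + (125 / 72) * e04
  have k34 : X 3 4 = 0 := by linear_combination (625 / 216) * e03 + (625 / 288) * e04
  ext i j
  fin_cases i <;> fin_cases j <;>
    simp only [Fin.zero_eta, Fin.mk_one, Fin.reduceFinMk, Matrix.zero_apply] <;>
    first
      | assumption
      | (simp only [s10, s21, s43]; assumption)

theorem SSPq.cpk : SSPq (cpkG) 2 := by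
  refine ⟨cpkMat, cpkMat_symm, cpkMat_pattern, cpkMat_reg, {0, 1}, Finset.card_le_two, ?_⟩
  have hid : IsIdempotentElem cpkMat := by
    ext i j
    rw [Matrix.mul_apply]
    fin_cases i <;> fin_cases j <;>
      simp [Fin.sum_univ_five, cpkMat] <;> norm_num
  have := hid.spectrum_subset ℝ
  simpa using this

/-- the seed graph `c5` -/
abbrev c5G : SimpleGraph (Fin 5) :=
  graphOf [(0, 1), (0, 4), (1, 2), (2, 3), (3, 4)]

/-- the seed matrix `c5` -/
noncomputable def c5Mat : Matrix (Fin 5) (Fin 5) ℝ :=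
  !![13, 6, 0, 0, 6;
     6, -9, 12, 0, 0;
     0, 12, 18, 9, 0;
     0, 0, 9, 18, 12;
     6, 0, 0, 12, -9]

lemma c5Mat_symm : (c5Mat).IsSymm := by
  ext i j
  fin_cases i <;> fin_cases j <;> simp [c5Mat]

lemma c5Mat_pattern : ∀ i j, i ≠ j → (c5Mat i j ≠ 0 ↔ (c5G).Adj i j) := by
  intro i j hij
  fin_cases i <;> fin_cases j <;> first
    | exact absurd rfl hij
    | exact iff_of_true (by simp [c5Mat]) (by decide)
    | exact iff_of_false (by simp [c5Mat]) (by decide)

lemma c5Mat_reg : Reg (c5G)ᶜ c5Mat := by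
  intro X hXs hX hcomm
  have hz : ∀ i j : Fin 5, ¬ ((c5G)ᶜ.Adj i j) → X i j = 0 := hX
  have hs : ∀ i j, X i j = X j i := fun i j => hXs.apply j i
  have e : ∀ i j, (c5Mat * X) i j = (X * c5Mat) i j := fun i j => by rw [hcomm]
  have z00 := hz 0 0 (by decide)
  have z01 := hz 0 1 (by decide)
  have z04 := hz 0 4 (by decide)
  have z10 := hz 1 0 (by decide)
  have z11 := hz 1 1 (by decide)
  have z12 := hz 1 2 (by decide)
  have z21 := hz 2 1 (by decide)
  have z22 := hz 2 2 (by decide)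
  have z23 := hz 2 3 (by decide)
  have z32 := hz 3 2 (by decide)
  have z33 := hz 3 3 (by decide)
  have z34 := hz 3 4 (by decide)
  have z40 := hz 4 0 (by decide)
  have z43 := hz 4 3 (by decide)
  have z44 := hz 4 4 (by decide)
  have s20 := hs 2 0
  have s30 := hs 3 0
  have s31 := hs 3 1
  have s41 := hs 4 1
  have s42 := hs 4 2
  have e01 := e 0 1
  have e02 := e 0 2
  have e03 := e 0 3
  have e04 := e 0 4
  have e12 := e 1 2
  clear hs hz e hcomm
  simp only [Matrix.mul_apply, Fin.sum_univ_five, c5Mat, Matrix.of_apply, Matrix.cons_val, z00, z01, z04, z10, z11, z12, z21, z22, z23, z32, z33, z34, z40, z43, z44, s20, s30, s31, s41, s42, mul_zero, zero_mul, add_zero, zero_add] at e01 e02 e03 e04 e12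
  have k02 : X 0 2 = 0 := by linear_combination (-1 / 24) * e01 + (-1 / 10) * e03 + (1 / 24) * e04 + (-1 / 15) * e12
  have k03 : X 0 3 = 0 := by linear_combination (1 / 24) * e01 + (-1 / 10) * e03 + (-1 / 24) * e04 + (-1 / 15) * e12
  have k13 : X 1 3 = 0 := by linear_combination (-1 / 36) * e01 + (-1 / 15) * e03 + (1 / 36) * e04 + (-7 / 45) * e12
  have k14 : X 1 4 = 0 := by linear_combination (1 / 12) * e01 + (-1 / 5) * e03 + (1 / 12) * e04 + (-2 / 15) * e12
  have k24 : X 2 4 = 0 := by linear_combination (1 / 36) * e01 + (1 / 6) * e02 + (-7 / 30) * e03 + (-1 / 36) * e04 + (-7 / 45) * e12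
  ext i j
  fin_cases i <;> fin_cases j <;>
    simp only [Fin.zero_eta, Fin.mk_one, Fin.reduceFinMk, Matrix.zero_apply] <;>
    first
      | assumption
      | (simp only [s20, s30, s31, s41, s42]; assumption)

theorem SSPq.c5 : SSPq (c5G) 3 := by
  refine ⟨c5Mat, c5Mat_symm, c5Mat_pattern, c5Mat_reg, {15, -15, 31}, ?_, ?_⟩
  · exact Finset.card_le_three
  · intro μ hμ
    have hT : c5Mat ^ 2 - algebraMap ℝ (Matrix (Fin 5) (Fin 5) ℝ) 225 =
        !![16, 24, 72, 72, 24;
     24, 36, 108, 108, 36;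
     72, 108, 324, 324, 108;
     72, 108, 324, 324, 108;
     24, 36, 108, 108, 36] := by
      rw [pow_two, Algebra.algebraMap_eq_smul_one]
      ext i j
      rw [Matrix.sub_apply, Matrix.mul_apply, Matrix.smul_apply]
      fin_cases i <;> fin_cases j <;>
        simp [Fin.sum_univ_five, c5Mat, Matrix.one_apply] <;> norm_num
    have hU : c5Mat - algebraMap ℝ (Matrix (Fin 5) (Fin 5) ℝ) 31 =
        !![-18, 6, 0, 0, 6;
     6, -40, 12, 0, 0;
     0, 12, -13, 9, 0;
     0, 0, 9, -13, 12;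
     6, 0, 0, 12, -40] := by
      rw [Algebra.algebraMap_eq_smul_one]
      ext i j
      rw [Matrix.sub_apply, Matrix.smul_apply]
      fin_cases i <;> fin_cases j <;>
        simp [c5Mat, Matrix.one_apply] <;> norm_num
    have hp : Polynomial.aeval c5Mat ((Polynomial.X ^ 2 - Polynomial.C 225) *
        (Polynomial.X - Polynomial.C 31) : Polynomial ℝ) = 0 := by
      rw [map_mul, map_sub, map_sub, map_pow, Polynomial.aeval_X, Polynomial.aeval_C,
        Polynomial.aeval_C, hT, hU]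
      ext i j
      rw [Matrix.mul_apply]
      fin_cases i <;> fin_cases j <;>
        simp [Fin.sum_univ_five] <;> norm_num
    have h1 := spectrum_subset_of_aeval hp hμ
    simp only [Polynomial.eval_mul, Polynomial.eval_sub, Polynomial.eval_pow, Polynomial.eval_X,
      Polynomial.eval_C] at h1
    have h2 : (μ - 15) * (μ - -15) * (μ - 31) = 0 := by linear_combination h1
    rcases mul_eq_zero.1 h2 with h3 | h3
    · rcases mul_eq_zero.1 h3 with h4 | h4
      · simp [sub_eq_zero.1 h4]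
      · simp [sub_eq_zero.1 h4]
    · simp [sub_eq_zero.1 h3]

/-- the seed graph `net` -/
abbrev netG : SimpleGraph (Fin 6) :=
  graphOf [(0, 1), (0, 2), (0, 3), (1, 2), (1, 4), (2, 5)]

/-- the seed matrix `net` -/
noncomputable def netMat : Matrix (Fin 6) (Fin 6) ℝ :=
  !![2, -1, -1, 2, 0, 0;
     -1, 2, -1, 0, 2, 0;
     -1, -1, 2, 0, 0, 2;
     2, 0, 0, 0, 0, 0;
     0, 2, 0, 0, 0, 0;
     0, 0, 2, 0, 0, 0]

lemma netMat_symm : (netMat).IsSymm := by
  ext i j
  fin_cases i <;> fin_cases j <;> simp [netMat]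

lemma netMat_pattern : ∀ i j, i ≠ j → (netMat i j ≠ 0 ↔ (netG).Adj i j) := by
  intro i j hij
  fin_cases i <;> fin_cases j <;> first
    | exact absurd rfl hij
    | exact iff_of_true (by simp [netMat]) (by decide)
    | exact iff_of_false (by simp [netMat]) (by decide)

lemma netMat_reg : Reg (netG)ᶜ netMat := by
  intro X hXs hX hcomm
  have hz : ∀ i j : Fin 6, ¬ ((netG)ᶜ.Adj i j) → X i j = 0 := hX
  have hs : ∀ i j, X i j = X j i := fun i j => hXs.apply j i
  have e : ∀ i j, (netMat * X) i j = (X * netMat) i j := fun i j => by rw [hcomm]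
  have z00 := hz 0 0 (by decide)
  have z01 := hz 0 1 (by decide)
  have z02 := hz 0 2 (by decide)
  have z03 := hz 0 3 (by decide)
  have z10 := hz 1 0 (by decide)
  have z11 := hz 1 1 (by decide)
  have z12 := hz 1 2 (by decide)
  have z14 := hz 1 4 (by decide)
  have z20 := hz 2 0 (by decide)
  have z21 := hz 2 1 (by decide)
  have z22 := hz 2 2 (by decide)
  have z25 := hz 2 5 (by decide)
  have z30 := hz 3 0 (by decide)
  have z33 := hz 3 3 (by decide)
  have z41 := hz 4 1 (by decide)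
  have z44 := hz 4 4 (by decide)
  have z52 := hz 5 2 (by decide)
  have z55 := hz 5 5 (by decide)
  have s40 := hs 4 0
  have s50 := hs 5 0
  have s31 := hs 3 1
  have s51 := hs 5 1
  have s32 := hs 3 2
  have s42 := hs 4 2
  have s43 := hs 4 3
  have s53 := hs 5 3
  have s54 := hs 5 4
  have e01 := e 0 1
  have e02 := e 0 2
  have e03 := e 0 3
  have e04 := e 0 4
  have e05 := e 0 5
  have e12 := e 1 2
  have e13 := e 1 3
  have e15 := e 1 5
  have e23 := e 2 3
  clear hs hz e hcomm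
  simp only [Matrix.mul_apply, Fin.sum_univ_six, netMat, Matrix.of_apply, Matrix.cons_val, z00, z01, z02, z03, z10, z11, z12, z14, z20, z21, z22, z25, z30, z33, z41, z44, z52, z55, s40, s50, s31, s51, s32, s42, s43, s53, s54, mul_zero, zero_mul, add_zero, zero_add] at e01 e02 e03 e04 e05 e12 e13 e15 e23
  have k04 : X 0 4 = 0 := by linear_combination (-1) * e01 + (1 / 2) * e02 + (-1 / 2) * e03 + (-1 / 2) * e04 + (1 / 2) * e05 + (-1 / 4) * e12 + (1 / 2) * e13 + (-1 / 2) * e23
  have k05 : X 0 5 = 0 := by linear_combination (1 / 2) * e01 + (-1) * e02 + (-1 / 2) * e03 + (1 / 2) * e04 + (-1 / 2) * e05 + (1 / 4) * e12 + (-1 / 2) * e13 + (1 / 2) * e23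
  have k13 : X 1 3 = 0 := by linear_combination (-1 / 2) * e01 + (1 / 2) * e02 + (-1 / 2) * e03 + (-1 / 2) * e04 + (1 / 2) * e05 + (-1 / 4) * e12 + (1 / 2) * e13 + (-1 / 2) * e23
  have k15 : X 1 5 = 0 := by linear_combination (-1 / 2) * e01 + (-1 / 2) * e02 + (-1 / 2) * e03 + (-1 / 2) * e04 + (-1 / 2) * e05 + (-1 / 4) * e12 + (1 / 2) * e13 + (1 / 2) * e23
  have k23 : X 2 3 = 0 := by linear_combination (1 / 2) * e01 + (-1 / 2) * e02 + (-1 / 2) * e03 + (1 / 2) * e04 + (-1 / 2) * e05 + (1 / 4) * e12 + (-1 / 2) * e13 + (1 / 2) * e23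
  have k24 : X 2 4 = 0 := by linear_combination (-1 / 2) * e01 + (-1 / 2) * e02 + (-1 / 2) * e03 + (-1 / 2) * e04 + (-1 / 2) * e05 + (1 / 4) * e12 + (1 / 2) * e13 + (1 / 2) * e23
  have k34 : X 3 4 = 0 := by linear_combination (3 / 4) * e01 + (-3 / 4) * e02 + (1 / 4) * e03 + (3 / 4) * e04 + (-3 / 4) * e05 + (3 / 8) * e12 + (-1 / 4) * e13 + (3 / 4) * e23
  have k35 : X 3 5 = 0 := by linear_combination (-3 / 4) * e01 + (3 / 4) * e02 + (1 / 4) * e03 + (-3 / 4) * e04 + (3 / 4) * e05 + (-3 / 8) * e12 + (3 / 4) * e13 + (-1 / 4) * e23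
  have k45 : X 4 5 = 0 := by linear_combination (3 / 4) * e01 + (1 / 4) * e03 + (3 / 4) * e04 + (1 / 4) * e05 + (3 / 8) * e12 + (-3 / 4) * e13 + (1 / 2) * e15 + (-1 / 4) * e23
  ext i j
  fin_cases i <;> fin_cases j <;>
    simp only [Fin.zero_eta, Fin.mk_one, Fin.reduceFinMk, Matrix.zero_apply] <;>
    first
      | assumption
      | (simp only [s40, s50, s31, s51, s32, s42, s43, s53, s54]; assumption)

theorem SSPq.net : SSPq (netG) 4 := by
  refine ⟨netMat, netMat_symm, netMat_pattern, netMat_reg, {4, -1, 2, -2}, ?_, ?_⟩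
  · exact Finset.card_le_four
  · intro μ hμ
    have hT : netMat ^ 2 - algebraMap ℝ (Matrix (Fin 6) (Fin 6) ℝ) 4 - (3 : ℝ) • netMat =
        !![0, 0, 0, -2, -2, -2;
     0, 0, 0, -2, -2, -2;
     0, 0, 0, -2, -2, -2;
     -2, -2, -2, 0, 0, 0;
     -2, -2, -2, 0, 0, 0;
     -2, -2, -2, 0, 0, 0] := by
      rw [pow_two, Algebra.algebraMap_eq_smul_one]
      ext i j
      rw [Matrix.sub_apply, Matrix.sub_apply, Matrix.mul_apply, Matrix.smul_apply,
        Matrix.smul_apply]
      fin_cases i <;> fin_cases j <;>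
        simp [Fin.sum_univ_six, netMat, Matrix.one_apply] <;> norm_num
    have hU : netMat ^ 2 - algebraMap ℝ (Matrix (Fin 6) (Fin 6) ℝ) 4 =
        !![6, -3, -3, 4, -2, -2;
     -3, 6, -3, -2, 4, -2;
     -3, -3, 6, -2, -2, 4;
     4, -2, -2, 0, 0, 0;
     -2, 4, -2, 0, 0, 0;
     -2, -2, 4, 0, 0, 0] := by
      rw [pow_two, Algebra.algebraMap_eq_smul_one]
      ext i j
      rw [Matrix.sub_apply, Matrix.mul_apply, Matrix.smul_apply]
      fin_cases i <;> fin_cases j <;>
        simp [Fin.sum_univ_six, netMat, Matrix.one_apply] <;> norm_num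
    have hp : Polynomial.aeval netMat ((Polynomial.X ^ 2 - Polynomial.C 4 -
        Polynomial.C 3 * Polynomial.X) *
        (Polynomial.X ^ 2 - Polynomial.C 4) : Polynomial ℝ) = 0 := by
      rw [map_mul, map_sub, map_sub, map_pow, map_mul, Polynomial.aeval_X, Polynomial.aeval_C,
        Polynomial.aeval_C, Algebra.algebraMap_eq_smul_one (3 : ℝ), smul_mul_assoc, one_mul, hT, hU]
      ext i j
      rw [Matrix.mul_apply]
      fin_cases i <;> fin_cases j <;>
        simp [Fin.sum_univ_six] <;> norm_num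
    have h1 := spectrum_subset_of_aeval hp hμ
    simp only [Polynomial.eval_mul, Polynomial.eval_sub, Polynomial.eval_pow, Polynomial.eval_X,
      Polynomial.eval_C] at h1
    have h2 : (μ - 4) * (μ - -1) * ((μ - 2) * (μ - -2)) = 0 := by linear_combination h1
    rcases mul_eq_zero.1 h2 with h3 | h3 <;> rcases mul_eq_zero.1 h3 with h4 | h4 <;>
      simp [sub_eq_zero.1 h4]

end Pool.Agent.helper46
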