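import Mathlib
import Pool.Agent.helper46.Seeds
import Pool.Agent.helper46.Assembly

set_option autoImplicit false

open Matrix

namespace Pool.Agent.helper46

/-! ### decision trees -/

/-- decision trees whose nodes ask for the adjacency of two labelled vertices -/
inductive DT (α : Type) where
  | leaf (c : α) : DT α
  | node (i j : ℕ) (p n : DT α) : DT α

/-- set the bits of the pair `i, j` -/
def setBit (m i j : ℕ) : ℕ := m ||| (1 <<< (8 * i + j)) ||| (1 <<< (8 * j + i))

/-- evaluation of a decision tree -/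
def DT.check {α : Type} (n : ℕ) (chk : α → ℕ → ℕ → Bool) : DT α → ℕ → ℕ → Bool
  | DT.leaf c, E, N => chk c E N
  | DT.node i j p q, E, N => Nat.blt i n && (Nat.blt j n && (!(Nat.beq i j) &&
      (DT.check n chk p (setBit E i j) N && DT.check n chk q E (setBit N i j))))

variable {V : Type*}

/-- the bits of `m` are adjacencies of `G` -/
def Know (G : SimpleGraph V) (φ : ℕ → V) (m : ℕ) : Prop :=
  ∀ a < 8, ∀ b < 8, m.testBit (8 * a + b) = true → G.Adj (φ a) (φ b)

lemma Know.setBit {G : SimpleGraph V} {φ : ℕ → V} {m i j : ℕ} (h : Know G φ m) (hi : i < 8)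
    (hj : j < 8) (hij : G.Adj (φ i) (φ j)) : Know G φ (setBit m i j) := by
  intro a ha b hb hbit
  rw [helper46.setBit, Nat.testBit_or, Nat.testBit_or, Bool.or_eq_true, Bool.or_eq_true,
    Nat.one_shiftLeft, Nat.one_shiftLeft, Nat.testBit_two_pow, Nat.testBit_two_pow] at hbit
  rcases hbit with (h1 | h1) | h1
  · exact h a ha b hb h1
  · have h2 : 8 * i + j = 8 * a + b := by simpa using h1
    have h3 : i = a ∧ j = b := by omega
    rw [← h3.1, ← h3.2]; exact hij
  · have h2 : 8 * j + i = 8 * a + b := by simpa using h1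
    have h3 : j = a ∧ i = b := by omega
    rw [← h3.1, ← h3.2]; exact hij.symm

lemma DT.sound {α : Type} {n : ℕ} {chk : α → ℕ → ℕ → Bool} {G : SimpleGraph V} {φ : ℕ → V}
    (h8 : n ≤ 8) (hφ : ∀ i < n, ∀ j < n, φ i = φ j → i = j) : ∀ (t : DT α) (E N : ℕ),
    t.check n chk E N = true → Know G φ E → Know Gᶜ φ N →
    ∃ c E' N', chk c E' N' = true ∧ Know G φ E' ∧ Know Gᶜ φ N' := by
  intro t
  induction t with
  | leaf c =>
    intro E N h hE hN
    exact ⟨c, E, N, h, hE, hN⟩
  | node i j p q ihp ihq =>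
    intro E N h hE hN
    rw [DT.check] at h
    simp only [Bool.and_eq_true, Bool.not_eq_true', Nat.blt_eq] at h
    obtain ⟨hi, hj, hij, h1, h2⟩ := h
    have hne : i ≠ j := Nat.ne_of_beq_eq_false hij
    by_cases hadj : G.Adj (φ i) (φ j)
    · exact ihp _ _ h1 (hE.setBit (by omega) (by omega) hadj) hN
    · have hadj' : Gᶜ.Adj (φ i) (φ j) := by
        rw [SimpleGraph.compl_adj]
        exact ⟨fun h' => hne (hφ i hi j hj h'), hadj⟩
      exact ihq _ _ h2 hE (hN.setBit (by omega) (by omega) hadj')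

/-! ### seeds -/

/-- the `i`-th octal digit -/
def dg (c i : ℕ) : ℕ := (c >>> (3 * i)) &&& 7

lemma dg_lt (c i : ℕ) : dg c i < 8 := by
  have : dg c i ≤ 7 := Nat.and_le_right
  omega

/-- number of vertices of a seed -/
def sdSize : ℕ → ℕ
  | 0 => 3
  | 1 => 4
  | 2 => 4
  | 3 => 5
  | 4 => 5
  | 5 => 6
  | 6 => 6
  | _ => 7

/-- number of saved eigenvalues of a seed -/
def sdSav : ℕ → ℕ
  | 0 => 1
  | 1 => 1
  | 2 => 2
  | 3 => 2
  | 4 => 3
  | 5 => 4
  | 6 => 2
  | _ => 1

/-- edges of a seed -/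
def sdEdges : ℕ → List (ℕ × ℕ)
  | 0 => [(0, 1), (0, 2), (1, 2)]
  | 1 => [(0, 1), (0, 2), (0, 3)]
  | 2 => [(0, 1), (0, 3), (1, 2), (2, 3)]
  | 3 => [(0, 1), (0, 4), (1, 2), (2, 3), (3, 4)]
  | 4 => [(0, 2), (0, 3), (0, 4), (1, 3), (1, 4), (2, 3), (2, 4)]
  | 5 => [(0, 2), (0, 3), (0, 4), (1, 3), (1, 4), (1, 5), (2, 4), (2, 5), (3, 5)]
  | 6 => [(0, 1), (0, 2), (0, 3), (1, 2), (1, 4), (2, 5)]
  | _ => [(0, 1), (1, 2), (2, 3), (3, 4), (4, 5), (5, 6), (0, 6)]

/-- the seeds as graphs -/
def seedG (m s : ℕ) : SimpleGraph (Fin m) where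
  Adj i j := i ≠ j ∧ ((i.val, j.val) ∈ sdEdges s ∨ (j.val, i.val) ∈ sdEdges s)
  symm := ⟨fun _ _ h => ⟨h.1.symm, h.2.symm⟩⟩
  loopless := ⟨fun _ h => h.1 rfl⟩

instance (m s : ℕ) : DecidableRel (seedG m s).Adj :=
  fun i j => inferInstanceAs (Decidable (i ≠ j ∧ ((i.val, j.val) ∈ sdEdges s ∨
    (j.val, i.val) ∈ sdEdges s)))

variable [DecidableEq V]

lemma QS.embed {G : SimpleGraph V} {m k : ℕ} {H : SimpleGraph (Fin m)} (hs : SSPq H k)
    (f : Fin m → V) (hf : Function.Injective f) (hadj : ∀ i j, H.Adj i j → G.Adj (f i) (f j)) :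
    QS G (Finset.univ.image f) k := by
  let e : Fin m ≃ {x // x ∈ Finset.univ.image f} :=
    Equiv.ofBijective (fun i => ⟨f i, Finset.mem_image_of_mem _ (Finset.mem_univ _)⟩) (by
      constructor
      · intro i j hij
        exact hf (congrArg Subtype.val hij)
      · rintro ⟨x, hx⟩
        obtain ⟨i, _, rfl⟩ := Finset.mem_image.1 hx
        exact ⟨i, rfl⟩)
  exact SSPq.transport e hs (fun i j hij => hadj i j hij)

lemma seed_c7 : SSPq (seedG 7 7) 6 := by
  have h0 := NiceS.singleton (seedG 7 7) 0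
  have h1 := h0.insert (v := 1) (w := 0) (by decide) (by decide) (by decide)
  have h2 := h1.insert (v := 2) (w := 1) (by decide) (by decide) (by decide)
  have h3 := h2.insert (v := 3) (w := 2) (by decide) (by decide) (by decide)
  have h4 := h3.insert (v := 4) (w := 3) (by decide) (by decide) (by decide)
  have h5 := h4.insert (v := 5) (w := 4) (by decide) (by decide) (by decide)
  have h6 := QS.pi (T := {6}) h5 (by decide) (by decide) (by decide)
  have hc : (insert 5 (insert 4 (insert 3 (insert 2 (insert 1 ({0} : Finset (Fin 7))))))).card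
      = 6 := by decide
  have hu : insert 5 (insert 4 (insert 3 (insert 2 (insert 1 ({0} : Finset (Fin 7)))))) ∪ {6}
      = Finset.univ := by decide
  rw [hu, hc] at h6
  exact h6.univ

lemma seed_ssp : ∀ s < 8, ∃ k, k + sdSav s = sdSize s ∧ SSPq (seedG (sdSize s) s) k := by
  intro s hs
  interval_cases s
  · refine ⟨2, rfl, ?_⟩
    have h : (⊤ : SimpleGraph (Fin 3)) ≤ seedG 3 0 := by
      intro i j hij
      revert hij; revert i j; decide
    exact SSPq.top.mono h
  · refine ⟨3, rfl, ?_⟩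
    have h := QS.star (G := seedG 4 1) (v := (0 : Fin 4)) (L := {1, 2, 3}) (m := 1) (by decide)
      (by decide)
    have hu : insert (0 : Fin 4) ({1, 2, 3} : Finset (Fin 4)) = Finset.univ := by decide
    have h7 : QS (seedG 4 1) (insert (0 : Fin 4) ({1, 2, 3} : Finset (Fin 4))) 3 := h
    rw [hu] at h7
    exact h7.univ
  · refine ⟨2, rfl, ?_⟩
    have h : c4G ≤ seedG 4 2 := by
      intro i j hij
      revert hij; revert i j; decide
    exact SSPq.c4.mono h
  · refine ⟨3, rfl, ?_⟩
    have h : c5G ≤ seedG 5 3 := by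
      intro i j hij
      revert hij; revert i j; decide
    exact SSPq.c5.mono h
  · refine ⟨2, rfl, ?_⟩
    have h : cpkG ≤ seedG 5 4 := by
      intro i j hij
      revert hij; revert i j; decide
    exact SSPq.cpk.mono h
  · refine ⟨2, rfl, ?_⟩
    have h : hexᶜ ≤ seedG 6 5 := by
      intro i j hij
      revert hij; revert i j; decide
    exact SSPq.prism.mono h
  · refine ⟨4, rfl, ?_⟩
    have h : netG ≤ seedG 6 6 := by
      intro i j hij
      revert hij; revert i j; decide
    exact SSPq.net.mono h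
  · exact ⟨6, rfl, seed_c7⟩

/-- at least `c` eigenvalues are saved on `S` -/
def Sv (G : SimpleGraph V) (S : Finset V) (c : ℕ) : Prop := ∃ k, k + c ≤ S.card ∧ QS G S k

lemma Sv.zero (G : SimpleGraph V) (S : Finset V) : Sv G S 0 := ⟨S.card, le_rfl, QS.card G S⟩

lemma Sv.union {G : SimpleGraph V} {S T : Finset V} {c d : ℕ} (hST : Disjoint S T) (h : Sv G S c)
    (h' : Sv G T d) : Sv G (S ∪ T) (c + d) := by
  obtain ⟨k, hk, hq⟩ := h
  obtain ⟨l, hl, hq'⟩ := h'
  refine ⟨k + l, ?_, hq.union hST hq'⟩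
  rw [Finset.card_union_of_disjoint hST]
  omega

lemma Sv.mono {G : SimpleGraph V} {S T : Finset V} {c : ℕ} (hST : S ⊆ T) (h : Sv G S c) :
    Sv G T c := by
  have h1 := Sv.union (Finset.disjoint_sdiff) h (Sv.zero G (T \ S))
  rwa [Finset.union_sdiff_of_subset hST] at h1

lemma tot_of_sv {G : SimpleGraph V} {S : Finset V} {c d : ℕ} (h : Sv G S c) (h' : Sv Gᶜ S d)
    (hn : S.card ≤ c + d + 2) : Tot G S (S.card + 2) := by
  obtain ⟨k, hk, hq⟩ := h
  obtain ⟨l, hl, hq'⟩ := h'
  exact ⟨k, l, by omega, hq, hq'⟩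

/-- vertices used by a placement -/
def verts (p : ℕ × ℕ) : List ℕ := (List.range (sdSize p.1)).map (dg p.2)

/-- check of a placement -/
def okPl (m : ℕ) (p : ℕ × ℕ) : Bool :=
  Nat.blt p.1 8 && (sdEdges p.1).all (fun e => m.testBit (8 * dg p.2 e.1 + dg p.2 e.2))

/-- no repetitions -/
def nodupB : List ℕ → Bool
  | [] => true
  | a :: l => l.all (fun b => !(Nat.beq a b)) && nodupB l

lemma nodupB_sound : ∀ l : List ℕ, nodupB l = true → l.Nodup := by
  intro l
  induction l with
  | nil => intro _; exact List.nodup_nil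
  | cons a l ih =>
    intro h
    rw [nodupB, Bool.and_eq_true, List.all_eq_true] at h
    rw [List.nodup_cons]
    refine ⟨fun ha => ?_, ih h.2⟩
    have := h.1 a ha
    simp at this

/-- check of a list of placements -/
def okSeeds (m : ℕ) (L : List (ℕ × ℕ)) : Bool := L.all (okPl m)

/-- all vertices -/
def allV (L : List (ℕ × ℕ)) : List ℕ := L.flatMap verts

/-- total savings -/
def savs (L : List (ℕ × ℕ)) : ℕ := (L.map (fun p => sdSav p.1)).sum

lemma placement_sound {H : SimpleGraph V} {φ : ℕ → V} {n m : ℕ} (hK : Know H φ m)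
    (hφ : ∀ i < n, ∀ j < n, φ i = φ j → i = j) {p : ℕ × ℕ} (hp : okPl m p = true)
    (hnd : (verts p).Nodup) (hlt : ∀ v ∈ verts p, v < n) :
    Sv H ((verts p).map φ).toFinset (sdSav p.1) := by
  obtain ⟨s, c⟩ := p
  rw [okPl, Bool.and_eq_true, Nat.blt_eq, List.all_eq_true] at hp
  simp only at hp
  obtain ⟨k, hk, hssp⟩ := seed_ssp s hp.1
  have hmem : ∀ i : Fin (sdSize s), dg c i.val ∈ verts (s, c) := by
    intro i
    exact List.mem_map.2 ⟨i.val, List.mem_range.2 i.isLt, rfl⟩
  have hdg : ∀ i j : Fin (sdSize s), dg c i.val = dg c j.val → i = j := by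
    intro i j hij
    have h1 := List.inj_on_of_nodup_map hnd (List.mem_range.2 i.isLt) (List.mem_range.2 j.isLt) hij
    exact Fin.ext h1
  set f : Fin (sdSize s) → V := fun i => φ (dg c i.val) with hf
  have hinj : Function.Injective f := by
    intro i j hij
    exact hdg i j (hφ _ (hlt _ (hmem i)) _ (hlt _ (hmem j)) hij)
  have himg : Finset.univ.image f = ((verts (s, c)).map φ).toFinset := by
    ext x
    simp only [Finset.mem_image, Finset.mem_univ, true_and, List.mem_toFinset, List.mem_map,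
      verts, List.mem_range, hf]
    constructor
    · rintro ⟨i, rfl⟩
      exact ⟨_, ⟨i.val, i.isLt, rfl⟩, rfl⟩
    · rintro ⟨_, ⟨i, hi, rfl⟩, rfl⟩
      exact ⟨⟨i, hi⟩, rfl⟩
  have hq : QS H (Finset.univ.image f) k := by
    refine QS.embed hssp f hinj ?_
    intro i j hij
    have key : ∀ a b : ℕ, (a, b) ∈ sdEdges s → H.Adj (φ (dg c a)) (φ (dg c b)) := by
      intro a b hab
      exact hK _ (dg_lt _ _) _ (dg_lt _ _) (hp.2 (a, b) hab)
    rcases hij.2 with h | h
    · exact key _ _ h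
    · exact (key _ _ h).symm
  refine ⟨k, ?_, himg ▸ hq⟩
  rw [← himg, Finset.card_image_of_injective _ hinj, Finset.card_univ, Fintype.card_fin]
  exact hk.le

lemma seeds_sound {H : SimpleGraph V} {φ : ℕ → V} {n m : ℕ} (hK : Know H φ m)
    (hφ : ∀ i < n, ∀ j < n, φ i = φ j → i = j) : ∀ L : List (ℕ × ℕ), okSeeds m L = true →
    (allV L).Nodup → (∀ v ∈ allV L, v < n) → Sv H ((allV L).map φ).toFinset (savs L) := by
  intro L
  induction L with
  | nil =>
    intro _ _ _
    exact Sv.zero _ _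
  | cons p L ih =>
    intro hok hnd hlt
    rw [okSeeds, List.all_cons, Bool.and_eq_true] at hok
    have hav : allV (p :: L) = verts p ++ allV L := by rw [allV, List.flatMap_cons]; rfl
    rw [hav, List.nodup_append'] at hnd
    rw [hav] at hlt
    have h1 := placement_sound hK hφ hok.1 hnd.1 (fun v hv => hlt v (List.mem_append_left _ hv))
    have h2 := ih hok.2 hnd.2.1 (fun v hv => hlt v (List.mem_append_right _ hv))
    have hsv : savs (p :: L) = sdSav p.1 + savs L := by simp [savs]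
    rw [hav, List.map_append, List.toFinset_append, hsv]
    refine Sv.union ?_ h1 h2
    rw [Finset.disjoint_left]
    intro x hx hx'
    rw [List.mem_toFinset, List.mem_map] at hx hx'
    obtain ⟨a, ha, rfl⟩ := hx
    obtain ⟨b, hb, hab⟩ := hx'
    have := hφ b (hlt b (List.mem_append_right _ hb)) a (hlt a (List.mem_append_left _ ha)) hab
    subst this
    exact hnd.2.2 ha hb

end Pool.Agent.helper46
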