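import Mathlib
import Pool.Agent.helper46.FinTree

set_option autoImplicit false

open Matrix

namespace Pool.Agent.helper46

section isolated

variable {V : Type*} [Fintype V] [DecidableEq V]

/-- Without the strong spectral property an isolated vertex can reuse an eigenvalue. -/
lemma exists_of_isolated {G : SimpleGraph V} {v : V} (hv : ∀ w, ¬ G.Adj v w)
    (hne : ∃ w, w ≠ v) : ∃ A : Matrix V V ℝ, A.IsSymm ∧
      (∀ i j, i ≠ j → (A i j ≠ 0 ↔ G.Adj i j)) ∧ (spectrum ℝ A).ncard + 1 ≤ Fintype.card V := by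
  classical
  set W := {x : V // x ≠ v} with hW
  set A' : Matrix W W ℝ := (G.comap (fun x : W => (x : V))).adjMatrix ℝ with hA'
  have hs : A'.IsSymm := SimpleGraph.isSymm_adjMatrix _
  have hH := isHermitian_of_isSymm hs
  obtain ⟨w, hw⟩ := hne
  set lam := hH.eigenvalues ⟨w, hw⟩ with hlam
  set B : Matrix (W ⊕ Unit) (W ⊕ Unit) ℝ := fromBlocks A' 0 0 (Matrix.diagonal fun _ => lam)
    with hB
  let e : W ⊕ Unit ≃ V :=
    { toFun := fun x => match x with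
        | Sum.inl x => x.1
        | Sum.inr _ => v
      invFun := fun x => if h : x = v then Sum.inr () else Sum.inl ⟨x, h⟩
      left_inv := by
        rintro (⟨x, hx⟩ | x)
        · simp [hx]
        · simp
      right_inv := by
        intro x
        by_cases h : x = v
        · simp [h]
        · simp [h] }
  have hcardW : Fintype.card W + 1 = Fintype.card V := by
    rw [← Fintype.card_congr e, Fintype.card_sum, Fintype.card_unit]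
  have hBs : B.IsSymm := by
    rw [hB, Matrix.isSymm_fromBlocks_iff]
    exact ⟨hs, by simp, by simp, Matrix.isSymm_diagonal _⟩
  refine ⟨B.submatrix e.symm e.symm, ?_, ?_, ?_⟩
  · ext i j
    simp only [transpose_apply, submatrix_apply]
    exact hBs.apply _ _
  · intro i j hij
    rw [submatrix_apply]
    have hei : e (e.symm i) = i := e.apply_symm_apply i
    have hej : e (e.symm j) = j := e.apply_symm_apply j
    generalize e.symm i = x at hei ⊢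
    generalize e.symm j = y at hej ⊢
    subst hei; subst hej
    rcases x with x | x <;> rcases y with y | y
    · simp only [hB, fromBlocks_apply₁₁, hA', SimpleGraph.adjMatrix_apply, SimpleGraph.comap_adj]
      change _ ↔ G.Adj x.1 y.1
      by_cases h : G.Adj x.1 y.1 <;> simp [h]
    · simp only [hB, fromBlocks_apply₁₂, Matrix.zero_apply]
      change _ ↔ G.Adj x.1 v
      exact iff_of_false (by simp) (fun h => hv _ h.symm)
    · simp only [hB, fromBlocks_apply₂₁, Matrix.zero_apply]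
      change _ ↔ G.Adj v y.1
      exact iff_of_false (by simp) (fun h => hv _ h)
    · exact absurd rfl hij
  · have h1 : B.submatrix e.symm e.symm = Matrix.reindexAlgEquiv ℝ ℝ e B := rfl
    rw [h1, AlgEquiv.spectrum_eq]
    have h2 : spectrum ℝ B ⊆ Set.range hH.eigenvalues := by
      intro x hx
      rcases spectrum_fromBlocks hx with h | h
      · rwa [hH.spectrum_real_eq_range_eigenvalues] at h
      · rw [spectrum_diagonal] at h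
        obtain ⟨_, rfl⟩ := h
        exact ⟨_, rfl⟩
    have h3 : (spectrum ℝ B).ncard ≤ Fintype.card W := by
      calc (spectrum ℝ B).ncard ≤ (Set.range hH.eigenvalues).ncard :=
            Set.ncard_le_ncard h2 (Set.finite_range _)
        _ ≤ (Set.univ : Set W).ncard := by
            rw [← Set.image_univ]; exact Set.ncard_image_le Set.finite_univ
        _ = Fintype.card W := by rw [Set.ncard_univ, Nat.card_eq_fintype_card]
    omega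

lemma NG.of_isolated {G : SimpleGraph V} {v : V} (hv : ∀ w, ¬ G.Adj v w)
    (hne : ∃ w, w ≠ v) (hb : SSPq Gᶜ 3) : NG G := by
  obtain ⟨A, hA, hA', hAn⟩ := exists_of_isolated hv hne
  obtain ⟨B, hB, hB', hBn⟩ := hb.exists_matrix
  exact ⟨A, B, hA, hB, hA', hB', by omega⟩

end isolated

/-- leaves of the decision trees on at most five vertices -/
inductive L5 where
  | s (L1 L2 : List (ℕ × ℕ)) : L5
  | i (v : ℕ) (L : List (ℕ × ℕ)) : L5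
  | j (v : ℕ) (L : List (ℕ × ℕ)) : L5
  | x (X c : ℕ) : L5

/-- edges of the exceptional graphs -/
def xEdges : ℕ → List (ℕ × ℕ)
  | 0 => [(0, 1), (1, 2), (2, 3)]
  | 1 => [(0, 1), (1, 2), (2, 3), (3, 4)]
  | 2 => [(0, 2), (0, 3), (0, 4), (1, 3), (1, 4), (2, 4)]
  | _ => [(0, 1), (1, 2), (0, 2), (0, 3), (1, 4)]

/-- adjacency in the exceptional graphs -/
def xAdj (X i j : ℕ) : Bool := (xEdges X).any (fun e =>
  (Nat.beq e.1 i && Nat.beq e.2 j) || (Nat.beq e.1 j && Nat.beq e.2 i))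

/-- full check of a list of placements -/
def okS (n m : ℕ) (L : List (ℕ × ℕ)) : Bool :=
  okSeeds m L && (nodupB (allV L) && (allV L).all (fun v => Nat.blt v n))

/-- the vertex `v` is joined to all others in `m` -/
def fullV (n m v : ℕ) : Bool :=
  Nat.blt v n && (List.range n).all (fun w => Nat.beq v w || m.testBit (8 * v + w))

/-- exactness -/
def okX (n X c E N : ℕ) : Bool :=
  Nat.blt X 4 && (Nat.beq n (if X = 0 then 4 else 5) &&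
  (nodupB ((List.range n).map (dg c)) && (((List.range n).map (dg c)).all (fun v => Nat.blt v n) &&
  (List.range n).all (fun i => (List.range n).all (fun j => Nat.beq i j ||
    (if xAdj X i j then E.testBit (8 * dg c i + dg c j) else N.testBit (8 * dg c i + dg c j)))))))

/-- leaf check -/
def chk5 (n : ℕ) : L5 → ℕ → ℕ → Bool
  | L5.s L1 L2, E, N => okS n E L1 && (okS n N L2 && Nat.ble n (savs L1 + savs L2 + 2))
  | L5.i v L, _, N => fullV n N v && (okS n N L && Nat.ble n (savs L + 3))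
  | L5.j v L, E, _ => fullV n E v && (okS n E L && Nat.ble n (savs L + 3))
  | L5.x X c, E, N => okX n X c E N

lemma okS_sound {V : Type*} [DecidableEq V] {H : SimpleGraph V} {φ : ℕ → V} {n m : ℕ}
    (hK : Know H φ m) (hφ : ∀ i < n, ∀ j < n, φ i = φ j → i = j) {L : List (ℕ × ℕ)}
    (hL : okS n m L = true) : Sv H ((Finset.range n).image φ) (savs L) := by
  rw [okS, Bool.and_eq_true, Bool.and_eq_true, List.all_eq_true] at hL
  have hlt : ∀ v ∈ allV L, v < n := fun v hv => by simpa using hL.2.2 v hv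
  refine (seeds_sound hK hφ L hL.1 (nodupB_sound _ hL.2.1) hlt).mono ?_
  intro x hx
  rw [List.mem_toFinset, List.mem_map] at hx
  obtain ⟨a, ha, rfl⟩ := hx
  exact Finset.mem_image_of_mem _ (Finset.mem_range.2 (hlt a ha))

/-- the labelling of the vertices by natural numbers -/
def lab (n : ℕ) (i : ℕ) : Fin (n + 1) := Fin.ofNat (n + 1) i

lemma lab_val {n i : ℕ} (h : i < n + 1) : (lab n i).val = i := by
  rw [lab, Fin.val_ofNat, Nat.mod_eq_of_lt h]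

lemma lab_inj {n : ℕ} : ∀ i < n + 1, ∀ j < n + 1, lab n i = lab n j → i = j := by
  intro i hi j hj h
  rw [← lab_val hi, ← lab_val hj, h]

lemma lab_image (n : ℕ) : (Finset.range (n + 1)).image (lab n) = Finset.univ := by
  ext x
  simp only [Finset.mem_image, Finset.mem_range, Finset.mem_univ, iff_true]
  exact ⟨x.val, x.isLt, Fin.ext (lab_val x.isLt)⟩

lemma fullV_sound {n m v : ℕ} {H : SimpleGraph (Fin (n + 1))} (h8 : n + 1 ≤ 8)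
    (hK : Know H (lab n) m) (h : fullV (n + 1) m v = true) :
    v < n + 1 ∧ ∀ w, w ≠ lab n v → H.Adj (lab n v) w := by
  rw [fullV, Bool.and_eq_true, List.all_eq_true, Nat.blt_eq] at h
  refine ⟨h.1, ?_⟩
  intro w hw
  have h1 := h.2 w.val (List.mem_range.2 w.isLt)
  rw [Bool.or_eq_true] at h1
  have hwl : lab n w.val = w := Fin.ext (lab_val w.isLt)
  rcases h1 with h1 | h1
  · exfalso
    apply hw
    rw [← hwl, Nat.eq_of_beq_eq_true h1]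
  · have := hK v (by omega) w.val (by omega) h1
    rwa [hwl] at this

/-- the exceptional graph `X` on the right number of vertices -/
def Exc (n : ℕ) (X : ℕ) (G : SimpleGraph (Fin (n + 1))) : Prop :=
  n + 1 = (if X = 0 then 4 else 5) ∧ ∃ σ : Fin (n + 1) ≃ Fin (n + 1),
    ∀ i j, G.Adj (σ i) (σ j) ↔ (i ≠ j ∧ xAdj X i.val j.val = true)

lemma okX_sound {n X c E N : ℕ} {G : SimpleGraph (Fin (n + 1))} (h8 : n + 1 ≤ 8)
    (hE : Know G (lab n) E) (hN : Know Gᶜ (lab n) N) (h : okX (n + 1) X c E N = true) :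
    X < 4 ∧ Exc n X G := by
  simp only [okX, Bool.and_eq_true, Nat.blt_eq, List.all_eq_true, List.mem_map, List.mem_range,
    Bool.or_eq_true] at h
  obtain ⟨hX, hn, hnd, hlt, hall⟩ := h
  refine ⟨hX, Nat.eq_of_beq_eq_true hn, ?_⟩
  have hlt' : ∀ i < n + 1, dg c i < n + 1 := by
    intro i hi
    exact hlt _ ⟨i, hi, rfl⟩
  have hnd' := nodupB_sound _ hnd
  have hinj : Function.Injective (fun i : Fin (n + 1) => lab n (dg c i.val)) := by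
    intro i j hij
    have h1 := lab_inj _ (hlt' _ i.isLt) _ (hlt' _ j.isLt) hij
    exact Fin.ext (List.inj_on_of_nodup_map hnd' (List.mem_range.2 i.isLt)
      (List.mem_range.2 j.isLt) h1)
  refine ⟨Equiv.ofBijective _ (Finite.injective_iff_bijective.1 hinj), ?_⟩
  intro i j
  change G.Adj (lab n (dg c i.val)) (lab n (dg c j.val)) ↔ _
  by_cases hij : i = j
  · subst hij
    simp
  · have h1 := hall i.val i.isLt j.val j.isLt
    rcases h1 with h1 | h1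
    · exact absurd (Fin.ext (Nat.eq_of_beq_eq_true h1)) hij
    · by_cases hx : xAdj X i.val j.val = true
      · rw [if_pos hx] at h1
        have := hE _ (dg_lt _ _) _ (dg_lt _ _) h1
        exact iff_of_true this ⟨hij, hx⟩
      · rw [if_neg hx] at h1
        have := hN _ (dg_lt _ _) _ (dg_lt _ _) h1
        rw [SimpleGraph.compl_adj] at this
        exact iff_of_false this.2 (fun h' => hx h'.2)

/-- soundness of the decision trees on few vertices -/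
theorem tree5_sound {n : ℕ} (h8 : n + 1 ≤ 8) (h2 : 2 ≤ n + 1) (t : DT L5)
    (ht : t.check (n + 1) (chk5 (n + 1)) 0 0 = true) (G : SimpleGraph (Fin (n + 1))) :
    NG G ∨ ∃ X < 4, Exc n X G := by
  have hK0 : ∀ H : SimpleGraph (Fin (n + 1)), Know H (lab n) 0 := by
    intro H a _ b _ h
    simp at h
  obtain ⟨c, E, N, hc, hE, hN⟩ := t.sound h8 lab_inj 0 0 ht (hK0 G) (hK0 Gᶜ)
  have hex : ∀ v : Fin (n + 1), ∃ w, w ≠ v := by
    intro v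
    have : Nontrivial (Fin (n + 1)) := Fin.nontrivial_iff_two_le.2 h2
    exact exists_ne v
  rcases c with ⟨L1, L2⟩ | ⟨v, L⟩ | ⟨v, L⟩ | ⟨X, c⟩
  · left
    rw [chk5, Bool.and_eq_true, Bool.and_eq_true, Nat.ble_eq] at hc
    have h1 := okS_sound hE lab_inj hc.1
    have h2 := okS_sound hN lab_inj hc.2.1
    rw [lab_image] at h1 h2
    have h3 := tot_of_sv h1 h2 (by rw [Finset.card_univ, Fintype.card_fin]; exact hc.2.2)
    rw [Finset.card_univ] at h3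
    exact NG.of_tot h3
  · left
    rw [chk5, Bool.and_eq_true, Bool.and_eq_true, Nat.ble_eq] at hc
    obtain ⟨_, hv⟩ := fullV_sound h8 hN hc.1
    have h2 := okS_sound hN lab_inj hc.2.1
    rw [lab_image] at h2
    obtain ⟨k, hk, hq⟩ := h2
    rw [Finset.card_univ, Fintype.card_fin] at hk
    refine NG.of_isolated (v := lab n v) ?_ (hex _) (SSPq.le hq.univ (by omega))
    intro w hw
    have h3 := hv w hw.ne.symm
    rw [SimpleGraph.compl_adj] at h3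
    exact h3.2 hw
  · left
    rw [chk5, Bool.and_eq_true, Bool.and_eq_true, Nat.ble_eq] at hc
    obtain ⟨_, hv⟩ := fullV_sound h8 hE hc.1
    have h2 := okS_sound hE lab_inj hc.2.1
    rw [lab_image] at h2
    obtain ⟨k, hk, hq⟩ := h2
    rw [Finset.card_univ, Fintype.card_fin] at hk
    apply NG.of_compl
    refine NG.of_isolated (v := lab n v) ?_ (hex _) ?_
    · intro w hw
      rw [SimpleGraph.compl_adj] at hw
      exact hw.2 (hv w (Ne.symm hw.1))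
    · rw [compl_compl]
      exact SSPq.le hq.univ (by omega)
  · right
    obtain ⟨hX, hx⟩ := okX_sound h8 hE hN hc
    exact ⟨X, hX, hx⟩

/-- decision tree for graphs on 3 vertices -/
def tree3 : DT L5 :=
(.node 0 1 (.node 0 2 (.leaf (.j 0 []))
(.node 1 2 (.leaf (.j 1 []))
(.leaf (.i 2 []))))
(.node 0 2 (.node 1 2 (.leaf (.j 2 []))
(.leaf (.i 1 [])))
(.leaf (.i 0 []))))

/-- decision tree for graphs on 4 vertices -/
def tree4 : DT L5 :=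
(.node 0 1 (.node 0 2 (.node 0 3 (.leaf (.j 0 [(1, 1672)]))
(.node 1 3 (.node 1 2 (.leaf (.j 1 [(0, 136)]))
(.node 2 3 (.leaf (.s [(2, 1224)] []))
(.leaf (.x 0 1602))))
(.node 2 3 (.node 1 2 (.leaf (.j 2 [(0, 136)]))
(.leaf (.x 0 1665)))
(.leaf (.i 3 [(1, 1091)])))))
(.node 1 2 (.node 1 3 (.leaf (.j 1 [(1, 1665)]))
(.node 0 3 (.node 2 3 (.leaf (.s [(2, 1672)] []))
(.leaf (.x 0 1546)))
(.node 2 3 (.leaf (.x 0 1672))
(.leaf (.i 3 [(0, 208)])))))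
(.node 2 3 (.node 0 3 (.node 1 3 (.leaf (.j 3 [(0, 200)]))
(.leaf (.x 0 1217)))
(.node 1 3 (.leaf (.x 0 1224))
(.leaf (.s [] [(2, 1616)]))))
(.leaf (.i 2 [(1, 1602)])))))
(.node 0 2 (.node 1 2 (.node 2 3 (.leaf (.j 2 [(1, 1602)]))
(.node 0 3 (.node 1 3 (.leaf (.s [(2, 1616)] []))
(.leaf (.x 0 1553)))
(.node 1 3 (.leaf (.x 0 1616))
(.leaf (.i 3 [(0, 200)])))))
(.node 1 3 (.node 0 3 (.node 2 3 (.leaf (.j 3 [(0, 208)]))
(.leaf (.x 0 1049)))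
(.node 2 3 (.leaf (.x 0 720))
(.leaf (.s [] [(2, 1672)]))))
(.leaf (.i 1 [(1, 1665)]))))
(.node 0 3 (.node 1 3 (.node 2 3 (.leaf (.j 3 [(1, 1091)]))
(.node 1 2 (.leaf (.x 0 1112))
(.leaf (.i 2 [(0, 136)]))))
(.node 1 2 (.node 2 3 (.leaf (.x 0 664))
(.leaf (.s [] [(2, 1224)])))
(.leaf (.i 1 [(0, 136)]))))
(.leaf (.i 0 [(1, 1672)])))))

/-- decision tree for graphs on 5 vertices -/
def tree5 : DT L5 :=
(.node 0 1 (.node 0 2 (.node 0 3 (.node 1 2 (.node 1 3 (.node 0 4 (.leaf (.j 0 [(2, 1616)]))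
(.node 1 4 (.leaf (.j 1 [(2, 1616)]))
(.node 2 4 (.node 3 4 (.leaf (.s [(4, 13408)] []))
(.leaf (.s [(2, 1616)] [(1, 1604)])))
(.leaf (.s [(2, 1616)] [(1, 1092)])))))
(.node 2 3 (.node 0 4 (.leaf (.j 0 [(2, 1672)]))
(.node 2 4 (.leaf (.j 2 [(2, 1672)]))
(.node 1 4 (.node 3 4 (.leaf (.s [(4, 12960)] []))
(.leaf (.s [(2, 1672)] [(1, 1668)])))
(.leaf (.s [(2, 1672)] [(1, 1092)])))))
(.node 1 4 (.node 0 4 (.leaf (.j 0 [(2, 2128)]))
(.node 2 4 (.node 3 4 (.leaf (.s [(4, 16537)] []))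
(.leaf (.s [(2, 1288)] [(1, 2187)])))
(.node 3 4 (.leaf (.x 2 5792))
(.leaf (.x 3 18056)))))
(.node 2 4 (.node 0 4 (.leaf (.j 0 [(2, 2184)]))
(.node 3 4 (.leaf (.x 2 9824))
(.leaf (.x 3 18000))))
(.leaf (.s [(0, 136)] [(2, 2201)]))))))
(.node 1 3 (.node 2 3 (.node 0 4 (.leaf (.j 0 [(2, 1224)]))
(.node 3 4 (.leaf (.j 3 [(2, 1224)]))
(.node 1 4 (.node 2 4 (.leaf (.s [(4, 8928)] []))
(.leaf (.s [(2, 1224)] [(1, 1668)])))
(.leaf (.s [(2, 1224)] [(1, 1604)])))))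
(.node 1 4 (.node 0 4 (.leaf (.j 0 [(2, 2136)]))
(.node 2 4 (.node 3 4 (.leaf (.s [(4, 16593)] []))
(.leaf (.x 2 5344)))
(.node 3 4 (.leaf (.s [(2, 1800)] [(1, 2250)]))
(.leaf (.x 3 17608)))))
(.node 3 4 (.node 0 4 (.leaf (.j 0 [(2, 2248)]))
(.node 2 4 (.leaf (.x 2 13408))
(.leaf (.x 3 17496))))
(.leaf (.s [(0, 200)] [(2, 2257)])))))
(.node 2 4 (.node 1 4 (.node 0 4 (.leaf (.j 0 [(2, 1288)]))
(.node 2 3 (.node 3 4 (.leaf (.s [(4, 16586)] []))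
(.leaf (.x 2 8928)))
(.leaf (.s [(2, 1288)] [(0, 209)]))))
(.node 3 4 (.leaf (.s [(2, 1808)] [(1, 2257)]))
(.node 2 3 (.node 0 4 (.leaf (.s [(2, 2200)] [(0, 281)]))
(.leaf (.x 3 17104)))
(.leaf (.s [(1, 1672)] [(2, 2257)])))))
(.node 3 4 (.node 2 3 (.node 0 4 (.leaf (.j 0 [(2, 2256)]))
(.node 1 4 (.leaf (.x 2 12960))
(.leaf (.x 3 17048))))
(.node 1 4 (.leaf (.s [(2, 1800)] [(0, 209)]))
(.leaf (.s [(1, 1672)] [(2, 2201)]))))
(.leaf (.s [(1, 1672)] [(2, 1809)]))))))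
(.node 0 4 (.node 1 2 (.node 1 4 (.node 1 3 (.leaf (.j 1 [(2, 2128)]))
(.node 2 3 (.node 3 4 (.leaf (.s [(4, 17496)] []))
(.leaf (.s [(2, 2128)] [(1, 2115)])))
(.leaf (.s [(2, 2128)] [(1, 1091)]))))
(.node 2 3 (.node 2 4 (.leaf (.j 2 [(2, 2184)]))
(.node 1 3 (.node 3 4 (.leaf (.s [(4, 12449)] []))
(.leaf (.s [(2, 1224)] [(1, 1676)])))
(.node 3 4 (.leaf (.x 2 10328))
(.leaf (.x 3 14416)))))
(.node 1 3 (.node 2 4 (.node 3 4 (.leaf (.s [(4, 17048)] []))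
(.leaf (.s [(2, 2184)] [(1, 2179)])))
(.node 3 4 (.leaf (.x 2 6296))
(.leaf (.x 3 14472))))
(.node 2 4 (.leaf (.s [(2, 2184)] [(1, 1091)]))
(.leaf (.s [(0, 136)] [(2, 2201)]))))))
(.node 1 3 (.node 2 3 (.node 1 4 (.node 2 4 (.leaf (.s [(4, 8984)] []))
(.node 3 4 (.leaf (.s [(4, 12561)] []))
(.leaf (.x 2 5400))))
(.node 2 4 (.node 3 4 (.leaf (.s [(4, 12554)] []))
(.leaf (.x 2 8984)))
(.leaf (.s [(2, 1224)] [(0, 273)]))))
(.node 3 4 (.node 2 4 (.node 1 4 (.leaf (.j 4 [(2, 2248)]))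
(.leaf (.x 2 17048)))
(.leaf (.s [(2, 2248)] [(1, 2250)])))
(.node 1 4 (.node 2 4 (.leaf (.s [(2, 1288)] [(1, 2179)]))
(.leaf (.x 3 13576)))
(.leaf (.s [(1, 2184)] [(2, 2257)])))))
(.node 3 4 (.node 1 4 (.node 2 4 (.leaf (.j 4 [(2, 1288)]))
(.node 2 3 (.leaf (.x 2 17496))
(.leaf (.x 3 13408))))
(.node 2 3 (.leaf (.s [(2, 2256)] [(1, 2257)]))
(.node 2 4 (.leaf (.x 3 12960))
(.leaf (.s [(1, 2184)] [(2, 2201)])))))
(.node 2 4 (.node 1 4 (.leaf (.s [(2, 1288)] [(1, 2115)]))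
(.node 2 3 (.leaf (.x 3 13072))
(.leaf (.s [(0, 272)] [(2, 2257)]))))
(.leaf (.s [(1, 2184)] [(2, 1809)]))))))
(.node 1 3 (.node 2 3 (.node 3 4 (.node 1 4 (.node 1 2 (.leaf (.j 1 [(2, 1224)]))
(.node 2 4 (.leaf (.s [(4, 8963)] []))
(.leaf (.x 2 12561))))
(.node 2 4 (.node 1 2 (.leaf (.j 2 [(2, 1224)]))
(.leaf (.x 2 12554)))
(.leaf (.s [(2, 1224)] [(1, 1092)]))))
(.leaf (.s [(2, 1224)] [(0, 280)])))
(.node 1 2 (.node 2 4 (.node 1 4 (.leaf (.j 1 [(2, 1288)]))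
(.node 3 4 (.leaf (.x 2 9761))
(.leaf (.x 3 17937))))
(.leaf (.s [(0, 136)] [(2, 2200)])))
(.node 1 4 (.node 2 4 (.node 3 4 (.leaf (.x 2 16593))
(.leaf (.s [(2, 1288)] [(0, 280)])))
(.leaf (.s [(1, 2241)] [(2, 2200)])))
(.node 2 4 (.node 3 4 (.leaf (.s [(3, 10440)] [(3, 17048)]))
(.leaf (.x 1 17419)))
(.node 3 4 (.leaf (.x 1 17986))
(.leaf (.i 4 [(2, 2200)])))))))
(.node 1 4 (.node 2 3 (.node 1 2 (.node 2 4 (.leaf (.j 2 [(2, 1288)]))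
(.node 3 4 (.leaf (.x 2 10265))
(.leaf (.x 3 14353))))
(.node 2 4 (.node 3 4 (.leaf (.x 2 16586))
(.leaf (.s [(2, 1288)] [(0, 280)])))
(.node 3 4 (.leaf (.s [(3, 9992)] [(3, 17496)]))
(.leaf (.x 1 16915)))))
(.node 2 4 (.leaf (.s [(2, 1288)] [(1, 1091)]))
(.node 1 2 (.leaf (.s [(0, 136)] [(2, 2200)]))
(.node 3 4 (.leaf (.x 1 14402))
(.leaf (.i 3 [(2, 2200)]))))))
(.node 1 2 (.leaf (.s [(0, 136)] [(2, 2136)]))
(.node 2 3 (.node 2 4 (.leaf (.s [(1, 2242)] [(2, 2136)]))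
(.node 3 4 (.leaf (.x 1 18049))
(.leaf (.i 4 [(2, 2136)]))))
(.node 2 4 (.node 3 4 (.leaf (.x 1 14465))
(.leaf (.i 3 [(2, 2136)])))
(.leaf (.s [] [(4, 18049)])))))))))
(.node 0 3 (.node 0 4 (.node 1 3 (.node 1 4 (.node 1 2 (.leaf (.j 1 [(2, 2136)]))
(.node 2 3 (.node 2 4 (.leaf (.s [(4, 18000)] []))
(.leaf (.s [(2, 2136)] [(1, 2114)])))
(.leaf (.s [(2, 2136)] [(1, 1602)]))))
(.node 2 3 (.node 3 4 (.leaf (.j 3 [(2, 2248)]))
(.node 1 2 (.node 2 4 (.leaf (.s [(4, 8417)] []))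
(.leaf (.s [(2, 1672)] [(1, 1676)])))
(.node 2 4 (.leaf (.x 2 14416))
(.leaf (.x 3 10328)))))
(.node 1 2 (.node 2 4 (.node 3 4 (.leaf (.s [(4, 17104)] []))
(.leaf (.x 2 6352)))
(.node 3 4 (.leaf (.s [(2, 2248)] [(1, 2242)]))
(.leaf (.x 3 10440))))
(.node 3 4 (.leaf (.s [(2, 2248)] [(1, 1602)]))
(.leaf (.s [(0, 200)] [(2, 2257)]))))))
(.node 1 2 (.node 2 3 (.node 1 4 (.node 2 4 (.leaf (.s [(4, 8473)] []))
(.node 3 4 (.leaf (.s [(4, 13072)] []))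
(.leaf (.x 2 5904))))
(.node 3 4 (.node 2 4 (.leaf (.s [(4, 8459)] []))
(.leaf (.x 2 13072)))
(.leaf (.s [(2, 1672)] [(0, 281)]))))
(.node 2 4 (.node 3 4 (.node 1 4 (.leaf (.j 4 [(2, 2184)]))
(.leaf (.x 2 17104)))
(.leaf (.s [(2, 2184)] [(1, 2187)])))
(.node 1 4 (.node 3 4 (.leaf (.s [(2, 1800)] [(1, 2242)]))
(.leaf (.x 3 9992)))
(.leaf (.s [(1, 2248)] [(2, 2201)])))))
(.node 2 4 (.node 1 4 (.node 3 4 (.leaf (.j 4 [(2, 1800)]))
(.node 2 3 (.leaf (.x 2 18000))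
(.leaf (.x 3 9824))))
(.node 2 3 (.leaf (.s [(2, 2200)] [(1, 2257)]))
(.node 3 4 (.leaf (.x 3 8928))
(.leaf (.s [(1, 2248)] [(2, 2257)])))))
(.node 3 4 (.node 1 4 (.leaf (.s [(2, 1800)] [(1, 2114)]))
(.node 2 3 (.leaf (.x 3 8984))
(.leaf (.s [(0, 280)] [(2, 2201)]))))
(.leaf (.s [(1, 2248)] [(2, 1809)]))))))
(.node 1 2 (.node 2 3 (.node 2 4 (.node 1 4 (.node 1 3 (.leaf (.j 1 [(2, 1672)]))
(.node 3 4 (.leaf (.s [(4, 13058)] []))
(.leaf (.x 2 8473))))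
(.node 3 4 (.node 1 3 (.leaf (.j 3 [(2, 1672)]))
(.leaf (.x 2 13058)))
(.leaf (.s [(2, 1672)] [(1, 1604)]))))
(.leaf (.s [(2, 1672)] [(0, 272)])))
(.node 1 3 (.node 3 4 (.node 1 4 (.leaf (.j 1 [(2, 1800)]))
(.node 2 4 (.leaf (.x 2 13345))
(.leaf (.x 3 17433))))
(.leaf (.s [(0, 200)] [(2, 2256)])))
(.node 1 4 (.node 3 4 (.node 2 4 (.leaf (.x 2 16537))
(.leaf (.s [(2, 1800)] [(0, 272)])))
(.leaf (.s [(1, 2177)] [(2, 2256)])))
(.node 2 4 (.node 3 4 (.leaf (.s [(3, 14472)] [(3, 17104)]))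
(.leaf (.x 1 17475)))
(.node 3 4 (.leaf (.x 1 17930))
(.leaf (.i 4 [(2, 2256)])))))))
(.node 1 4 (.node 2 3 (.node 1 3 (.node 3 4 (.leaf (.j 3 [(2, 1800)]))
(.node 2 4 (.leaf (.x 2 14353))
(.leaf (.x 3 10265))))
(.node 2 4 (.node 3 4 (.leaf (.x 2 16523))
(.leaf (.s [(3, 13576)] [(3, 18000)])))
(.node 3 4 (.leaf (.s [(2, 1800)] [(0, 272)]))
(.leaf (.x 1 16922)))))
(.node 3 4 (.leaf (.s [(2, 1800)] [(1, 1602)]))
(.node 1 3 (.leaf (.s [(0, 200)] [(2, 2256)]))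
(.node 2 4 (.leaf (.x 1 12386))
(.leaf (.i 2 [(2, 2256)]))))))
(.node 1 3 (.leaf (.s [(0, 200)] [(2, 2128)]))
(.node 2 3 (.node 3 4 (.leaf (.s [(1, 2179)] [(2, 2128)]))
(.node 2 4 (.leaf (.x 1 17601))
(.leaf (.i 4 [(2, 2128)]))))
(.node 2 4 (.node 3 4 (.leaf (.x 1 10433))
(.leaf (.s [] [(4, 17601)])))
(.leaf (.i 2 [(2, 2128)]))))))))
(.node 0 4 (.node 1 2 (.node 2 4 (.node 2 3 (.node 1 3 (.node 1 4 (.leaf (.j 1 [(2, 2184)]))
(.node 3 4 (.leaf (.s [(4, 17090)] []))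
(.leaf (.x 2 8417))))
(.node 3 4 (.node 1 4 (.leaf (.j 4 [(2, 2184)]))
(.leaf (.x 2 17090)))
(.leaf (.s [(2, 2184)] [(1, 2115)]))))
(.leaf (.s [(2, 2184)] [(0, 208)])))
(.node 1 3 (.node 3 4 (.node 1 4 (.leaf (.j 1 [(2, 2248)]))
(.node 2 3 (.leaf (.x 2 12449))
(.leaf (.s [(2, 2248)] [(0, 208)]))))
(.leaf (.s [(1, 1665)] [(2, 1808)])))
(.node 1 4 (.node 3 4 (.node 2 3 (.leaf (.x 2 17433))
(.leaf (.x 3 13345)))
(.leaf (.s [(0, 264)] [(2, 1808)])))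
(.node 2 3 (.node 3 4 (.leaf (.s [(3, 18056)] [(3, 13072)]))
(.leaf (.x 1 16467)))
(.node 3 4 (.leaf (.x 1 14346))
(.leaf (.i 3 [(2, 1808)])))))))
(.node 1 3 (.node 2 3 (.node 2 4 (.node 1 4 (.node 3 4 (.leaf (.j 4 [(2, 2248)]))
(.leaf (.x 2 17937)))
(.node 3 4 (.leaf (.x 2 17027))
(.leaf (.s [(3, 17608)] [(3, 14416)]))))
(.node 3 4 (.leaf (.s [(2, 2248)] [(1, 2114)]))
(.node 1 4 (.leaf (.s [(0, 264)] [(2, 1808)]))
(.leaf (.x 1 16474)))))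
(.node 3 4 (.leaf (.s [(2, 2248)] [(0, 208)]))
(.node 2 4 (.node 1 4 (.leaf (.x 3 9761))
(.leaf (.x 1 12834)))
(.leaf (.i 2 [(2, 1808)])))))
(.node 1 4 (.leaf (.s [(0, 264)] [(2, 1616)]))
(.node 2 4 (.node 3 4 (.leaf (.s [(1, 1668)] [(2, 1616)]))
(.node 2 3 (.leaf (.x 1 13569))
(.leaf (.i 3 [(2, 1616)]))))
(.node 2 3 (.node 3 4 (.leaf (.x 1 9985))
(.leaf (.s [] [(4, 13569)])))
(.leaf (.i 2 [(2, 1616)])))))))
(.node 2 3 (.node 1 2 (.node 1 4 (.node 3 4 (.leaf (.s [(2, 2257)] [(1, 2256)]))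
(.node 2 4 (.node 1 3 (.leaf (.s [(2, 2201)] [(0, 280)]))
(.leaf (.x 3 12561)))
(.leaf (.s [(1, 2177)] [(2, 1808)]))))
(.node 2 4 (.node 1 3 (.node 3 4 (.leaf (.s [(2, 1809)] [(1, 2256)]))
(.leaf (.x 3 16593)))
(.leaf (.s [(1, 2250)] [(2, 2136)])))
(.node 3 4 (.node 1 3 (.leaf (.x 3 16537))
(.leaf (.x 1 18056)))
(.leaf (.i 4 [(2, 1808)])))))
(.node 1 3 (.node 1 4 (.node 2 4 (.leaf (.s [(2, 2201)] [(1, 2256)]))
(.node 3 4 (.leaf (.x 3 8473))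
(.leaf (.s [(1, 2241)] [(2, 1808)]))))
(.node 3 4 (.leaf (.s [(1, 2187)] [(2, 2128)]))
(.node 2 4 (.leaf (.x 1 17608))
(.leaf (.i 4 [(2, 2128)])))))
(.node 2 4 (.node 3 4 (.leaf (.s [(0, 282)] [(2, 1616)]))
(.node 1 4 (.leaf (.x 1 13576))
(.leaf (.s [] [(4, 4371)]))))
(.node 1 4 (.node 3 4 (.leaf (.x 1 9992))
(.leaf (.s [] [(4, 13576)])))
(.leaf (.s [] [(4, 4378)]))))))
(.node 2 4 (.node 1 3 (.node 1 2 (.node 3 4 (.leaf (.s [(2, 1809)] [(0, 208)]))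
(.leaf (.s [(1, 1665)] [(2, 2256)])))
(.node 1 4 (.node 3 4 (.leaf (.x 3 8417))
(.leaf (.s [(1, 2241)] [(2, 2256)])))
(.node 3 4 (.leaf (.x 1 10440))
(.leaf (.s [] [(4, 17608)])))))
(.node 3 4 (.node 1 2 (.node 1 4 (.leaf (.x 3 12449))
(.leaf (.x 1 14472)))
(.node 1 4 (.leaf (.s [(1, 1676)] [(2, 1616)]))
(.leaf (.s [] [(4, 4322)]))))
(.leaf (.i 3 [(2, 2256)]))))
(.node 1 2 (.node 1 3 (.leaf (.s [(1, 1665)] [(2, 2200)]))
(.node 1 4 (.leaf (.s [(1, 2177)] [(2, 2200)]))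
(.leaf (.s [] [(4, 18056)]))))
(.leaf (.i 2 [(2, 2200)]))))))))
(.node 0 2 (.node 0 3 (.node 0 4 (.node 2 3 (.node 2 4 (.node 1 2 (.leaf (.j 2 [(2, 2200)]))
(.node 1 3 (.node 1 4 (.leaf (.s [(4, 18056)] []))
(.leaf (.s [(2, 2200)] [(1, 2177)])))
(.leaf (.s [(2, 2200)] [(1, 1665)]))))
(.node 1 3 (.node 3 4 (.leaf (.j 3 [(2, 2256)]))
(.node 1 2 (.node 1 4 (.leaf (.s [(4, 4322)] []))
(.leaf (.s [(2, 1616)] [(1, 1676)])))
(.node 1 4 (.leaf (.x 2 14472))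
(.leaf (.x 3 6296)))))
(.node 1 2 (.node 1 4 (.node 3 4 (.leaf (.s [(4, 17608)] []))
(.leaf (.x 2 10440)))
(.node 3 4 (.leaf (.s [(2, 2256)] [(1, 2241)]))
(.leaf (.x 3 6352))))
(.node 3 4 (.leaf (.s [(2, 2256)] [(1, 1665)]))
(.leaf (.s [(0, 208)] [(2, 1809)]))))))
(.node 1 2 (.node 1 3 (.node 2 4 (.node 1 4 (.leaf (.s [(4, 4378)] []))
(.node 3 4 (.leaf (.s [(4, 13576)] []))
(.leaf (.x 2 9992))))
(.node 3 4 (.node 1 4 (.leaf (.s [(4, 4371)] []))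
(.leaf (.x 2 13576)))
(.leaf (.s [(2, 1616)] [(0, 282)]))))
(.node 1 4 (.node 3 4 (.node 2 4 (.leaf (.j 4 [(2, 2128)]))
(.leaf (.x 2 17608)))
(.leaf (.s [(2, 2128)] [(1, 2187)])))
(.node 2 4 (.node 3 4 (.leaf (.s [(2, 1808)] [(1, 2241)]))
(.leaf (.x 3 5904)))
(.leaf (.s [(1, 2256)] [(2, 2201)])))))
(.node 1 4 (.node 2 4 (.node 3 4 (.leaf (.j 4 [(2, 1808)]))
(.node 1 3 (.leaf (.x 2 18056))
(.leaf (.x 3 5792))))
(.node 1 3 (.leaf (.s [(2, 2136)] [(1, 2250)]))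
(.node 3 4 (.leaf (.x 3 5344))
(.leaf (.s [(1, 2256)] [(2, 1809)])))))
(.node 3 4 (.node 2 4 (.leaf (.s [(2, 1808)] [(1, 2177)]))
(.node 1 3 (.leaf (.x 3 5400))
(.leaf (.s [(0, 280)] [(2, 2201)]))))
(.leaf (.s [(1, 2256)] [(2, 2257)]))))))
(.node 1 2 (.node 1 3 (.node 1 4 (.node 2 4 (.node 2 3 (.leaf (.j 2 [(2, 1616)]))
(.node 3 4 (.leaf (.s [(4, 13569)] []))
(.leaf (.x 2 9985))))
(.node 3 4 (.node 2 3 (.leaf (.j 3 [(2, 1616)]))
(.leaf (.x 2 13569)))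
(.leaf (.s [(2, 1616)] [(1, 1668)]))))
(.leaf (.s [(2, 1616)] [(0, 264)])))
(.node 2 3 (.node 3 4 (.node 2 4 (.leaf (.j 2 [(2, 1808)]))
(.node 1 4 (.leaf (.x 2 12834))
(.leaf (.x 3 16922))))
(.leaf (.s [(0, 208)] [(2, 2248)])))
(.node 2 4 (.node 3 4 (.node 1 4 (.leaf (.x 2 16474))
(.leaf (.s [(2, 1808)] [(0, 264)])))
(.leaf (.s [(1, 2114)] [(2, 2248)])))
(.node 1 4 (.node 3 4 (.leaf (.s [(3, 14416)] [(3, 17608)]))
(.leaf (.x 1 17027)))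
(.node 3 4 (.leaf (.x 1 17937))
(.leaf (.i 4 [(2, 2248)])))))))
(.node 2 4 (.node 1 3 (.node 1 4 (.node 2 3 (.node 3 4 (.leaf (.j 3 [(2, 1808)]))
(.leaf (.x 2 14346)))
(.node 3 4 (.leaf (.x 2 16467))
(.leaf (.s [(3, 13072)] [(3, 18056)]))))
(.node 3 4 (.leaf (.s [(2, 1808)] [(0, 264)]))
(.node 2 3 (.leaf (.x 3 6170))
(.leaf (.x 1 17433)))))
(.node 3 4 (.leaf (.s [(2, 1808)] [(1, 1665)]))
(.node 1 4 (.node 2 3 (.leaf (.s [(0, 208)] [(2, 2248)]))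
(.leaf (.x 1 12449)))
(.leaf (.i 1 [(2, 2248)])))))
(.node 2 3 (.leaf (.s [(0, 208)] [(2, 2184)]))
(.node 1 3 (.node 3 4 (.leaf (.s [(1, 2115)] [(2, 2184)]))
(.node 1 4 (.leaf (.x 1 17090))
(.leaf (.i 4 [(2, 2184)]))))
(.node 1 4 (.node 3 4 (.leaf (.x 1 8417))
(.leaf (.s [] [(4, 17090)])))
(.leaf (.i 1 [(2, 2184)]))))))))
(.node 0 4 (.node 1 2 (.node 1 4 (.node 1 3 (.node 2 3 (.node 2 4 (.leaf (.j 2 [(2, 2128)]))
(.node 3 4 (.leaf (.s [(4, 17601)] []))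
(.leaf (.x 2 10433))))
(.node 3 4 (.node 2 4 (.leaf (.j 4 [(2, 2128)]))
(.leaf (.x 2 17601)))
(.leaf (.s [(2, 2128)] [(1, 2179)]))))
(.leaf (.s [(2, 2128)] [(0, 200)])))
(.node 2 3 (.node 3 4 (.node 1 3 (.node 2 4 (.leaf (.j 2 [(2, 2256)]))
(.leaf (.x 2 12386)))
(.leaf (.s [(2, 2256)] [(0, 200)])))
(.leaf (.s [(1, 1602)] [(2, 1800)])))
(.node 1 3 (.node 2 4 (.node 3 4 (.leaf (.x 2 16922))
(.leaf (.s [(0, 272)] [(2, 1800)])))
(.node 3 4 (.leaf (.s [(3, 18000)] [(3, 13576)]))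
(.leaf (.x 1 16523))))
(.node 3 4 (.node 2 4 (.leaf (.x 3 12834))
(.leaf (.x 1 14353)))
(.leaf (.i 3 [(2, 1800)]))))))
(.node 2 3 (.node 1 3 (.node 1 4 (.node 2 4 (.node 3 4 (.leaf (.j 4 [(2, 2256)]))
(.leaf (.x 2 17930)))
(.node 3 4 (.leaf (.x 2 17475))
(.leaf (.s [(3, 17104)] [(3, 14472)]))))
(.node 3 4 (.leaf (.s [(2, 2256)] [(1, 2177)]))
(.node 2 4 (.leaf (.s [(0, 272)] [(2, 1800)]))
(.leaf (.x 1 16537)))))
(.node 3 4 (.leaf (.s [(2, 2256)] [(0, 200)]))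
(.node 1 4 (.node 2 4 (.leaf (.x 3 5666))
(.leaf (.x 1 13345)))
(.leaf (.i 1 [(2, 1800)])))))
(.node 2 4 (.leaf (.s [(0, 272)] [(2, 1672)]))
(.node 1 4 (.node 3 4 (.leaf (.s [(1, 1604)] [(2, 1672)]))
(.node 1 3 (.leaf (.x 1 13058))
(.leaf (.i 3 [(2, 1672)]))))
(.node 1 3 (.node 3 4 (.leaf (.x 1 8473))
(.leaf (.s [] [(4, 13058)])))
(.leaf (.i 1 [(2, 1672)])))))))
(.node 1 3 (.node 1 2 (.node 2 4 (.node 3 4 (.leaf (.s [(2, 1809)] [(1, 2248)]))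
(.node 1 4 (.node 2 3 (.leaf (.s [(2, 2201)] [(0, 280)]))
(.leaf (.x 3 1809)))
(.leaf (.s [(1, 2114)] [(2, 1800)]))))
(.node 1 4 (.node 2 3 (.node 3 4 (.leaf (.s [(2, 2257)] [(1, 2248)]))
(.leaf (.x 3 2257)))
(.leaf (.s [(1, 2257)] [(2, 2200)])))
(.node 3 4 (.node 2 3 (.leaf (.x 3 16474))
(.leaf (.x 1 18000)))
(.leaf (.i 4 [(2, 1800)])))))
(.node 2 3 (.node 2 4 (.node 1 4 (.leaf (.s [(2, 2201)] [(1, 2248)]))
(.node 3 4 (.leaf (.x 3 4378))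
(.leaf (.s [(1, 2242)] [(2, 1800)]))))
(.node 3 4 (.leaf (.s [(1, 2187)] [(2, 2184)]))
(.node 1 4 (.leaf (.x 1 17104))
(.leaf (.i 4 [(2, 2184)])))))
(.node 1 4 (.node 3 4 (.leaf (.s [(0, 281)] [(2, 1672)]))
(.node 2 4 (.leaf (.x 1 13072))
(.leaf (.s [] [(4, 8459)]))))
(.node 2 4 (.node 3 4 (.leaf (.x 1 5904))
(.leaf (.s [] [(4, 13072)])))
(.leaf (.s [] [(4, 8473)]))))))
(.node 1 4 (.node 2 3 (.node 1 2 (.node 3 4 (.leaf (.s [(2, 2257)] [(0, 200)]))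
(.leaf (.s [(1, 1602)] [(2, 2248)])))
(.node 2 4 (.node 3 4 (.leaf (.x 3 4322))
(.leaf (.s [(1, 2242)] [(2, 2248)])))
(.node 3 4 (.leaf (.x 1 6352))
(.leaf (.s [] [(4, 17104)])))))
(.node 3 4 (.node 1 2 (.node 2 4 (.leaf (.x 3 12386))
(.leaf (.x 1 14416)))
(.node 2 4 (.leaf (.s [(1, 1676)] [(2, 1672)]))
(.leaf (.s [] [(4, 8417)]))))
(.leaf (.i 3 [(2, 2248)]))))
(.node 1 2 (.node 2 3 (.leaf (.s [(1, 1602)] [(2, 2136)]))
(.node 2 4 (.leaf (.s [(1, 2114)] [(2, 2136)]))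
(.leaf (.s [] [(4, 18000)]))))
(.leaf (.i 1 [(2, 2136)])))))))
(.node 0 3 (.node 0 4 (.node 1 3 (.node 1 4 (.node 1 2 (.node 2 3 (.node 2 4 (.leaf (.s [(4, 18049)] []))
(.node 3 4 (.leaf (.j 3 [(2, 2136)]))
(.leaf (.x 2 14465))))
(.node 2 4 (.node 3 4 (.leaf (.j 4 [(2, 2136)]))
(.leaf (.x 2 18049)))
(.leaf (.s [(2, 2136)] [(1, 2242)]))))
(.leaf (.s [(2, 2136)] [(0, 136)])))
(.node 2 3 (.node 2 4 (.node 1 2 (.node 3 4 (.leaf (.j 3 [(2, 2200)]))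
(.leaf (.x 2 14402)))
(.leaf (.s [(2, 2200)] [(0, 136)])))
(.leaf (.s [(1, 1091)] [(2, 1288)])))
(.node 1 2 (.node 2 4 (.node 3 4 (.leaf (.x 2 16915))
(.leaf (.s [(3, 17496)] [(3, 9992)])))
(.node 3 4 (.leaf (.s [(0, 280)] [(2, 1288)]))
(.leaf (.x 1 16586))))
(.node 2 4 (.node 3 4 (.leaf (.x 3 8739))
(.leaf (.x 1 10265)))
(.leaf (.i 2 [(2, 1288)]))))))
(.node 2 3 (.node 1 2 (.node 1 4 (.node 2 4 (.node 3 4 (.leaf (.j 4 [(2, 2200)]))
(.leaf (.x 2 17986)))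
(.node 3 4 (.leaf (.x 2 17419))
(.leaf (.s [(3, 17048)] [(3, 10440)]))))
(.node 2 4 (.leaf (.s [(2, 2200)] [(1, 2241)]))
(.node 3 4 (.leaf (.s [(0, 280)] [(2, 1288)]))
(.leaf (.x 1 16593)))))
(.node 2 4 (.leaf (.s [(2, 2200)] [(0, 136)]))
(.node 1 4 (.node 3 4 (.leaf (.x 3 5155))
(.leaf (.x 1 9761)))
(.leaf (.i 1 [(2, 1288)])))))
(.node 3 4 (.leaf (.s [(0, 280)] [(2, 1224)]))
(.node 1 4 (.node 2 4 (.leaf (.s [(1, 1092)] [(2, 1224)]))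
(.node 1 2 (.leaf (.x 1 12554))
(.leaf (.i 2 [(2, 1224)]))))
(.node 1 2 (.node 2 4 (.leaf (.x 1 12561))
(.leaf (.s [] [(4, 8963)])))
(.leaf (.i 1 [(2, 1224)])))))))
(.node 1 2 (.node 1 3 (.node 3 4 (.node 2 4 (.leaf (.s [(2, 1809)] [(1, 2184)]))
(.node 1 4 (.node 2 3 (.leaf (.s [(2, 2257)] [(0, 272)]))
(.leaf (.x 3 1305)))
(.leaf (.s [(1, 2115)] [(2, 1288)]))))
(.node 1 4 (.node 2 3 (.node 2 4 (.leaf (.s [(2, 2201)] [(1, 2184)]))
(.leaf (.x 3 2201)))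
(.leaf (.s [(1, 2257)] [(2, 2256)])))
(.node 2 4 (.node 2 3 (.leaf (.x 3 2138))
(.leaf (.x 1 17496)))
(.leaf (.i 4 [(2, 1288)])))))
(.node 2 3 (.node 3 4 (.node 1 4 (.leaf (.s [(2, 2257)] [(1, 2184)]))
(.node 2 4 (.leaf (.x 3 794))
(.leaf (.s [(1, 2179)] [(2, 1288)]))))
(.node 2 4 (.leaf (.s [(1, 2250)] [(2, 2248)]))
(.node 1 4 (.leaf (.x 1 17048))
(.leaf (.i 4 [(2, 2248)])))))
(.node 1 4 (.node 2 4 (.leaf (.s [(0, 273)] [(2, 1224)]))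
(.node 3 4 (.leaf (.x 1 8984))
(.leaf (.s [] [(4, 12554)]))))
(.node 2 4 (.node 3 4 (.leaf (.x 1 5400))
(.leaf (.s [] [(4, 12561)])))
(.leaf (.s [] [(4, 8984)]))))))
(.node 1 4 (.node 2 3 (.node 1 3 (.node 2 4 (.leaf (.s [(2, 2201)] [(0, 136)]))
(.leaf (.s [(1, 1091)] [(2, 2184)])))
(.node 2 4 (.node 3 4 (.leaf (.x 3 4259))
(.leaf (.x 1 6296)))
(.node 3 4 (.leaf (.s [(1, 2179)] [(2, 2184)]))
(.leaf (.s [] [(4, 17048)])))))
(.node 2 4 (.node 1 3 (.node 3 4 (.leaf (.x 3 8291))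
(.leaf (.x 1 10328)))
(.node 3 4 (.leaf (.s [(1, 1676)] [(2, 1224)]))
(.leaf (.s [] [(4, 12449)]))))
(.leaf (.i 2 [(2, 2184)]))))
(.node 1 3 (.node 2 3 (.leaf (.s [(1, 1091)] [(2, 2128)]))
(.node 3 4 (.leaf (.s [(1, 2115)] [(2, 2128)]))
(.leaf (.s [] [(4, 17496)]))))
(.leaf (.i 1 [(2, 2128)]))))))
(.node 1 2 (.node 1 3 (.node 2 4 (.node 3 4 (.leaf (.s [(2, 1809)] [(1, 1672)]))
(.node 2 3 (.node 1 4 (.leaf (.s [(2, 2201)] [(1, 1672)]))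
(.leaf (.s [(0, 209)] [(2, 1800)])))
(.node 0 4 (.node 1 4 (.leaf (.x 3 1697))
(.leaf (.x 1 12960)))
(.leaf (.i 0 [(2, 2256)])))))
(.node 1 4 (.node 3 4 (.node 2 3 (.leaf (.s [(2, 2257)] [(1, 1672)]))
(.node 0 4 (.leaf (.x 3 1249))
(.leaf (.s [(0, 281)] [(2, 2200)]))))
(.leaf (.s [(1, 2257)] [(2, 1808)])))
(.node 0 4 (.node 2 3 (.leaf (.s [(0, 209)] [(2, 1288)]))
(.node 3 4 (.leaf (.x 1 8928))
(.leaf (.s [] [(4, 16586)]))))
(.leaf (.i 0 [(2, 1288)])))))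
(.node 2 3 (.node 1 4 (.node 3 4 (.leaf (.s [(2, 2257)] [(0, 200)]))
(.node 0 4 (.node 2 4 (.leaf (.x 3 1634))
(.leaf (.x 1 13408)))
(.leaf (.i 0 [(2, 2248)]))))
(.node 0 4 (.node 2 4 (.node 3 4 (.leaf (.x 3 738))
(.leaf (.s [(1, 2250)] [(2, 1800)])))
(.node 3 4 (.leaf (.x 1 5344))
(.leaf (.s [] [(4, 16593)]))))
(.leaf (.i 0 [(2, 2136)]))))
(.node 0 4 (.node 3 4 (.node 1 4 (.leaf (.s [(1, 1604)] [(2, 1224)]))
(.node 2 4 (.leaf (.s [(1, 1668)] [(2, 1224)]))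
(.leaf (.s [] [(4, 8928)]))))
(.leaf (.i 3 [(2, 1224)])))
(.leaf (.i 0 [(2, 1224)])))))
(.node 1 3 (.node 2 3 (.node 1 4 (.node 2 4 (.leaf (.s [(2, 2201)] [(0, 136)]))
(.node 0 4 (.node 3 4 (.leaf (.x 3 1123))
(.leaf (.x 1 9824)))
(.leaf (.i 0 [(2, 2184)]))))
(.node 0 4 (.node 2 4 (.node 3 4 (.leaf (.x 3 675))
(.leaf (.x 1 5792)))
(.node 3 4 (.leaf (.s [(1, 2187)] [(2, 1288)]))
(.leaf (.s [] [(4, 16537)]))))
(.leaf (.i 0 [(2, 2128)]))))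
(.node 0 4 (.node 2 4 (.node 1 4 (.leaf (.s [(1, 1092)] [(2, 1672)]))
(.node 3 4 (.leaf (.s [(1, 1668)] [(2, 1672)]))
(.leaf (.s [] [(4, 12960)]))))
(.leaf (.i 2 [(2, 1672)])))
(.leaf (.i 0 [(2, 1672)]))))
(.node 0 4 (.node 1 4 (.node 2 4 (.leaf (.s [(1, 1092)] [(2, 1616)]))
(.node 3 4 (.leaf (.s [(1, 1604)] [(2, 1616)]))
(.leaf (.s [] [(4, 13408)]))))
(.leaf (.i 1 [(2, 1616)])))
(.leaf (.i 0 [(2, 1616)]))))))))

lemma tree3_check : tree3.check 3 (chk5 3) 0 0 = true := by decide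
lemma tree4_check : tree4.check 4 (chk5 4) 0 0 = true := by decide
lemma tree5_check : tree5.check 5 (chk5 5) 0 0 = true := by decide

lemma iso_of_exc {n X : ℕ} {G H : SimpleGraph (Fin (n + 1))} (h : Exc n X G)
    (hH : ∀ i j, H.Adj i j ↔ (i ≠ j ∧ xAdj X i.val j.val = true)) : Nonempty (G ≃g H) := by
  obtain ⟨_, σ, hσ⟩ := h
  refine ⟨⟨σ.symm, ?_⟩⟩
  intro a b
  rw [hH, ← hσ, Equiv.apply_symm_apply, Equiv.apply_symm_apply]

/-- The frozen statement for at most five vertices. -/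
theorem small5 : ∀ (n : ℕ), n ≤ 5 → ∀ (G : SimpleGraph (Fin n)),
      IsEmpty (G ≃g SimpleGraph.pathGraph 4) →
      IsEmpty (G ≃g SimpleGraph.pathGraph 5) →
      IsEmpty (G ≃g (SimpleGraph.pathGraph 5)ᶜ) →
      IsEmpty (G ≃g SimpleGraph.fromEdgeSet
        ({s((0 : Fin 5), 1), s((1 : Fin 5), 2), s((0 : Fin 5), 2),
          s((0 : Fin 5), 3), s((1 : Fin 5), 4)} : Set (Sym2 (Fin 5)))) →
      ∃ A B : Matrix (Fin n) (Fin n) ℝ,
        A.IsSymm ∧ B.IsSymm ∧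
        (∀ i j : Fin n, i ≠ j → (A i j ≠ 0 ↔ G.Adj i j)) ∧
        (∀ i j : Fin n, i ≠ j → (B i j ≠ 0 ↔ Gᶜ.Adj i j)) ∧
        (spectrum ℝ A).ncard + (spectrum ℝ B).ncard ≤ n + 2 := by
  intro n hn G h1 h2 h3 h4
  suffices h : NG G by
    obtain ⟨A, B, hA, hB, hA', hB', hc⟩ := h
    rw [Fintype.card_fin] at hc
    exact ⟨A, B, hA, hB, hA', hB', hc⟩
  have hsmall : n ≤ 2 → NG G := by
    intro hn2
    apply NG.of_tot
    refine ⟨Fintype.card (Fin n), Fintype.card (Fin n), ?_, QS.card _ _, QS.card _ _⟩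
    rw [Fintype.card_fin]; omega
  interval_cases n
  · exact hsmall (by omega)
  · exact hsmall (by omega)
  · exact hsmall (by omega)
  · rcases tree5_sound (n := 2) (by omega) (by omega) tree3 tree3_check G with h | ⟨X, hX, hx⟩
    · exact h
    · have := hx.1
      split_ifs at this <;> omega
  · rcases tree5_sound (n := 3) (by omega) (by omega) tree4 tree4_check G with h | ⟨X, hX, hx⟩
    · exact h
    · have hX0 : X = 0 := by
        have := hx.1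
        by_contra h'
        rw [if_neg h'] at this
        omega
      subst hX0
      refine absurd (iso_of_exc hx ?_) (not_nonempty_iff.2 h1)
      intro i j
      rw [SimpleGraph.pathGraph_adj]
      revert i j; decide
  · rcases tree5_sound (n := 4) (by omega) (by omega) tree5 tree5_check G with h | ⟨X, hX, hx⟩
    · exact h
    · have hX0 : X ≠ 0 := by
        intro h'
        have := hx.1
        rw [if_pos h'] at this
        omega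
      interval_cases X
      · exact absurd rfl hX0
      · refine absurd (iso_of_exc hx ?_) (not_nonempty_iff.2 h2)
        intro i j
        rw [SimpleGraph.pathGraph_adj]
        revert i j; decide
      · refine absurd (iso_of_exc hx ?_) (not_nonempty_iff.2 h3)
        intro i j
        rw [SimpleGraph.compl_adj, SimpleGraph.pathGraph_adj]
        revert i j; decide
      · refine absurd (iso_of_exc hx ?_) (not_nonempty_iff.2 h4)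
        intro i j
        rw [SimpleGraph.fromEdgeSet_adj]
        simp only [Set.mem_insert_iff, Set.mem_singleton_iff]
        revert i j; decide

end Pool.Agent.helper46
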